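import Pool.Agent.MP_f9a021_co.Kneser

/-! Critical pairs through 2-atoms, and iterated sumsets that fill the group. -/

open Finset Pointwise

namespace Pool.Agent.MP_f9a021_co

universe u

variable {G : Type*} [AddCommGroup G] [Fintype G] [DecidableEq G]

/-- `S` has at least `|L|` holes modulo every nontrivial proper subgroup `L` of `K`. -/
def NN (S : Finset G) (K : AddSubgroup G) : Prop :=
  ∀ L ≤ K, L ≠ K → L ≠ ⊥ → S.card + (fs L).card ≤ (S + fs L).card

/-- Distinct translates meet in at most one point. -/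
def Sidon (A : Finset G) : Prop := ∀ g : G, g ≠ 0 → (A ∩ (g +ᵥ A)).card ≤ 1

/-- `X` has a small sumset with `S`. -/
def Frag (S X : Finset G) : Prop :=
  2 ≤ X.card ∧ (X + S).card + 2 ≤ Fintype.card G ∧ (X + S).card + 1 ≤ X.card + S.card

lemma growth {S Y : Finset G} {K : AddSubgroup G} (hN : NN S K) (hS : ∀ s ∈ S, s ∈ K)
    (hSne : S.Nonempty) (hY : Y.Nonempty) {z : G} (hYz : Y ⊆ cos K z) :
    K ≤ stab (Y + S) ∨ Y.card + S.card ≤ (Y + S).card ∨
      (stab (Y + S) = ⊥ ∧ Y.card + S.card ≤ (Y + S).card + 1) := by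
  have hcos : ∀ d ∈ Y + S, d - z ∈ K := by
    intro d hd
    obtain ⟨y, hy, s, hs, rfl⟩ := Finset.mem_add.1 hd
    rw [add_sub_right_comm]
    exact K.add_mem (mem_cos.1 (hYz hy)) (hS s hs)
  obtain ⟨d, hd⟩ := hY.add hSne
  have hle : stab (Y + S) ≤ K := by
    intro g hg
    have := K.sub_mem (hcos _ (hg d hd)) (hcos d hd)
    rwa [show g + d - z - (d - z) = g by abel] at this
  have hk := kneser Y S hY hSne
  unfold Kn at hk
  have h1 := card_le_add_fs Y (stab (Y + S))
  have h2 := card_le_add_fs S (stab (Y + S))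
  by_cases e1 : stab (Y + S) = K
  · exact Or.inl e1.ge
  by_cases e2 : stab (Y + S) = ⊥
  · refine Or.inr (Or.inr ⟨e2, ?_⟩)
    rw [e2] at hk h1 h2
    rw [fs_bot] at hk
    omega
  · have := hN _ hle e1 e2
    exact Or.inr (Or.inl (by omega))

lemma growth_top {S Y : Finset G} (hN : NN S ⊤) (hSne : S.Nonempty) (hY : Y.Nonempty)
    (h : (Y + S).card < Fintype.card G) :
    Y.card + S.card ≤ (Y + S).card ∨ (stab (Y + S) = ⊥ ∧ Y.card + S.card ≤ (Y + S).card + 1) := by
  rcases growth hN (fun _ _ => trivial) hSne hY (z := 0) (fun _ _ => by simp) with h1 | h1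
  · rw [eq_univ_of_stab (hY.add hSne) (top_le_iff.1 h1), Finset.card_univ] at h
    exact absurd h (lt_irrefl _)
  · exact h1

omit [Fintype G] in
lemma vadd_add_eq (g : G) (X S : Finset G) : (g +ᵥ X) + S = g +ᵥ (X + S) := by
  ext z
  simp only [Finset.mem_add, Finset.mem_vadd_finset, vadd_eq_add]
  constructor
  · rintro ⟨_, ⟨x, hx, rfl⟩, y, hy, rfl⟩
    exact ⟨_, ⟨x, hx, y, hy, rfl⟩, by abel⟩
  · rintro ⟨_, ⟨x, hx, y, hy, rfl⟩, rfl⟩
    exact ⟨_, ⟨x, hx, rfl⟩, y, hy, by abel⟩

lemma Frag.vadd {S X : Finset G} (h : Frag S X) (g : G) : Frag S (g +ᵥ X) := by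
  unfold Frag at *
  rwa [vadd_add_eq, Finset.card_vadd_finset, Finset.card_vadd_finset]

lemma exists_atom {S X : Finset G} (hN : NN S ⊤) (hSne : S.Nonempty) (hX : Frag S X) :
    ∃ A, Frag S A ∧ Sidon A ∧ (0 : G) ∈ A ∧ stab (A + S) = ⊥ := by
  classical
  have hex : ∃ n, ∃ A, Frag S A ∧ A.card = n := ⟨_, X, hX, rfl⟩
  obtain ⟨A₀, hA₀, hn⟩ := Nat.find_spec hex
  obtain ⟨a, ha⟩ : A₀.Nonempty := Finset.card_pos.1 (by have := hA₀.1; omega)
  set A := (-a) +ᵥ A₀ with hAdef
  have hA : Frag S A := hA₀.vadd _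
  have h0 : (0 : G) ∈ A := Finset.mem_vadd_finset.2 ⟨a, ha, by simp⟩
  have hmin : ∀ Y, Frag S Y → A.card ≤ Y.card := by
    intro Y hY
    rw [hAdef, Finset.card_vadd_finset, hn]
    exact Nat.find_min' hex ⟨Y, hY, rfl⟩
  obtain ⟨h1, h2, h3⟩ := hA
  have hlow : ∀ Y : Finset G, Y.Nonempty → (Y + S).card < Fintype.card G →
      Y.card + S.card ≤ (Y + S).card + 1 := by
    intro Y hY h
    rcases growth_top hN hSne hY h with h4 | h4 <;> omega
  have hst : stab (A + S) = ⊥ := by
    rcases growth_top hN hSne ⟨0, h0⟩ (by omega) with h4 | h4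
    · omega
    · exact h4.1
  have heq := hlow A ⟨0, h0⟩ (by omega)
  have hdual : A.card + (A + S).card ≤ Fintype.card G := by
    have e1 : (-(A + S)ᶜ).card = Fintype.card G - (A + S).card := by
      rw [Finset.card_neg, Finset.card_compl]
    have e2 : (-(A + S)ᶜ + S).card ≤ Fintype.card G - A.card := by
      rw [← Finset.card_neg A, ← Finset.card_compl]
      apply Finset.card_le_card
      intro w hw
      obtain ⟨y, hy, s, hs, rfl⟩ := Finset.mem_add.1 hw
      rw [Finset.mem_neg', Finset.mem_compl] at hy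
      rw [Finset.mem_compl, Finset.mem_neg']
      intro h5
      apply hy
      have := Finset.add_mem_add h5 hs
      rwa [show -(y + s) + s = -y by abel] at this
    have e3 : A.card ≤ (A + S).card := Finset.card_le_card_add_right hSne
    have := hmin (-(A + S)ᶜ) ⟨by omega, by omega, by omega⟩
    omega
  refine ⟨A, ⟨h1, h2, h3⟩, fun g hg => ?_, h0, hst⟩
  by_contra hcon
  set Y := g +ᵥ A with hY
  have hYc : Y.card = A.card := Finset.card_vadd_finset _ _
  have hYS : (Y + S).card = (A + S).card := by rw [hY, vadd_add_eq, Finset.card_vadd_finset]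
  have hI : (A ∩ Y).Nonempty := Finset.card_pos.1 (by omega)
  have s1 : ((A ∩ Y) + S).card ≤ ((A + S) ∩ (Y + S)).card :=
    Finset.card_le_card Finset.inter_add_subset
  have s2 : (A ∪ Y) + S = (A + S) ∪ (Y + S) := Finset.union_add
  have s3 := Finset.card_union_add_card_inter (A + S) (Y + S)
  have s4 := Finset.card_union_add_card_inter A Y
  have s5 : ((A + S) ∩ (Y + S)).card ≤ (A + S).card := Finset.card_le_card Finset.inter_subset_left
  have s6 := hlow _ hI (by omega)
  rw [← s2] at s3
  have s7 := hlow (A ∪ Y) ⟨0, Finset.mem_union_left _ h0⟩ (by omega)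
  have s8 := hmin (A ∩ Y) ⟨by omega, by omega, by omega⟩
  have s9 : A ∩ Y = A := Finset.eq_of_subset_of_card_le Finset.inter_subset_left s8
  have s10 : A = Y := Finset.eq_of_subset_of_card_le (s9 ▸ Finset.inter_subset_right) hYc.le
  have s11 : g ∈ stab A := fun x hx => by
    rw [s10]; exact Finset.mem_vadd_finset.2 ⟨x, hx, rfl⟩
  have := stab_le_add A S s11
  rw [hst] at this
  exact hg this

lemma sidon_NN {A : Finset G} (hA : Sidon A) (h0 : (0 : G) ∈ A) :
    NN A (AddSubgroup.closure (A : Set G)) := by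
  intro L hL hL1 hL2
  by_contra hcon
  obtain ⟨a, ha, haL⟩ : ∃ a ∈ A, a ∉ L := by
    by_contra h
    push Not at h
    exact hL1 (le_antisymm hL ((AddSubgroup.closure_le L).2 h))
  have h1 : 2 * (fs L).card ≤ (A + fs L).card := by
    have hd : Disjoint (cos L 0) (cos L a) := by
      rw [Finset.disjoint_left]
      intro w hw hw'
      apply haL
      have := L.sub_mem (mem_cos.1 hw) (mem_cos.1 hw')
      rwa [show w - 0 - (w - a) = a by abel] at this
    have := Finset.card_le_card (Finset.union_subset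
      (cos_subset (le_stab_add_fs A L) (subset_add_fs _ _ h0))
      (cos_subset (le_stab_add_fs A L) (subset_add_fs _ _ ha)))
    rw [Finset.card_union_of_disjoint hd, card_cos, card_cos] at this
    omega
  obtain ⟨l, hl, hl0⟩ : ∃ l ∈ L, l ≠ 0 := by
    by_contra h
    push Not at h
    exact hL2 ((AddSubgroup.eq_bot_iff_forall _).2 h)
  have h2 : A ∪ (l +ᵥ A) ⊆ A + fs L := by
    refine Finset.union_subset (subset_add_fs _ _) (fun w hw => ?_)
    obtain ⟨x, hx, rfl⟩ := Finset.mem_vadd_finset.1 hw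
    exact mem_add_fs.2 ⟨x, hx, by simpa using hl⟩
  have h3 := Finset.card_le_card h2
  have h4 := Finset.card_union_add_card_inter A (l +ᵥ A)
  have h5 := hA l hl0
  rw [Finset.card_vadd_finset] at h4
  omega

omit [Fintype G] in
lemma Sidon.inter {A : Finset G} (hA : Sidon A) {x y : G} (h : x ≠ y) :
    ((x +ᵥ A) ∩ (y +ᵥ A)).card ≤ 1 := by
  have := hA (y - x) (sub_ne_zero.2 h.symm)
  rw [← Finset.card_vadd_finset x, Finset.vadd_finset_inter, vadd_vadd] at this
  simpa using this

omit [Fintype G] in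
lemma sidon_sum {P Q : Finset G} (hP : Sidon P) (h2 : 2 ≤ Q.card) (h3 : 3 ≤ P.card)
    (hQP : Q.card ≤ P.card) : P.card + Q.card ≤ (P + Q).card := by
  have hsub : ∀ x ∈ Q, x +ᵥ P ⊆ P + Q := by
    intro x hx w hw
    obtain ⟨y, hy, rfl⟩ := Finset.mem_vadd_finset.1 hw
    rw [vadd_eq_add, add_comm x y]
    exact Finset.add_mem_add hy hx
  rcases h2.lt_or_eq with h | h
  · obtain ⟨x, hx, y, hy, z, hz, hxy, hxz, hyz⟩ := Finset.two_lt_card.1 h
    have e1 := Finset.card_union_add_card_inter (x +ᵥ P) (y +ᵥ P)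
    have e2 := Finset.card_union_add_card_inter ((x +ᵥ P) ∪ (y +ᵥ P)) (z +ᵥ P)
    have e3 := Finset.card_le_card
      (Finset.union_subset (Finset.union_subset (hsub x hx) (hsub y hy)) (hsub z hz))
    have e4 := hP.inter hxy
    have e5 := hP.inter hxz
    have e6 := hP.inter hyz
    have e7 := Finset.card_union_le ((x +ᵥ P) ∩ (z +ᵥ P)) ((y +ᵥ P) ∩ (z +ᵥ P))
    rw [← Finset.union_inter_distrib_right] at e7
    simp only [Finset.card_vadd_finset] at e1 e2
    omega
  · obtain ⟨x, hx, y, hy, hxy⟩ := Finset.one_lt_card.1 (show 1 < Q.card by omega)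
    have e1 := Finset.card_union_add_card_inter (x +ᵥ P) (y +ᵥ P)
    have e3 := Finset.card_le_card (Finset.union_subset (hsub x hx) (hsub y hy))
    have e4 := hP.inter hxy
    simp only [Finset.card_vadd_finset] at e1
    omega

lemma crit {B X : Finset G} (h0 : (0 : G) ∈ B) (hB2 : 2 ≤ B.card) (hX : Frag B X) :
    (∃ K : AddSubgroup G, K ≠ ⊥ ∧ K ≠ ⊤ ∧ (B + fs K).card + 1 ≤ B.card + (fs K).card) ∨
      ∃ c : G, AddSubgroup.zmultiples c = ⊤ := by
  by_contra hcon
  push Not at hcon
  obtain ⟨hc1, hc2⟩ := hcon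
  have hN : NN B ⊤ := fun L _ h1 h2 => by have := hc1 L h2 h1; omega
  obtain ⟨A, ⟨hA1, hA2, hA3⟩, hS, hA0, hst⟩ := exists_atom hN ⟨0, h0⟩ hX
  set K := AddSubgroup.closure (A : Set G) with hK
  have hNA : NN A K := sidon_NN hS hA0
  have hAK : ∀ a ∈ A, a ∈ K := fun a ha => AddSubgroup.subset_closure ha
  obtain ⟨c, hc, hc0⟩ : ∃ c ∈ A, c ≠ 0 := by
    obtain ⟨x, hx, y, hy, hxy⟩ := Finset.one_lt_card.1 (show 1 < A.card by omega)
    by_cases h : x = 0
    · exact ⟨y, hy, fun h' => hxy (h.trans h'.symm)⟩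
    · exact ⟨x, hx, h⟩
  have hKbot : K ≠ ⊥ := fun h => hc0 (by have := hAK c hc; rwa [h] at this)
  by_cases hKtop : K = ⊤
  · rcases hA1.lt_or_eq with h | h
    · rw [hKtop] at hNA
      obtain ⟨A', ⟨h1, _, h3⟩, hS', -, -⟩ := exists_atom (X := B) hNA ⟨0, hA0⟩
        ⟨hB2, by rwa [add_comm B], by rw [add_comm B]; omega⟩
      rcases le_total A'.card A.card with h4 | h4
      · have := sidon_sum hS h1 h h4
        rw [add_comm A A'] at this
        omega
      · have := sidon_sum hS' hA1 (by omega) h4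
        omega
    · apply hc2 c
      rw [eq_top_iff, ← hKtop, hK, AddSubgroup.closure_le]
      have : A = {0, c} := by
        symm
        apply Finset.eq_of_subset_of_card_le
        · intro x hx
          simp only [Finset.mem_insert, Finset.mem_singleton] at hx
          rcases hx with rfl | rfl <;> assumption
        · rw [Finset.card_pair hc0.symm]; omega
      intro x hx
      rw [this] at hx
      simp only [Finset.coe_insert, Finset.coe_singleton, Set.mem_insert_iff,
        Set.mem_singleton_iff] at hx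
      rcases hx with rfl | rfl
      · exact zero_mem _
      · exact AddSubgroup.mem_zmultiples _
  obtain ⟨b₀, hb₀, hb₀'⟩ : ∃ b₀ ∈ B, ¬ K ≤ stab (B ∩ cos K b₀ + A) := by
    by_contra h
    push Not at h
    apply hKbot
    rw [eq_bot_iff, ← hst]
    intro g hg z hz
    obtain ⟨a, ha, b, hb, rfl⟩ := Finset.mem_add.1 hz
    have h1 := h b hb hg (b + a) (Finset.add_mem_add (by simp [hb]) ha)
    rw [add_comm A B, add_comm a b]
    exact Finset.add_subset_add_right Finset.inter_subset_left h1
  have hB₀ : (B ∩ cos K b₀).Nonempty := ⟨b₀, by simp [hb₀]⟩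
  have g1 : (B ∩ cos K b₀).card + A.card ≤ (B ∩ cos K b₀ + A).card + 1 := by
    rcases growth hNA hAK ⟨0, hA0⟩ hB₀ (z := b₀) Finset.inter_subset_right with h | h | h
    · exact absurd h hb₀'
    · omega
    · exact h.2
  have g2 : (B ∩ cos K b₀ + A).card + (B \ cos K b₀ + A).card ≤ (A + B).card := by
    rw [← Finset.card_union_of_disjoint, add_comm A B]
    · exact Finset.card_le_card (Finset.union_subset
        (Finset.add_subset_add_right Finset.inter_subset_left)
        (Finset.add_subset_add_right Finset.sdiff_subset))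
    · rw [Finset.disjoint_left]
      intro w hw hw'
      obtain ⟨x, hx, a, ha, rfl⟩ := Finset.mem_add.1 hw
      obtain ⟨y, hy, a', ha', h⟩ := Finset.mem_add.1 hw'
      apply (Finset.mem_sdiff.1 hy).2
      rw [mem_cos, show y = x + a - a' by rw [← h]; abel,
        show x + a - a' - b₀ = (x - b₀) + (a - a') by abel]
      exact K.add_mem (mem_cos.1 (Finset.mem_inter.1 hx).2) (K.sub_mem (hAK a ha) (hAK a' ha'))
  have g3 := Finset.card_inter_add_card_sdiff B (cos K b₀)
  have g4 : B \ cos K b₀ = B \ cos K b₀ + A := by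
    apply Finset.eq_of_subset_of_card_le
    · intro x hx
      simpa using Finset.add_mem_add hx hA0
    · omega
  have g5 : K ≤ stab (B \ cos K b₀) := by
    rw [hK, AddSubgroup.closure_le]
    intro a ha x hx
    rw [g4, add_comm a x]
    exact Finset.add_mem_add hx ha
  have g6 : B + fs K ⊆ (B \ cos K b₀) ∪ cos K b₀ := by
    intro w hw
    obtain ⟨x, hx, h⟩ := mem_add_fs.1 hw
    by_cases h1 : x ∈ cos K b₀
    · refine Finset.mem_union_right _ (mem_cos.2 ?_)
      have := K.add_mem h (mem_cos.1 h1)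
      rwa [show w - x + (x - b₀) = w - b₀ by abel] at this
    · exact Finset.mem_union_left _ (mem_of_sub_mem g5 (Finset.mem_sdiff.2 ⟨hx, h1⟩) h)
  have g7 := (Finset.card_le_card g6).trans (Finset.card_union_le _ _)
  rw [card_cos] at g7
  have g8 := hc1 K hKbot hKtop
  have g9 := hB₀.card_pos
  omega

lemma pair_full {B : Finset G} {K : AddSubgroup G}
    (hK : (B + fs K).card + 1 ≤ B.card + (fs K).card) {b b' : G} (hb : b ∈ B) (hb' : b' ∈ B)
    (hbb : b - b' ∉ K) {w : G} (hw : w - (b + b') ∈ K) : w ∈ B + B := by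
  by_contra hcon
  have h1 : B.card + (cos K b \ B).card + (cos K b' \ B).card ≤ (B + fs K).card := by
    rw [← Finset.card_union_of_disjoint Finset.disjoint_sdiff, ← Finset.card_union_of_disjoint]
    · apply Finset.card_le_card
      refine Finset.union_subset (Finset.union_subset (subset_add_fs _ _) ?_) ?_
      · exact Finset.sdiff_subset.trans (cos_subset (le_stab_add_fs _ _) (subset_add_fs _ _ hb))
      · exact Finset.sdiff_subset.trans (cos_subset (le_stab_add_fs _ _) (subset_add_fs _ _ hb'))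
    · rw [Finset.disjoint_left]
      intro z hz hz'
      simp only [Finset.mem_union, Finset.mem_sdiff, mem_cos] at hz hz'
      rcases hz with h1 | h1
      · exact hz'.2 h1
      · apply hbb
        have := K.sub_mem hz'.1 h1.1
        rwa [show z - b' - (z - b) = b - b' by abel] at this
  have h2 : (cos K b ∩ B).card ≤ (cos K b' \ B).card := by
    refine Finset.card_le_card_of_injOn (fun x => w - x) (fun x hx => ?_)
      (fun x _ y _ h => by simpa using h)
    simp only [Finset.coe_inter, Set.mem_inter_iff, Finset.mem_coe, mem_cos, Finset.coe_sdiff,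
      Set.mem_sdiff] at hx ⊢
    refine ⟨?_, fun h => hcon ?_⟩
    · have := K.sub_mem hw hx.1
      rwa [show w - (b + b') - (x - b) = w - x - b' by abel] at this
    · simpa using Finset.add_mem_add hx.2 h
  have h3 := Finset.card_inter_add_card_sdiff (cos K b) B
  rw [card_cos] at h3
  omega

lemma periodic_of_holes {B : Finset G} (h0 : (0 : G) ∈ B)
    (hgen : AddSubgroup.closure (B : Set G) = ⊤) {K : AddSubgroup G} (hKtop : K ≠ ⊤)
    (hK : (B + fs K).card + 1 ≤ B.card + (fs K).card) {k : ℕ} (hk : ∀ x : G, addOrderOf x ≤ k) :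
    K ≤ stab ((k + 1) • B) := by
  have hfull : ∀ (j : ℕ) (y : G), y ∈ j • B → ∀ b ∈ B, ∀ b' ∈ B, b - b' ∉ K →
      ∀ w, w - (y + (b + b')) ∈ K → w ∈ (j + 2) • B := by
    intro j y hy b hb b' hb' hbb w hw
    have h1 := pair_full hK hb hb' hbb (w := w - y)
      (by rwa [show w - y - (b + b') = w - (y + (b + b')) by abel])
    have := Finset.add_mem_add hy h1
    rwa [add_sub_cancel, ← two_nsmul, ← add_nsmul] at this
  have hclaim : ∀ j : ℕ, ∀ x ∈ (j + 1) • B, (∀ w, w - x ∈ K → w ∈ (j + 1) • B) ∨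
      ∃ b ∈ B, x - (j + 1) • b ∈ K := by
    intro j
    induction j with
    | zero => intro x hx; exact Or.inr ⟨x, by simpa using hx, by simp⟩
    | succ j ih =>
      intro x hx
      rw [succ_nsmul] at hx
      obtain ⟨y, hy, b, hb, rfl⟩ := Finset.mem_add.1 hx
      rcases ih y hy with h | ⟨b₁, hb₁, h⟩
      · left
        intro w hw
        have := Finset.add_mem_add
          (h (w - b) (by rwa [show w - b - y = w - (y + b) by abel])) hb
        rwa [sub_add_cancel, ← succ_nsmul] at this
      · by_cases h1 : b₁ - b ∈ K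
        · right
          refine ⟨b₁, hb₁, ?_⟩
          have := K.sub_mem h h1
          rwa [show y - (j + 1) • b₁ - (b₁ - b) = y + b - (j + 1 + 1) • b₁ by
            rw [succ_nsmul b₁ (j + 1)]; abel] at this
        · left
          intro w hw
          refine hfull j (j • b₁) (Finset.nsmul_mem_nsmul hb₁) b₁ hb₁ b hb h1 w ?_
          have := K.add_mem hw h
          rwa [show w - (y + b) + (y - (j + 1) • b₁) = w - (j • b₁ + (b₁ + b)) by
            rw [succ_nsmul b₁ j]; abel] at this
  intro g hg x hx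
  rcases hclaim k x hx with h | ⟨b, hb, h⟩
  · exact h _ (by simpa using hg)
  obtain ⟨b', hb', hbb⟩ : ∃ b' ∈ B, b - b' ∉ K := by
    by_contra h1
    push Not at h1
    apply hKtop
    rw [eq_top_iff, ← hgen, AddSubgroup.closure_le]
    intro z hz
    have := K.sub_mem (h1 0 h0) (h1 z hz)
    rwa [show b - 0 - (b - z) = z by abel] at this
  obtain ⟨q, hq⟩ : ∃ q, addOrderOf (b - b') = q + 1 :=
    ⟨addOrderOf (b - b') - 1, by have := addOrderOf_pos (b - b'); omega⟩
  obtain ⟨r, hr⟩ : ∃ r, k = r + (q + 1) := ⟨k - (q + 1), by have := hk (b - b'); omega⟩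
  have h2 : (q + 1) • (b - b') = 0 := by rw [← hq]; exact addOrderOf_nsmul_eq_zero _
  have h3 : r • b + q • b' ∈ (r + q) • B := by
    rw [add_nsmul]
    exact Finset.add_mem_add (Finset.nsmul_mem_nsmul hb) (Finset.nsmul_mem_nsmul hb')
  have h4 := hfull _ _ h3 b hb b' hb' hbb (g + x) (by
    have := K.add_mem hg h
    rwa [show g + (x - (k + 1) • b) = g + x - (r • b + q • b' + (b + b')) - (q + 1) • (b - b') by
      rw [hr]; simp only [add_nsmul, one_nsmul, nsmul_sub]; abel, h2, sub_zero] at this)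
  rwa [show r + q + 2 = k + 1 by omega] at h4

theorem nsmul_eq_univ (n : ℕ) : ∀ (H : Type u) [AddCommGroup H] [Fintype H] [DecidableEq H],
    Fintype.card H = n → ∀ (B : Finset H) (k : ℕ), (0 : H) ∈ B →
      AddSubgroup.closure (B : Set H) = ⊤ → (∀ x : H, addOrderOf x ≤ k) →
      Fintype.card H < (k + 1) * B.card → (k + 1) • B = univ := by
  induction n using Nat.strong_induction_on with
  | _ n ih =>
  intro H _ _ _ hn B k h0 hgen hk hcard
  classical
  set L := stab ((k + 1) • B) with hL
  by_cases hLb : L = ⊥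
  swap
  · have hc := AddSubgroup.card_eq_card_quotient_mul_card_addSubgroup L
    rw [← card_fs, Nat.card_eq_fintype_card, Nat.card_eq_fintype_card] at hc
    have h1 : 1 < (fs L).card := by
      have := fs_lt (bot_le : ⊥ ≤ L) (fun h => hLb (le_bot_iff.1 h))
      rwa [fs_bot] at this
    have hq : 0 < Fintype.card (H ⧸ L) := Fintype.card_pos
    have h2 : B.card ≤ (fs L).card * (B.image (QuotientAddGroup.mk' L)).card := by
      apply Finset.card_le_mul_card_image
      intro a ha
      obtain ⟨b, -, rfl⟩ := Finset.mem_image.1 ha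
      rw [← card_cos L b]
      apply Finset.card_le_card
      intro x hx
      have := (Finset.mem_filter.1 hx).2
      rw [mem_cos, ← QuotientAddGroup.eq_zero_iff]
      simpa [sub_eq_zero] using this
    have h3 := ih (Fintype.card (H ⧸ L)) (by nlinarith) (H ⧸ L) rfl
      (B.image (QuotientAddGroup.mk' L)) k (Finset.mem_image.2 ⟨0, h0, map_zero _⟩)
      (by
        rw [Finset.coe_image, ← AddMonoidHom.map_closure, hgen]
        exact AddSubgroup.map_top_of_surjective _ (QuotientAddGroup.mk'_surjective L))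
      (fun x => by
        obtain ⟨y, rfl⟩ := QuotientAddGroup.mk'_surjective L x
        exact (Nat.le_of_dvd (addOrderOf_pos y) (addOrderOf_map_dvd _ y)).trans (hk y))
      (by
        by_contra h4
        push Not at h4
        have h5 := Nat.mul_le_mul_right (fs L).card h4
        have h6 := Nat.mul_le_mul_left (k + 1) h2
        nlinarith)
    rw [← Finset.image_nsmul] at h3
    rw [Finset.eq_univ_iff_forall] at h3 ⊢
    intro x
    obtain ⟨y, hy, hyx⟩ := Finset.mem_image.1 (h3 (QuotientAddGroup.mk' L x))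
    refine mem_of_sub_mem le_rfl hy ?_
    rw [← hL, ← QuotientAddGroup.eq_zero_iff]
    simpa [sub_eq_zero] using hyx.symm
  by_contra hcon
  have hlt : ((k + 1) • B).card < Fintype.card H :=
    Finset.card_lt_univ_of_notMem (Classical.choose_spec
      (not_forall.1 (fun h => hcon (Finset.eq_univ_iff_forall.2 h))))
  have hB2 : 2 ≤ B.card := by
    by_contra h
    have h1 : B = {0} := Finset.eq_singleton_iff_unique_mem.2
      ⟨h0, fun x hx => Finset.card_le_one.1 (by omega) x hx 0 h0⟩
    rw [h1, Finset.coe_singleton, AddSubgroup.closure_singleton_zero] at hgen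
    have h2 := fs_top (G := H)
    rw [← hgen, fs_bot] at h2
    have := (Finset.Nonempty.nsmul (n := k + 1) ⟨0, h0⟩).card_pos
    omega
  have hstep : ∀ j ≤ k, 1 ≤ j → (j • B).card + B.card ≤ ((j + 1) • B).card + 1 := by
    intro j hj _
    have h1 := kneser (j • B) B (Finset.Nonempty.nsmul ⟨0, h0⟩) ⟨0, h0⟩
    have h2 : stab (j • B + B) = ⊥ := by
      rw [eq_bot_iff, ← hLb, hL, show k + 1 = j + 1 + (k - j) by omega, add_nsmul _ (j + 1),
        succ_nsmul]
      exact stab_le_add _ _
    unfold Kn at h1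
    rw [h2, fs_bot, ← succ_nsmul] at h1
    have := card_le_add_fs (j • B) ⊥
    have := card_le_add_fs B ⊥
    omega
  have hk1 : 1 ≤ k := le_trans (addOrderOf_pos (0 : H)) (hk 0)
  obtain ⟨j, hj1, hj2, hj3⟩ : ∃ j, 1 ≤ j ∧ j + 1 ≤ k ∧
      ((j + 1) • B).card + 1 ≤ (j • B).card + B.card := by
    by_contra h
    push Not at h
    have h1 : ∀ j, j + 1 ≤ k → (j + 1) * B.card ≤ ((j + 1) • B).card := by
      intro j
      induction j with
      | zero => intro _; simp
      | succ j ihj =>
        intro hj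
        have := ihj (by omega)
        have := h (j + 1) (by omega) hj
        nlinarith
    have h2 := h1 (k - 1) (by omega)
    rw [show k - 1 + 1 = k by omega] at h2
    have h3 := hstep k le_rfl hk1
    nlinarith
  have hmono : ∀ i j : ℕ, i ≤ j → (i • B).card ≤ (j • B).card := fun i j h =>
    Finset.card_le_card (Finset.nsmul_subset_nsmul_right h0 h)
  have hfrag : Frag B (j • B) := by
    have e1 := hmono 1 j hj1
    have e2 := hmono (j + 1 + 1) (k + 1) (by omega)
    have e3 := hstep (j + 1) hj2 (by omega)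
    rw [one_nsmul] at e1
    refine ⟨by omega, ?_, ?_⟩ <;> rw [← succ_nsmul] <;> omega
  rcases crit h0 hB2 hfrag with ⟨K, h1, h2, h3⟩ | ⟨c, hc⟩
  · have := periodic_of_holes h0 hgen h2 h3 hk
    rw [← hL, hLb] at this
    exact h1 (le_bot_iff.1 this)
  · have h1 : Fintype.card H ≤ k := by
      have := hk c
      rwa [← Nat.card_zmultiples, hc, ← card_fs, fs_top] at this
    have h2 : ∀ j ≤ k, j + 2 ≤ ((j + 1) • B).card := by
      intro j
      induction j with
      | zero => intro _; simpa using hB2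
      | succ j ihj =>
        intro hj
        have := ihj (by omega)
        have := hstep (j + 1) hj (by omega)
        omega
    have := h2 k le_rfl
    omega

end Pool.Agent.MP_f9a021_co
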