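import Pool.Agent.Mg.Ff9a021.G4a7582

namespace Pool.Agent.MP_f9a021_co.BoundsOld

open Pool.Agent.MP_f9a021_co

theorem result (H : Type) [AddCommGroup H] [Fintype H] (m k : ℕ) (hm : 2 ≤ m)
    (hH : Fintype.card H = m * AddMonoid.exponent H) (hk : 1 < k)
    (hp : ∀ p : ℕ, p.Prime → p ∣ k → 30 * Fintype.card H ^ 5 < p) :
    AddMonoid.exponent (H × ZMod k) + (m - 1) ≤
        tauHat (H × ZMod k) (AddMonoid.exponent (H × ZMod k)) ∧
      tauHat (H × ZMod k) (AddMonoid.exponent (H × ZMod k)) ≤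
        AddMonoid.exponent (H × ZMod k) +
          if AddMonoid.exponent H ≤ m then m else max m (2 * m - 3) := by
  rw [exp_eq hm hH hp]
  refine ⟨lower_main hm hH hk hp, ?_⟩
  split_ifs with h
  · exact upper_main hm hH hk hp le_rfl (by omega) (Or.inl h)
  · exact upper_main hm hH hk hp (by omega) (by omega) (by omega)

end Pool.Agent.MP_f9a021_co.BoundsOld
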