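import Mathlib

namespace Pool.Agent.MP_f9a021_co

/-- No `h` pairwise distinct elements of `A` have sum `0`. -/
def WeaklyZeroSumFree {G : Type*} [AddCommMonoid G] (h : ℕ) (A : Finset G) : Prop :=
  ∀ B ⊆ A, B.card = h → ∑ x ∈ B, x ≠ 0

/-- The largest size of a weakly zero-`h`-sum-free subset of `G`. -/
noncomputable def tauHat (G : Type*) [AddCommMonoid G] (h : ℕ) : ℕ :=
  sSup {n : ℕ | ∃ A : Finset G, WeaklyZeroSumFree h A ∧ A.card = n}

end Pool.Agent.MP_f9a021_co
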