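import Pool.Agent.MP_f9a021_co.Defs

/-! Weighted planar lattice configurations: definitions and basic facts. -/

open Finset

set_option linter.unusedSectionVars false

namespace Pool.Agent.MP_f9a021_co.EX

variable {ι : Type*} [Fintype ι]

/-- Every sub-measure of `μ` of mass one gives `φ` a negative average. -/
def Light (μ φ : ι → ℝ) : Prop :=
  ∀ β : ι → ℝ, (∀ j, 0 ≤ β j) → (∀ j, β j ≤ μ j) → ∑ j, β j = 1 → ∑ j, β j * φ j < 0

/-- `φ` is light or nowhere positive. -/
def LS (μ φ : ι → ℝ) : Prop := Light μ φ ∨ ∀ j, φ j ≤ 0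

open Classical in
/-- The integral of `f` against `μ` over the indices satisfying `P`. -/
noncomputable def ig (μ : ι → ℝ) (P : ι → Prop) (f : ι → ℝ) : ℝ :=
  ∑ j, if P j then μ j * f j else 0

open Classical in
/-- The mass of the indices satisfying `P`. -/
noncomputable def ms (μ : ι → ℝ) (P : ι → Prop) : ℝ := ∑ j, if P j then μ j else 0

variable {μ : ι → ℝ}

lemma ms_nonneg (h0 : ∀ j, 0 ≤ μ j) (P : ι → Prop) : 0 ≤ ms μ P :=
  Finset.sum_nonneg fun j _ => by split_ifs <;> simp [h0 j]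

lemma ms_mono (h0 : ∀ j, 0 ≤ μ j) {P Q : ι → Prop} (h : ∀ j, P j → Q j) : ms μ P ≤ ms μ Q :=
  Finset.sum_le_sum fun j _ => by
    by_cases hp : P j
    · rw [if_pos hp, if_pos (h j hp)]
    · rw [if_neg hp]; split_ifs <;> simp [h0 j]

lemma ms_congr {P Q : ι → Prop} (h : ∀ j, P j ↔ Q j) : ms μ P = ms μ Q := by
  rw [show P = Q from funext fun j => propext (h j)]

lemma ms_true {P : ι → Prop} (h : ∀ j, P j) : ms μ P = ∑ j, μ j :=
  Finset.sum_congr rfl fun j _ => if_pos (h j)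

lemma ms_false {P : ι → Prop} (h : ∀ j, ¬ P j) : ms μ P = 0 :=
  Finset.sum_eq_zero fun j _ => if_neg (h j)

/-- Subadditivity. -/
lemma ms_le_add (h0 : ∀ j, 0 ≤ μ j) {P Q R : ι → Prop} (h : ∀ j, P j → Q j ∨ R j) :
    ms μ P ≤ ms μ Q + ms μ R := by
  unfold ms
  rw [← Finset.sum_add_distrib]
  refine Finset.sum_le_sum fun j _ => ?_
  have := h0 j
  have := h j
  split_ifs <;> first | linarith | tauto

/-- Superadditivity for disjoint parts. -/
lemma add_le_ms (h0 : ∀ j, 0 ≤ μ j) {P Q R : ι → Prop} (hd : ∀ j, Q j → ¬ R j)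
    (h1 : ∀ j, Q j → P j) (h2 : ∀ j, R j → P j) : ms μ Q + ms μ R ≤ ms μ P := by
  unfold ms
  rw [← Finset.sum_add_distrib]
  refine Finset.sum_le_sum fun j _ => ?_
  have := h0 j
  have := hd j
  have := h1 j
  have := h2 j
  split_ifs <;> first | linarith | tauto

lemma sum_le_add (h0 : ∀ j, 0 ≤ μ j) {Q R : ι → Prop} (h : ∀ j, Q j ∨ R j) :
    ∑ j, μ j ≤ ms μ Q + ms μ R := by
  rw [← ms_true (μ := μ) (P := fun _ => True) fun _ => trivial]
  exact ms_le_add h0 fun j _ => h j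

lemma exists_of_ms_pos {P : ι → Prop} (h : 0 < ms μ P) : ∃ j, P j := by
  by_contra hc
  push Not at hc
  rw [ms_false hc] at h
  exact lt_irrefl _ h

lemma ig_mono (h0 : ∀ j, 0 ≤ μ j) {P : ι → Prop} {f g : ι → ℝ} (h : ∀ j, P j → f j ≤ g j) :
    ig μ P f ≤ ig μ P g :=
  Finset.sum_le_sum fun j _ => by
    split_ifs with hp
    · exact mul_le_mul_of_nonneg_left (h j hp) (h0 j)
    · exact le_rfl

lemma ig_const (P : ι → Prop) (c : ℝ) : ig μ P (fun _ => c) = c * ms μ P := by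
  unfold ig ms
  rw [Finset.mul_sum]
  exact Finset.sum_congr rfl fun j _ => by split_ifs <;> ring

lemma ig_affine (P : ι → Prop) (f : ι → ℝ) (a c : ℝ) :
    ig μ P (fun j => a * f j + c) = a * ig μ P f + c * ms μ P := by
  unfold ig ms
  rw [Finset.mul_sum, Finset.mul_sum, ← Finset.sum_add_distrib]
  exact Finset.sum_congr rfl fun j _ => by split_ifs <;> ring

/-- Markov: `f ≥ 0` on `P` and `f ≥ c` on the part `Q` of `P`. -/
lemma mul_ms_le_ig (h0 : ∀ j, 0 ≤ μ j) {P Q : ι → Prop} {f : ι → ℝ} {c : ℝ}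
    (h1 : ∀ j, Q j → P j) (h2 : ∀ j, P j → 0 ≤ f j) (h3 : ∀ j, Q j → c ≤ f j) :
    c * ms μ Q ≤ ig μ P f := by
  unfold ig ms
  rw [Finset.mul_sum]
  refine Finset.sum_le_sum fun j _ => ?_
  by_cases hq : Q j
  · rw [if_pos hq, if_pos (h1 j hq), mul_comm]
    exact mul_le_mul_of_nonneg_left (h3 j hq) (h0 j)
  · rw [if_neg hq, mul_zero]
    split_ifs with hp
    · exact mul_nonneg (h0 j) (h2 j hp)
    · exact le_rfl

/-- All of `C` and a proportion `l` of `F`. -/
lemma Light.fill {φ : ι → ℝ} (h : Light μ φ) (h0 : ∀ j, 0 ≤ μ j) {C F : ι → Prop}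
    (hd : ∀ j, C j → ¬ F j) {k l : ℝ} (k0 : 0 ≤ k) (k1 : k ≤ 1) (l0 : 0 ≤ l) (l1 : l ≤ 1)
    (hs : k * ms μ C + l * ms μ F = 1) : k * ig μ C φ + l * ig μ F φ < 0 := by
  classical
  have := h (fun j => (if C j then k * μ j else 0) + if F j then l * μ j else 0)
    (fun j => by have := h0 j; split_ifs <;> positivity)
    (fun j => by
      have := h0 j
      have := hd j
      split_ifs <;> first | nlinarith | tauto)
    (by
      rw [← hs]; unfold ms
      rw [Finset.mul_sum, Finset.mul_sum, ← Finset.sum_add_distrib]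
      exact Finset.sum_congr rfl fun j _ => by split_ifs <;> ring)
  refine lt_of_eq_of_lt ?_ this
  unfold ig
  rw [Finset.mul_sum, Finset.mul_sum, ← Finset.sum_add_distrib]
  exact Finset.sum_congr rfl fun j _ => by split_ifs <;> ring

lemma Light.mass {φ : ι → ℝ} (h : Light μ φ) (h0 : ∀ j, 0 ≤ μ j) {C : ι → Prop}
    (hC : ∀ j, C j → 0 ≤ φ j) : ms μ C < 1 := by
  by_contra hc
  push Not at hc
  have hp : 0 < ms μ C := by linarith
  have h1 := h.fill h0 (C := C) (F := fun _ => False) (fun _ _ => not_false) (k := (ms μ C)⁻¹)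
    (l := 0) (by positivity) (inv_le_one_of_one_le₀ hc) le_rfl zero_le_one
    (by rw [inv_mul_cancel₀ hp.ne', zero_mul, add_zero])
  have h2 := mul_ms_le_ig h0 (P := C) (Q := C) (f := φ) (c := 0) (fun _ h => h) hC hC
  have h3 : 0 ≤ (ms μ C)⁻¹ * ig μ C φ := mul_nonneg (by positivity) (by simpa using h2)
  linarith

/-- Filling the deficiency of `C` from a set `F` on which `φ ≥ -b`. -/
lemma Light.fill_bound {φ : ι → ℝ} (h : Light μ φ) (h0 : ∀ j, 0 ≤ μ j) {C F : ι → Prop}
    (hd : ∀ j, C j → ¬ F j) (hC : ms μ C ≤ 1) (hF : 1 - ms μ C ≤ ms μ F) {b : ℝ}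
    (hb : ∀ j, F j → -b ≤ φ j) : ig μ C φ < b * (1 - ms μ C) := by
  rcases eq_or_lt_of_le hC with h1 | h1
  · have := h.fill h0 hd (k := 1) (l := 0) zero_le_one le_rfl le_rfl zero_le_one (by linarith)
    rw [h1]; linarith
  · have hp : 0 < ms μ F := by linarith
    have h2 := h.fill h0 hd (k := 1) (l := (1 - ms μ C) / ms μ F) zero_le_one le_rfl
      (div_nonneg (by linarith) hp.le) ((div_le_one hp).2 hF) (by field_simp; ring)
    have h3 := ig_mono h0 (P := F) (f := fun _ => -b) (g := φ) hb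
    rw [ig_const] at h3
    have h4 := mul_le_mul_of_nonneg_left h3 (div_nonneg (by linarith : 0 ≤ 1 - ms μ C) hp.le)
    have h5 : (1 - ms μ C) / ms μ F * (-b * ms μ F) = -(b * (1 - ms μ C)) := by field_simp
    linarith

lemma pair_aux (h0 : ∀ j, 0 ≤ μ j) {C C' : ι → Prop} {u : ι → ℤ} (hC : ∀ j, C j → u j ≤ 0)
    (hC' : ∀ j, C' j → 1 ≤ u j) {φ : ι → ℝ} {α ε : ℝ} (hα : 0 < α) (hL : LS μ φ)
    (hφ : ∀ j, C j ∨ C' j → -α * u j ≤ φ j) (hε : ε ≤ 1 / 10) (m1 : 1 - ε ≤ ms μ C)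
    (m2 : ms μ C ≤ 1) (m3 : 1 - ε ≤ ms μ C') :
    ig μ C (fun j => -(u j : ℝ)) ≤ ε + 2 * ε * ig μ C' (fun j => (u j : ℝ) - 1) := by
  have hX : 0 ≤ ig μ C' (fun j => (u j : ℝ) - 1) := by
    have := mul_ms_le_ig h0 (P := C') (Q := C') (f := fun j => (u j : ℝ) - 1) (c := 0)
      (fun _ h => h) (fun j h => by have : (1 : ℝ) ≤ u j := by exact_mod_cast hC' j h
                                    linarith)
      (fun j h => by have : (1 : ℝ) ≤ u j := by exact_mod_cast hC' j h
                     linarith)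
    simpa using this
  have hε0 : 0 ≤ ε := by linarith
  rcases hL with hL | hL
  · have hp : 0 < ms μ C' := by linarith
    set l := (1 - ms μ C) / ms μ C' with hl
    have l0 : 0 ≤ l := div_nonneg (by linarith) hp.le
    have l1 : l * ms μ C' = 1 - ms μ C := by rw [hl]; field_simp
    have l2 : l ≤ 2 * ε := by rw [hl, div_le_iff₀ hp]; nlinarith
    have h2 := hL.fill h0 (C := C) (F := C') (fun j h h' => by
      have := hC j h; have := hC' j h'; omega) (k := 1) (l := l) zero_le_one le_rfl l0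
      (by linarith) (by linarith)
    have h3 := ig_mono h0 (P := C) (f := fun j => α * -(u j : ℝ) + 0) (g := φ)
      (fun j h => by have := hφ j (Or.inl h); linarith)
    have h4 := ig_mono h0 (P := C') (f := fun j => -α * ((u j : ℝ) - 1) + -α) (g := φ)
      (fun j h => by have := hφ j (Or.inr h); linarith)
    rw [ig_affine] at h3 h4
    have h5 := mul_le_mul_of_nonneg_left h4 l0
    have h6 := mul_le_mul_of_nonneg_right l2 hX
    refine le_of_mul_le_mul_left ?_ hα
    nlinarith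
  · have h3 := ig_mono h0 (P := C) (f := fun j => -(u j : ℝ)) (g := fun _ => 0) (fun j h => by
      have h1 := hφ j (Or.inl h)
      have h2 := hL j
      nlinarith)
    rw [ig_const] at h3
    nlinarith

/-- Two opposite cones of mass close to one are concentrated on two adjacent levels. -/
lemma pair (h0 : ∀ j, 0 ≤ μ j) {C C' : ι → Prop} {u : ι → ℤ} (hC : ∀ j, C j → u j ≤ 0)
    (hC' : ∀ j, C' j → 1 ≤ u j) {φ φ' : ι → ℝ} {α α' ε : ℝ} (hα : 0 < α) (hα' : 0 < α')
    (hL : LS μ φ) (hL' : LS μ φ') (hφ : ∀ j, C j ∨ C' j → -α * u j ≤ φ j)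
    (hφ' : ∀ j, C j ∨ C' j → α' * (u j - 1) ≤ φ' j) (hε : ε ≤ 1 / 10) (m1 : 1 - ε ≤ ms μ C)
    (m2 : ms μ C ≤ 1) (m3 : 1 - ε ≤ ms μ C') (m4 : ms μ C' ≤ 1) :
    ms μ (fun j => C j ∧ u j ≠ 0) + ms μ (fun j => C' j ∧ u j ≠ 1) ≤ 3 * ε := by
  have h1 := pair_aux h0 hC hC' hα hL hφ hε m1 m2 m3
  have h2 := pair_aux h0 (C := C') (C' := C) (u := fun j => 1 - u j)
    (fun j h => by have := hC' j h; omega) (fun j h => by have := hC j h; omega) hα' hL'
    (fun j h => by have := hφ' j h.symm; push_cast; linarith) hε m3 m4 m1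
  have e1 : (fun j => -((1 - u j : ℤ) : ℝ)) = fun j => (u j : ℝ) - 1 := by
    funext j; push_cast; ring
  have e2 : (fun j => ((1 - u j : ℤ) : ℝ) - 1) = fun j => -(u j : ℝ) := by
    funext j; push_cast; ring
  rw [e1, e2] at h2
  have h3 := mul_ms_le_ig h0 (P := C) (Q := fun j => C j ∧ u j ≠ 0) (f := fun j => -(u j : ℝ))
    (c := 1) (fun _ h => h.1) (fun j h => by have : (u j : ℝ) ≤ 0 := by exact_mod_cast hC j h
                                             linarith)
    (fun j h => by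
      have : u j ≤ -1 := by have := hC j h.1; have := h.2; omega
      have : (u j : ℝ) ≤ -1 := by exact_mod_cast this
      linarith)
  have h4 := mul_ms_le_ig h0 (P := C') (Q := fun j => C' j ∧ u j ≠ 1)
    (f := fun j => (u j : ℝ) - 1) (c := 1) (fun _ h => h.1)
    (fun j h => by have : (1 : ℝ) ≤ u j := by exact_mod_cast hC' j h
                   linarith)
    (fun j h => by
      have : 2 ≤ u j := by have := hC' j h.1; have := h.2; omega
      have : (2 : ℝ) ≤ u j := by exact_mod_cast this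
      linarith)
  have h5 := ms_nonneg h0 (fun j => C j ∧ u j ≠ 0)
  have h6 := ms_nonneg h0 (fun j => C' j ∧ u j ≠ 1)
  have hε0 : 0 ≤ ε := by linarith
  nlinarith

/-- Mass bounds for points, lines and midpoints. -/
structure Good (μ : ι → ℝ) (u v : ι → ℤ) : Prop where
  pos : ∀ j, 0 ≤ μ j
  pt : ∀ c d : ℤ, ms μ (fun j => u j = c ∧ v j = d) ≤ 1
  line : ∀ a b h : ℤ, (a ≠ 0 ∨ b ≠ 0) → ms μ (fun j => a * u j + b * v j = h) ≤ 2
  mid : ∀ j0 j1 j2 : ι, u j1 + u j2 = 2 * u j0 → v j1 + v j2 = 2 * v j0 →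
    (u j1 ≠ u j0 ∨ v j1 ≠ v j0) →
    ms μ (fun j => u j = u j0 ∧ v j = v j0) + 2 * min (ms μ (fun j => u j = u j1 ∧ v j = v j1))
      (ms μ (fun j => u j = u j2 ∧ v j = v j2)) ≤ 1

/-- All but `c` of the mass lies on two parallel lines. -/
def Concl (μ : ι → ℝ) (u v : ι → ℤ) (c : ℝ) : Prop :=
  ∃ a b s t : ℤ, (a ≠ 0 ∨ b ≠ 0) ∧
    ∑ j, μ j - c ≤ ms μ (fun j => a * u j + b * v j = s ∨ a * u j + b * v j = t)

lemma Concl.mono {u v : ι → ℤ} {c c' : ℝ} (h : Concl μ u v c) (hc : c ≤ c') : Concl μ u v c' := by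
  obtain ⟨a, b, s, t, h1, h2⟩ := h
  exact ⟨a, b, s, t, h1, by linarith⟩

lemma row_ne {a b m n k l : ℤ} (hd : m * l - n * k ≠ 0) (h : a ≠ 0 ∨ b ≠ 0) :
    a * m + b * k ≠ 0 ∨ a * n + b * l ≠ 0 := by
  by_contra hc
  push Not at hc
  have h1 : a * (m * l - n * k) = 0 := by linear_combination l * hc.1 - k * hc.2
  have h2 : b * (m * l - n * k) = 0 := by linear_combination m * hc.2 - n * hc.1
  rcases h with h | h
  · exact h ((mul_eq_zero.1 h1).resolve_right hd)
  · exact h ((mul_eq_zero.1 h2).resolve_right hd)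

lemma aff_inj {m n k l x y : ℤ} (hd : m * l - n * k ≠ 0) (h1 : m * x + n * y = 0)
    (h2 : k * x + l * y = 0) : x = 0 ∧ y = 0 :=
  ⟨(mul_eq_zero.1 (show (m * l - n * k) * x = 0 by linear_combination l * h1 - n * h2)).resolve_left
    hd, (mul_eq_zero.1 (show (m * l - n * k) * y = 0 by
      linear_combination m * h2 - k * h1)).resolve_left hd⟩

/-- Transport along an injective integral affine map. -/
lemma Good.map {u v u' v' : ι → ℤ} (h : Good μ u v) (m n k l s t : ℤ) (hd : m * l - n * k ≠ 0)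
    (hu : ∀ j, u' j = m * u j + n * v j + s) (hv : ∀ j, v' j = k * u j + l * v j + t) :
    Good μ u' v' := by
  have key : ∀ i j, (u' j = u' i ∧ v' j = v' i) ↔ (u j = u i ∧ v j = v i) := by
    intro i j
    rw [hu, hu, hv, hv]
    refine ⟨fun ⟨h1, h2⟩ => ?_, fun ⟨h1, h2⟩ => by rw [h1, h2]; exact ⟨rfl, rfl⟩⟩
    have := aff_inj hd (x := u j - u i) (y := v j - v i) (by linear_combination h1)
      (by linear_combination h2)
    omega
  refine ⟨h.pos, fun c d => ?_, fun a b g hab => ?_, fun j0 j1 j2 h1 h2 h3 => ?_⟩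
  · by_cases hc : ∃ i, u' i = c ∧ v' i = d
    · obtain ⟨i, rfl, rfl⟩ := hc
      rw [ms_congr (key i)]; exact h.pt _ _
    · push Not at hc
      rw [ms_false fun j hj => hc j hj.1 hj.2]; exact zero_le_one
  · refine (ms_mono h.pos fun j hj => ?_).trans
      (h.line _ _ (g - a * s - b * t) (row_ne hd hab))
    rw [hu, hv] at hj
    linear_combination hj
  · rw [ms_congr (key j0), ms_congr (key j1), ms_congr (key j2)]
    simp only [hu, hv] at h1 h2
    have := aff_inj hd (x := u j1 + u j2 - 2 * u j0) (y := v j1 + v j2 - 2 * v j0)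
      (by linear_combination h1) (by linear_combination h2)
    refine h.mid j0 j1 j2 (by omega) (by omega) ?_
    by_contra hc
    push Not at hc
    have := (key j0 j1).2 hc
    tauto

lemma Concl.of_map {u v u' v' : ι → ℤ} {c : ℝ} (h : Concl μ u' v' c) (m n k l s t : ℤ)
    (hd : m * l - n * k ≠ 0) (hu : ∀ j, u' j = m * u j + n * v j + s)
    (hv : ∀ j, v' j = k * u j + l * v j + t) : Concl μ u v c := by
  obtain ⟨a, b, s1, t1, h1, h2⟩ := h
  refine ⟨_, _, s1 - a * s - b * t, t1 - a * s - b * t, row_ne hd h1, h2.trans_eq (ms_congr fun j => ?_)⟩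
  rw [hu, hv]
  refine or_congr ⟨fun h => by linear_combination h, fun h => by linear_combination h⟩
    ⟨fun h => by linear_combination h, fun h => by linear_combination h⟩

/-- The points of `A` over the point `c` of the last two coordinates. -/
def ln {p : ℕ} (A : Finset (ZMod p × ZMod p × ZMod p)) (c : ZMod p × ZMod p) :
    Finset (ZMod p × ZMod p × ZMod p) := A.filter (fun a => a.2 = c)

end Pool.Agent.MP_f9a021_co.EX
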