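import Pool.Agent.MP_f9a021_co.EX0

open Finset Module

set_option linter.unusedSectionVars false

namespace Pool.Agent.MP_f9a021_co.EX

/-- No multiplicities `α ≤ m` of total `p` make both integer sums divisible by `p`. -/
def FreeZ {ι : Type*} [Fintype ι] (p : ℕ) (u v : ι → ℤ) (m : ι → ℕ) : Prop :=
  ∀ α : ι → ℕ, (∀ j, α j ≤ m j) → ∑ j, α j = p → (p : ℤ) ∣ ∑ j, (α j : ℤ) * u j →
    (p : ℤ) ∣ ∑ j, (α j : ℤ) * v j → False

/-- No multiplicities `α ≤ m` of total `p` give the sum zero. -/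
def Free {ι G : Type*} [Fintype ι] [AddCommMonoid G] (p : ℕ) (x : ι → G) (m : ι → ℕ) : Prop :=
  ∀ α : ι → ℕ, (∀ j, α j ≤ m j) → ∑ j, α j = p → ∑ j, α j • x j ≠ 0

/-- `(c, d)` lies in the affine lattice generated by the points `(u j, v j)`. -/
def AffLat {ι : Type*} [Fintype ι] (u v : ι → ℤ) (c d : ℤ) : Prop :=
  ∃ g : ι → ℤ, ∑ j, g j = 1 ∧ ∑ j, g j * u j = c ∧ ∑ j, g j * v j = d

end Pool.Agent.MP_f9a021_co.EX
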