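import Pool.Agent.MP_f9a021_co.EX0

open Finset

set_option linter.unusedSectionVars false

namespace Pool.Agent.MP_f9a021_co.EX

variable {p : ℕ} [Fact p.Prime]

open Pointwise in
lemma EXcd_small {α : Type*} [DecidableEq α] (y : α → ZMod p) (k : ℕ) : ∀ B : Finset α,
    k ≤ B.card → (∀ g, (B.filter (fun a => y a = g)).card ≤ k) → ∃ X : Finset (ZMod p),
      min p (B.card + 1 - k) ≤ X.card ∧ ∀ x ∈ X, ∃ T ⊆ B, T.card = k ∧ ∑ a ∈ T, y a = x := by
  have hp : p.Prime := Fact.out
  induction k with
  | zero =>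
    intro B _ h
    have hB : B = ∅ := by
      refine eq_empty_of_forall_notMem fun a ha => ?_
      have := card_pos.2 ⟨a, (mem_filter (p := fun b => y b = y a)).2 ⟨ha, rfl⟩⟩
      have := h (y a)
      omega
    subst hB
    exact ⟨{0}, by simp, fun x hx => ⟨∅, Subset.rfl, rfl, by simpa using (mem_singleton.1 hx).symm⟩⟩
  | succ k ih =>
    intro B hk h
    obtain ⟨S, hS, hinj, himg⟩ := exists_subset_injOn_image_eq_of_surjOn (f := y) (B : Set α)
      (B.image y) (by rw [coe_image]; exact Set.surjOn_image _ _)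
    have hS' : S ⊆ B := by exact_mod_cast hS
    have hSne : 0 < S.card := by
      obtain ⟨a, ha⟩ := card_pos.1 (show 0 < B.card by omega)
      have : y a ∈ S.image y := himg ▸ mem_image_of_mem y ha
      obtain ⟨b, hb, -⟩ := mem_image.1 this
      exact card_pos.2 ⟨b, hb⟩
    obtain ⟨A, hA, hAc⟩ := exists_subset_card_eq (s := S) (n := min S.card (B.card - k))
      (min_le_left _ _)
    have hAB : A ⊆ B := hA.trans hS'
    have hc : (B \ A).card = B.card - A.card := card_sdiff_of_subset hAB
    have hf : ∀ g, ((B \ A).filter (fun a => y a = g)).card ≤ k := by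
      intro g
      by_cases e : S.card ≤ B.card - k
      · have hAS : A = S := eq_of_subset_of_card_le hA (by omega)
        rcases ((B \ A).filter (fun a => y a = g)).eq_empty_or_nonempty with h0 | ⟨a, ha⟩
        · rw [h0]; exact Nat.zero_le _
        · obtain ⟨ha1, ha2⟩ := mem_filter.1 ha
          have : y a ∈ S.image y := himg ▸ mem_image_of_mem y (mem_sdiff.1 ha1).1
          obtain ⟨b, hb, hb'⟩ := mem_image.1 this
          have hsub : (B \ A).filter (fun a => y a = g) ⊆ (B.filter (fun a => y a = g)).erase b := by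
            intro c hc
            obtain ⟨c1, c2⟩ := mem_filter.1 hc
            obtain ⟨c3, c4⟩ := mem_sdiff.1 c1
            exact mem_erase.2 ⟨fun e => c4 (by rw [e, hAS]; exact hb), mem_filter.2 ⟨c3, c2⟩⟩
          have h1 := card_le_card hsub
          rw [card_erase_of_mem (mem_filter.2 ⟨hS' hb, hb'.trans ha2⟩)] at h1
          have := h g
          omega
      · have := card_filter_le (B \ A) (fun a => y a = g)
        omega
    obtain ⟨X, hX, hX'⟩ := ih (B \ A) (by omega) hf
    have hAi : (A.image y).card = A.card :=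
      card_image_of_injOn (hinj.mono (by exact_mod_cast hA))
    have hp1 := hp.one_lt
    have hcd := ZMod.cauchy_davenport hp (s := A.image y) (t := X)
      (card_pos.1 (by omega)) (card_pos.1 (by omega))
    refine ⟨A.image y + X, by omega, fun x hx => ?_⟩
    obtain ⟨u, hu, v, hv, rfl⟩ := mem_add.1 hx
    obtain ⟨a, ha, rfl⟩ := mem_image.1 hu
    obtain ⟨T, hT, hTc, rfl⟩ := hX' v hv
    have haT : a ∉ T := fun e => (mem_sdiff.1 (hT e)).2 ha
    exact ⟨insert a T, insert_subset (hAB ha) (hT.trans sdiff_subset),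
      by rw [card_insert_of_notMem haT, hTc], sum_insert haT⟩

theorem cdsum {α : Type*} [DecidableEq α] (y : α → ZMod p) (k : ℕ) (B : Finset α)
    (hk : k ≤ B.card) : ∃ X : Finset (ZMod p),
      min p (∑ g : ZMod p, min k (B.filter (fun a => y a = g)).card + 1 - k) ≤ X.card ∧
      ∀ x ∈ X, ∃ T ⊆ B, T.card = k ∧ ∑ a ∈ T, y a = x := by
  choose F hF hFc using fun g : ZMod p => exists_subset_card_eq
    (s := B.filter (fun a => y a = g)) (n := min k (B.filter (fun a => y a = g)).card)
    (min_le_right _ _)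
  have hy : ∀ g, ∀ a ∈ F g, a ∈ B ∧ y a = g := fun g a ha => mem_filter.1 (hF g ha)
  have hc : (univ.biUnion F).card = ∑ g : ZMod p, min k (B.filter (fun a => y a = g)).card := by
    rw [card_biUnion]
    · exact sum_congr rfl fun g _ => hFc g
    · intro g _ g' _ hne
      exact disjoint_left.2 fun a h1 h2 => hne ((hy g a h1).2.symm.trans (hy g' a h2).2)
  have hsub : univ.biUnion F ⊆ B := biUnion_subset.2 fun g _ a ha => (hy g a ha).1
  have hk' : k ≤ (univ.biUnion F).card := by
    by_cases e : ∃ g, k ≤ (B.filter (fun a => y a = g)).card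
    · obtain ⟨g, hg⟩ := e
      have := card_le_card (subset_biUnion_of_mem F (mem_univ g))
      rw [hFc, min_eq_left hg] at this
      exact this
    · push Not at e
      rw [hc, sum_congr rfl fun g _ => min_eq_right (e g).le,
        ← card_eq_sum_card_fiberwise (f := y) (s := B) (t := univ) fun a _ => mem_univ _]
      exact hk
  obtain ⟨X, hX, hX'⟩ := EXcd_small y k (univ.biUnion F) hk' fun g => by
    have : (univ.biUnion F).filter (fun a => y a = g) ⊆ F g := by
      intro a ha
      obtain ⟨h1, h2⟩ := mem_filter.1 ha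
      obtain ⟨g', -, h3⟩ := mem_biUnion.1 h1
      rwa [← h2, (hy g' a h3).2]
    exact (card_le_card this).trans (by rw [hFc]; exact min_le_left _ _)
  refine ⟨X, hc ▸ hX, fun x hx => ?_⟩
  obtain ⟨T, hT, h⟩ := hX' x hx
  exact ⟨T, hT.trans hsub, h⟩

theorem interval (τ x : ZMod p) (h0 : τ ≠ 0) (h1 : τ ≠ 1) (h2 : τ ≠ -1) (i j l : ℕ)
    (hj : j + 1 + l = p) (hl : 2 * l < p) (hi : l ≤ 2 * i) :
    ∃ s ≤ i, (x - (s : ZMod p) * τ).val ≤ j := by
  by_contra hc
  push Not at hc
  obtain ⟨r, hr⟩ : ∃ r : ℕ → ℤ, ∀ s, r s = ((x - (s : ZMod p) * τ).val : ℤ) := ⟨_, fun _ => rfl⟩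
  have up : ∀ s, r s < p := fun s => by rw [hr]; exact_mod_cast ZMod.val_lt _
  have lo : ∀ s ≤ i, (j : ℤ) < r s := fun s hs => by rw [hr]; exact_mod_cast hc s hs
  have hz : ∀ s, ((r s : ℤ) : ZMod p) = x - (s : ZMod p) * τ := fun s => by
    rw [hr, Int.cast_natCast, ZMod.natCast_zmod_val]
  have a0 := up 0
  have b0 := lo 0 (Nat.zero_le _)
  have hi1 : 1 ≤ i := by omega
  have a1 := up 1
  have b1 := lo 1 hi1
  obtain ⟨t, ht⟩ : ∃ t, t = r 0 - r 1 := ⟨_, rfl⟩
  have htz : (t : ZMod p) = τ := by rw [ht, Int.cast_sub, hz, hz]; push_cast; ring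
  have t0 : t ≠ 0 := fun e => h0 (by rw [← htz, e, Int.cast_zero])
  have t1 : t ≠ 1 := fun e => h1 (by rw [← htz, e, Int.cast_one])
  have t2 : t ≠ -1 := fun e => h2 (by rw [← htz, e, Int.cast_neg, Int.cast_one])
  have key : ∀ s ≤ i, r s = r 0 - s * t := by
    intro s
    induction s with
    | zero => intro _; simp
    | succ s ih =>
      intro hs
      have e := ih (by omega)
      have a2 := up s
      have b2 := lo s (by omega)
      have a3 := up (s + 1)
      have b3 := lo (s + 1) hs
      have hd : (p : ℤ) ∣ r (s + 1) - r s + t := by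
        rw [← ZMod.intCast_zmod_eq_zero_iff_dvd, Int.cast_add, Int.cast_sub, hz, hz, htz]
        push_cast
        ring
      have := Int.eq_zero_of_abs_lt_dvd hd (abs_lt.2 ⟨by omega, by omega⟩)
      push_cast
      linarith
  have e := key i le_rfl
  have a4 := up i
  have b4 := lo i le_rfl
  have hi' : (l : ℤ) ≤ 2 * i := by exact_mod_cast hi
  have hj' : (j : ℤ) + 1 + l = p := by exact_mod_cast hj
  have i0 : (0 : ℤ) ≤ i := Int.natCast_nonneg _
  rcases (show 2 ≤ t ∨ t ≤ -2 by omega) with h | h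
  · nlinarith [mul_le_mul_of_nonneg_left h i0]
  · nlinarith [mul_le_mul_of_nonneg_left h i0]

end Pool.Agent.MP_f9a021_co.EX
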