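import Pool.Agent.MP_f9a021_co.EZ4
import Pool.Agent.MP_f9a021_co.EX1

open Finset Module

set_option linter.unusedSectionVars false

namespace Pool.Agent.MP_f9a021_co.EX

theorem coreH (R L : ℕ) (hL : 0 < L) : ∃ Nb D p0 : ℕ, ∀ (p : ℕ) [Fact p.Prime], p0 ≤ p →
    ∀ (G : Type) [AddCommGroup G] [Module (ZMod p) G] [Fintype G] [DecidableEq G],
      finrank (ZMod p) G ≤ R → ∀ A : Finset G, WeaklyZeroSumFree p A → p ≤ A.card →
      ∃ n ≤ Nb, ∃ (P : Fin n → Finset G) (x : Fin n → G) (m : Fin n → ℕ), (∀ j, P j ⊆ A) ∧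
        (∀ i j, i ≠ j → Disjoint (P i) (P j)) ∧ (∀ j, x j ∈ P j) ∧ (∀ j, m j ≤ (P j).card) ∧
        (∀ j, p ≤ D * m j) ∧ (∀ j, EZ.sp p (P j) ≠ ⊥) ∧
        L * A.card ≤ L * ∑ j, m j + (R + 3) * A.card ∧
        ∀ α : Fin n → ℕ, (∀ j, α j ≤ m j) → ∑ j, α j = p → ∀ w : Fin n → G,
          (∀ j, w j ∈ EZ.sp p (P j)) → (∀ j, α j = 0 → w j = 0) →
          ∑ j, α j • x j + ∑ j, w j ≠ 0 := by
  obtain ⟨Nb, p0, h⟩ := EZ.core R L hL
  refine ⟨Nb, L * Nb, p0, fun p hp hp0 G _ _ _ _ hR A hA hpA => ?_⟩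
  obtain ⟨N, hN, P, m, hN0, h1, h2, h3, h4, h5, h6⟩ := h p hp0 G hR A hA hpA
  have hpos : 0 < p := hp.out.pos
  have hX : ∀ j, ∃ x : G, 0 < m j → x ∈ P j := fun j => by
    by_cases c : 0 < m j
    · obtain ⟨x, hx⟩ := card_pos.1 (lt_of_lt_of_le two_pos (h4 j c))
      exact ⟨x, fun _ => hx⟩
    · exact ⟨0, fun c' => absurd c' c⟩
  choose X hX using hX
  obtain ⟨J, hJ⟩ : ∃ J : Finset (Fin N), J = univ.filter fun j => p ≤ L * Nb * m j := ⟨_, rfl⟩
  obtain ⟨e, he, heJ, hs⟩ : ∃ e : Fin J.card → Fin N, Function.Injective e ∧ (∀ k, e k ∈ J) ∧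
      ∑ k, m (e k) = ∑ j ∈ J, m j :=
    ⟨fun k => J.equivFin.symm k, fun a b c => J.equivFin.symm.injective (Subtype.ext c),
      fun k => Subtype.prop _,
      (J.equivFin.symm.sum_comp fun j : J => m j).trans (sum_coe_sort J m)⟩
  have hD : ∀ k, p ≤ L * Nb * m (e k) := fun k => (mem_filter.1 (hJ.subset (heJ k))).2
  have hm : ∀ k, 0 < m (e k) := fun k => Nat.pos_of_ne_zero fun c => by
    have := hD k
    rw [c, mul_zero] at this
    omega
  refine ⟨J.card, ((card_le_univ J).trans (Fintype.card_fin N).le).trans hN, fun k => P (e k),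
    fun k => X (e k), fun k => m (e k), fun k => h1 _, fun a b c => h2 _ _ (he.ne c),
    fun k => hX _ (hm k), fun k => h3 _, hD, fun k c => ?_, ?_, fun α hα hsum w hw hw0 => ?_⟩
  · obtain ⟨a, ha, b, hb, hab⟩ := one_lt_card.1 (h4 _ (hm k))
    have := EZ.sub_mem_sp (p := p) ha hb
    rw [c, Submodule.mem_bot, sub_eq_zero] at this
    exact hab this
  · have a1 := sum_add_sum_compl J m
    have a2 : ∑ j ∈ Jᶜ, L * Nb * m j ≤ Jᶜ.card • p := sum_le_card_nsmul _ _ _ fun j hj => by
      rw [mem_compl, hJ, mem_filter] at hj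
      exact (not_le.1 fun c => hj ⟨mem_univ _, c⟩).le
    have a3 : Jᶜ.card ≤ Nb := ((card_le_univ _).trans (Fintype.card_fin N).le).trans hN
    rw [← mul_sum, smul_eq_mul, mul_comm L, mul_assoc] at a2
    have a4 := Nat.le_of_mul_le_mul_left (a2.trans (Nat.mul_le_mul_right p a3)) (by omega)
    rw [← a1, mul_add] at h5
    rw [hs, show R + 3 = R + 2 + 1 from rfl, add_mul (R + 2), one_mul]
    omega
  · have z : ∀ j, j ∉ Set.range e → Function.extend e α 0 j = 0 := fun j hj =>
      Function.extend_apply' _ _ _ hj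
    have z' : ∀ j, j ∉ Set.range e → Function.extend e w 0 j = 0 := fun j hj =>
      Function.extend_apply' _ _ _ hj
    have b1 : ∀ j, Function.extend e α 0 j ≤ m j := fun j => by
      by_cases c : j ∈ Set.range e
      · obtain ⟨k, rfl⟩ := c
        rw [he.extend_apply]
        exact hα k
      · rw [z j c]
        exact Nat.zero_le _
    have b2 : ∑ j, Function.extend e α 0 j = p :=
      (Fintype.sum_of_injective e he α _ z fun k => (he.extend_apply _ _ k).symm).symm.trans hsum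
    have b3 : ∀ u : Fin N → G, ∑ k, α k • u (e k) = ∑ j, Function.extend e α 0 j • u j := fun u =>
      Fintype.sum_of_injective e he _ _ (fun j hj => by rw [z j hj, zero_smul])
        fun k => by rw [he.extend_apply]
    by_cases c : ∃ k, α k = p
    · obtain ⟨k, hk⟩ := c
      refine absurd ?_ (h6 X (fun j hj => ⟨X j, hX j hj, by simp⟩) _ b1 b2)
      rw [← b3]
      refine sum_eq_zero fun i _ => ?_
      by_cases c : i = k
      · rw [c, hk, ← Nat.cast_smul_eq_nsmul (ZMod p), ZMod.natCast_self, zero_smul]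
      · have := add_le_sum (f := α) (fun _ _ => Nat.zero_le _) (mem_univ i) (mem_univ k) c
        rw [show α i = 0 by omega, zero_smul]
    · have b4 := h6 (fun j => X j + ((Function.extend e α 0 j : ℕ) : ZMod p)⁻¹ •
        Function.extend e w 0 j) (fun j hj => ⟨X j, hX j hj, by
          rw [add_sub_cancel_left]
          refine Submodule.smul_mem _ _ ?_
          by_cases c : j ∈ Set.range e
          · obtain ⟨k, rfl⟩ := c
            rw [he.extend_apply]
            exact hw k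
          · rw [z' j c]
            exact Submodule.zero_mem _⟩) _ b1 b2
      rw [← b3] at b4
      rw [← sum_add_distrib]
      refine fun c' => b4 (Eq.trans (sum_congr rfl fun k _ => ?_) c')
      rw [he.extend_apply, he.extend_apply, smul_add]
      congr 1
      by_cases c0 : α k = 0
      · rw [hw0 k c0, smul_zero, smul_zero]
      · have a1 : α k ≤ p := hsum ▸ single_le_sum (f := α) (fun _ _ => Nat.zero_le _) (mem_univ k)
        have a2 : ((α k : ℕ) : ZMod p) ≠ 0 := fun c1 => c ⟨k, le_antisymm a1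
          (Nat.le_of_dvd (Nat.pos_of_ne_zero c0) ((ZMod.natCast_eq_zero_iff _ _).1 c1))⟩
        rw [← Nat.cast_smul_eq_nsmul (ZMod p), smul_smul, mul_inv_cancel₀ a2, one_smul]

end Pool.Agent.MP_f9a021_co.EX
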