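import Pool.Agent.MP_f9a021_co.EX0

open Finset

set_option linter.unusedSectionVars false

namespace Pool.Agent.MP_f9a021_co.EX

theorem EXdbs_min (P : ℤ → ℤ → ℤ → Prop) {n : ℕ}
    (hmin : ∀ m < n, ¬ ∃ a b h : Fin m → ℤ, (∀ i, P (a i) (b i) (h i)) ∧
      ∀ X Y : ℤ, ∃ i, h i ≤ a i * X + b i * Y)
    (a b h : Fin n → ℤ) (hP : ∀ i, P (a i) (b i) (h i))
    (hc : ∀ X Y : ℤ, ∃ i, h i ≤ a i * X + b i * Y) (i : Fin n) :
    ∃ X Y : ℤ, ∀ k, k ≠ i → a k * X + b k * Y < h k := by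
  cases n with
  | zero => exact i.elim0
  | succ m =>
    by_contra hcon
    push Not at hcon
    refine hmin m (Nat.lt_succ_self m) ⟨fun j => a (i.succAbove j), fun j => b (i.succAbove j),
      fun j => h (i.succAbove j), fun j => hP _, fun X Y => ?_⟩
    obtain ⟨k, hk, e⟩ := hcon X Y
    obtain ⟨j, rfl⟩ := Fin.exists_succAbove_eq hk
    exact ⟨j, e⟩

theorem EXdbs_max {n : ℕ} (a b h : Fin n → ℤ) (hc : ∀ X Y : ℤ, ∃ i, h i ≤ a i * X + b i * Y)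
    (hw : ∀ i, ∃ X Y : ℤ, ∀ k, k ≠ i → a k * X + b k * Y < h k) :
    ∃ g x y : Fin n → ℤ, (∀ i, h i ≤ g i) ∧ (∀ X Y : ℤ, ∃ i, g i ≤ a i * X + b i * Y) ∧
      (∀ i, a i * x i + b i * y i = g i) ∧ ∀ i k, i ≠ k → a k * x i + b k * y i < g k := by
  choose u v huv using hw
  obtain ⟨s, ⟨g, h1, h2, rfl⟩, hmax⟩ := Int.exists_greatest_of_bdd
    (P := fun s => ∃ g : Fin n → ℤ, (∀ i, h i ≤ g i) ∧
      (∀ X Y : ℤ, ∃ i, g i ≤ a i * X + b i * Y) ∧ ∑ i, g i = s)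
    ⟨∑ i, (a i * u i + b i * v i), by
      rintro _ ⟨g, h1, h2, rfl⟩
      refine Finset.sum_le_sum fun i _ => ?_
      obtain ⟨k, hk⟩ := h2 (u i) (v i)
      by_cases e : k = i
      · rwa [e] at hk
      · exact absurd ((h1 k).trans hk) (not_le.2 (huv i k e))⟩
    ⟨_, h, fun _ => le_rfl, hc, rfl⟩
  have key : ∀ i, ∃ X Y : ℤ, a i * X + b i * Y = g i ∧
      ∀ k, i ≠ k → a k * X + b k * Y < g k := by
    intro i
    have h3 : ¬ ∀ X Y : ℤ, ∃ k, g k + (if i = k then 1 else 0) ≤ a k * X + b k * Y := by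
      intro h3
      have := hmax _ ⟨fun k => g k + if i = k then 1 else 0, fun k => by
        have := h1 k
        beta_reduce
        split_ifs <;> omega, h3, rfl⟩
      rw [Finset.sum_add_distrib, Finset.sum_ite_eq, if_pos (Finset.mem_univ i)] at this
      omega
    push Not at h3
    obtain ⟨X, Y, h4⟩ := h3
    have h5 : ∀ k, i ≠ k → a k * X + b k * Y < g k := fun k hk => by
      have := h4 k
      rwa [if_neg hk, add_zero] at this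
    refine ⟨X, Y, ?_, h5⟩
    obtain ⟨k, hk⟩ := h2 X Y
    by_cases e : i = k
    · have := h4 k
      rw [if_pos e] at this
      rw [e]
      omega
    · exact absurd hk (not_le.2 (h5 k e))
  choose x y hxy using key
  exact ⟨g, x, y, h1, h2, fun i => (hxy i).1, fun i => (hxy i).2⟩

theorem dbs (P : ℤ → ℤ → ℤ → Prop) (hP : ∀ a b h h', P a b h → h ≤ h' → P a b h')
    (F : Finset (ℤ × ℤ × ℤ)) (hF : ∀ f ∈ F, P f.1 f.2.1 f.2.2)
    (hc : ∀ x y : ℤ, ∃ f ∈ F, f.2.2 ≤ f.1 * x + f.2.1 * y) :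
    ∃ n ≤ 4, ∃ a b h x y : Fin n → ℤ, (∀ i, P (a i) (b i) (h i)) ∧
      (∀ X Y : ℤ, ∃ i, h i ≤ a i * X + b i * Y) ∧ (∀ i, a i * x i + b i * y i = h i) ∧
      (∀ i k, i ≠ k → a k * x i + b k * y i < h k) ∧
      (∀ i k, i ≠ k → ¬ (2 ∣ x i - x k ∧ 2 ∣ y i - y k)) := by
  classical
  have hQ : ∃ n : ℕ, ∃ a b h : Fin n → ℤ, (∀ i, P (a i) (b i) (h i)) ∧
      ∀ X Y : ℤ, ∃ i, h i ≤ a i * X + b i * Y := by
    refine ⟨F.card, fun i => (F.equivFin.symm i).1.1, fun i => (F.equivFin.symm i).1.2.1,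
      fun i => (F.equivFin.symm i).1.2.2, fun i => hF _ (F.equivFin.symm i).2, fun X Y => ?_⟩
    obtain ⟨f, hf, e⟩ := hc X Y
    exact ⟨F.equivFin ⟨f, hf⟩, by simpa using e⟩
  obtain ⟨a, b, h, h1, h2⟩ := Nat.find_spec hQ
  obtain ⟨g, x, y, g1, g2, g3, g4⟩ := EXdbs_max a b h h2
    (EXdbs_min P (fun m hm => Nat.find_min hQ hm) a b h h1 h2)
  have par : ∀ i k, i ≠ k → ¬ (2 ∣ x i - x k ∧ 2 ∣ y i - y k) := by
    rintro i k hik ⟨⟨u, hu⟩, ⟨v, hv⟩⟩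
    obtain ⟨l, hl⟩ := g2 (x k + u) (y k + v)
    have e : 2 * (a l * (x k + u) + b l * (y k + v)) =
        (a l * x i + b l * y i) + (a l * x k + b l * y k) := by
      linear_combination (-a l) * hu - b l * hv
    by_cases e1 : i = l
    · have p1 := g3 l
      have p2 := g4 k l fun e2 => hik (e1.trans e2.symm)
      rw [e1] at e
      omega
    · have p1 := g4 i l e1
      by_cases e2 : k = l
      · have p2 := g3 l
        rw [e2] at e hl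
        omega
      · have p2 := g4 k l e2
        omega
  refine ⟨_, ?_, a, b, g, x, y, fun i => hP _ _ _ _ (h1 i) (g1 i), g2, g3, g4, par⟩
  have := Fintype.card_le_of_injective
    (fun i => (((x i : ℤ) : ZMod 2), ((y i : ℤ) : ZMod 2))) fun i k e => by
      by_contra hik
      obtain ⟨e1, e2⟩ := Prod.ext_iff.1 e
      exact par i k hik ⟨(ZMod.intCast_eq_intCast_iff_dvd_sub _ _ 2).1 e1.symm,
        (ZMod.intCast_eq_intCast_iff_dvd_sub _ _ 2).1 e2.symm⟩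
  simpa using this

theorem EXdbs_dvd {e1 e2 f1 f2 D : ℤ} (hD : D ≠ 0)
    (h : ∀ (x y : ℤ) (s t : ℝ), 0 ≤ s → 0 ≤ t → s + t ≤ 1 → s < 1 → t < 1 → 0 < s + t →
      (x : ℝ) = s * e1 + t * f1 → (y : ℝ) = s * e2 + t * f2 → False)
    (X Y S T : ℤ) (hX : D * X = S * e1 + T * f1) (hY : D * Y = S * e2 + T * f2) :
    D ∣ S ∧ D ∣ T := by
  have hD' : (D : ℝ) ≠ 0 := by exact_mod_cast hD
  obtain ⟨s, hs⟩ : ∃ s : ℝ, (S : ℝ) = D * s := ⟨S / D, by field_simp⟩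
  obtain ⟨t, ht⟩ : ∃ t : ℝ, (T : ℝ) = D * t := ⟨T / D, by field_simp⟩
  have hX' : (D : ℝ) * X = S * e1 + T * f1 := by exact_mod_cast hX
  have hY' : (D : ℝ) * Y = S * e2 + T * f2 := by exact_mod_cast hY
  have a1 : (X : ℝ) = s * e1 + t * f1 :=
    mul_left_cancel₀ hD' (by rw [hX', hs, ht]; ring)
  have a2 : (Y : ℝ) = s * e2 + t * f2 :=
    mul_left_cancel₀ hD' (by rw [hY', hs, ht]; ring)
  have s0 := Int.floor_le s
  have s1 := Int.lt_floor_add_one s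
  have t0 := Int.floor_le t
  have t1 := Int.lt_floor_add_one t
  by_cases c : 0 < (s - ⌊s⌋) + (t - ⌊t⌋)
  · exfalso
    by_cases c2 : (s - ⌊s⌋) + (t - ⌊t⌋) ≤ 1
    · refine h (X - ⌊s⌋ * e1 - ⌊t⌋ * f1) (Y - ⌊s⌋ * e2 - ⌊t⌋ * f2) (s - ⌊s⌋) (t - ⌊t⌋)
        (by linarith) (by linarith) c2 (by linarith) (by linarith) c ?_ ?_
      · push_cast; linear_combination a1
      · push_cast; linear_combination a2
    · refine h ((⌊s⌋ + 1) * e1 + (⌊t⌋ + 1) * f1 - X) ((⌊s⌋ + 1) * e2 + (⌊t⌋ + 1) * f2 - Y)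
        (⌊s⌋ + 1 - s) (⌊t⌋ + 1 - t) (by linarith) (by linarith) (by linarith) (by linarith)
        (by linarith) (by linarith) ?_ ?_
      · push_cast; linear_combination -a1
      · push_cast; linear_combination -a2
  · have b1 : s = ⌊s⌋ := by linarith
    have b2 : t = ⌊t⌋ := by linarith
    rw [b1] at hs
    rw [b2] at ht
    exact ⟨⟨⌊s⌋, by exact_mod_cast hs⟩, ⟨⌊t⌋, by exact_mod_cast ht⟩⟩

theorem unimod (e1 e2 f1 f2 : ℤ) (hdet : e1 * f2 - e2 * f1 ≠ 0)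
    (h : ∀ (x y : ℤ) (s t : ℝ), 0 ≤ s → 0 ≤ t → s + t ≤ 1 → s < 1 → t < 1 → 0 < s + t →
      (x : ℝ) = s * e1 + t * f1 → (y : ℝ) = s * e2 + t * f2 → False) :
    e1 * f2 - e2 * f1 = 1 ∨ e1 * f2 - e2 * f1 = -1 := by
  obtain ⟨⟨d, hd⟩, ⟨b, hb⟩⟩ := EXdbs_dvd hdet h 1 0 f2 (-e2) (by ring) (by ring)
  obtain ⟨⟨c, hc⟩, ⟨a, ha⟩⟩ := EXdbs_dvd hdet h 0 1 (-f1) e1 (by ring) (by ring)
  obtain ⟨D, hD⟩ : ∃ D, D = e1 * f2 - e2 * f1 := ⟨_, rfl⟩
  rw [← hD] at hdet ha hb hc hd ⊢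
  refine Int.eq_one_or_neg_one_of_mul_eq_one (v := a * d - b * c) (mul_left_cancel₀ hdet ?_)
  linear_combination -hD - f2 * ha - D * a * hd - f1 * hb + D * b * hc

end Pool.Agent.MP_f9a021_co.EX
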