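import Pool.Agent.MP_f9a021_co.EXfix

open Finset

set_option linter.unusedSectionVars false

namespace Pool.Agent.MP_f9a021_co.EX

variable {p : ℕ} [Fact p.Prime]

theorem EXe2_sub {α : Type*} [DecidableEq α] (g : α → ℕ) (d : ℕ) (P : Finset α)
    (hg : ∀ o ∈ P, g o ≤ d) (h : d < ∑ o ∈ P, g o) :
    ∃ R ⊆ P, d < ∑ o ∈ R, g o ∧ ∑ o ∈ R, g o ≤ 2 * d := by
  induction P using Finset.induction_on with
  | empty => simp at h
  | insert a s ha ih =>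
    by_cases c : d < ∑ o ∈ s, g o
    · obtain ⟨R, h1, h2⟩ := ih (fun o ho => hg o (mem_insert_of_mem ho)) c
      exact ⟨R, h1.trans (subset_insert _ _), h2⟩
    · refine ⟨insert a s, Subset.rfl, h, ?_⟩
      have := hg a (mem_insert_self _ _)
      rw [sum_insert ha]
      omega

theorem EXe2_mem {A : Finset (ZMod p × ZMod p × ZMod p)} {c : ZMod p × ZMod p}
    {a : ZMod p × ZMod p × ZMod p} : a ∈ ln A c ↔ a ∈ A ∧ a.2 = c := mem_filter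

theorem EXe2_take (A : Finset (ZMod p × ZMod p × ZMod p)) (c : ZMod p × ZMod p) {n : ℕ}
    (h : n < (ln A c).card) : ∃ T : Finset (ZMod p × ZMod p × ZMod p), T ⊆ A ∧
      (∀ a ∈ T, a.2 = c) ∧ T.card = n ∧ ∑ a ∈ T, a.2 = n • c ∧ (1 ≤ n → ∃ a ∈ T, a.2 = c) ∧
      ∃ a ∈ A, a.2 = c ∧ a ∉ T := by
  obtain ⟨T, h1, h2⟩ := exists_subset_card_eq h.le
  have h3 : ∀ a ∈ T, a.2 = c := fun a ha => (EXe2_mem.1 (h1 ha)).2
  refine ⟨T, fun a ha => (EXe2_mem.1 (h1 ha)).1, h3, h2, ?_, fun hn => ?_, ?_⟩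
  · rw [sum_congr rfl h3, sum_const, h2]
  · obtain ⟨a, ha⟩ := card_pos.1 (show 0 < T.card by omega)
    exact ⟨a, ha, h3 a ha⟩
  · obtain ⟨a, ha, hn⟩ := exists_mem_notMem_of_card_lt_card (show T.card < _ from h2 ▸ h)
    exact ⟨a, (EXe2_mem.1 ha).1, (EXe2_mem.1 ha).2, hn⟩

theorem EXe2_build (A : Finset (ZMod p × ZMod p × ZMod p)) (hA : WeaklyZeroSumFree p A)
    (R : Finset (ZMod p × ZMod p × ZMod p)) (c0 c1 c2 : ZMod p × ZMod p) (n0 n1 n2 : ℕ)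
    (h01 : c0 ≠ c1) (h02 : c0 ≠ c2) (h12 : c1 ≠ c2)
    (hR : ∀ o ∈ R, o ∈ A ∧ o.2 ≠ c0 ∧ o.2 ≠ c1 ∧ o.2 ≠ c2)
    (l0 : n0 < (ln A c0).card) (l1 : n1 < (ln A c1).card) (l2 : n2 < (ln A c2).card)
    (hc : R.card + n0 + n1 + n2 = p) (hs : ∑ a ∈ R, a.2 + n0 • c0 + n1 • c1 + n2 • c2 = 0)
    (hb : p + 2 < (ln A c1).card + (ln A c2).card) (p1 : 1 ≤ n1) (p2 : 1 ≤ n2) : False := by
  obtain ⟨T0, a0, b0, k0, s0, -, -⟩ := EXe2_take A c0 l0
  obtain ⟨T1, a1, b1, k1, s1, e1, x1, xA1, xc1, xn1⟩ := EXe2_take A c1 l1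
  obtain ⟨T2, a2, b2, k2, s2, e2, x2, xA2, xc2, xn2⟩ := EXe2_take A c2 l2
  have d0 : Disjoint R T0 := disjoint_left.2 fun a h h' => (hR a h).2.1 (b0 a h')
  have d1 : Disjoint (R ∪ T0) T1 := disjoint_left.2 fun a h h' => by
    rcases mem_union.1 h with h | h
    · exact (hR a h).2.2.1 (b1 a h')
    · exact h01 ((b0 a h).symm.trans (b1 a h'))
  have d2 : Disjoint (R ∪ T0 ∪ T1) T2 := disjoint_left.2 fun a h h' => by
    rcases mem_union.1 h with h | h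
    · rcases mem_union.1 h with h | h
      · exact (hR a h).2.2.2 (b2 a h')
      · exact h02 ((b0 a h).symm.trans (b2 a h'))
    · exact h12 ((b1 a h).symm.trans (b2 a h'))
  obtain ⟨y1, hy1, hy1'⟩ := e1 p1
  obtain ⟨y2, hy2, hy2'⟩ := e2 p2
  refine fix A hA (R ∪ T0 ∪ T1 ∪ T2)
    (union_subset (union_subset (union_subset (fun o ho => (hR o ho).1) a0) a1) a2) ?_ ?_ c1 c2
    h12 hb ⟨y1, mem_union_left _ (mem_union_right _ hy1), hy1'⟩ ⟨x1, xA1, xc1, ?_⟩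
    ⟨y2, mem_union_right _ hy2, hy2'⟩ ⟨x2, xA2, xc2, ?_⟩
  · rw [card_union_of_disjoint d2, card_union_of_disjoint d1, card_union_of_disjoint d0, k0, k1,
      k2, hc]
  · rw [sum_union d2, sum_union d1, sum_union d0, s0, s1, s2, hs]
  · simp only [mem_union, not_or]
    exact ⟨⟨⟨fun h => (hR _ h).2.2.1 xc1, fun h => h01 ((b0 _ h).symm.trans xc1)⟩, xn1⟩,
      fun h => h12 (xc1.symm.trans (b2 _ h))⟩
  · simp only [mem_union, not_or]
    exact ⟨⟨⟨fun h => (hR _ h).2.2.2 xc2, fun h => h02 ((b0 _ h).symm.trans xc2)⟩,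
      fun h => h12 ((b1 _ h).symm.trans xc2)⟩, xn2⟩

theorem EXe2_corner (hp : 1000 ≤ p) (A : Finset (ZMod p × ZMod p × ZMod p))
    (hA : WeaklyZeroSumFree p A) (y0 z0 ε δ y1 z1 : ZMod p) (hε : ε * ε = 1) (hδ : δ * δ = 1)
    (hy : y1 = y0 + ε) (hz : z1 = z0 + δ)
    (h00 : 99 * p ≤ 100 * (ln A (y0, z0)).card) (h10 : 99 * p ≤ 100 * (ln A (y1, z0)).card)
    (h01 : 99 * p ≤ 100 * (ln A (y0, z1)).card) (P : Finset (ZMod p × ZMod p × ZMod p))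
    (hP : ∀ o ∈ P, (o ∈ A ∧ o.2 ≠ (y0, z0) ∧ o.2 ≠ (y1, z0) ∧ o.2 ≠ (y0, z1)) ∧
      2 * (ε * (y0 - o.2.1)).val ≤ p ∧ 2 * (δ * (z0 - o.2.2)).val ≤ p) :
    P.card + (ln A (y0, z0)).card + 1 ≤ p := by
  have hlt := ln_lt (by omega) A hA (y0, z0)
  have hodd := (Fact.out : p.Prime).eq_two_or_odd
  have ε0 : ε ≠ 0 := fun h => by simp [h] at hε
  have δ0 : δ ≠ 0 := fun h => by simp [h] at hδ
  have ny : y0 ≠ y1 := fun h => ε0 (by linear_combination -hy - h)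
  have nz : z0 ≠ z1 := fun h => δ0 (by linear_combination -hz - h)
  obtain ⟨u, hu⟩ : ∃ u : ZMod p × ZMod p × ZMod p → ℕ, u = fun o => (ε * (y0 - o.2.1)).val :=
    ⟨_, rfl⟩
  obtain ⟨v, hv⟩ : ∃ v : ZMod p × ZMod p × ZMod p → ℕ, v = fun o => (δ * (z0 - o.2.2)).val :=
    ⟨_, rfl⟩
  have huv : ∀ o ∈ P, 1 ≤ u o + v o ∧ 2 * u o ≤ p ∧ 2 * v o ≤ p := fun o ho => by
    refine ⟨?_, hu ▸ (hP o ho).2.1, hv ▸ (hP o ho).2.2⟩
    by_contra hc
    have h1 : u o = 0 := by omega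
    have h2 : v o = 0 := by omega
    rw [hu] at h1
    rw [hv] at h2
    have h3 := (mul_eq_zero.1 ((ZMod.val_eq_zero _).1 h1)).resolve_left ε0
    have h4 := (mul_eq_zero.1 ((ZMod.val_eq_zero _).1 h2)).resolve_left δ0
    exact (hP o ho).1.2.1 (Prod.ext (sub_eq_zero.1 h3).symm (sub_eq_zero.1 h4).symm)
  by_contra hc
  obtain ⟨d, hd⟩ : ∃ d, d + (ln A (y0, z0)).card = p := ⟨_, Nat.sub_add_cancel hlt.le⟩
  have hsum : ∀ R : Finset (ZMod p × ZMod p × ZMod p), ∑ o ∈ R, (1 + u o + v o) =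
      R.card + ∑ o ∈ R, u o + ∑ o ∈ R, v o := fun R => by
    rw [sum_add_distrib, sum_add_distrib, ← card_eq_sum_ones]
  have hlow : ∀ R ⊆ P, R.card ≤ ∑ o ∈ R, u o + ∑ o ∈ R, v o := fun R hR => by
    rw [← sum_add_distrib, card_eq_sum_ones]
    exact sum_le_sum fun o ho => (huv o (hR ho)).1
  obtain ⟨R, hR, g1, g2, g3, g4, g5⟩ : ∃ R ⊆ P, d < R.card + ∑ o ∈ R, u o + ∑ o ∈ R, v o ∧
      R.card + ∑ o ∈ R, u o + ∑ o ∈ R, v o ≤ p ∧ 2 * ∑ o ∈ R, u o ≤ p ∧ 2 * ∑ o ∈ R, v o ≤ p ∧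
      4 * R.card ≤ p := by
    by_cases c : ∀ o ∈ P, 1 + u o + v o ≤ d
    · obtain ⟨R, h1, h2, h3⟩ := EXe2_sub (fun o => 1 + u o + v o) d P c (by
        have := hlow P Subset.rfl
        rw [hsum]; omega)
      rw [hsum] at h2 h3
      exact ⟨R, h1, h2, by omega, by omega, by omega, by omega⟩
    · push Not at c
      obtain ⟨o, ho, h⟩ := c
      have := huv o ho
      refine ⟨{o}, singleton_subset_iff.2 ho, ?_⟩
      simp only [card_singleton, sum_singleton]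
      omega
  have g6 := hlow R hR
  obtain ⟨n, hn⟩ : ∃ n, R.card + n + ∑ o ∈ R, u o + ∑ o ∈ R, v o = p :=
    ⟨p - (R.card + ∑ o ∈ R, u o + ∑ o ∈ R, v o), by omega⟩
  have hnc := congrArg (Nat.cast : ℕ → ZMod p) hn
  rw [ZMod.natCast_self, Nat.cast_add, Nat.cast_add, Nat.cast_add] at hnc
  have cu : ((∑ o ∈ R, u o : ℕ) : ZMod p) = ε * (R.card * y0 - ∑ o ∈ R, o.2.1) := by
    simp only [hu, Nat.cast_sum, ZMod.natCast_val, ZMod.cast_id', id_eq]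
    rw [← mul_sum, sum_sub_distrib, sum_const, nsmul_eq_mul]
  have cv : ((∑ o ∈ R, v o : ℕ) : ZMod p) = δ * (R.card * z0 - ∑ o ∈ R, o.2.2) := by
    simp only [hv, Nat.cast_sum, ZMod.natCast_val, ZMod.cast_id', id_eq]
    rw [← mul_sum, sum_sub_distrib, sum_const, nsmul_eq_mul]
  have hs : ∑ a ∈ R, a.2 + n • (y0, z0) + (∑ o ∈ R, u o) • (y1, z0) +
      (∑ o ∈ R, v o) • (y0, z1) = 0 := by
    refine Prod.ext ?_ ?_
    · simp only [Prod.fst_add, Prod.fst_sum, Prod.smul_fst, Prod.fst_zero, hy]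
      simp only [nsmul_eq_mul]
      linear_combination y0 * hnc + ε * cu + (R.card * y0 - ∑ o ∈ R, o.2.1) * hε
    · simp only [Prod.snd_add, Prod.snd_sum, Prod.smul_snd, Prod.snd_zero, hz]
      simp only [nsmul_eq_mul]
      linear_combination z0 * hnc + δ * cv + (R.card * z0 - ∑ o ∈ R, o.2.2) * hδ
  have c01 : (y0, z0) ≠ (y1, z0) := fun h => ny (congrArg Prod.fst h)
  have c02 : (y0, z0) ≠ (y0, z1) := fun h => nz (congrArg Prod.snd h)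
  have c12 : (y1, z0) ≠ (y0, z1) := fun h => nz (congrArg Prod.snd h)
  generalize ∑ o ∈ R, u o = su at *
  generalize ∑ o ∈ R, v o = sv at *
  by_cases k1 : su = 0
  · exact EXe2_build A hA R (y1, z0) (y0, z0) (y0, z1) su n sv c01.symm c12 c02
      (fun o ho => have := (hP o (hR ho)).1; ⟨this.1, this.2.2.1, this.2.1, this.2.2.2⟩)
      (by omega) (by omega) (by omega) (by omega) (by rw [← hs]; abel) (by omega) (by omega)
      (by omega)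
  by_cases k2 : sv = 0
  · exact EXe2_build A hA R (y0, z1) (y0, z0) (y1, z0) sv n su c02.symm c12.symm c01
      (fun o ho => have := (hP o (hR ho)).1; ⟨this.1, this.2.2.2, this.2.1, this.2.2.1⟩)
      (by omega) (by omega) (by omega) (by omega) (by rw [← hs]; abel) (by omega) (by omega)
      (by omega)
  exact EXe2_build A hA R (y0, z0) (y1, z0) (y0, z1) n su sv c01 c02 c12
    (fun o ho => (hP o (hR ho)).1) (by omega) (by omega) (by omega) hn hs (by omega) (by omega)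
    (by omega)

theorem EXe2_half (y : ZMod p) :
    2 * (1 * (0 - y)).val ≤ p ∨ 2 * (-1 * (1 - y)).val ≤ p := by
  by_cases h : y = 0
  · left; simp [h]
  · have h1 : y.val ≠ 0 := fun e => h ((ZMod.val_eq_zero _).1 e)
    have h2 := ZMod.val_lt y
    have h3 : (-1 * (1 - y)).val = y.val - 1 := by
      rw [show -1 * (1 - y) = y - 1 by ring, ZMod.val_sub (by rw [ZMod.val_one]; omega),
        ZMod.val_one]
    rw [one_mul, zero_sub, ZMod.neg_val, if_neg h, h3]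
    omega

theorem e2 (hp : 1000 ≤ p) (A : Finset (ZMod p × ZMod p × ZMod p)) (hA : WeaklyZeroSumFree p A)
    (h00 : 99 * p ≤ 100 * (ln A (0, 0)).card) (h10 : 99 * p ≤ 100 * (ln A (1, 0)).card)
    (h01 : 99 * p ≤ 100 * (ln A (0, 1)).card) (h11 : 99 * p ≤ 100 * (ln A (1, 1)).card) :
    A.card + 4 ≤ 4 * p := by
  obtain ⟨O, hO⟩ : ∃ O : Finset (ZMod p × ZMod p × ZMod p), ∀ o, o ∈ O ↔ o ∈ A ∧
      o.2 ≠ (0, 0) ∧ o.2 ≠ (1, 0) ∧ o.2 ≠ (0, 1) ∧ o.2 ≠ (1, 1) := ⟨A.filter _, fun o => mem_filter⟩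
  obtain ⟨F, hF⟩ : ∃ F : ZMod p → ZMod p → ZMod p → ZMod p → Finset (ZMod p × ZMod p × ZMod p),
      ∀ y0 z0 ε δ o, o ∈ F y0 z0 ε δ ↔ o ∈ O ∧ 2 * (ε * (y0 - o.2.1)).val ≤ p ∧
        2 * (δ * (z0 - o.2.2)).val ≤ p := ⟨fun y0 z0 ε δ => O.filter _, fun _ _ _ _ _ => mem_filter⟩
  have k1 := EXe2_corner hp A hA 0 0 1 1 1 1 (by ring) (by ring) (by ring) (by ring) h00 h10 h01
    (F 0 0 1 1) fun o ho => have h := (hF _ _ _ _ _).1 ho; have g := (hO o).1 h.1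
      ⟨⟨g.1, g.2.1, g.2.2.1, g.2.2.2.1⟩, h.2⟩
  have k2 := EXe2_corner hp A hA 1 0 (-1) 1 0 1 (by ring) (by ring) (by ring) (by ring) h10 h00 h11
    (F 1 0 (-1) 1) fun o ho => have h := (hF _ _ _ _ _).1 ho; have g := (hO o).1 h.1
      ⟨⟨g.1, g.2.2.1, g.2.1, g.2.2.2.2⟩, h.2⟩
  have k3 := EXe2_corner hp A hA 0 1 1 (-1) 1 0 (by ring) (by ring) (by ring) (by ring) h01 h11 h00
    (F 0 1 1 (-1)) fun o ho => have h := (hF _ _ _ _ _).1 ho; have g := (hO o).1 h.1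
      ⟨⟨g.1, g.2.2.2.1, g.2.2.2.2, g.2.1⟩, h.2⟩
  have k4 := EXe2_corner hp A hA 1 1 (-1) (-1) 0 0 (by ring) (by ring) (by ring) (by ring) h11 h01
    h10 (F 1 1 (-1) (-1)) fun o ho => have h := (hF _ _ _ _ _).1 ho; have g := (hO o).1 h.1
      ⟨⟨g.1, g.2.2.2.2, g.2.2.2.1, g.2.2.1⟩, h.2⟩
  have hsub : A ⊆ (ln A (0, 0) ∪ ln A (1, 0)) ∪ (ln A (0, 1) ∪ ln A (1, 1)) ∪
      ((F 0 0 1 1 ∪ F 1 0 (-1) 1) ∪ (F 0 1 1 (-1) ∪ F 1 1 (-1) (-1))) := fun o ho => by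
    simp only [mem_union]
    by_cases e1 : o.2 = (0, 0)
    · exact .inl (.inl (.inl (EXe2_mem.2 ⟨ho, e1⟩)))
    by_cases e2 : o.2 = (1, 0)
    · exact .inl (.inl (.inr (EXe2_mem.2 ⟨ho, e2⟩)))
    by_cases e3 : o.2 = (0, 1)
    · exact .inl (.inr (.inl (EXe2_mem.2 ⟨ho, e3⟩)))
    by_cases e4 : o.2 = (1, 1)
    · exact .inl (.inr (.inr (EXe2_mem.2 ⟨ho, e4⟩)))
    have hm := (hO o).2 ⟨ho, e1, e2, e3, e4⟩
    rcases EXe2_half o.2.1 with h1 | h1 <;> rcases EXe2_half o.2.2 with h2 | h2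
    · exact .inr (.inl (.inl ((hF _ _ _ _ _).2 ⟨hm, h1, h2⟩)))
    · exact .inr (.inr (.inl ((hF _ _ _ _ _).2 ⟨hm, h1, h2⟩)))
    · exact .inr (.inl (.inr ((hF _ _ _ _ _).2 ⟨hm, h1, h2⟩)))
    · exact .inr (.inr (.inr ((hF _ _ _ _ _).2 ⟨hm, h1, h2⟩)))
  have c0 := (card_le_card hsub).trans ((card_union_le _ _).trans (add_le_add
    ((card_union_le _ _).trans (add_le_add (card_union_le _ _) (card_union_le _ _)))
    ((card_union_le _ _).trans (add_le_add (card_union_le _ _) (card_union_le _ _)))))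
  omega

end Pool.Agent.MP_f9a021_co.EX
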