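import Pool.Agent.MP_f9a021_co.EX0

open Finset

set_option linter.unusedSectionVars false

namespace Pool.Agent.MP_f9a021_co.EX

variable {p : ℕ} [Fact p.Prime]

theorem zsf_image {G G' : Type*} [AddCommGroup G] [AddCommGroup G'] [DecidableEq G'] (n : ℕ)
    (φ : G →+ G') (hφ : Function.Injective φ) (v : G') (hv : n • v = 0) (A : Finset G)
    (hA : WeaklyZeroSumFree n A) : WeaklyZeroSumFree n (A.image (fun a => φ a + v)) := by
  intro B hB hc h0
  obtain ⟨S, hS, rfl⟩ := subset_image_iff.1 hB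
  have hi : Function.Injective fun a => φ a + v := fun a b h => hφ (add_right_cancel h)
  rw [card_image_of_injective _ hi] at hc
  rw [sum_image hi.injOn, sum_add_distrib, sum_const, hc, hv, add_zero, ← map_sum] at h0
  exact hA S hS hc (hφ (h0.trans (map_zero φ).symm))

theorem pig (X Y : Finset (ZMod p)) (h : p < X.card + Y.card) (c : ZMod p) :
    ∃ x ∈ X, ∃ y ∈ Y, x + y = c := by
  have hi : Function.Injective fun y : ZMod p => c - y := sub_right_injective
  by_contra hc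
  have hd : Disjoint X (Y.image fun y => c - y) := by
    refine disjoint_left.2 fun x hx hx' => ?_
    obtain ⟨y, hy, rfl⟩ := mem_image.1 hx'
    exact hc ⟨_, hx, y, hy, sub_add_cancel c y⟩
  have h1 := card_le_univ (X ∪ Y.image fun y => c - y)
  rw [card_union_of_disjoint hd, card_image_of_injective _ hi, ZMod.card] at h1
  omega

theorem sums_ge {α : Type*} [DecidableEq α] (y : α → ZMod p) (B : Finset α)
    (hy : Set.InjOn y B) (t : ℕ) (h1 : 1 ≤ t) (h2 : t < B.card) : ∃ X : Finset (ZMod p),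
      B.card ≤ X.card + 1 ∧ ∀ x ∈ X, ∃ T ⊆ B, T.card = t ∧ ∑ a ∈ T, y a = x := by
  obtain ⟨B2, hB2, c2⟩ := exists_subset_card_eq h2.le
  have hp : B.card ≤ p := by
    have := card_le_univ (B.image y)
    rwa [card_image_of_injOn hy, ZMod.card] at this
  have c1 : (B \ B2).card = B.card - t := by rw [card_sdiff_of_subset hB2, c2]
  have d1 : ((B \ B2).image y).card = B.card - t := by
    rw [card_image_of_injOn (hy.mono (coe_subset.2 sdiff_subset)), c1]
  have d2 : (B2.image fun b => ∑ a ∈ B2, y a - y b).card = t := by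
    rw [card_image_of_injOn, c2]
    exact fun a ha b hb h => hy (hB2 ha) (hB2 hb) (sub_right_injective h)
  have cd := ZMod.cauchy_davenport (Fact.out : p.Prime)
    (card_pos.1 (by omega : 0 < ((B \ B2).image y).card))
    (card_pos.1 (by omega : 0 < (B2.image fun b => ∑ a ∈ B2, y a - y b).card))
  refine ⟨_, le_trans ?_ (Nat.add_le_add_right cd 1), fun x hx => ?_⟩
  · rw [d1, d2]
    omega
  · obtain ⟨u, hu, w, hw, rfl⟩ := mem_add.1 hx
    obtain ⟨a, ha, rfl⟩ := mem_image.1 hu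
    obtain ⟨b, hb, rfl⟩ := mem_image.1 hw
    have hn : a ∉ B2.erase b := fun h => (mem_sdiff.1 ha).2 (mem_of_mem_erase h)
    refine ⟨insert a (B2.erase b), insert_subset (mem_sdiff.1 ha).1 ((erase_subset _ _).trans hB2),
      ?_, ?_⟩
    · rw [card_insert_of_notMem hn, card_erase_of_mem hb]
      omega
    · rw [sum_insert hn, ← add_sum_erase B2 y hb]
      ring

theorem EXfix_inj (A : Finset (ZMod p × ZMod p × ZMod p)) (c : ZMod p × ZMod p) :
    Set.InjOn Prod.fst (ln A c : Set (ZMod p × ZMod p × ZMod p)) := fun _ ha _ hb h =>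
  Prod.ext h ((mem_filter.1 ha).2.trans (mem_filter.1 hb).2.symm)

theorem EXfix_snd {A S : Finset (ZMod p × ZMod p × ZMod p)} {c : ZMod p × ZMod p}
    (h : S ⊆ ln A c) : ∑ a ∈ S, a.2 = S.card • c :=
  sum_eq_card_nsmul fun _ ha => (mem_filter.1 (h ha)).2

theorem EXfix_union {A A' R S S' : Finset (ZMod p × ZMod p × ZMod p)} {c c' : ZMod p × ZMod p}
    (hcc : c ≠ c') (hR : ∀ a ∈ R, a.2 ≠ c ∧ a.2 ≠ c') (hS : S ⊆ ln A c) (hS' : S' ⊆ ln A' c') :
    Disjoint R (S ∪ S') ∧ Disjoint S S' := by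
  refine ⟨disjoint_left.2 fun a ha h => ?_, disjoint_left.2 fun a ha h => ?_⟩
  · rcases mem_union.1 h with h | h
    · exact (hR a ha).1 (mem_filter.1 (hS h)).2
    · exact (hR a ha).2 (mem_filter.1 (hS' h)).2
  · exact hcc ((mem_filter.1 (hS ha)).2.symm.trans (mem_filter.1 (hS' h)).2)

theorem ln_lt (hp : 2 < p) (A : Finset (ZMod p × ZMod p × ZMod p)) (hA : WeaklyZeroSumFree p A)
    (c : ZMod p × ZMod p) : (ln A c).card < p := by
  by_contra hc
  have hi := EXfix_inj A c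
  have h1 : ((ln A c).image Prod.fst).card = (ln A c).card := card_image_of_injOn hi
  have h2 := card_le_univ ((ln A c).image Prod.fst)
  rw [ZMod.card] at h2
  have h3 : (ln A c).card = p := by omega
  have h4 : (ln A c).image Prod.fst = univ :=
    eq_univ_of_card _ (by rw [h1, h3, ZMod.card])
  refine hA (ln A c) (filter_subset _ _) h3 (Prod.ext ?_ ?_)
  · have h5 := FiniteField.sum_pow_lt_card_sub_one (ZMod p) 1 (by rw [ZMod.card]; omega)
    simp only [pow_one] at h5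
    rw [← h4, sum_image hi] at h5
    rw [Prod.fst_sum]
    exact h5
  · rw [Prod.snd_sum, EXfix_snd (subset_refl _), h3]
    refine Prod.ext ?_ ?_ <;> simp

theorem fix (A : Finset (ZMod p × ZMod p × ZMod p)) (hA : WeaklyZeroSumFree p A)
    (T : Finset (ZMod p × ZMod p × ZMod p)) (hT : T ⊆ A) (hc : T.card = p)
    (hs : ∑ a ∈ T, a.2 = 0) (c c' : ZMod p × ZMod p) (hcc : c ≠ c')
    (hbig : p + 2 < (ln A c).card + (ln A c').card) (h1 : ∃ a ∈ T, a.2 = c)
    (h2 : ∃ a ∈ A, a.2 = c ∧ a ∉ T) (h3 : ∃ a ∈ T, a.2 = c')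
    (h4 : ∃ a ∈ A, a.2 = c' ∧ a ∉ T) : False := by
  have key : ∀ d : ZMod p × ZMod p, (∃ a ∈ T, a.2 = d) → (∃ a ∈ A, a.2 = d ∧ a ∉ T) →
      ∃ X : Finset (ZMod p), (ln A d).card ≤ X.card + 1 ∧
        ∀ x ∈ X, ∃ S ⊆ ln A d, S.card = (ln T d).card ∧ ∑ a ∈ S, a.1 = x := by
    rintro d ⟨a, ha, ha'⟩ ⟨b, hb, hb', hb''⟩
    refine sums_ge Prod.fst _ (EXfix_inj A d) _ (card_pos.2 ⟨a, mem_filter.2 ⟨ha, ha'⟩⟩)
      (card_lt_card ⟨filter_subset_filter _ hT, fun h => ?_⟩)
    exact hb'' (mem_filter.1 (h (mem_filter.2 ⟨hb, hb'⟩))).1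
  obtain ⟨X, hX, hX'⟩ := key c h1 h2
  obtain ⟨Y, hY, hY'⟩ := key c' h3 h4
  obtain ⟨x, hx, y, hy, hxy⟩ := pig X Y (by omega)
    (-∑ a ∈ T.filter (fun a => a.2 ≠ c ∧ a.2 ≠ c'), a.1)
  obtain ⟨S, hS, cS, sS⟩ := hX' x hx
  obtain ⟨S', hS', cS', sS'⟩ := hY' y hy
  obtain ⟨u1, u2⟩ := EXfix_union hcc (R := T.filter fun a => a.2 ≠ c ∧ a.2 ≠ c')
    (fun a ha => (mem_filter.1 ha).2) hS hS'
  obtain ⟨v1, v2⟩ := EXfix_union hcc (R := T.filter fun a => a.2 ≠ c ∧ a.2 ≠ c')
    (fun a ha => (mem_filter.1 ha).2) (subset_refl (ln T c)) (subset_refl (ln T c'))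
  have hT' : T.filter (fun a => a.2 ≠ c ∧ a.2 ≠ c') ∪ (ln T c ∪ ln T c') = T := by
    ext a
    simp only [ln, mem_union, mem_filter]
    tauto
  refine hA (T.filter (fun a => a.2 ≠ c ∧ a.2 ≠ c') ∪ (S ∪ S'))
    (union_subset ((filter_subset _ _).trans hT)
      (union_subset (hS.trans (filter_subset _ _)) (hS'.trans (filter_subset _ _)))) ?_
    (Prod.ext ?_ ?_)
  · have := congrArg card hT'
    rw [card_union_of_disjoint v1, card_union_of_disjoint v2] at this
    rw [card_union_of_disjoint u1, card_union_of_disjoint u2, cS, cS', this]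
    exact hc
  · rw [Prod.fst_sum, sum_union u1, sum_union u2, sS, sS', hxy]
    exact add_neg_cancel _
  · have := congrArg (fun U => ∑ a ∈ U, a.2) hT'
    rw [sum_union v1, sum_union v2, EXfix_snd (subset_refl _), EXfix_snd (subset_refl _), hs]
      at this
    rw [Prod.snd_sum, sum_union u1, sum_union u2, EXfix_snd hS, EXfix_snd hS', cS, cS']
    exact this

end Pool.Agent.MP_f9a021_co.EX
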