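import Pool.Agent.MP_f9a021_co.EXcd
import Pool.Agent.MP_f9a021_co.EXfix

open Finset

set_option linter.unusedSectionVars false

namespace Pool.Agent.MP_f9a021_co.EX

variable {p : ℕ} [Fact p.Prime]

lemma EXe3_sub {α : Type*} [DecidableEq α] (f : α → ℕ) (D : ℕ) (R : Finset α)
    (h : ∀ a ∈ R, f a ≤ D) (hs : D < ∑ a ∈ R, f a) :
    ∃ S ⊆ R, D < ∑ a ∈ S, f a ∧ ∑ a ∈ S, f a ≤ 2 * D := by
  induction R using Finset.induction_on with
  | empty => simp at hs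
  | insert a s ha ih =>
    by_cases hc : D < ∑ a ∈ s, f a
    · obtain ⟨S, h1, h2⟩ := ih (fun b hb => h b (mem_insert_of_mem hb)) hc
      exact ⟨S, h1.trans (subset_insert _ _), h2⟩
    · refine ⟨insert a s, Subset.rfl, hs, ?_⟩
      have := h a (mem_insert_self _ _)
      rw [sum_insert ha]
      omega

lemma EXe3_card (ρ : ZMod p) (h : ρ ≠ 0) (n : ℕ) (hn : n ≤ p) :
    ((range n).image (fun t : ℕ => ρ * (t : ZMod p))).card = n := by
  rw [card_image_of_injOn, card_range]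
  intro a ha b hb hab
  have h1 : (a : ZMod p) = b := mul_left_cancel₀ h hab
  have h2 := congrArg ZMod.val h1
  have ha' : a < p := lt_of_lt_of_le (mem_range.1 ha) hn
  have hb' : b < p := lt_of_lt_of_le (mem_range.1 hb) hn
  rwa [ZMod.val_cast_of_lt ha', ZMod.val_cast_of_lt hb'] at h2

lemma EXe3_min (N : ZMod p → ℕ) (j : ℕ) (ρ : ZMod p) (h : ρ ≠ 0)
    (hN : ∑ g, N g ≤ j + N 0 + N ρ) :
    ∑ g, min j (N g) + N 0 + N ρ = min j (N 0) + min j (N ρ) + ∑ g, N g := by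
  have key : ∀ F : ZMod p → ℕ, ∑ g, F g = F 0 + F ρ + ∑ g ∈ (univ.erase 0).erase ρ, F g := by
    intro F
    rw [add_assoc, add_sum_erase _ F (mem_erase.2 ⟨h, mem_univ _⟩), add_sum_erase _ F (mem_univ _)]
  have h1 := key N
  have h2 := key (fun g => min j (N g))
  have h3 : ∑ g ∈ (univ.erase 0).erase ρ, min j (N g) = ∑ g ∈ (univ.erase 0).erase ρ, N g := by
    refine sum_congr rfl fun g hg => min_eq_right ?_
    have := single_le_sum (f := N) (fun _ _ => Nat.zero_le _) hg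
    omega
  omega

lemma EXe3_out {A S : Finset (ZMod p × ZMod p × ZMod p)} {c : ZMod p × ZMod p}
    (h : S.card < (ln A c).card) : ∃ a ∈ A, a.2 = c ∧ a ∉ S := by
  obtain ⟨a, ha, hs⟩ := exists_mem_notMem_of_card_lt_card h
  exact ⟨a, (mem_filter.1 ha).1, (mem_filter.1 ha).2, hs⟩

lemma EXe3_build (hp : 1000 ≤ p) (A : Finset (ZMod p × ZMod p × ZMod p))
    (hA : WeaklyZeroSumFree p A)
    (h00 : 99 * p ≤ 100 * (ln A (0, 0)).card) (h10 : 99 * p ≤ 100 * (ln A (1, 0)).card)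
    (c : ZMod p) (hc : 99 * p ≤ 100 * (ln A (c, 1)).card)
    (R : Finset (ZMod p × ZMod p × ZMod p)) (hRA : R ⊆ A) (hR : ∀ a ∈ R, 2 ≤ a.2.2.val)
    (Z : ℕ) (hZ : ∑ a ∈ R, a.2.2.val = Z) (hk : R.card < Z) (hZp : 2 * Z ≤ p + 1)
    (s : ℕ) (hs : s ≤ Z - R.card) (T : Finset (ZMod p × ZMod p × ZMod p)) (hTA : T ⊆ A)
    (hT : ∀ a ∈ T, a.2.2 = 1) (hTc : T.card = p - Z) (h3 : ∃ a ∈ T, a.2 = (c, 1))
    (h4 : ∃ a ∈ A, a.2 = (c, 1) ∧ a ∉ T)
    (hy : (s : ZMod p) + ∑ a ∈ T, a.2.1 + ∑ a ∈ R, a.2.1 = 0) : False := by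
  obtain ⟨S1, hS1, c1⟩ := exists_subset_card_eq (s := ln A (0, 0)) (n := Z - R.card - s)
    (by omega)
  obtain ⟨S2, hS2, c2⟩ := exists_subset_card_eq (s := ln A (1, 0)) (n := s) (by omega)
  have m1 : ∀ a ∈ S1, a.2 = (0, 0) := fun a ha => (mem_filter.1 (hS1 ha)).2
  have m2 : ∀ a ∈ S2, a.2 = (1, 0) := fun a ha => (mem_filter.1 (hS2 ha)).2
  have r0 : ∀ a ∈ R, a.2.2 ≠ 0 := fun a ha h => by
    have := hR a ha
    rw [h, ZMod.val_zero] at this
    omega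
  have r1 : ∀ a ∈ R, a.2.2 ≠ 1 := fun a ha h => by
    have := hR a ha
    rw [h, ZMod.val_one] at this
    omega
  have d1 : Disjoint S1 S2 := disjoint_left.2 fun a h1 h2 => by
    have := (m1 a h1).symm.trans (m2 a h2)
    exact zero_ne_one (congrArg Prod.fst this)
  have z12 : ∀ a ∈ S1 ∪ S2, a.2.2 = 0 := fun a ha => by
    rcases mem_union.1 ha with h | h
    · rw [m1 a h]
    · rw [m2 a h]
  have d2 : Disjoint T R := disjoint_left.2 fun a h1 h2 => r1 a h2 (hT a h1)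
  have nz : ∀ a ∈ T ∪ R, a.2.2 ≠ 0 := fun a ha => by
    rcases mem_union.1 ha with h | h
    · rw [hT a h]; exact one_ne_zero
    · exact r0 a h
  have d3 : Disjoint (S1 ∪ S2) (T ∪ R) := disjoint_left.2 fun a h1 h2 => nz a h2 (z12 a h1)
  have hsub : S1 ∪ S2 ∪ (T ∪ R) ⊆ A :=
    union_subset (union_subset (hS1.trans (filter_subset _ _)) (hS2.trans (filter_subset _ _)))
      (union_subset hTA hRA)
  have hcard : (S1 ∪ S2 ∪ (T ∪ R)).card = p := by
    rw [card_union_of_disjoint d3, card_union_of_disjoint d1, card_union_of_disjoint d2]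
    omega
  have hsum : ∑ a ∈ S1 ∪ S2 ∪ (T ∪ R), a.2 = 0 := by
    rw [sum_union d3, sum_union d1, sum_union d2, sum_congr rfl m1, sum_congr rfl m2, sum_const,
      sum_const, c2]
    have e : ∑ a ∈ R, a.2.2 = (Z : ZMod p) := by
      rw [← hZ, Nat.cast_sum]
      exact sum_congr rfl fun a _ => (ZMod.natCast_zmod_val _).symm
    have e2 : ((p - Z : ℕ) : ZMod p) + (Z : ZMod p) = 0 := by
      rw [← Nat.cast_add, Nat.sub_add_cancel (by omega), ZMod.natCast_self]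
    refine Prod.ext ?_ ?_
    · simp only [Prod.fst_add, Prod.fst_sum, Prod.smul_mk, smul_zero, nsmul_eq_mul, mul_one,
        Prod.fst_zero, zero_add]
      linear_combination hy
    · simp only [Prod.snd_add, Prod.snd_sum, Prod.smul_mk, smul_zero, Prod.snd_zero, zero_add,
        add_zero]
      rw [e, sum_congr rfl hT, sum_const, hTc, nsmul_eq_mul, mul_one, e2]
  have h3' : ∃ a ∈ S1 ∪ S2 ∪ (T ∪ R), a.2 = (c, 1) := by
    obtain ⟨a, ha, h⟩ := h3
    exact ⟨a, mem_union_right _ (mem_union_left _ ha), h⟩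
  have h4' : ∃ a ∈ A, a.2 = (c, 1) ∧ a ∉ S1 ∪ S2 ∪ (T ∪ R) := by
    obtain ⟨a, ha, h, hn⟩ := h4
    have hz : a.2.2 = 1 := by rw [h]
    refine ⟨a, ha, h, fun hm => ?_⟩
    rcases mem_union.1 hm with h1 | h1
    · exact zero_ne_one ((z12 a h1).symm.trans hz)
    · rcases mem_union.1 h1 with h2 | h2
      · exact hn h2
      · exact r1 a h2 hz
  rcases Nat.eq_zero_or_pos s with h0 | h0
  · refine fix A hA _ hsub hcard hsum (0, 0) (c, 1) (fun h => zero_ne_one (congrArg Prod.snd h))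
      (by omega) ?_ ?_ h3' h4'
    · obtain ⟨a, ha⟩ := card_pos.1 (show 0 < S1.card by omega)
      exact ⟨a, mem_union_left _ (mem_union_left _ ha), m1 a ha⟩
    · obtain ⟨a, ha, h, hn⟩ := EXe3_out (A := A) (S := S1) (c := (0, 0)) (by omega)
      refine ⟨a, ha, h, fun hm => ?_⟩
      rcases mem_union.1 hm with h1 | h1
      · rcases mem_union.1 h1 with h2 | h2
        · exact hn h2
        · exact zero_ne_one (congrArg Prod.fst (h.symm.trans (m2 a h2)))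
      · exact nz a h1 (by rw [h])
  · refine fix A hA _ hsub hcard hsum (1, 0) (c, 1) (fun h => zero_ne_one (congrArg Prod.snd h))
      (by omega) ?_ ?_ h3' h4'
    · obtain ⟨a, ha⟩ := card_pos.1 (show 0 < S2.card by omega)
      exact ⟨a, mem_union_left _ (mem_union_right _ ha), m2 a ha⟩
    · obtain ⟨a, ha, h, hn⟩ := EXe3_out (A := A) (S := S2) (c := (1, 0)) (by omega)
      refine ⟨a, ha, h, fun hm => ?_⟩
      rcases mem_union.1 hm with h1 | h1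
      · rcases mem_union.1 h1 with h2 | h2
        · exact zero_ne_one (congrArg Prod.fst ((m1 a h2).symm.trans h))
        · exact hn h2
      · exact nz a h1 (by rw [h])

lemma EXe3_two (hp : 1000 ≤ p) (A : Finset (ZMod p × ZMod p × ZMod p))
    (hA : WeaklyZeroSumFree p A) (ρ : ZMod p) (r0 : ρ ≠ 0)
    (h00 : 99 * p ≤ 100 * (ln A (0, 0)).card) (h10 : 99 * p ≤ 100 * (ln A (1, 0)).card)
    (h01 : 99 * p ≤ 100 * (ln A (0, 1)).card) (h11 : 99 * p ≤ 100 * (ln A (ρ, 1)).card)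
    (R : Finset (ZMod p × ZMod p × ZMod p)) (hRA : R ⊆ A) (hR : ∀ a ∈ R, 2 ≤ a.2.2.val)
    (Z : ℕ) (hZ : ∑ a ∈ R, a.2.2.val = Z) (hk : R.card < Z) (hZp : 2 * Z ≤ p + 1)
    (s : ℕ) (hs : s ≤ Z - R.card) (t : ℕ) (ht : t ≤ p - Z) (j3 : p - Z < (ln A (0, 1)).card)
    (j4 : p - Z < (ln A (ρ, 1)).card)
    (hy : (s : ZMod p) + ρ * t + ∑ a ∈ R, a.2.1 = 0) : False := by
  obtain ⟨S3, hS3, c3⟩ := exists_subset_card_eq (s := ln A (0, 1)) (n := p - Z - t) (by omega)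
  obtain ⟨S4, hS4, c4⟩ := exists_subset_card_eq (s := ln A (ρ, 1)) (n := t) (by omega)
  have m3 : ∀ a ∈ S3, a.2 = (0, 1) := fun a ha => (mem_filter.1 (hS3 ha)).2
  have m4 : ∀ a ∈ S4, a.2 = (ρ, 1) := fun a ha => (mem_filter.1 (hS4 ha)).2
  have d : Disjoint S3 S4 := disjoint_left.2 fun a h1 h2 =>
    r0 (congrArg Prod.fst ((m4 a h2).symm.trans (m3 a h1)))
  have hsub : S3 ∪ S4 ⊆ A :=
    union_subset (hS3.trans (filter_subset _ _)) (hS4.trans (filter_subset _ _))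
  have hz : ∀ a ∈ S3 ∪ S4, a.2.2 = 1 := fun a ha => by
    rcases mem_union.1 ha with h | h
    · rw [m3 a h]
    · rw [m4 a h]
  have hcard : (S3 ∪ S4).card = p - Z := by
    rw [card_union_of_disjoint d]
    omega
  have hsum : (s : ZMod p) + ∑ a ∈ S3 ∪ S4, a.2.1 + ∑ a ∈ R, a.2.1 = 0 := by
    rw [sum_union d, sum_congr rfl fun a ha => congrArg Prod.fst (m3 a ha),
      sum_congr rfl fun a ha => congrArg Prod.fst (m4 a ha), sum_const, sum_const, c4]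
    simp only [smul_zero, nsmul_eq_mul, zero_add]
    linear_combination hy
  rcases Nat.eq_zero_or_pos t with h0 | h0
  · refine EXe3_build hp A hA h00 h10 0 h01 R hRA hR Z hZ hk hZp s hs _ hsub hz hcard ?_
      (EXe3_out (by omega)) hsum
    obtain ⟨a, ha⟩ := card_pos.1 (show 0 < S3.card by omega)
    exact ⟨a, mem_union_left _ ha, m3 a ha⟩
  · refine EXe3_build hp A hA h00 h10 ρ h11 R hRA hR Z hZ hk hZp s hs _ hsub hz hcard ?_
      (EXe3_out (by omega)) hsum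
    obtain ⟨a, ha⟩ := card_pos.1 (show 0 < S4.card by omega)
    exact ⟨a, mem_union_right _ ha, m4 a ha⟩

lemma EXe3_fib (A : Finset (ZMod p × ZMod p × ZMod p)) (c : ZMod p)
    (u w : ZMod p × ZMod p × ZMod p) (hu : u ∈ ln A (c, 1)) (hw : w.2.1 ≠ c) :
    ((A.filter (fun a => a.2.2 = 1) \ {u, w}).filter (fun a => a.2.1 = c)).card + 1 =
      (ln A (c, 1)).card := by
  rw [← card_erase_add_one hu]
  congr 2
  ext a
  simp only [ln, mem_filter, mem_sdiff, mem_insert, mem_singleton, mem_erase, Prod.ext_iff,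
    not_or, ne_eq]
  constructor
  · rintro ⟨⟨⟨h1, h2⟩, h3, -⟩, h4⟩
    exact ⟨h3, h1, h4, h2⟩
  · rintro ⟨h3, h1, h4, h2⟩
    exact ⟨⟨⟨h1, h2⟩, h3, fun h => hw (h.2.1.symm.trans h4)⟩, h4⟩

lemma EXe3_small (hp : 1000 ≤ p) (A : Finset (ZMod p × ZMod p × ZMod p))
    (hA : WeaklyZeroSumFree p A) (ρ : ZMod p) (r0 : ρ ≠ 0)
    (h00 : 99 * p ≤ 100 * (ln A (0, 0)).card) (h10 : 99 * p ≤ 100 * (ln A (1, 0)).card)
    (h01 : 99 * p ≤ 100 * (ln A (0, 1)).card) (h11 : 99 * p ≤ 100 * (ln A (ρ, 1)).card)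
    (R : Finset (ZMod p × ZMod p × ZMod p)) (hRA : R ⊆ A) (hR : ∀ a ∈ R, 2 ≤ a.2.2.val)
    (Z : ℕ) (hZ : ∑ a ∈ R, a.2.2.val = Z) (hk : 2 * R.card ≤ Z) (hk1 : 1 ≤ R.card)
    (hb : R.card + (A.filter (fun a => a.2.2 = 1)).card + 1 = 2 * p)
    (hD : Z + (ln A (0, 1)).card ≤ p ∨ Z + (ln A (ρ, 1)).card ≤ p) : False := by
  have l3 := ln_lt (by omega) A hA (0, 1)
  have l4 := ln_lt (by omega) A hA (ρ, 1)
  obtain ⟨u, hu⟩ := card_pos.1 (show 0 < (ln A (0, 1)).card by omega)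
  obtain ⟨w, hw⟩ := card_pos.1 (show 0 < (ln A (ρ, 1)).card by omega)
  have hu2 : u.2 = (0, 1) := (mem_filter.1 hu).2
  have hw2 : w.2 = (ρ, 1) := (mem_filter.1 hw).2
  have f3 := EXe3_fib A 0 u w hu (by rw [hw2]; exact r0)
  have f4 := EXe3_fib A ρ w u hw (by rw [hu2]; exact r0.symm)
  rw [pair_comm w u] at f4
  have huw : u ≠ w := fun h => r0 (congrArg Prod.fst (hw2.symm.trans (h ▸ hu2)))
  have hB : (A.filter (fun a => a.2.2 = 1) \ {u, w}).card + 2 =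
      (A.filter (fun a => a.2.2 = 1)).card := by
    rw [← card_pair huw, card_sdiff_add_card_eq_card]
    intro a ha
    rcases mem_insert.1 ha with h | h
    · rw [h]; exact mem_filter.2 ⟨(mem_filter.1 hu).1, by rw [hu2]⟩
    · rw [mem_singleton.1 h]; exact mem_filter.2 ⟨(mem_filter.1 hw).1, by rw [hw2]⟩
  have hmem : ∀ a ∈ A.filter (fun a => a.2.2 = 1) \ {u, w}, a ∈ A ∧ a.2.2 = 1 ∧ a ≠ u ∧ a ≠ w :=
    fun a ha => by
      have h1 := mem_sdiff.1 ha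
      have h2 := mem_filter.1 h1.1
      exact ⟨h2.1, h2.2, fun h => h1.2 (by rw [h]; exact mem_insert_self _ _),
        fun h => h1.2 (by rw [h]; exact mem_insert_of_mem (mem_singleton_self _))⟩
  generalize A.filter (fun a => a.2.2 = 1) \ {u, w} = B at f3 f4 hB hmem
  have hfib : B.card = ∑ g : ZMod p, (B.filter (fun a => a.2.1 = g)).card :=
    card_eq_sum_card_fiberwise fun _ _ => mem_univ _
  have hdis : Disjoint (B.filter (fun a => a.2.1 = 0)) (B.filter (fun a => a.2.1 = ρ)) :=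
    disjoint_left.2 fun a h1 h2 => r0 ((mem_filter.1 h2).2.symm.trans (mem_filter.1 h1).2)
  have hge : (B.filter (fun a => a.2.1 = 0)).card + (B.filter (fun a => a.2.1 = ρ)).card ≤
      B.card := by
    rw [← card_union_of_disjoint hdis]
    exact card_le_card (union_subset (filter_subset _ _) (filter_subset _ _))
  have hmin := EXe3_min (fun g => (B.filter (fun a => a.2.1 = g)).card) (p - Z) ρ r0
    (by rw [← hfib]; omega)
  rw [← hfib] at hmin
  obtain ⟨X, hX, hX2⟩ := cdsum (fun a : ZMod p × ZMod p × ZMod p => a.2.1) (p - Z) B (by omega)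
  have hY := EXe3_card (1 : ZMod p) one_ne_zero (Z - R.card + 1) (by omega)
  obtain ⟨x, hx, y, hy, hxy⟩ := pig X _ (by rw [hY]; omega) (-∑ a ∈ R, a.2.1)
  obtain ⟨s, hs, rfl⟩ := mem_image.1 hy
  obtain ⟨T, hT, hTc, rfl⟩ := hX2 x hx
  have hs' : s ≤ Z - R.card := Nat.lt_succ_iff.1 (mem_range.1 hs)
  have hsum : (s : ZMod p) + ∑ a ∈ T, a.2.1 + ∑ a ∈ R, a.2.1 = 0 := by linear_combination hxy
  have hTA : T ⊆ A := fun a ha => (hmem a (hT ha)).1
  have hT1 : ∀ a ∈ T, a.2.2 = 1 := fun a ha => (hmem a (hT ha)).2.1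
  by_cases c3 : ∃ a ∈ T, a.2.1 = 0
  · obtain ⟨a, ha, h⟩ := c3
    exact EXe3_build hp A hA h00 h10 0 h01 R hRA hR Z hZ (by omega) (by omega) s hs' T hTA hT1 hTc
      ⟨a, ha, Prod.ext h (hT1 a ha)⟩
      ⟨u, (mem_filter.1 hu).1, hu2, fun h => (hmem u (hT h)).2.2.1 rfl⟩ hsum
  by_cases c4 : ∃ a ∈ T, a.2.1 = ρ
  · obtain ⟨a, ha, h⟩ := c4
    exact EXe3_build hp A hA h00 h10 ρ h11 R hRA hR Z hZ (by omega) (by omega) s hs' T hTA hT1 hTc
      ⟨a, ha, Prod.ext h (hT1 a ha)⟩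
      ⟨w, (mem_filter.1 hw).1, hw2, fun h => (hmem w (hT h)).2.2.2 rfl⟩ hsum
  have hd2 : Disjoint T (B.filter (fun a => a.2.1 = 0) ∪ B.filter (fun a => a.2.1 = ρ)) :=
    disjoint_left.2 fun a h1 h2 => by
      rcases mem_union.1 h2 with h | h
      · exact c3 ⟨a, h1, (mem_filter.1 h).2⟩
      · exact c4 ⟨a, h1, (mem_filter.1 h).2⟩
  have := card_le_card (union_subset hT (union_subset (filter_subset (fun a => a.2.1 = 0) B)
    (filter_subset (fun a => a.2.1 = ρ) B)))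
  rw [card_union_of_disjoint hd2, card_union_of_disjoint hdis] at this
  omega

theorem e3side (hp : 1000 ≤ p) (A : Finset (ZMod p × ZMod p × ZMod p))
    (hA : WeaklyZeroSumFree p A) (ρ : ZMod p) (r0 : ρ ≠ 0) (r1 : ρ ≠ 1) (r2 : ρ ≠ -1)
    (h00 : 99 * p ≤ 100 * (ln A (0, 0)).card) (h10 : 99 * p ≤ 100 * (ln A (1, 0)).card)
    (h01 : 99 * p ≤ 100 * (ln A (0, 1)).card) (h11 : 99 * p ≤ 100 * (ln A (ρ, 1)).card)
    (hpl : (A.filter (fun a => a.2.2 = 1)).card + 2 ≤ 2 * p) :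
    (A.filter (fun a => 2 ≤ a.2.2.val ∧ 2 * a.2.2.val ≤ p + 1)).card +
      (A.filter (fun a => a.2.2 = 1)).card + 2 ≤ 2 * p := by
  by_contra hcon
  have l3 := ln_lt (by omega) A hA (0, 1)
  have l4 := ln_lt (by omega) A hA (ρ, 1)
  obtain ⟨R0, hR0, hc0⟩ := exists_subset_card_eq
    (s := A.filter (fun a => 2 ≤ a.2.2.val ∧ 2 * a.2.2.val ≤ p + 1))
    (n := 2 * p - 1 - (A.filter (fun a => a.2.2 = 1)).card) (by omega)
  have hm : ∀ a ∈ R0, a ∈ A ∧ 2 ≤ a.2.2.val ∧ 2 * a.2.2.val ≤ p + 1 :=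
    fun a ha => mem_filter.1 (hR0 ha)
  have h2k : ∀ R ⊆ R0, 2 * R.card ≤ ∑ a ∈ R, a.2.2.val := fun R hR => by
    have := card_nsmul_le_sum R (fun a => a.2.2.val) 2 fun a ha => (hm a (hR ha)).2.1
    rwa [smul_eq_mul, mul_comm] at this
  obtain ⟨D, hD⟩ : ∃ D, D = max (p - (ln A (0, 1)).card) (p - (ln A (ρ, 1)).card) := ⟨_, rfl⟩
  by_cases hA1 : ∃ o ∈ R0, D < o.2.2.val
  · obtain ⟨o, ho, hoD⟩ := hA1
    obtain ⟨m1, m2, m3⟩ := hm o ho
    have hX := EXe3_card (1 : ZMod p) one_ne_zero o.2.2.val (by omega)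
    have hY := EXe3_card ρ r0 (p - o.2.2.val + 1) (by omega)
    obtain ⟨x, hx, y, hy, hxy⟩ := pig _ _ ((show p < o.2.2.val + (p - o.2.2.val + 1) by
      omega).trans_eq (congrArg₂ HAdd.hAdd hX hY).symm) (-o.2.1)
    obtain ⟨s, hs, rfl⟩ := mem_image.1 hx
    obtain ⟨t, ht, rfl⟩ := mem_image.1 hy
    have hs' := mem_range.1 hs
    have ht' := mem_range.1 ht
    refine EXe3_two hp A hA ρ r0 h00 h10 h01 h11 {o} (singleton_subset_iff.2 m1)
      (fun a ha => by rw [mem_singleton.1 ha]; exact m2) o.2.2.val (sum_singleton _ _)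
      (by rw [card_singleton]; omega) m3 s (by rw [card_singleton]; omega) t (by omega)
      (by omega) (by omega) ?_
    rw [sum_singleton]
    linear_combination hxy
  have hle : ∀ a ∈ R0, a.2.2.val ≤ D := fun a ha => not_lt.1 fun h => hA1 ⟨a, ha, h⟩
  by_cases hB1 : D < ∑ a ∈ R0, a.2.2.val
  · obtain ⟨R, hR, z1, z2⟩ := EXe3_sub (fun a : ZMod p × ZMod p × ZMod p => a.2.2.val) D R0 hle hB1
    have z3 := h2k R hR
    obtain ⟨Z, hZ⟩ : ∃ Z, ∑ a ∈ R, a.2.2.val = Z := ⟨_, rfl⟩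
    rw [hZ] at z1 z2 z3
    obtain ⟨s, hs, ht⟩ := interval ρ⁻¹ (-(ρ⁻¹ * ∑ a ∈ R, a.2.1)) (inv_ne_zero r0)
      (fun h => r1 (inv_eq_one.1 h)) (fun h => r2 (by rw [← inv_inv ρ, h, inv_neg, inv_one]))
      (Z - R.card) (p - Z) (Z - 1) (by omega) (by omega) (by omega)
    refine EXe3_two hp A hA ρ r0 h00 h10 h01 h11 R (fun a ha => (hm a (hR ha)).1)
      (fun a ha => (hm a (hR ha)).2.1) Z hZ (by omega) (by omega) s hs _ ht (by omega)
      (by omega) ?_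
    rw [ZMod.natCast_zmod_val]
    have := mul_inv_cancel₀ r0
    linear_combination (-(s : ZMod p) - ∑ a ∈ R, a.2.1) * this
  · exact EXe3_small hp A hA ρ r0 h00 h10 h01 h11 R0 (fun a ha => (hm a ha).1)
      (fun a ha => (hm a ha).2.1) _ rfl (h2k R0 Subset.rfl) (by omega) (by omega) (by omega)

end Pool.Agent.MP_f9a021_co.EX
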