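import Pool.Agent.MP_f9a021_co.EXe3
import Pool.Agent.MP_f9a021_co.EXfix

open Finset

set_option linter.unusedSectionVars false

namespace Pool.Agent.MP_f9a021_co.EX

variable {p : ℕ} [Fact p.Prime]

theorem EXe4_val (z : ZMod p) (h : 2 ≤ z.val) : (-z + 1).val = p + 1 - z.val := by
  have h1 := ZMod.val_lt z
  have h2 : -z + 1 = ((p + 1 - z.val : ℕ) : ZMod p) := by
    rw [Nat.cast_sub (by omega), Nat.cast_add, ZMod.natCast_self, ZMod.natCast_zmod_val]
    push_cast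
    ring
  rw [h2, ZMod.val_cast_of_lt (by omega)]

theorem EXe4_two (z : ZMod p) (h0 : z ≠ 0) (h1 : z ≠ 1) : 2 ≤ z.val := by
  by_contra hc
  have h2 : z.val = 0 ∨ z.val = 1 := by omega
  rcases h2 with h | h
  · exact h0 ((ZMod.val_eq_zero z).1 h)
  · apply h1
    rw [← ZMod.natCast_zmod_val z, h, Nat.cast_one]

theorem EXe4_le {α : Type*} [DecidableEq α] (A : Finset α) (f : α → α)
    (hf : Function.Injective f) (P Q : α → Prop) [DecidablePred P] [DecidablePred Q]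
    (h : ∀ a, P a → Q (f a)) : (A.filter P).card ≤ ((A.image f).filter Q).card :=
  card_le_card_of_injOn f (fun a ha => by
    have ha' := mem_filter.1 (mem_coe.1 ha)
    exact mem_coe.2 (mem_filter.2 ⟨mem_image_of_mem f ha'.1, h a ha'.2⟩)) hf.injOn

theorem EXe4_ge {α : Type*} [DecidableEq α] (A : Finset α) (f : α → α)
    (P Q : α → Prop) [DecidablePred P] [DecidablePred Q]
    (h : ∀ a, Q (f a) → P a) : ((A.image f).filter Q).card ≤ (A.filter P).card := by
  refine le_trans (card_le_card fun b hb => ?_) (card_image_le (s := A.filter P) (f := f))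
  obtain ⟨h1, h2⟩ := mem_filter.1 hb
  obtain ⟨a, ha, rfl⟩ := mem_image.1 h1
  exact mem_image_of_mem f (mem_filter.2 ⟨ha, h a h2⟩)

theorem EXe4_out {α : Type*} (S T : Finset α) (h : S.card < T.card) : ∃ a ∈ T, a ∉ S := by
  by_contra hc
  have : T ⊆ S := fun a ha => by
    by_contra h'
    exact hc ⟨a, ha, h'⟩
  exact absurd (card_le_card this) (not_le.2 h)

theorem e4side (hp : 1000 ≤ p) (A : Finset (ZMod p × ZMod p × ZMod p))
    (hA : WeaklyZeroSumFree p A) (x1 y3 y4 : ZMod p) (hy : y3 ≠ y4)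
    (h1 : 99 * p ≤ 100 * (A.filter (fun a => a.1 = x1 ∧ a.2.2 = 0)).card)
    (h3 : 99 * p ≤ 100 * (ln A (y3, 1)).card) (h4 : 99 * p ≤ 100 * (ln A (y4, 1)).card)
    (o : ZMod p × ZMod p × ZMod p) (ho : o ∈ A) (o1 : 2 ≤ o.2.2.val)
    (o2 : 2 * o.2.2.val ≤ p + 1) : False := by
  have l3 := ln_lt (by omega) A hA (y3, 1)
  have l4 := ln_lt (by omega) A hA (y4, 1)
  have oz0 : o.2.2 ≠ 0 := fun h => by rw [h, ZMod.val_zero] at o1; omega
  have oz1 : o.2.2 ≠ 1 := fun h => by rw [h, ZMod.val_one] at o1; omega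
  obtain ⟨j, hj⟩ : ∃ j, j + o.2.2.val = p := ⟨p - o.2.2.val, by omega⟩
  obtain ⟨X, hX1, hX2⟩ := sums_ge (p := p) (fun a : ZMod p × ZMod p × ZMod p => a.2.1)
    (A.filter (fun a => a.1 = x1 ∧ a.2.2 = 0)) (fun a ha b hb e => by
      have ha' := (mem_filter.1 (mem_coe.1 ha)).2
      have hb' := (mem_filter.1 (mem_coe.1 hb)).2
      exact Prod.ext (ha'.1.trans hb'.1.symm) (Prod.ext e (ha'.2.trans hb'.2.symm)))
    (o.2.2.val - 1) (by omega) (by omega)
  have hYc : ((Icc (max 1 (j + 1 - (ln A (y3, 1)).card)) (min (j - 1) ((ln A (y4, 1)).card - 1))).image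
      fun t : ℕ => ((j : ZMod p) - t) * y3 + (t : ZMod p) * y4).card =
      min (j - 1) ((ln A (y4, 1)).card - 1) + 1 - max 1 (j + 1 - (ln A (y3, 1)).card) := by
    rw [card_image_of_injOn, Nat.card_Icc]
    intro t ht t' ht' e
    have a1 := (mem_Icc.1 (mem_coe.1 ht)).2
    have a2 := (mem_Icc.1 (mem_coe.1 ht')).2
    have e' : ((j : ZMod p) - t) * y3 + (t : ZMod p) * y4 =
      ((j : ZMod p) - t') * y3 + (t' : ZMod p) * y4 := e
    have a3 : ((t : ZMod p) - t') * (y4 - y3) = 0 := by linear_combination e'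
    have a4 : (t : ZMod p) = t' :=
      sub_eq_zero.1 ((mul_eq_zero.1 a3).resolve_right (sub_ne_zero.2 hy.symm))
    have a5 := congrArg ZMod.val a4
    rwa [ZMod.val_cast_of_lt (by omega), ZMod.val_cast_of_lt (by omega)] at a5
  obtain ⟨x, hx, y, hyY, hxy⟩ := pig X _ (by rw [hYc]; omega) (-o.2.1)
  obtain ⟨t, ht, rfl⟩ := mem_image.1 hyY
  obtain ⟨t1, t2⟩ := mem_Icc.1 ht
  obtain ⟨S, hS, hSc, hSs⟩ := hX2 x hx
  obtain ⟨T3, hT3, c3⟩ := exists_subset_card_eq (s := ln A (y3, 1)) (n := j - t) (by omega)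
  obtain ⟨T4, hT4, c4⟩ := exists_subset_card_eq (s := ln A (y4, 1)) (n := t) (by omega)
  have mS : ∀ a ∈ S, a ∈ A ∧ a.2.2 = 0 := fun a ha =>
    ⟨(mem_filter.1 (hS ha)).1, (mem_filter.1 (hS ha)).2.2⟩
  have m3 : ∀ a ∈ T3, a ∈ A ∧ a.2 = (y3, 1) := fun a ha => mem_filter.1 (hT3 ha)
  have m4 : ∀ a ∈ T4, a ∈ A ∧ a.2 = (y4, 1) := fun a ha => mem_filter.1 (hT4 ha)
  have hcc : ((y3, 1) : ZMod p × ZMod p) ≠ (y4, 1) := fun e => hy (congrArg Prod.fst e)
  have nS : ∀ (c : ZMod p) (a : ZMod p × ZMod p × ZMod p), a.2 = (c, 1) → a ∉ S ∧ a ≠ o := by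
    intro c a e
    have e2 : a.2.2 = 1 := congrArg Prod.snd e
    exact ⟨fun h => one_ne_zero (e2.symm.trans (mS a h).2), fun h => oz1 (h ▸ e2)⟩
  have d34 : Disjoint T3 T4 := disjoint_left.2 fun a a3 a4 =>
    hcc ((m3 a a3).2.symm.trans (m4 a a4).2)
  have dS : Disjoint S (T3 ∪ T4) := disjoint_left.2 fun a ha hb => by
    rcases mem_union.1 hb with h | h
    · exact (nS _ a (m3 a h).2).1 ha
    · exact (nS _ a (m4 a h).2).1 ha
  have dO : o ∉ S ∪ (T3 ∪ T4) := by
    intro h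
    rcases mem_union.1 h with h | h
    · exact oz0 (mS o h).2
    · rcases mem_union.1 h with h | h
      · exact (nS _ o (m3 o h).2).2 rfl
      · exact (nS _ o (m4 o h).2).2 rfl
  refine fix A hA (insert o (S ∪ (T3 ∪ T4))) ?_ ?_ ?_ (y3, 1) (y4, 1) hcc (by omega) ?_ ?_ ?_ ?_
  · exact insert_subset ho (union_subset (fun a h => (mS a h).1)
      (union_subset (fun a h => (m3 a h).1) fun a h => (m4 a h).1))
  · rw [card_insert_of_notMem dO, card_union_of_disjoint dS, card_union_of_disjoint d34]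
    omega
  · rw [sum_insert dO, sum_union dS, sum_union d34, sum_congr rfl fun a h => (m3 a h).2,
      sum_congr rfl fun a h => (m4 a h).2, sum_const, sum_const, c3, c4]
    have e1 : ((j - t : ℕ) : ZMod p) = (j : ZMod p) - t := Nat.cast_sub (by omega)
    have e2 : (j : ZMod p) + o.2.2 = 0 := by
      have := congrArg (Nat.cast : ℕ → ZMod p) hj
      rwa [Nat.cast_add, ZMod.natCast_zmod_val, ZMod.natCast_self] at this
    have e3 : ∑ a ∈ S, a.2.2 = 0 := sum_eq_zero fun a h => (mS a h).2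
    refine Prod.ext ?_ ?_
    · simp only [Prod.fst_add, Prod.fst_sum, Prod.smul_fst, Prod.fst_zero, hSs]
      rw [nsmul_eq_mul, nsmul_eq_mul, e1]
      linear_combination hxy
    · simp only [Prod.snd_add, Prod.snd_sum, Prod.smul_snd, Prod.snd_zero, e3]
      rw [nsmul_eq_mul, nsmul_eq_mul, e1]
      linear_combination e2
  · obtain ⟨a, ha⟩ : T3.Nonempty := card_pos.1 (by omega)
    exact ⟨a, mem_insert_of_mem (mem_union_right _ (mem_union_left _ ha)), (m3 a ha).2⟩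
  · obtain ⟨a, ha, hn⟩ := EXe4_out T3 (ln A (y3, 1)) (by omega)
    obtain ⟨b1, b2⟩ := mem_filter.1 ha
    refine ⟨a, b1, b2, fun h => ?_⟩
    rcases mem_insert.1 h with h | h
    · exact (nS _ a b2).2 h
    · rcases mem_union.1 h with h | h
      · exact (nS _ a b2).1 h
      · rcases mem_union.1 h with h | h
        · exact hn h
        · exact hcc (b2.symm.trans (m4 a h).2)
  · obtain ⟨a, ha⟩ : T4.Nonempty := card_pos.1 (by omega)
    exact ⟨a, mem_insert_of_mem (mem_union_right _ (mem_union_right _ ha)), (m4 a ha).2⟩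
  · obtain ⟨a, ha, hn⟩ := EXe4_out T4 (ln A (y4, 1)) (by omega)
    obtain ⟨b1, b2⟩ := mem_filter.1 ha
    refine ⟨a, b1, b2, fun h => ?_⟩
    rcases mem_insert.1 h with h | h
    · exact (nS _ a b2).2 h
    · rcases mem_union.1 h with h | h
      · exact (nS _ a b2).1 h
      · rcases mem_union.1 h with h | h
        · exact hcc ((m3 a h).2.symm.trans b2)
        · exact hn h

theorem EXe4_v : p • ((0, 0, 1) : ZMod p × ZMod p × ZMod p) = 0 := by
  refine Prod.ext ?_ (Prod.ext ?_ ?_) <;> simp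

theorem e4 (hp : 1000 ≤ p) (A : Finset (ZMod p × ZMod p × ZMod p))
    (hA : WeaklyZeroSumFree p A) (x1 x2 y3 y4 : ZMod p) (hx : x1 ≠ x2) (hy : y3 ≠ y4)
    (h1 : 99 * p ≤ 100 * (A.filter (fun a => a.1 = x1 ∧ a.2.2 = 0)).card)
    (h2 : 99 * p ≤ 100 * (A.filter (fun a => a.1 = x2 ∧ a.2.2 = 0)).card)
    (h3 : 99 * p ≤ 100 * (ln A (y3, 1)).card) (h4 : 99 * p ≤ 100 * (ln A (y4, 1)).card)
    (hpl : ∀ c, (A.filter (fun a => a.2.2 = c)).card + 2 ≤ 2 * p) : A.card + 4 ≤ 4 * p := by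
  let φ : (ZMod p × ZMod p × ZMod p) →+ (ZMod p × ZMod p × ZMod p) :=
    { toFun := fun a => (a.2.1, a.1, -a.2.2)
      map_zero' := by simp
      map_add' := fun a b => by simp [add_comm] }
  have hφ : Function.Injective φ := by
    intro a b e
    have e0 := congrArg Prod.fst e
    have e1 : a.2.1 = b.2.1 := e0
    have e2 : a.1 = b.1 := congrArg (fun t => t.2.1) e
    have e3 : -a.2.2 = -b.2.2 := congrArg (fun t => t.2.2) e
    exact Prod.ext e2 (Prod.ext e1 (neg_injective e3))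
  have hf : Function.Injective fun a => φ a + (0, 0, 1) := fun a b e => hφ (add_right_cancel e)
  have hA' := zsf_image p φ hφ (0, 0, 1) EXe4_v A hA
  have ef : ∀ a, φ a + (0, 0, 1) = (a.2.1, a.1, -a.2.2 + 1) := fun a =>
    Prod.ext (add_zero _) (Prod.ext (add_zero _) rfl)
  have key : ∀ o ∈ A, o.2.2 = 0 ∨ o.2.2 = 1 := by
    intro o ho
    by_contra hc
    have o1 := EXe4_two o.2.2 (fun h => hc (Or.inl h)) fun h => hc (Or.inr h)
    by_cases o2 : 2 * o.2.2.val ≤ p + 1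
    · exact e4side hp A hA x1 y3 y4 hy h1 h3 h4 o ho o1 o2
    · have o3 := ZMod.val_lt o.2.2
      have g : ∀ x : ZMod p, (A.filter (fun a => a.1 = x ∧ a.2.2 = 0)).card ≤
          (ln (A.image fun a => φ a + (0, 0, 1)) (x, 1)).card := fun x =>
        EXe4_le A _ hf _ _ fun a h => by rw [ef, h.1, h.2, neg_zero, zero_add]
      have g0 : (ln A (y3, 1)).card ≤ ((A.image fun a => φ a + (0, 0, 1)).filter
          (fun a => a.1 = y3 ∧ a.2.2 = 0)).card :=
        EXe4_le A _ hf _ _ fun a h => by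
          rw [ef, h]
          exact ⟨rfl, neg_add_cancel 1⟩
      have g1 := g x1
      have g2 := g x2
      refine e4side hp _ hA' y3 x1 x2 hx (by omega) (by omega) (by omega) _
        (mem_image_of_mem _ ho) ?_ ?_
      · rw [ef, EXe4_val _ o1]; omega
      · rw [ef, EXe4_val _ o1]; omega
  have hs : A ⊆ A.filter (fun a => a.2.2 = 0) ∪ A.filter (fun a => a.2.2 = 1) := fun a ha =>
    mem_union.2 ((key a ha).imp (fun h => mem_filter.2 ⟨ha, h⟩) fun h => mem_filter.2 ⟨ha, h⟩)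
  have b1 := (card_le_card hs).trans (card_union_le _ _)
  have b2 := hpl 0
  have b3 := hpl 1
  omega

theorem e3 (hp : 1000 ≤ p) (A : Finset (ZMod p × ZMod p × ZMod p))
    (hA : WeaklyZeroSumFree p A) (ρ : ZMod p) (r0 : ρ ≠ 0) (r1 : ρ ≠ 1) (r2 : ρ ≠ -1)
    (h00 : 99 * p ≤ 100 * (ln A (0, 0)).card) (h10 : 99 * p ≤ 100 * (ln A (1, 0)).card)
    (h01 : 99 * p ≤ 100 * (ln A (0, 1)).card) (h11 : 99 * p ≤ 100 * (ln A (ρ, 1)).card)
    (hpl : ∀ c, (A.filter (fun a => a.2.2 = c)).card + 2 ≤ 2 * p) : A.card + 4 ≤ 4 * p := by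
  let φ : (ZMod p × ZMod p × ZMod p) →+ (ZMod p × ZMod p × ZMod p) :=
    { toFun := fun a => (a.1, ρ⁻¹ * a.2.1, -a.2.2)
      map_zero' := by simp
      map_add' := fun a b => by simp [mul_add, add_comm] }
  have hφ : Function.Injective φ := by
    intro a b e
    have e0 := congrArg Prod.fst e
    have e1 : a.1 = b.1 := e0
    have e2 : ρ⁻¹ * a.2.1 = ρ⁻¹ * b.2.1 := congrArg (fun t => t.2.1) e
    have e3 : -a.2.2 = -b.2.2 := congrArg (fun t => t.2.2) e
    exact Prod.ext e1 (Prod.ext (mul_left_cancel₀ (inv_ne_zero r0) e2) (neg_injective e3))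
  have hf : Function.Injective fun a => φ a + (0, 0, 1) := fun a b e => hφ (add_right_cancel e)
  have hA' := zsf_image p φ hφ (0, 0, 1) EXe4_v A hA
  have ef : ∀ a, φ a + (0, 0, 1) = (a.1, ρ⁻¹ * a.2.1, -a.2.2 + 1) := fun a =>
    Prod.ext (add_zero _) (Prod.ext (add_zero _) rfl)
  have g : ∀ y z : ZMod p, (ln A (y, z)).card ≤
      (ln (A.image fun a => φ a + (0, 0, 1)) (ρ⁻¹ * y, -z + 1)).card := fun y z =>
    EXe4_le A _ hf _ _ fun a h => by rw [ef, h]
  have g00 := g 0 0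
  have g10 := g 1 0
  have g01 := g 0 1
  have g11 := g ρ 1
  rw [mul_zero, neg_zero, zero_add] at g00
  rw [mul_one, neg_zero, zero_add] at g10
  rw [mul_zero, neg_add_cancel] at g01
  rw [inv_mul_cancel₀ r0, neg_add_cancel] at g11
  have k1 : ((A.image fun a => φ a + (0, 0, 1)).filter (fun a => a.2.2 = 1)).card ≤
      (A.filter (fun a => a.2.2 = 0)).card :=
    EXe4_ge A _ _ _ fun a h => by
      rw [ef] at h
      have h' : -a.2.2 + 1 = 1 := h
      linear_combination -h'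
  have k2 : (A.filter (fun a => a.2.2 = 0)).card ≤
      ((A.image fun a => φ a + (0, 0, 1)).filter (fun a => a.2.2 = 1)).card :=
    EXe4_le A _ hf _ _ fun a h => by rw [ef, h, neg_zero, zero_add]
  have k3 : (A.filter (fun a => 2 ≤ a.2.2.val ∧ p + 1 < 2 * a.2.2.val)).card ≤
      ((A.image fun a => φ a + (0, 0, 1)).filter
        (fun a => 2 ≤ a.2.2.val ∧ 2 * a.2.2.val ≤ p + 1)).card :=
    EXe4_le A _ hf _ _ fun a h => by
      have := ZMod.val_lt a.2.2
      rw [ef, EXe4_val _ h.1]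
      omega
  have b0 := hpl 0
  have s1 := e3side hp A hA ρ r0 r1 r2 h00 h10 h01 h11 (hpl 1)
  have s2 := e3side hp _ hA' ρ⁻¹ (inv_ne_zero r0) (fun h => r1 (inv_eq_one.1 h))
    (fun h => r2 (by rw [← inv_inv ρ, h, inv_neg_one])) (by omega) (by omega) (by omega)
    (by omega) (by omega)
  have hs : A ⊆ (A.filter (fun a => a.2.2 = 0) ∪ A.filter (fun a => a.2.2 = 1)) ∪
      (A.filter (fun a => 2 ≤ a.2.2.val ∧ 2 * a.2.2.val ≤ p + 1) ∪
        A.filter (fun a => 2 ≤ a.2.2.val ∧ p + 1 < 2 * a.2.2.val)) := by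
    intro a ha
    by_cases c0 : a.2.2 = 0
    · exact mem_union_left _ (mem_union_left _ (mem_filter.2 ⟨ha, c0⟩))
    by_cases c1 : a.2.2 = 1
    · exact mem_union_left _ (mem_union_right _ (mem_filter.2 ⟨ha, c1⟩))
    have c2 := EXe4_two _ c0 c1
    by_cases c3 : 2 * a.2.2.val ≤ p + 1
    · exact mem_union_right _ (mem_union_left _ (mem_filter.2 ⟨ha, c2, c3⟩))
    · exact mem_union_right _ (mem_union_right _ (mem_filter.2 ⟨ha, c2, not_le.1 c3⟩))
  have b1 := (card_le_card hs).trans ((card_union_le _ _).trans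
    (add_le_add (card_union_le _ _) (card_union_le _ _)))
  omega

end Pool.Agent.MP_f9a021_co.EX
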