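import Pool.Agent.Mg.Ff9a021.G0be2c2
import Pool.Agent.MP_f9a021_co.EXfix

open Finset Module

set_option linter.unusedSectionVars false

namespace Pool.Agent.MP_f9a021_co.EX

variable {p : ℕ} [Fact p.Prime] {G : Type*} [AddCommGroup G] [Module (ZMod p) G] [Fintype G]
  [DecidableEq G]

/-- Two independent vectors of the kernel of `z` span it. -/
theorem ker_inj (hG : finrank (ZMod p) G = 3) (x y z : G →ₗ[ZMod p] ZMod p) (hz : z ≠ 0)
    (w e : G) (zw : z w = 0) (ze : z e = 0) (yw : y w = 0) (ye : y e ≠ 0) (xw : x w ≠ 0) (v : G) :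
    (y v = 0 → z v = 0 → v ∈ (ZMod p ∙ w)) ∧ (x v = 0 → y v = 0 → z v = 0 → v = 0) := by
  have hw : w ≠ 0 := fun h => xw (by rw [h, map_zero])
  have h1 : LinearMap.ker y ⊓ LinearMap.ker z < LinearMap.ker z :=
    lt_of_le_of_ne inf_le_right fun h => by
      have he : e ∈ LinearMap.ker y ⊓ LinearMap.ker z := by
        rw [h]
        exact ze
      exact ye he.1
  have h2 : LinearMap.ker z < ⊤ := lt_top_iff_ne_top.2 fun h => hz (LinearMap.ker_eq_top.1 h)
  have f1 := Submodule.finrank_lt_finrank_of_lt h1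
  have f2 := Submodule.finrank_lt_finrank_of_lt h2
  rw [finrank_top, hG] at f2
  have h3 : (ZMod p ∙ w) = LinearMap.ker y ⊓ LinearMap.ker z := by
    refine Submodule.eq_of_le_of_finrank_le
      ((Submodule.span_singleton_le_iff_mem _ _).2 ⟨yw, zw⟩) ?_
    rw [finrank_span_singleton hw]
    omega
  have h4 : y v = 0 → z v = 0 → v ∈ (ZMod p ∙ w) := fun a b => by
    rw [h3]
    exact ⟨a, b⟩
  refine ⟨h4, fun a b c => ?_⟩
  obtain ⟨t, rfl⟩ := Submodule.mem_span_singleton.1 (h4 b c)
  rw [map_smul, smul_eq_mul] at a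
  rw [(mul_eq_zero.1 a).resolve_right xw, zero_smul]

theorem coords (hG : finrank (ZMod p) G = 3) (z : G →ₗ[ZMod p] ZMod p) (hz : z ≠ 0) :
    ∃ x y : G →ₗ[ZMod p] ZMod p, ∀ v, x v = 0 → y v = 0 → z v = 0 → v = 0 := by
  have f1 := LinearMap.finrank_range_add_finrank_ker z
  have f2 := Submodule.finrank_le (LinearMap.range z)
  rw [finrank_self] at f2
  have hne : LinearMap.ker z ≠ ⊥ := fun h => by
    rw [h, finrank_bot] at f1
    omega
  obtain ⟨w, zw, hw⟩ := Submodule.exists_mem_ne_zero_of_ne_bot hne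
  have hnl : ¬ LinearMap.ker z ≤ (ZMod p ∙ w) := fun h => by
    have := Submodule.finrank_mono h
    rw [finrank_span_singleton hw] at this
    omega
  obtain ⟨e, ze, he⟩ := SetLike.not_le_iff_exists.1 hnl
  obtain ⟨y, ye, hy⟩ := Submodule.exists_le_ker_of_notMem he
  obtain ⟨x, xw, -⟩ := Submodule.exists_le_ker_of_notMem
    (p := (⊥ : Submodule (ZMod p) G)) (v := w) fun h => hw ((Submodule.mem_bot _).1 h)
  exact ⟨x, y, fun v =>
    (ker_inj hG x y z hz w e zw ze (hy (Submodule.mem_span_singleton_self w)) ye xw v).2⟩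

theorem pl_bound (hp : 2000 ^ 40 ≤ p) (hG : finrank (ZMod p) G = 3) (z : G →ₗ[ZMod p] ZMod p)
    (hz : z ≠ 0) (A : Finset G) (hA : WeaklyZeroSumFree p A) (c : ZMod p) :
    (A.filter (fun a => z a = c)).card + 2 ≤ 2 * p := by
  obtain ⟨x, y, hxy⟩ := coords hG z hz
  have hp3 : 3 ≤ p := le_trans (by norm_num) hp
  have hi : Set.InjOn (fun a => (x a, y a)) (A.filter (fun a => z a = c) : Set G) := by
    intro a ha b hb h
    have h1 := (mem_filter.1 ha).2
    have h2 := (mem_filter.1 hb).2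
    obtain ⟨h3, h4⟩ := Prod.mk.inj h
    refine sub_eq_zero.1 (hxy _ ?_ ?_ ?_)
    · rw [map_sub, h3, sub_self]
    · rw [map_sub, h4, sub_self]
    · rw [map_sub, h1, h2, sub_self]
  have hw : WeaklyZeroSumFree p ((A.filter (fun a => z a = c)).image fun a => (x a, y a)) := by
    intro B hB hc h0
    obtain ⟨S, hS, rfl⟩ := subset_image_iff.1 hB
    have hi' := hi.mono (coe_subset.2 hS)
    rw [card_image_of_injOn hi'] at hc
    rw [sum_image hi'] at h0
    refine hA S (hS.trans (filter_subset _ _)) hc (hxy _ ?_ ?_ ?_)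
    · have := congrArg Prod.fst h0
      rw [Prod.fst_sum] at this
      rw [map_sum]
      exact this
    · have := congrArg Prod.snd h0
      rw [Prod.snd_sum] at this
      rw [map_sum]
      exact this
    · rw [map_sum, sum_eq_card_nsmul fun a ha => (mem_filter.1 (hS ha)).2, hc, nsmul_eq_mul,
        ZMod.natCast_self, zero_mul]
  have h1 := le_tauHat ⟨_, hw, card_image_of_injOn hi⟩
  rw [GT.gt_main hp, if_neg (Nat.not_even_iff_odd.2
    ((Fact.out : p.Prime).odd_of_ne_two (by omega)))] at h1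
  omega

theorem EXpl_const {α : Type*} (f : α → ZMod p) (B : Finset α) (hB : B.card = p)
    (hf : ∀ a ∈ B, f a = 0 ∨ f a = 1) (h0 : ∑ a ∈ B, f a = 0) {a b : α} (ha : a ∈ B)
    (hb : b ∈ B) : f a = f b := by
  classical
  have e : ∑ a ∈ B, f a = ((B.filter fun a => f a = 1).card : ZMod p) := by
    rw [← sum_boole]
    refine sum_congr rfl fun a ha => ?_
    split_ifs with h
    · exact h
    · exact (hf a ha).resolve_right h
  rw [e, ZMod.natCast_eq_zero_iff] at h0
  rcases Nat.eq_zero_or_pos (B.filter fun a => f a = 1).card with h | h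
  · have h1 := filter_eq_empty_iff.1 (card_eq_zero.1 h)
    rw [(hf a ha).resolve_right (h1 ha), (hf b hb).resolve_right (h1 hb)]
  · have h1 : (B.filter fun a => f a = 1) = B :=
      eq_of_subset_of_card_le (filter_subset _ _) (hB.le.trans (Nat.le_of_dvd h h0))
    have h2 := filter_eq_self.1 h1
    rw [h2 a ha, h2 b hb]

theorem lower3 : ∃ A : Finset (Fin 3 → ZMod p), WeaklyZeroSumFree p A ∧ A.card = 4 * p - 4 := by
  have hp : 2 ≤ p := (Fact.out : p.Prime).two_le
  have c2 : (univ.erase (0 : ZMod p)).card = p - 1 := by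
    rw [card_erase_of_mem (mem_univ _), card_univ, ZMod.card]
  refine ⟨Fintype.piFinset ![{0, 1}, {0, 1}, univ.erase 0], fun B hB hc h0 => ?_, ?_⟩
  · have m0 : ∀ a ∈ B, a 0 = 0 ∨ a 0 = 1 := fun a ha => by
      simpa using Fintype.mem_piFinset.1 (hB ha) 0
    have m1 : ∀ a ∈ B, a 1 = 0 ∨ a 1 = 1 := fun a ha => by
      simpa using Fintype.mem_piFinset.1 (hB ha) 1
    have m2 : ∀ a ∈ B, a 2 ∈ univ.erase (0 : ZMod p) := fun a ha =>
      Fintype.mem_piFinset.1 (hB ha) 2
    have s : ∀ i, ∑ a ∈ B, a i = 0 := fun i => by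
      rw [← Finset.sum_apply, h0]
      rfl
    have h1 := card_le_card_of_injOn (s := B) (t := univ.erase (0 : ZMod p)) (fun a => a 2)
      (fun a ha => m2 a ha) fun a ha b hb h => by
        funext i
        fin_cases i
        · exact EXpl_const (fun a => a 0) B hc m0 (s 0) ha hb
        · exact EXpl_const (fun a => a 1) B hc m1 (s 1) ha hb
        · exact h
    omega
  · have c1 : ({0, 1} : Finset (ZMod p)).card = 2 := card_pair zero_ne_one
    rw [Fintype.card_piFinset, Fin.prod_univ_three]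
    change ({0, 1} : Finset (ZMod p)).card * ({0, 1} : Finset (ZMod p)).card *
      (univ.erase (0 : ZMod p)).card = _
    rw [c1, c2]
    omega

end Pool.Agent.MP_f9a021_co.EX
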