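import Pool.Agent.MP_f9a021_co.EXe2
import Pool.Agent.MP_f9a021_co.EXe4
import Pool.Agent.MP_f9a021_co.EXpl

open Finset Module

set_option linter.unusedSectionVars false

namespace Pool.Agent.MP_f9a021_co.EX

variable {p : ℕ} [Fact p.Prime] {G : Type*} [AddCommGroup G] [Module (ZMod p) G] [Fintype G]
  [DecidableEq G]

theorem EXfin_tr (hp : 2000 ^ 40 ≤ p) (hG : finrank (ZMod p) G = 3) (A : Finset G)
    (hA : WeaklyZeroSumFree p A) (x y z : G →ₗ[ZMod p] ZMod p) (hz : z ≠ 0)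
    (inj : ∀ v, x v = 0 → y v = 0 → z v = 0 → v = 0) (b : G) :
    ∃ A' : Finset (ZMod p × ZMod p × ZMod p), WeaklyZeroSumFree p A' ∧ A'.card = A.card ∧
      (∀ c, (A'.filter (fun a => a.2.2 = c)).card + 2 ≤ 2 * p) ∧
      ∀ (P : G → Prop) (Q : ZMod p × ZMod p × ZMod p → Prop) [DecidablePred P] [DecidablePred Q],
        (∀ a, P a → Q (x (a - b), y (a - b), z (a - b))) →
          (A.filter P).card ≤ (A'.filter Q).card := by
  let φ : G →+ (ZMod p × ZMod p × ZMod p) := (x.prod (y.prod z)).toAddMonoidHom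
  have hφ : Function.Injective φ := (injective_iff_map_eq_zero φ).2 fun v hv =>
    inj v (congrArg Prod.fst hv) (congrArg (fun u => u.2.1) hv) (congrArg (fun u => u.2.2) hv)
  have e : ∀ a, φ a + -φ b = (x (a - b), y (a - b), z (a - b)) := fun a => by
    rw [← sub_eq_add_neg, ← map_sub]; rfl
  have hi : Function.Injective fun a => φ a + -φ b := fun a c h => hφ (add_right_cancel h)
  refine ⟨A.image (fun a => φ a + -φ b), zsf_image p φ hφ _ ?_ A hA,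
    card_image_of_injective _ hi, fun c => ?_, fun P Q _ _ h => ?_⟩
  · rw [← Nat.cast_smul_eq_nsmul (ZMod p), ZMod.natCast_self, zero_smul]
  · rw [filter_image, card_image_of_injective _ hi]
    refine le_trans (Nat.add_le_add_right (card_le_card fun a ha => ?_) 2)
      (pl_bound hp hG z hz A hA (c + z b))
    rw [mem_filter] at ha ⊢
    refine ⟨ha.1, ?_⟩
    have := ha.2
    rw [e, map_sub z] at this
    exact sub_eq_iff_eq_add.1 this
  · refine card_le_card_of_injOn (fun a => φ a + -φ b) (fun a ha => ?_) hi.injOn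
    rw [mem_coe, mem_filter] at ha ⊢
    refine ⟨mem_image_of_mem _ ha.1, ?_⟩
    change Q (φ a + -φ b)
    rw [e]
    exact h a ha.2

theorem EXfin_kill {f : G →ₗ[ZMod p] ZMod p} {w a b : G} (hf : f w = 0)
    (h : a - b ∈ (ZMod p ∙ w)) (c : G) : f (a - c) = f (b - c) := by
  obtain ⟨k, hk⟩ := Submodule.mem_span_singleton.1 h
  have : f (a - b) = 0 := by rw [← hk, map_smul, hf, smul_zero]
  rw [map_sub] at this ⊢
  rw [map_sub, sub_eq_zero.1 this]

theorem EXfin_dual {w v : G} (h : v ∉ (ZMod p ∙ w)) :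
    ∃ f : G →ₗ[ZMod p] ZMod p, f w = 0 ∧ f v = 1 := by
  obtain ⟨f, h1, h2⟩ := Submodule.exists_le_ker_of_notMem h
  refine ⟨(f v)⁻¹ • f, ?_, ?_⟩
  · rw [LinearMap.smul_apply, LinearMap.mem_ker.1 (h2 (Submodule.mem_span_singleton_self w)),
      smul_zero]
  · rw [LinearMap.smul_apply, smul_eq_mul, inv_mul_cancel₀ h1]

theorem EXfin_big (hp : 2000 ^ 40 ≤ p) : 1000 ≤ p := le_trans (by norm_num) hp

open Classical in
theorem EXfin_par (hp : 2000 ^ 40 ≤ p) (hG : finrank (ZMod p) G = 3) (A : Finset G)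
    (hA : WeaklyZeroSumFree p A) (x y z : G →ₗ[ZMod p] ZMod p) (hz : z ≠ 0)
    (w b1 b2 b3 b4 : G) (xw : x w ≠ 0) (yw : y w = 0) (zw : z w = 0) (z2 : z (b2 - b1) = 0)
    (z3 : z (b3 - b1) = 1) (z4 : z (b4 - b1) = 1) (y2 : y (b2 - b1) = 1)
    (r0 : y (b4 - b3) ≠ 0) (r2 : y (b4 - b3) ≠ -1)
    (c1 : 99 * p ≤ 100 * (A.filter (fun a => a - b1 ∈ (ZMod p ∙ w))).card)
    (c2 : 99 * p ≤ 100 * (A.filter (fun a => a - b2 ∈ (ZMod p ∙ w))).card)
    (c3 : 99 * p ≤ 100 * (A.filter (fun a => a - b3 ∈ (ZMod p ∙ w))).card)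
    (c4 : 99 * p ≤ 100 * (A.filter (fun a => a - b4 ∈ (ZMod p ∙ w))).card) :
    A.card + 4 ≤ 4 * p := by
  obtain ⟨u, hu⟩ : ∃ u : G →ₗ[ZMod p] ZMod p, ∀ v, u v = y v - y (b3 - b1) * z v :=
    ⟨y - y (b3 - b1) • z, fun v => rfl⟩
  have uw : u w = 0 := by rw [hu, yw, zw, mul_zero, sub_zero]
  have u2 : u (b2 - b1) = 1 := by rw [hu, y2, z2, mul_zero, sub_zero]
  have u3 : u (b3 - b1) = 0 := by rw [hu, z3, mul_one, sub_self]
  have u4 : u (b4 - b1) = y (b4 - b3) := by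
    rw [hu, z4, mul_one, ← map_sub, sub_sub_sub_cancel_right]
  obtain ⟨A', hA', hc, hpl, tr⟩ := EXfin_tr hp hG A hA x u z hz
    (fun v => (ker_inj hG x u z hz w (b2 - b1) zw z2 uw (by rw [u2]; exact one_ne_zero) xw v).2) b1
  have k : ∀ (b : G) (c : ZMod p × ZMod p), (u (b - b1), z (b - b1)) = c →
      99 * p ≤ 100 * (A.filter (fun a => a - b ∈ (ZMod p ∙ w))).card →
      99 * p ≤ 100 * (ln A' c).card := fun b c h1 h2 =>
    h2.trans (Nat.mul_le_mul_left _ (tr _ _ fun a ha => by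
      rw [EXfin_kill uw ha, EXfin_kill zw ha]; exact h1))
  have h00 := k b1 (0, 0) (by rw [sub_self, map_zero, map_zero]) c1
  have h10 := k b2 (1, 0) (by rw [u2, z2]) c2
  have h01 := k b3 (0, 1) (by rw [u3, z3]) c3
  have h11 := k b4 (y (b4 - b3), 1) (by rw [u4, z4]) c4
  rw [← hc]
  by_cases r1 : y (b4 - b3) = 1
  · rw [r1] at h11
    exact e2 (EXfin_big hp) A' hA' h00 h10 h01 h11
  · exact e3 (EXfin_big hp) A' hA' _ r0 r1 r2 h00 h10 h01 h11 hpl

open Classical in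
theorem final4 (hp : 2000 ^ 40 ≤ p) (hG : finrank (ZMod p) G = 3) (A : Finset G)
    (hA : WeaklyZeroSumFree p A) (z : G →ₗ[ZMod p] ZMod p) (hz : z ≠ 0) (s t : ZMod p)
    (hst : s ≠ t) (w0 w1 b1 b2 b3 b4 : G) (hw0 : w0 ≠ 0) (hw1 : w1 ≠ 0) (zw0 : z w0 = 0)
    (zw1 : z w1 = 0) (z1 : z b1 = s) (z2 : z b2 = s) (z3 : z b3 = t) (z4 : z b4 = t)
    (h12 : b2 - b1 ∉ (ZMod p ∙ w0)) (h34 : b4 - b3 ∉ (ZMod p ∙ w1))
    (c1 : 99 * p ≤ 100 * (A.filter (fun a => a - b1 ∈ (ZMod p ∙ w0))).card)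
    (c2 : 99 * p ≤ 100 * (A.filter (fun a => a - b2 ∈ (ZMod p ∙ w0))).card)
    (c3 : 99 * p ≤ 100 * (A.filter (fun a => a - b3 ∈ (ZMod p ∙ w1))).card)
    (c4 : 99 * p ≤ 100 * (A.filter (fun a => a - b4 ∈ (ZMod p ∙ w1))).card) :
    A.card + 4 ≤ 4 * p := by
  obtain ⟨u, hu⟩ : ∃ u : G →ₗ[ZMod p] ZMod p, ∀ v, u v = (t - s)⁻¹ * z v :=
    ⟨(t - s)⁻¹ • z, fun v => rfl⟩
  have ts : t - s ≠ 0 := sub_ne_zero.2 hst.symm
  have u0 : u w0 = 0 := by rw [hu, zw0, mul_zero]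
  have u1 : u w1 = 0 := by rw [hu, zw1, mul_zero]
  have u2 : u (b2 - b1) = 0 := by rw [hu, map_sub, z1, z2, sub_self, mul_zero]
  have u3 : u (b3 - b1) = 1 := by rw [hu, map_sub, z1, z3, inv_mul_cancel₀ ts]
  have u4 : u (b4 - b1) = 1 := by rw [hu, map_sub, z1, z4, inv_mul_cancel₀ ts]
  have u5 : u (b4 - b3) = 0 := by rw [hu, map_sub, z3, z4, sub_self, mul_zero]
  have un : u ≠ 0 := fun h => by
    rw [h, LinearMap.zero_apply] at u3
    exact zero_ne_one u3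
  by_cases hw : w1 ∈ (ZMod p ∙ w0)
  · have hs : (ZMod p ∙ w1) = (ZMod p ∙ w0) := by
      obtain ⟨k, hk⟩ := Submodule.mem_span_singleton.1 hw
      have k0 : k ≠ 0 := fun h => hw1 (by rw [← hk, h, zero_smul])
      rw [← hk]
      exact Submodule.span_singleton_smul_eq (IsUnit.mk0 k k0) w0
    rw [hs] at h34 c3 c4
    obtain ⟨y, yw, y2⟩ := EXfin_dual h12
    obtain ⟨x, xw, -⟩ := Submodule.exists_le_ker_of_notMem
      (p := (⊥ : Submodule (ZMod p) G)) (v := w0) (fun h => hw0 ((Submodule.mem_bot _).1 h))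
    have r0 : y (b4 - b3) ≠ 0 := fun h => h34
      ((ker_inj hG x y u un w0 (b2 - b1) u0 u2 yw (by rw [y2]; exact one_ne_zero) xw _).1 h u5)
    by_cases r2 : y (b4 - b3) = -1
    · have r3 : y (b3 - b4) = 1 := by rw [← neg_sub, map_neg, r2, neg_neg]
      refine EXfin_par hp hG A hA x y u un w0 b1 b2 b4 b3 xw yw u0 u2 u4 u3 y2
        (by rw [r3]; exact one_ne_zero) ?_ c1 c2 c4 c3
      rw [r3]
      intro h
      have h2 : ((2 : ℕ) : ZMod p) = 0 := by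
        rw [Nat.cast_ofNat, ← one_add_one_eq_two]
        exact add_eq_zero_iff_eq_neg.2 h
      have := Nat.le_of_dvd (by norm_num) ((ZMod.natCast_eq_zero_iff 2 p).1 h2)
      have := EXfin_big hp
      omega
    · exact EXfin_par hp hG A hA x y u un w0 b1 b2 b3 b4 xw yw u0 u2 u3 u4 y2 r0 r2 c1 c2 c3 c4
  · have hw' : w0 ∉ (ZMod p ∙ w1) := fun h => by
      obtain ⟨k, hk⟩ := Submodule.mem_span_singleton.1 h
      have k0 : k ≠ 0 := fun h => hw0 (by rw [← hk, h, zero_smul])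
      exact hw (Submodule.mem_span_singleton.2
        ⟨k⁻¹, by rw [← hk, smul_smul, inv_mul_cancel₀ k0, one_smul]⟩)
    obtain ⟨x, x0, x1⟩ := EXfin_dual hw
    obtain ⟨y, y1, y0⟩ := EXfin_dual hw'
    have x1' : x w1 ≠ 0 := by rw [x1]; exact one_ne_zero
    have y0' : y w0 ≠ 0 := by rw [y0]; exact one_ne_zero
    have K := ker_inj hG x y u un w1 w0 u1 u0 y1 y0' x1'
    have K' := ker_inj hG y x u un w0 w1 u0 u1 x0 x1' y0'
    obtain ⟨A', hA', hc, hpl, tr⟩ := EXfin_tr hp hG A hA x y u un (fun v => (K v).2) b1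
    have k : ∀ b : G, u (b - b1) = 0 →
        99 * p ≤ 100 * (A.filter (fun a => a - b ∈ (ZMod p ∙ w0))).card →
        99 * p ≤ 100 * (A'.filter (fun a => a.1 = x (b - b1) ∧ a.2.2 = 0)).card := fun b h1 h2 =>
      h2.trans (Nat.mul_le_mul_left _ (tr _ _ fun a ha =>
        ⟨EXfin_kill x0 ha b1, (EXfin_kill u0 ha b1).trans h1⟩))
    have k' : ∀ b : G, u (b - b1) = 1 →
        99 * p ≤ 100 * (A.filter (fun a => a - b ∈ (ZMod p ∙ w1))).card →
        99 * p ≤ 100 * (ln A' (y (b - b1), 1)).card := fun b h1 h2 =>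
      h2.trans (Nat.mul_le_mul_left _ (tr _ _ fun a ha => by
        rw [EXfin_kill y1 ha, EXfin_kill u1 ha, h1]))
    rw [← hc]
    refine e4 (EXfin_big hp) A' hA' (x (b1 - b1)) (x (b2 - b1)) (y (b3 - b1)) (y (b4 - b1))
      (fun h => h12 ((K' _).1 ?_ u2)) (fun h => h34 ((K _).1 ?_ u5))
      (k b1 (by rw [sub_self, map_zero]) c1) (k b2 u2 c2) (k' b3 u3 c3) (k' b4 u4 c4) hpl
    · rw [← h, sub_self, map_zero]
    · rw [← sub_sub_sub_cancel_right b4 b3 b1, map_sub, h, sub_self]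

end Pool.Agent.MP_f9a021_co.EX
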