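import Pool.Agent.MP_f9a021_co.EX0

open Finset

set_option linter.unusedSectionVars false

namespace Pool.Agent.MP_f9a021_co.EX

section

variable {ι : Type*} [Fintype ι] {μ : ι → ℝ} {u v : ι → ℤ} {ε γ κ : ℝ}

lemma EXtopA_ge (hγ : 0 < γ) (hκ : 0 ≤ κ) {x y : ℤ} (a b : ℤ) (hx : a ≤ x) (hy : y ≤ b) :
    γ * (a - 1) - κ * b ≤ γ * (x - 1) - κ * y := by
  have h1 : (a : ℝ) ≤ x := by exact_mod_cast hx
  have h2 : (y : ℝ) ≤ b := by exact_mod_cast hy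
  nlinarith [mul_le_mul_of_nonneg_left h1 hγ.le, mul_le_mul_of_nonneg_left h2 hκ]

lemma EXtopA_zero (hγ : 0 < γ) (hκ : 0 ≤ κ) {x y : ℤ} (h : 1 ≤ x ∧ y ≤ 0) :
    0 ≤ γ * (x - 1) - κ * y := by simpa using EXtopA_ge hγ hκ 1 0 h.1 h.2

lemma EXtopA_cone (hG : Good μ u v) (hγ : 0 < γ) (hκ : 0 ≤ κ)
    (h1 : LS μ (fun j => γ * (u j - 1) - κ * v j))
    (hn : 0 < κ ∨ Light μ (fun j => γ * (u j - 1) - κ * v j)) :
    ms μ (fun j => 1 ≤ u j ∧ v j ≤ 0) ≤ 1 := by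
  by_cases hL : Light μ (fun j => γ * (u j - 1) - κ * v j)
  · exact (hL.mass hG.pos fun j h => EXtopA_zero hγ hκ h).le
  have hk := hn.resolve_right hL
  have hS := h1.resolve_left hL
  refine (ms_mono hG.pos fun j h => ?_).trans (hG.pt 1 0)
  have := hS j
  constructor
  · by_contra c
    have := EXtopA_ge hγ hκ 2 0 (x := u j) (by omega) h.2
    push_cast at this
    linarith
  · by_contra c
    have := EXtopA_ge hγ hκ 1 (-1) (y := v j) h.1 (by omega)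
    push_cast at this
    linarith

lemma EXtopA_Y (hG : Good μ u v) (hε0 : 0 < ε) (hγ : 0 < γ) (hκ : 0 < κ)
    (h1 : LS μ (fun j => γ * (u j - 1) - κ * v j))
    (m1 : 1 - ε ≤ ms μ (fun j => 1 ≤ u j ∧ v j ≤ 0)) (m2 : ε ≤ ms μ (fun j => v j = 1 ∧ 1 ≤ u j)) :
    ms μ (fun j => 1 ≤ u j ∧ v j ≤ -1) ≤ ε := by
  have k : ∀ j, 1 ≤ u j ∧ v j ≤ -1 → κ ≤ γ * (u j - 1) - κ * v j := fun j h => by
    simpa using EXtopA_ge hγ hκ.le 1 (-1) h.1 h.2
  rcases h1 with hL | hS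
  · have a := hL.fill_bound hG.pos (C := fun j => 1 ≤ u j ∧ v j ≤ 0)
      (F := fun j => v j = 1 ∧ 1 ≤ u j) (fun j h h' => by omega)
      (EXtopA_cone hG hγ hκ.le (Or.inl hL) (Or.inl hκ)) (by linarith) (b := κ)
      (fun j h => by simpa using EXtopA_ge hγ hκ.le 1 1 h.2 h.1.le)
    have b := mul_ms_le_ig hG.pos (P := fun j => 1 ≤ u j ∧ v j ≤ 0)
      (f := fun j => γ * (u j - 1) - κ * v j) (fun j h => by omega)
      (fun j h => EXtopA_zero hγ hκ.le h) k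
    refine le_of_mul_le_mul_left ?_ hκ
    nlinarith
  · rw [ms_false fun j h => by linarith [k j h, hS j]]
    exact hε0.le

lemma EXtopA_M (hG : Good μ u v) (hε0 : 0 < ε) (hε : ε ≤ 1 / 100) (hγ : 0 < γ) (hκ : 0 < κ)
    (h1 : LS μ (fun j => γ * (u j - 1) - κ * v j))
    (m1 : 1 - ε ≤ ms μ (fun j => 1 ≤ u j ∧ v j ≤ 0))
    (m2 : 1 - 2 * ε ≤ ms μ (fun j => v j = 1 ∧ 2 ≤ u j)) :
    ms μ (fun j => u j = 0 ∧ v j ≤ -1) ≤ 3 * ε := by
  have k : ∀ j, u j = 0 ∧ v j ≤ -1 → κ - γ ≤ γ * (u j - 1) - κ * v j := fun j h => by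
    have := EXtopA_ge hγ hκ.le 0 (-1) h.1.ge h.2
    push_cast at this
    linarith
  have k' : ∀ j, v j = 1 ∧ 2 ≤ u j → γ - κ ≤ γ * (u j - 1) - κ * v j := fun j h => by
    have := EXtopA_ge hγ hκ.le 2 1 h.2 h.1.le
    push_cast at this
    linarith
  rcases lt_or_ge γ κ with c | c <;> rcases h1 with hL | hS
  · have a := hL.mass hG.pos (C := fun j => (1 ≤ u j ∧ v j ≤ 0) ∨ (u j = 0 ∧ v j ≤ -1))
      fun j h => h.elim (EXtopA_zero hγ hκ.le) fun h => by linarith [k j h]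
    have b := add_le_ms hG.pos (P := fun j => (1 ≤ u j ∧ v j ≤ 0) ∨ (u j = 0 ∧ v j ≤ -1))
      (fun j h h' => by omega) (fun _ => Or.inl) fun _ => Or.inr
    linarith
  · rw [ms_false fun j h => by linarith [k j h, hS j]]
    linarith
  · have a := hL.mass hG.pos (C := fun j => (1 ≤ u j ∧ v j ≤ 0) ∨ (v j = 1 ∧ 2 ≤ u j))
      fun j h => h.elim (EXtopA_zero hγ hκ.le) fun h => by linarith [k' j h]
    have b := add_le_ms hG.pos (P := fun j => (1 ≤ u j ∧ v j ≤ 0) ∨ (v j = 1 ∧ 2 ≤ u j))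
      (fun j h h' => by omega) (fun _ => Or.inl) fun _ => Or.inr
    linarith
  · obtain ⟨i, hi⟩ := exists_of_ms_pos (lt_of_lt_of_le (by linarith) m2)
    obtain rfl : γ = κ := by linarith [k' i hi, hS i]
    have e : ∀ j, u j ≤ v j + 1 := fun j => by
      have : γ * (u j : ℝ) ≤ γ * (v j + 1) := by linarith [hS j]
      exact_mod_cast le_of_mul_le_mul_left this hγ
    have a := add_le_ms hG.pos (P := fun j => (1 ≤ u j ∧ v j ≤ 0) ∨ (v j = 1 ∧ 2 ≤ u j))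
      (fun j h h' => by omega) (fun _ => Or.inl) fun _ => Or.inr
    have b := add_le_ms hG.pos (P := fun j => 1 * u j + -1 * v j = 1)
      (Q := fun j => (1 ≤ u j ∧ v j ≤ 0) ∨ (v j = 1 ∧ 2 ≤ u j))
      (R := fun j => u j = 0 ∧ v j ≤ -1) (fun j h h' => by omega)
      (fun j h => by have := e j; omega) fun j h => by have := e j; omega
    have := hG.line 1 (-1) 1 (Or.inl one_ne_zero)
    linarith

end

theorem topA {ι : Type*} [Fintype ι] {μ : ι → ℝ} {u v : ι → ℤ} (hG : Good μ u v)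
    {ε α β γ κ : ℝ} (hε0 : 0 < ε) (hε : ε ≤ 1 / 100) (hT : 4 - ε ≤ ∑ j, μ j)
    (hv : ∀ j, v j ≤ 1) (hα : 0 < α) (hβ : 0 < β) (hγ : 0 < γ) (hκ : 0 ≤ κ)
    (h3 : LS μ (fun j => -α * u j - β * v j)) (h1 : LS μ (fun j => γ * (u j - 1) - κ * v j))
    (hn : 0 < κ ∨ Light μ (fun j => γ * (u j - 1) - κ * v j)) : Concl μ u v (20 * ε) := by
  obtain ⟨w, hw⟩ : ∃ w : ι → ℤ, ∀ j, w j = 1 - u j := ⟨_, fun _ => rfl⟩
  have h0 := hG.pos
  have hW : Good μ w v :=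
    hG.map (-1) 0 0 1 1 0 (by norm_num) (fun j => by rw [hw]; ring) fun j => by ring
  have h3' : LS μ (fun j => α * (w j - 1) - β * v j) := by
    have : (fun j => α * ((w j : ℝ) - 1) - β * v j) = fun j => -α * u j - β * v j := by
      funext j
      rw [hw]
      push_cast
      ring
    rwa [this]
  have c1 := EXtopA_cone hG hγ hκ h1 hn
  have c3 := EXtopA_cone hW hα hβ.le h3' (Or.inl hβ)
  have t1 := sum_le_add h0 (Q := fun j => 0 * u j + 1 * v j = 1) (R := fun j => v j ≤ 0)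
    fun j => by have := hv j; omega
  have t2 := ms_le_add h0 (P := fun j => v j ≤ 0) (Q := fun j => 1 ≤ u j ∧ v j ≤ 0)
    (R := fun j => 1 ≤ w j ∧ v j ≤ 0) fun j h => by have := hw j; omega
  have t3 := hG.line 0 1 1 (Or.inr one_ne_zero)
  have t4 := ms_le_add h0 (P := fun j => 0 * u j + 1 * v j = 1) (Q := fun j => v j = 1 ∧ 1 ≤ u j)
    (R := fun j => v j = 1 ∧ 1 ≤ w j) fun j h => by have := hw j; omega
  have m1 : 1 - ε ≤ ms μ (fun j => 1 ≤ u j ∧ v j ≤ 0) := by linarith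
  have m3 : 1 - ε ≤ ms μ (fun j => 1 ≤ w j ∧ v j ≤ 0) := by linarith
  have nv : ∀ j, (1 ≤ w j ∧ v j ≤ 0) ∨ (1 ≤ u j ∧ v j ≤ 0) → (v j : ℝ) ≤ 0 := fun j h => by
    exact_mod_cast (show v j ≤ 0 by omega)
  have p := pair h0 (C := fun j => 1 ≤ w j ∧ v j ≤ 0) (C' := fun j => 1 ≤ u j ∧ v j ≤ 0) (u := u)
    (fun j h => by have := hw j; omega) (fun j h => h.1) hα hγ h3 h1
    (fun j h => by linarith [mul_nonpos_of_nonneg_of_nonpos hβ.le (nv j h)])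
    (fun j h => by linarith [mul_nonpos_of_nonneg_of_nonpos hκ (nv j h)]) (by linarith) m3 c3 m1 c1
  have p3 := ms_nonneg h0 fun j => (1 ≤ w j ∧ v j ≤ 0) ∧ u j ≠ 0
  have p1 := ms_nonneg h0 fun j => (1 ≤ u j ∧ v j ≤ 0) ∧ u j ≠ 1
  have y1 := ms_le_add h0 (P := fun j => 1 ≤ u j ∧ v j ≤ -1)
    (Q := fun j => (1 ≤ u j ∧ v j ≤ 0) ∧ u j ≠ 1) (R := fun j => w j = 0 ∧ v j ≤ -1)
    fun j h => by have := hw j; omega
  have y3 := ms_le_add h0 (P := fun j => 1 ≤ w j ∧ v j ≤ -1)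
    (Q := fun j => (1 ≤ w j ∧ v j ≤ 0) ∧ u j ≠ 0) (R := fun j => u j = 0 ∧ v j ≤ -1)
    fun j h => by have := hw j; omega
  have a1 := ms_le_add h0 (P := fun j => v j = 1 ∧ 1 ≤ u j) (Q := fun j => u j = 1 ∧ v j = 1)
    (R := fun j => v j = 1 ∧ 2 ≤ u j) fun j h => by omega
  have a3 := ms_le_add h0 (P := fun j => v j = 1 ∧ 1 ≤ w j) (Q := fun j => w j = 1 ∧ v j = 1)
    (R := fun j => v j = 1 ∧ 2 ≤ w j) fun j h => by omega
  have q1 := hG.pt 1 1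
  have q3 := hW.pt 1 1
  have key : ms μ (fun j => 1 ≤ u j ∧ v j ≤ -1) + ms μ (fun j => 1 ≤ w j ∧ v j ≤ -1) ≤
      20 * ε := by
    rcases lt_or_ge (ms μ fun j => v j = 1 ∧ 1 ≤ u j) ε with c | c
    · have := EXtopA_Y hW hε0 hα hβ h3' m3 (by linarith)
      have := EXtopA_M hW hε0 hε hα hβ h3' m3 (by linarith)
      linarith
    have hk : 0 < κ := by
      refine hκ.lt_of_ne fun e => ?_
      subst e
      have a := (hn.resolve_left (lt_irrefl _)).mass h0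
        (C := fun j => (1 ≤ u j ∧ v j ≤ 0) ∨ (v j = 1 ∧ 1 ≤ u j)) fun j h => by
          simpa using EXtopA_ge hγ le_rfl 1 1 (x := u j) (by omega) (hv j)
      have b := add_le_ms h0 (P := fun j => (1 ≤ u j ∧ v j ≤ 0) ∨ (v j = 1 ∧ 1 ≤ u j))
        (fun j h h' => by omega) (fun _ => Or.inl) fun _ => Or.inr
      linarith
    have := EXtopA_Y hG hε0 hγ hk h1 m1 c
    rcases lt_or_ge (ms μ fun j => v j = 1 ∧ 1 ≤ w j) ε with c' | c'
    · have := EXtopA_M hG hε0 hε hγ hk h1 m1 (by linarith)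
      linarith
    · have := EXtopA_Y hW hε0 hα hβ h3' m3 c'
      linarith
  refine ⟨0, 1, 0, 1, Or.inr one_ne_zero, ?_⟩
  have f1 := sum_le_add h0 (Q := fun j => 0 * u j + 1 * v j = 0 ∨ 0 * u j + 1 * v j = 1)
    (R := fun j => v j ≤ -1) fun j => by have := hv j; omega
  have f2 := ms_le_add h0 (P := fun j => v j ≤ -1) (Q := fun j => 1 ≤ u j ∧ v j ≤ -1)
    (R := fun j => 1 ≤ w j ∧ v j ≤ -1) fun j h => by have := hw j; omega
  linarith

end Pool.Agent.MP_f9a021_co.EX
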