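import Pool.Agent.MP_f9a021_co.EX0

open Finset

set_option linter.unusedSectionVars false

namespace Pool.Agent.MP_f9a021_co.EX

/-- Six masses on a triangle with midpoint bounds cannot reach `4 - ε`. -/
lemma EXtopB_six {ε a b c x y z : ℝ} (hε0 : 0 < ε) (hε : ε ≤ 1 / 100) (ha : ε < a) (hb : ε < b)
    (hc : ε < c) (a1 : a ≤ 1) (b1 : b ≤ 1) (c1 : c ≤ 1) (hx : x ≤ 0 ∨ x + 2 * min a b ≤ 1)
    (hy : y ≤ 0 ∨ y + 2 * min b c ≤ 1) (hz : z ≤ 0 ∨ z + 2 * min a c ≤ 1)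
    (hs : 4 - ε ≤ a + b + c + x + y + z) : False := by
  rcases min_cases a b with ⟨e1, f1⟩ | ⟨e1, f1⟩ <;>
  rcases min_cases b c with ⟨e2, f2⟩ | ⟨e2, f2⟩ <;>
  rcases min_cases a c with ⟨e3, f3⟩ | ⟨e3, f3⟩ <;>
  rw [e1] at hx <;> rw [e2] at hy <;> rw [e3] at hz <;>
  rcases hx with hx | hx <;> rcases hy with hy | hy <;> rcases hz with hz | hz <;>
  linarith

/-- A midpoint is empty or obeys the midpoint bound. -/
lemma EXtopB_mid {ι : Type*} [Fintype ι] {μ : ι → ℝ} {u v : ι → ℤ} (hG : Good μ u v)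
    (a b c d e f : ℤ) (h1 : c + e = 2 * a) (h2 : d + f = 2 * b) (h3 : c ≠ a ∨ d ≠ b)
    (p1 : 0 < ms μ (fun j => u j = c ∧ v j = d)) (p2 : 0 < ms μ (fun j => u j = e ∧ v j = f)) :
    ms μ (fun j => u j = a ∧ v j = b) ≤ 0 ∨ ms μ (fun j => u j = a ∧ v j = b) +
      2 * min (ms μ (fun j => u j = c ∧ v j = d)) (ms μ (fun j => u j = e ∧ v j = f)) ≤ 1 := by
  by_cases h0 : ms μ (fun j => u j = a ∧ v j = b) ≤ 0
  · exact Or.inl h0
  · obtain ⟨j0, x0, y0⟩ := exists_of_ms_pos (not_le.1 h0)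
    obtain ⟨j1, x1, y1⟩ := exists_of_ms_pos p1
    obtain ⟨j2, x2, y2⟩ := exists_of_ms_pos p2
    subst x0 y0 x1 y1 x2 y2
    exact Or.inr (hG.mid j0 j1 j2 h1 h2 h3)

/-- The case of the six points of the triangle. -/
lemma EXtopB_tri {ι : Type*} [Fintype ι] {μ : ι → ℝ} {u v : ι → ℤ} (hG : Good μ u v)
    {ε : ℝ} (hε0 : 0 < ε) (hε : ε ≤ 1 / 100) (hT : 4 - ε ≤ ∑ j, μ j)
    (hv : ∀ j, v j ≤ 1) (hu : ∀ j, u j ≤ 1) (huv : ∀ j, 0 ≤ u j + v j) :
    Concl μ u v (20 * ε) := by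
  have h0 := hG.pos
  by_cases ha : ms μ (fun j => u j = -1 ∧ v j = 1) ≤ ε
  · refine ⟨1, 0, 0, 1, Or.inl one_ne_zero, ?_⟩
    have := sum_le_add h0 (Q := fun j => 1 * u j + 0 * v j = 0 ∨ 1 * u j + 0 * v j = 1)
      (R := fun j => u j = -1 ∧ v j = 1)
      (fun j => by have := hv j; have := hu j; have := huv j; omega)
    linarith
  by_cases hc : ms μ (fun j => u j = 1 ∧ v j = -1) ≤ ε
  · refine ⟨0, 1, 0, 1, Or.inr one_ne_zero, ?_⟩
    have := sum_le_add h0 (Q := fun j => 0 * u j + 1 * v j = 0 ∨ 0 * u j + 1 * v j = 1)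
      (R := fun j => u j = 1 ∧ v j = -1)
      (fun j => by have := hv j; have := hu j; have := huv j; omega)
    linarith
  by_cases hb : ms μ (fun j => u j = 1 ∧ v j = 1) ≤ ε
  · refine ⟨1, 1, 0, 1, Or.inr one_ne_zero, ?_⟩
    have := sum_le_add h0 (Q := fun j => 1 * u j + 1 * v j = 0 ∨ 1 * u j + 1 * v j = 1)
      (R := fun j => u j = 1 ∧ v j = 1)
      (fun j => by have := hv j; have := hu j; have := huv j; omega)
    linarith
  exfalso
  push Not at ha hb hc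
  have pa := hε0.trans ha
  have pb := hε0.trans hb
  have pc := hε0.trans hc
  have mx := EXtopB_mid hG 0 1 (-1) 1 1 1 (by norm_num) (by norm_num) (by norm_num) pa pb
  have my := EXtopB_mid hG 1 0 1 1 1 (-1) (by norm_num) (by norm_num) (by norm_num) pb pc
  have mz := EXtopB_mid hG 0 0 (-1) 1 1 (-1) (by norm_num) (by norm_num) (by norm_num) pa pc
  refine EXtopB_six hε0 hε ha hb hc (hG.pt _ _) (hG.pt _ _) (hG.pt _ _) mx my mz ?_
  have s1 := sum_le_add h0 (Q := fun j => v j = 1) (R := fun j => v j ≤ 0)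
    (fun j => by have := hv j; omega)
  have s2 := ms_le_add h0 (P := fun j => v j = 1) (Q := fun j => u j = -1 ∧ v j = 1)
    (R := fun j => 0 ≤ u j ∧ v j = 1) (fun j h => by have := huv j; omega)
  have s3 := ms_le_add h0 (P := fun j => 0 ≤ u j ∧ v j = 1) (Q := fun j => u j = 0 ∧ v j = 1)
    (R := fun j => u j = 1 ∧ v j = 1) (fun j h => by have := hu j; omega)
  have s4 := ms_le_add h0 (P := fun j => v j ≤ 0) (Q := fun j => u j = 1 ∧ v j = -1)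
    (R := fun j => v j = 0) (fun j h => by have := huv j; have := hu j; omega)
  have s5 := ms_le_add h0 (P := fun j => v j = 0) (Q := fun j => u j = 0 ∧ v j = 0)
    (R := fun j => u j = 1 ∧ v j = 0) (fun j h => by have := huv j; have := hu j; omega)
  linarith

/-- The light case with `β ≤ α`. -/
lemma EXtopB_light {ι : Type*} [Fintype ι] {μ : ι → ℝ} {u v : ι → ℤ} (hG : Good μ u v)
    {ε α β : ℝ} (hε0 : 0 < ε) (hε : ε ≤ 1 / 100) (hT : 4 - ε ≤ ∑ j, μ j)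
    (hv : ∀ j, v j ≤ 1) (hu : ∀ j, u j ≤ 1) (hα : 0 < α) (hβ : 0 < β) (hαβ : β ≤ α)
    (hL : Light μ (fun j => -α * u j - β * v j)) : Concl μ u v (20 * ε) := by
  have h0 := hG.pos
  have f1 : ∀ j, u j ≤ 0 ∧ v j ≤ 0 → 0 ≤ -α * u j - β * v j := fun j h => by
    have h1 : (u j : ℝ) ≤ 0 := by exact_mod_cast h.1
    have h2 : (v j : ℝ) ≤ 0 := by exact_mod_cast h.2
    nlinarith
  have f2 : ∀ j, u j ≤ -1 ∧ v j = 1 → α - β ≤ -α * u j - β * v j := fun j h => by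
    have h1 : (u j : ℝ) ≤ -1 := by exact_mod_cast h.1
    have h2 : (v j : ℝ) = 1 := by exact_mod_cast h.2
    rw [h2]; nlinarith
  have f3 : ∀ j, (u j ≤ 0 ∧ v j ≤ 0) ∨ (u j ≤ -1 ∧ v j = 1) → 0 ≤ -α * u j - β * v j :=
    fun j h => h.elim (f1 j) fun h => by have := f2 j h; linarith
  have f4 : ∀ j, u j = 1 ∧ v j ≤ -1 → -(α - β) ≤ -α * u j - β * v j := fun j h => by
    have h1 : (u j : ℝ) = 1 := by exact_mod_cast h.1
    have h2 : (v j : ℝ) ≤ -1 := by exact_mod_cast h.2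
    rw [h1]; nlinarith
  have f5 : ∀ j, u j = 1 ∧ v j ≤ 0 → -α ≤ -α * u j - β * v j := fun j h => by
    have h1 : (u j : ℝ) = 1 := by exact_mod_cast h.1
    have h2 : (v j : ℝ) ≤ 0 := by exact_mod_cast h.2
    rw [h1]; nlinarith
  have f6 : ∀ j, u j ≤ -1 ∧ v j ≤ 0 → α ≤ -α * u j - β * v j := fun j h => by
    have h1 : (u j : ℝ) ≤ -1 := by exact_mod_cast h.1
    have h2 : (v j : ℝ) ≤ 0 := by exact_mod_cast h.2
    nlinarith
  have mC := hL.mass h0 (C := fun j => (u j ≤ 0 ∧ v j ≤ 0) ∨ (u j ≤ -1 ∧ v j = 1)) f3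
  have p01 := hG.pt 0 1
  have p11 := hG.pt 1 1
  have p10 := hG.pt 1 0
  have lR : ms μ (fun j => u j = 1) ≤ 2 :=
    (ms_mono h0 fun j h => by omega).trans (hG.line 1 0 1 (Or.inl one_ne_zero))
  have lT : ms μ (fun j => v j = 1) ≤ 2 :=
    (ms_mono h0 fun j h => by omega).trans (hG.line 0 1 1 (Or.inr one_ne_zero))
  have s1 := sum_le_add h0 (Q := fun j => u j = 1) (R := fun j => u j ≤ 0)
    (fun j => by have := hu j; omega)
  have s2 := ms_le_add h0 (P := fun j => u j ≤ 0)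
    (Q := fun j => (u j ≤ 0 ∧ v j ≤ 0) ∨ (u j ≤ -1 ∧ v j = 1)) (R := fun j => u j = 0 ∧ v j = 1)
    (fun j h => by have := hv j; omega)
  have s3 := add_le_ms h0 (P := fun j => v j = 1) (Q := fun j => u j ≤ 0 ∧ v j = 1)
    (R := fun j => u j = 1 ∧ v j = 1) (fun j h h' => by omega) (fun j h => h.2) (fun j h => h.2)
  have s4 := add_le_ms h0 (P := fun j => u j ≤ 0 ∧ v j = 1) (Q := fun j => u j ≤ -1 ∧ v j = 1)
    (R := fun j => u j = 0 ∧ v j = 1) (fun j h h' => by omega) (fun j h => by omega)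
    (fun j h => by omega)
  have s5 := ms_le_add h0 (P := fun j => u j = 1) (Q := fun j => u j = 1 ∧ v j = 1)
    (R := fun j => u j = 1 ∧ v j ≤ 0) (fun j h => by have := hv j; omega)
  have s6 := ms_le_add h0 (P := fun j => u j = 1 ∧ v j ≤ 0) (Q := fun j => u j = 1 ∧ v j = 0)
    (R := fun j => u j = 1 ∧ v j ≤ -1) (fun j h => by omega)
  have s7 := ms_le_add h0 (P := fun j => (u j ≤ 0 ∧ v j ≤ 0) ∨ (u j ≤ -1 ∧ v j = 1))
    (Q := fun j => u j ≤ 0 ∧ v j ≤ 0) (R := fun j => u j ≤ -1 ∧ v j = 1) (fun j h => h)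
  have s8 := ms_mono h0 (P := fun j => u j ≤ 0 ∧ v j ≤ 0)
    (Q := fun j => (u j ≤ 0 ∧ v j ≤ 0) ∨ (u j ≤ -1 ∧ v j = 1)) (fun j h => Or.inl h)
  have hθ : ms μ (fun j => u j ≤ -1 ∧ v j = 1) < 3 * ε := by
    by_contra hc
    push Not at hc
    have b1 := hL.fill_bound h0 (C := fun j => (u j ≤ 0 ∧ v j ≤ 0) ∨ (u j ≤ -1 ∧ v j = 1))
      (F := fun j => u j = 1 ∧ v j ≤ -1) (fun j h h' => by omega) mC.le (by linarith)
      (b := α - β) f4
    have b2 := mul_ms_le_ig h0 (P := fun j => (u j ≤ 0 ∧ v j ≤ 0) ∨ (u j ≤ -1 ∧ v j = 1))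
      (Q := fun j => u j ≤ -1 ∧ v j = 1) (f := fun j => -α * u j - β * v j) (c := α - β)
      (fun j h => Or.inr h) f3 f2
    have b3 := mul_le_mul_of_nonneg_left
      (show 1 - ms μ (fun j => (u j ≤ 0 ∧ v j ≤ 0) ∨ (u j ≤ -1 ∧ v j = 1)) ≤
        ms μ (fun j => u j ≤ -1 ∧ v j = 1) by linarith) (sub_nonneg.2 hαβ)
    linarith
  have b1 := hL.fill_bound h0 (C := fun j => u j ≤ 0 ∧ v j ≤ 0)
    (F := fun j => u j = 1 ∧ v j ≤ 0) (fun j h h' => by omega) (by linarith) (by linarith)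
    (b := α) f5
  have b2 := mul_ms_le_ig h0 (P := fun j => u j ≤ 0 ∧ v j ≤ 0)
    (Q := fun j => u j ≤ -1 ∧ v j ≤ 0) (f := fun j => -α * u j - β * v j) (c := α)
    (fun j h => by omega) f1 f6
  have b3 := lt_of_mul_lt_mul_left (b2.trans_lt b1) hα.le
  refine ⟨1, 0, 0, 1, Or.inl one_ne_zero, ?_⟩
  have t1 := sum_le_add h0 (Q := fun j => 1 * u j + 0 * v j = 0 ∨ 1 * u j + 0 * v j = 1)
    (R := fun j => u j ≤ -1) (fun j => by have := hu j; omega)
  have t2 := ms_le_add h0 (P := fun j => u j ≤ -1) (Q := fun j => u j ≤ -1 ∧ v j = 1)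
    (R := fun j => u j ≤ -1 ∧ v j ≤ 0) (fun j h => by have := hv j; omega)
  linarith

/-- The statement under the normalisation `β ≤ α`. -/
lemma EXtopB_aux {ι : Type*} [Fintype ι] {μ : ι → ℝ} {u v : ι → ℤ} (hG : Good μ u v)
    {ε α β : ℝ} (hε0 : 0 < ε) (hε : ε ≤ 1 / 100) (hT : 4 - ε ≤ ∑ j, μ j)
    (hv : ∀ j, v j ≤ 1) (hu : ∀ j, u j ≤ 1) (hα : 0 < α) (hβ : 0 < β) (hαβ : β ≤ α)
    (h3 : LS μ (fun j => -α * u j - β * v j)) : Concl μ u v (20 * ε) := by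
  rcases h3 with hL | hN
  · exact EXtopB_light hG hε0 hε hT hv hu hα hβ hαβ hL
  rcases eq_or_lt_of_le hαβ with he | hlt
  · subst he
    refine EXtopB_tri hG hε0 hε hT hv hu fun j => ?_
    have h1 : -β * u j - β * v j ≤ 0 := hN j
    by_contra hc
    have h2 : u j + v j ≤ -1 := by omega
    have h3 : (u j : ℝ) + v j ≤ -1 := by exact_mod_cast h2
    nlinarith
  · refine ⟨1, 0, 0, 1, Or.inl one_ne_zero, ?_⟩
    rw [ms_true (μ := μ) (P := fun j => 1 * u j + 0 * v j = 0 ∨ 1 * u j + 0 * v j = 1)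
      fun j => ?_]
    · linarith
    have h1 : -α * u j - β * v j ≤ 0 := hN j
    have h2 := hu j
    have h3 : (v j : ℝ) ≤ 1 := by exact_mod_cast hv j
    by_contra hc
    have h4 : u j ≤ -1 := by omega
    have h5 : (u j : ℝ) ≤ -1 := by exact_mod_cast h4
    nlinarith

theorem topB {ι : Type*} [Fintype ι] {μ : ι → ℝ} {u v : ι → ℤ} (hG : Good μ u v)
    {ε α β : ℝ} (hε0 : 0 < ε) (hε : ε ≤ 1 / 100) (hT : 4 - ε ≤ ∑ j, μ j)
    (hv : ∀ j, v j ≤ 1) (hu : ∀ j, u j ≤ 1) (hα : 0 < α) (hβ : 0 < β)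
    (h3 : LS μ (fun j => -α * u j - β * v j)) : Concl μ u v (20 * ε) := by
  rcases le_total β α with h | h
  · exact EXtopB_aux hG hε0 hε hT hv hu hα hβ h h3
  · have hG' : Good μ v u :=
      hG.map 0 1 1 0 0 0 (by norm_num) (fun j => by ring) (fun j => by ring)
    have e : (fun j => -α * (u j : ℝ) - β * v j) = fun j => -β * (v j : ℝ) - α * u j := by
      funext j; ring
    rw [e] at h3
    exact (EXtopB_aux hG' hε0 hε hT hu hv hβ hα h h3).of_map 0 1 1 0 0 0 (by norm_num)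
      (fun j => by ring) (fun j => by ring)

end Pool.Agent.MP_f9a021_co.EX
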