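import Pool.Agent.MP_f9a021_co.EXdbs
import Pool.Agent.MP_f9a021_co.EXtopA
import Pool.Agent.MP_f9a021_co.EXtopB

/-! A planar lattice measure of mass almost four, all of whose lattice points are cut off by light
or supporting half-planes, lies essentially on two parallel lines. -/

open Finset

set_option linter.unusedSectionVars false

namespace Pool.Agent.MP_f9a021_co.EX

variable {ι : Type*} [Fintype ι] {μ : ι → ℝ}

lemma LS.congr {φ ψ : ι → ℝ} (h : LS μ φ) (e : ∀ j, φ j = ψ j) : LS μ ψ := by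
  rwa [show ψ = φ from funext fun j => (e j).symm]

lemma corner {u v : ι → ℤ} (hG : Good μ u v) {φ : ι → ℝ} (h : LS μ φ) {C : ι → Prop} (c d : ℤ)
    (h1 : ∀ j, C j → 0 ≤ φ j) (h2 : ∀ j, C j → φ j ≤ 0 → u j = c ∧ v j = d) : ms μ C ≤ 1 := by
  rcases h with h | h
  · exact (h.mass hG.pos h1).le
  · exact (ms_mono hG.pos fun j hj => h2 j hj (h j)).trans (hG.pt c d)

lemma cone_aux {α β : ℝ} (hα : 0 < α) (hβ : 0 < β) {x y : ℤ} (hx : 0 ≤ x) (hy : 0 ≤ y) :
    0 ≤ α * x + β * y ∧ α * x ≤ α * x + β * y ∧ (α * x + β * y ≤ 0 → x = 0 ∧ y = 0) := by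
  have h1 : (0 : ℝ) ≤ x := by exact_mod_cast hx
  have h2 : (0 : ℝ) ≤ y := by exact_mod_cast hy
  have h3 := mul_nonneg hα.le h1
  have h4 := mul_nonneg hβ.le h2
  refine ⟨by linarith, by linarith, fun h => ⟨?_, ?_⟩⟩
  · have : (x : ℝ) = 0 := (mul_eq_zero.1 (by linarith : α * x = 0)).resolve_left hα.ne'
    exact_mod_cast this
  · have : (y : ℝ) = 0 := (mul_eq_zero.1 (by linarith : β * y = 0)).resolve_left hβ.ne'
    exact_mod_cast this

lemma case4 {u v : ι → ℤ} (hG : Good μ u v) {ε α0 β0 α1 β1 α2 β2 α3 β3 : ℝ} (hε0 : 0 < ε)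
    (hε : ε ≤ 1 / 100) (hT : 4 - ε ≤ ∑ j, μ j) (a0 : 0 < α0) (b0 : 0 < β0) (a1 : 0 < α1)
    (b1 : 0 < β1) (a2 : 0 < α2) (b2 : 0 < β2) (a3 : 0 < α3) (b3 : 0 < β3)
    (h0 : LS μ (fun j => -α0 * u j - β0 * v j)) (h1 : LS μ (fun j => α1 * (u j - 1) - β1 * v j))
    (h2 : LS μ (fun j => -α2 * u j + β2 * (v j - 1)))
    (h3 : LS μ (fun j => α3 * (u j - 1) + β3 * (v j - 1))) : Concl μ u v (20 * ε) := by
  have m0 : ms μ (fun j => u j ≤ 0 ∧ v j ≤ 0) ≤ 1 := corner hG h0 0 0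
    (fun j h => by
      have := (cone_aux a0 b0 (x := -u j) (y := -v j) (by omega) (by omega)).1
      push_cast at this; linarith)
    (fun j h h' => by
      have := (cone_aux a0 b0 (x := -u j) (y := -v j) (by omega) (by omega)).2.2
        (by push_cast; linarith)
      omega)
  have m1 : ms μ (fun j => 1 ≤ u j ∧ v j ≤ 0) ≤ 1 := corner hG h1 1 0
    (fun j h => by
      have := (cone_aux a1 b1 (x := u j - 1) (y := -v j) (by omega) (by omega)).1
      push_cast at this; linarith)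
    (fun j h h' => by
      have := (cone_aux a1 b1 (x := u j - 1) (y := -v j) (by omega) (by omega)).2.2
        (by push_cast; linarith)
      omega)
  have m2 : ms μ (fun j => u j ≤ 0 ∧ 1 ≤ v j) ≤ 1 := corner hG h2 0 1
    (fun j h => by
      have := (cone_aux a2 b2 (x := -u j) (y := v j - 1) (by omega) (by omega)).1
      push_cast at this; linarith)
    (fun j h h' => by
      have := (cone_aux a2 b2 (x := -u j) (y := v j - 1) (by omega) (by omega)).2.2
        (by push_cast; linarith)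
      omega)
  have m3 : ms μ (fun j => 1 ≤ u j ∧ 1 ≤ v j) ≤ 1 := corner hG h3 1 1
    (fun j h => by
      have := (cone_aux a3 b3 (x := u j - 1) (y := v j - 1) (by omega) (by omega)).1
      push_cast at this; linarith)
    (fun j h h' => by
      have := (cone_aux a3 b3 (x := u j - 1) (y := v j - 1) (by omega) (by omega)).2.2
        (by push_cast; linarith)
      omega)
  have s1 := sum_le_add hG.pos (Q := fun j => v j ≤ 0) (R := fun j => 1 ≤ v j) (fun j => by omega)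
  have s2 := ms_le_add hG.pos (P := fun j => v j ≤ 0) (Q := fun j => u j ≤ 0 ∧ v j ≤ 0)
    (R := fun j => 1 ≤ u j ∧ v j ≤ 0) (fun j h => by omega)
  have s3 := ms_le_add hG.pos (P := fun j => 1 ≤ v j) (Q := fun j => u j ≤ 0 ∧ 1 ≤ v j)
    (R := fun j => 1 ≤ u j ∧ 1 ≤ v j) (fun j h => by omega)
  have p1 := pair hG.pos (C := fun j => u j ≤ 0 ∧ v j ≤ 0) (C' := fun j => 1 ≤ u j ∧ v j ≤ 0)
    (u := u) (ε := ε) (fun _ h => h.1) (fun _ h => h.1) a0 a1 h0 h1
    (fun j h => by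
      have : (v j : ℝ) ≤ 0 := by exact_mod_cast (show v j ≤ 0 by omega)
      nlinarith)
    (fun j h => by
      have : (v j : ℝ) ≤ 0 := by exact_mod_cast (show v j ≤ 0 by omega)
      nlinarith) (by linarith) (by linarith) m0 (by linarith) m1
  have p2 := pair hG.pos (C := fun j => u j ≤ 0 ∧ 1 ≤ v j) (C' := fun j => 1 ≤ u j ∧ 1 ≤ v j)
    (u := u) (ε := ε) (fun _ h => h.1) (fun _ h => h.1) a2 a3 h2 h3
    (fun j h => by
      have : (1 : ℝ) ≤ v j := by exact_mod_cast (show 1 ≤ v j by omega)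
      nlinarith)
    (fun j h => by
      have : (1 : ℝ) ≤ v j := by exact_mod_cast (show 1 ≤ v j by omega)
      nlinarith) (by linarith) (by linarith) m2 (by linarith) m3
  refine ⟨1, 0, 0, 1, Or.inl one_ne_zero, ?_⟩
  have t1 := sum_le_add hG.pos (Q := fun j => 1 * u j + 0 * v j = 0 ∨ 1 * u j + 0 * v j = 1)
    (R := fun j => u j ≠ 0 ∧ u j ≠ 1) (fun j => by omega)
  have t2 := ms_le_add hG.pos (P := fun j => u j ≠ 0 ∧ u j ≠ 1)
    (Q := fun j => (u j ≠ 0 ∧ u j ≠ 1) ∧ v j ≤ 0) (R := fun j => (u j ≠ 0 ∧ u j ≠ 1) ∧ 1 ≤ v j)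
    (fun j h => by omega)
  have t3 := ms_le_add hG.pos (P := fun j => (u j ≠ 0 ∧ u j ≠ 1) ∧ v j ≤ 0)
    (Q := fun j => (u j ≤ 0 ∧ v j ≤ 0) ∧ u j ≠ 0) (R := fun j => (1 ≤ u j ∧ v j ≤ 0) ∧ u j ≠ 1)
    (fun j h => by omega)
  have t4 := ms_le_add hG.pos (P := fun j => (u j ≠ 0 ∧ u j ≠ 1) ∧ 1 ≤ v j)
    (Q := fun j => (u j ≤ 0 ∧ 1 ≤ v j) ∧ u j ≠ 0) (R := fun j => (1 ≤ u j ∧ 1 ≤ v j) ∧ u j ≠ 1)
    (fun j h => by omega)
  linarith

lemma caseP0 {u v w : ι → ℤ} (hs : ∀ j, u j + v j + w j = 1) (hG : Good μ u v)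
    {ε A12 A13 A31 A32 : ℝ} (hε0 : 0 < ε) (hε : ε ≤ 1 / 100) (hT : 4 - ε ≤ ∑ j, μ j)
    (hv : ∀ j, v j ≤ 1) (a13 : 0 < A13) (a31 : 0 < A31) (a32 : 0 < A32)
    (h1 : LS μ (fun j => -A12 * v j - A13 * w j)) (h3 : LS μ (fun j => -A31 * u j - A32 * v j))
    (c : A13 ≤ A12) : Concl μ u v (20 * ε) := by
  have h1' : LS μ (fun j => A13 * (u j - 1) - (A12 - A13) * v j) := h1.congr fun j => by
    have : (w j : ℝ) = 1 - u j - v j := by exact_mod_cast (show w j = 1 - u j - v j by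
      have := hs j; omega)
    rw [this]; ring
  by_cases hn : 0 < A12 - A13 ∨ Light μ (fun j => A13 * (u j - 1) - (A12 - A13) * v j)
  · exact topA hG hε0 hε hT hv a31 a32 a13 (by linarith) h3 h1' hn
  · push Not at hn
    refine topB hG hε0 hε hT hv (fun j => ?_) a31 a32 h3
    have h2 := (h1'.resolve_left hn.2) j
    have h4 : A12 - A13 = 0 := by linarith
    simp only [h4, zero_mul, sub_zero] at h2
    have h5 : (u j : ℝ) - 1 ≤ 0 := by
      by_contra h; push Not at h; nlinarith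
    exact_mod_cast (show (u j : ℝ) ≤ 1 by linarith)

lemma caseP {u v w : ι → ℤ} (hs : ∀ j, u j + v j + w j = 1) (hG : Good μ u v)
    {ε A12 A13 A31 A32 : ℝ} (hε0 : 0 < ε) (hε : ε ≤ 1 / 100) (hT : 4 - ε ≤ ∑ j, μ j)
    (hv : ∀ j, v j ≤ 1) (a12 : 0 < A12) (a13 : 0 < A13) (a31 : 0 < A31) (a32 : 0 < A32)
    (h1 : LS μ (fun j => -A12 * v j - A13 * w j)) (h3 : LS μ (fun j => -A31 * u j - A32 * v j))
    (c : A13 ≤ A12 ∨ A31 ≤ A32) : Concl μ u v (20 * ε) := by
  rcases c with c | c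
  · exact caseP0 hs hG hε0 hε hT hv a13 a31 a32 h1 h3 c
  · have e1 : ∀ j, w j = -1 * u j + -1 * v j + 1 := fun j => by have := hs j; omega
    have e2 : ∀ j, v j = 0 * u j + 1 * v j + 0 := fun j => by omega
    exact (caseP0 (u := w) (v := v) (w := u) (fun j => by have := hs j; omega)
      (hG.map _ _ _ _ _ _ (by norm_num) e1 e2) hε0 hε hT hv a31 a13 a12
      (h3.congr fun j => by ring) (h1.congr fun j => by ring) c).of_map _ _ _ _ _ _
      (by norm_num) e1 e2

lemma edge_aux {A B : ℝ} (hB : 0 < B) (h : B ≤ A) {x y z : ℤ} (hs : x + y + z = 1) (hy : 1 ≤ y)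
    (hz : 1 ≤ z) : 0 ≤ -A * x - B * z ∧ (0 < -A * x - B * z ∨ A = B) := by
  have e : (x : ℝ) = 1 - y - z := by exact_mod_cast (show x = 1 - y - z by omega)
  have h1 : (1 : ℝ) ≤ y := by exact_mod_cast hy
  have h2 : (1 : ℝ) ≤ z := by exact_mod_cast hz
  have h3 : 0 ≤ A * (y - 1) := mul_nonneg (by linarith) (by linarith)
  have h4 : -A * x - B * z = A * (y - 1) + (A - B) * z := by rw [e]; ring
  rw [h4]
  refine ⟨by nlinarith, ?_⟩
  rcases eq_or_lt_of_le h with h | h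
  · exact Or.inr h.symm
  · exact Or.inl (by nlinarith)

lemma vert_aux {A B : ℝ} (hA : 0 < A) (hB : 0 < B) {y z : ℤ} (hy : y ≤ 0) (hz : z ≤ 0) :
    0 ≤ -A * y - B * z ∧ (0 < -A * y - B * z ∨ (y = 0 ∧ z = 0)) := by
  obtain ⟨h1, -, h3⟩ := cone_aux hA hB (x := -y) (y := -z) (by omega) (by omega)
  push_cast at h1 h3
  refine ⟨by linarith, ?_⟩
  by_cases h : 0 < -A * y - B * z
  · exact Or.inl h
  · have := h3 (by linarith)
    exact Or.inr (by omega)

lemma case3 {u v w : ι → ℤ} (hs : ∀ j, u j + v j + w j = 1) (hG : Good μ u v)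
    {ε A12 A13 A21 A23 A31 A32 : ℝ} (hε0 : 0 < ε) (hε : ε ≤ 1 / 100) (hT : 4 - ε ≤ ∑ j, μ j)
    (a12 : 0 < A12) (a13 : 0 < A13) (a21 : 0 < A21) (a23 : 0 < A23) (a31 : 0 < A31)
    (a32 : 0 < A32) (h1 : LS μ (fun j => -A12 * v j - A13 * w j))
    (h2 : LS μ (fun j => -A21 * u j - A23 * w j)) (h3 : LS μ (fun j => -A31 * u j - A32 * v j))
    (c1 : A23 ≤ A21 ∨ A32 ≤ A31) (c2 : A13 ≤ A12 ∨ A31 ≤ A32) (c3 : A12 ≤ A13 ∨ A21 ≤ A23) :
    Concl μ u v (20 * ε) := by
  have le1 : ∀ {A : ℝ} {x y z : ℤ}, 0 < A → x + y + z = 1 → -A * y - A * z ≤ 0 → x ≤ 1 := by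
    intro A x y z hA h h'
    have : (0 : ℝ) ≤ y + z := by
      by_contra h; push Not at h; nlinarith
    have : 0 ≤ y + z := by exact_mod_cast this
    omega
  by_cases p2 : (∀ j, -A21 * u j - A23 * w j ≤ 0) ∧ A21 = A23
  · exact caseP hs hG hε0 hε hT (fun j => le1 a23 (y := u j) (z := w j) (by have := hs j; omega)
      (by have := p2.1 j; rwa [p2.2] at this)) a12 a13 a31 a32 h1 h3 c2
  by_cases p1 : (∀ j, -A12 * v j - A13 * w j ≤ 0) ∧ A12 = A13
  · have e1 : ∀ j, v j = 0 * u j + 1 * v j + 0 := fun j => by omega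
    have e2 : ∀ j, u j = 1 * u j + 0 * v j + 0 := fun j => by omega
    exact (caseP (u := v) (v := u) (w := w) (fun j => by have := hs j; omega)
      (hG.map _ _ _ _ _ _ (by norm_num) e1 e2) hε0 hε hT
      (fun j => le1 a13 (hs j) (by have := p1.1 j; rwa [p1.2] at this)) a21 a23 a32 a31 h2
      (h3.congr fun j => by ring) c1).of_map _ _ _ _ _ _ (by norm_num) e1 e2
  by_cases p3 : (∀ j, -A31 * u j - A32 * v j ≤ 0) ∧ A31 = A32
  · have e1 : ∀ j, u j = 1 * u j + 0 * v j + 0 := fun j => by omega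
    have e2 : ∀ j, w j = -1 * u j + -1 * v j + 1 := fun j => by have := hs j; omega
    exact (caseP (u := u) (v := w) (w := v) (fun j => by have := hs j; omega)
      (hG.map _ _ _ _ _ _ (by norm_num) e1 e2) hε0 hε hT
      (fun j => le1 a32 (y := u j) (z := v j) (by have := hs j; omega)
        (by have := p3.1 j; rwa [p3.2] at this)) a13 a12 a21 a23 (h1.congr fun j => by ring) h2
      c3).of_map _ _ _ _ _ _ (by norm_num) e1 e2
  exfalso
  have key : ∀ {φ : ι → ℝ} {E : Prop} {Q : ι → Prop} (c d : ℤ), LS μ φ → ¬ ((∀ j, φ j ≤ 0) ∧ E) →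
      (∀ j, Q j → u j = c ∧ v j = d) →
      ms μ (fun j => 0 ≤ φ j ∧ ((0 < φ j ∨ Q j) ∨ E)) ≤ 1 := by
    intro φ E Q c d h hn hQ
    rcases h with h | h
    · exact (h.mass hG.pos fun j hj => hj.1).le
    · refine (ms_mono hG.pos fun j hj => ?_).trans (hG.pt c d)
      rcases hj.2 with (h' | h') | h'
      · exact absurd (h j) (not_le.2 h')
      · exact hQ j h'
      · exact absurd ⟨h, h'⟩ hn
  have m1 := key (Q := fun j => v j = 0 ∧ w j = 0) 1 0 h1 p1 fun j h => by have := hs j; omega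
  have m2 := key (Q := fun j => u j = 0 ∧ w j = 0) 0 1 h2 p2 fun j h => by have := hs j; omega
  have m3 := key (Q := fun j => u j = 0 ∧ v j = 0) 0 0 h3 p3 fun j h => h
  have cov : ∀ j, (0 ≤ -A12 * v j - A13 * w j ∧
      ((0 < -A12 * v j - A13 * w j ∨ v j = 0 ∧ w j = 0) ∨ A12 = A13)) ∨
      ((0 ≤ -A21 * u j - A23 * w j ∧
        ((0 < -A21 * u j - A23 * w j ∨ u j = 0 ∧ w j = 0) ∨ A21 = A23)) ∨
      (0 ≤ -A31 * u j - A32 * v j ∧
        ((0 < -A31 * u j - A32 * v j ∨ u j = 0 ∧ v j = 0) ∨ A31 = A32))) := by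
    intro j
    have := hs j
    rcases (show (v j ≤ 0 ∧ w j ≤ 0) ∨ (u j ≤ 0 ∧ w j ≤ 0) ∨ (u j ≤ 0 ∧ v j ≤ 0) ∨
      (1 ≤ v j ∧ 1 ≤ w j) ∨ (1 ≤ u j ∧ 1 ≤ w j) ∨ (1 ≤ u j ∧ 1 ≤ v j) by omega) with
      h | h | h | h | h | h
    · exact Or.inl ((vert_aux a12 a13 h.1 h.2).imp id Or.inl)
    · exact Or.inr (Or.inl ((vert_aux a21 a23 h.1 h.2).imp id Or.inl))
    · exact Or.inr (Or.inr ((vert_aux a31 a32 h.1 h.2).imp id Or.inl))
    · rcases c1 with c | c
      · exact Or.inr (Or.inl ((edge_aux a23 c (hs j) h.1 h.2).imp id (Or.imp Or.inl id)))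
      · exact Or.inr (Or.inr ((edge_aux a32 c (y := w j) (by omega) h.2 h.1).imp id
          (Or.imp Or.inl id)))
    · rcases c2 with c | c
      · exact Or.inl ((edge_aux a13 c (y := u j) (by omega) h.1 h.2).imp id (Or.imp Or.inl id))
      · obtain ⟨k1, k2⟩ := edge_aux a31 c (x := v j) (y := w j) (z := u j) (by omega) h.2 h.1
        exact Or.inr (Or.inr ⟨by linarith, k2.imp (fun h => Or.inl (by linarith)) Eq.symm⟩)
    · rcases c3 with c | c
      · obtain ⟨k1, k2⟩ := edge_aux a12 c (x := w j) (y := u j) (z := v j) (by omega) h.1 h.2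
        exact Or.inl ⟨by linarith, k2.imp (fun h => Or.inl (by linarith)) Eq.symm⟩
      · obtain ⟨k1, k2⟩ := edge_aux a21 c (x := w j) (y := v j) (z := u j) (by omega) h.2 h.1
        exact Or.inr (Or.inl ⟨by linarith, k2.imp (fun h => Or.inl (by linarith)) Eq.symm⟩)
  have s1 := sum_le_add hG.pos cov
  have s2 := ms_le_add hG.pos (fun j (h : (0 ≤ -A21 * u j - A23 * w j ∧
        ((0 < -A21 * u j - A23 * w j ∨ u j = 0 ∧ w j = 0) ∨ A21 = A23)) ∨
      (0 ≤ -A31 * u j - A32 * v j ∧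
        ((0 < -A31 * u j - A32 * v j ∨ u j = 0 ∧ v j = 0) ∨ A31 = A32))) => h)
  linarith

lemma normalize {u v : ι → ℤ} (hG : Good μ u v) (x0 y0 e1 e2 f1 f2 : ℤ)
    (hD : e1 * f2 - e2 * f1 = 1 ∨ e1 * f2 - e2 * f1 = -1) :
    ∃ u' v' : ι → ℤ, Good μ u' v' ∧ (∀ c, Concl μ u' v' c → Concl μ u v c) ∧
      ∀ j, u j = x0 + e1 * u' j + f1 * v' j ∧ v j = y0 + e2 * u' j + f2 * v' j := by
  obtain ⟨D, hD'⟩ : ∃ D, D = e1 * f2 - e2 * f1 := ⟨_, rfl⟩
  have h1 : D * D = 1 := by rw [hD']; rcases hD with h | h <;> rw [h] <;> norm_num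
  have h2 : D * f2 * (D * e1) - -D * f1 * (-D * e2) ≠ 0 := by
    have : D * f2 * (D * e1) - -D * f1 * (-D * e2) = D * D * D := by rw [hD']; ring
    rw [this, h1, one_mul]
    rintro rfl
    simp at h1
  refine ⟨fun j => D * f2 * u j + -D * f1 * v j + (D * (y0 * f1 - x0 * f2)),
    fun j => -D * e2 * u j + D * e1 * v j + (D * (x0 * e2 - y0 * e1)),
    hG.map _ _ _ _ _ _ h2 (fun _ => rfl) (fun _ => rfl),
    fun c h => h.of_map _ _ _ _ _ _ h2 (fun _ => rfl) (fun _ => rfl), fun j => ⟨?_, ?_⟩⟩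
  · linear_combination (x0 - u j) * h1 + (D * (u j - x0)) * hD'
  · linear_combination (y0 - v j) * h1 + (D * (v j - y0)) * hD'

lemma tri {n : ℕ} {a b h x y : Fin n → ℤ} (hc : ∀ X Y : ℤ, ∃ i, h i ≤ a i * X + b i * Y)
    (ht : ∀ i, a i * x i + b i * y i = h i) (hs : ∀ i k, i ≠ k → a k * x i + b k * y i < h k)
    (hp : ∀ i k, i ≠ k → ¬ (2 ∣ x i - x k ∧ 2 ∣ y i - y k)) {i k l : Fin n} (h1 : i ≠ k)
    (h2 : i ≠ l) (h3 : k ≠ l) :
    (x k - x i) * (y l - y i) - (y k - y i) * (x l - x i) = 1 ∨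
      (x k - x i) * (y l - y i) - (y k - y i) * (x l - x i) = -1 := by
  refine unimod _ _ _ _ ?_ fun X Y s t s0 t0 st s1 t1 st0 hX hY => ?_
  · have p1 := hp k i h1.symm
    have p2 := hp l i h2.symm
    have p3 := hp k l h3
    intro h0
    have e : ∀ z : ℤ, ∃ c, z = 2 * c ∨ z = 2 * c + 1 := fun z => ⟨z / 2, by omega⟩
    obtain ⟨c1, q1⟩ := e (x k - x i)
    obtain ⟨c2, q2⟩ := e (y k - y i)
    obtain ⟨c3, q3⟩ := e (x l - x i)
    obtain ⟨c4, q4⟩ := e (y l - y i)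
    rcases q1 with q1 | q1 <;> rcases q2 with q2 | q2 <;> rcases q3 with q3 | q3 <;>
      rcases q4 with q4 | q4 <;> first
      | omega
      | (rw [q1, q2, q3, q4] at h0; ring_nf at h0; omega)
  · obtain ⟨m, hm⟩ := hc (x i + X) (y i + Y)
    have g0 : ∀ r, ((a m * x r + b m * y r - h m : ℤ) : ℝ) ≤ 0 := fun r => by
      by_cases hr : r = m
      · rw [hr, ht]; simp
      · exact_mod_cast (show a m * x r + b m * y r - h m ≤ 0 by have := hs r m hr; omega)
    have g1 : ∀ r, r ≠ m → ((a m * x r + b m * y r - h m : ℤ) : ℝ) ≤ -1 := fun r hr => by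
      exact_mod_cast (show a m * x r + b m * y r - h m ≤ -1 by have := hs r m hr; omega)
    have e : (0 : ℝ) ≤ (1 - s - t) * ((a m * x i + b m * y i - h m : ℤ) : ℝ) +
        s * ((a m * x k + b m * y k - h m : ℤ) : ℝ) +
        t * ((a m * x l + b m * y l - h m : ℤ) : ℝ) := by
      have hm' : (h m : ℝ) ≤ a m * (x i + X) + b m * (y i + Y) := by exact_mod_cast hm
      rw [hX, hY] at hm'
      push_cast at hm' ⊢
      linarith
    have k1 := mul_le_mul_of_nonneg_left (g0 i) (show 0 ≤ 1 - s - t by linarith)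
    have k2 := mul_le_mul_of_nonneg_left (g0 k) s0
    have k3 := mul_le_mul_of_nonneg_left (g0 l) t0
    by_cases e1 : i = m
    · have l2 := mul_le_mul_of_nonneg_left (g1 k (e1 ▸ h1.symm)) s0
      have l3 := mul_le_mul_of_nonneg_left (g1 l (e1 ▸ h2.symm)) t0
      linarith
    · have l1 := mul_le_mul_of_nonneg_left (g1 i e1) (show 0 ≤ 1 - s - t by linarith)
      by_cases e2 : k = m
      · have l3 := mul_le_mul_of_nonneg_left (g1 l (e2 ▸ h3.symm)) t0
        linarith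
      · have l2 := mul_le_mul_of_nonneg_left (g1 k e2) s0
        linarith

lemma cpos {a b : ℤ} (h : a < b) : (0 : ℝ) < ((b - a : ℤ) : ℝ) := by exact_mod_cast sub_pos.2 h

lemma square {u v : ι → ℤ} (hG : Good μ u v) {ε : ℝ} (hε0 : 0 < ε) (hε : ε ≤ 1 / 100)
    (hT : 4 - ε ≤ ∑ j, μ j) {n : ℕ} {a b h x y : Fin n → ℤ}
    (hL : ∀ i, LS μ (fun j => ((a i * u j + b i * v j - h i : ℤ) : ℝ)))
    (ht : ∀ i, a i * x i + b i * y i = h i) (hs : ∀ i k, i ≠ k → a k * x i + b k * y i < h k)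
    {i k l m : Fin n} (h1 : i ≠ k) (h2 : i ≠ m) (h3 : k ≠ l) (h4 : l ≠ m)
    (hx : x l = x k + x m - x i) (hy : y l = y k + y m - y i)
    (hD : (x k - x i) * (y m - y i) - (y k - y i) * (x m - x i) = 1 ∨
      (x k - x i) * (y m - y i) - (y k - y i) * (x m - x i) = -1) : Concl μ u v (20 * ε) := by
  obtain ⟨u', v', g1, g2, g3⟩ := normalize hG (x i) (y i) _ _ _ _ hD
  refine g2 _ (case4 g1 hε0 hε hT (cpos (hs k i h1.symm)) (cpos (hs m i h2.symm))
    (cpos (hs i k h1)) (cpos (hs l k h3.symm)) (cpos (hs l m h4)) (cpos (hs i m h2))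
    (cpos (hs m l h4.symm)) (cpos (hs k l h3)) ((hL i).congr fun j => ?_)
    ((hL k).congr fun j => ?_) ((hL m).congr fun j => ?_) ((hL l).congr fun j => ?_))
  · rw [(g3 j).1, (g3 j).2, ← ht i]; push_cast; ring
  · rw [(g3 j).1, (g3 j).2, ← ht k, hx, hy]; push_cast; ring
  · rw [(g3 j).1, (g3 j).2, ← ht m, hx, hy]; push_cast; ring
  · rw [(g3 j).1, (g3 j).2, ← ht l, hx, hy]; push_cast; ring

theorem im {u v : ι → ℤ} (hG : Good μ u v) {ε : ℝ} (hε0 : 0 < ε) (hε : ε ≤ 1 / 100)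
    (hT : 4 - ε ≤ ∑ j, μ j) (h4 : ∀ c d : ℤ, ∃ a b : ℤ, (a ≠ 0 ∨ b ≠ 0) ∧
      LS μ (fun j => ((a * (u j - c) + b * (v j - d) : ℤ) : ℝ))) : Concl μ u v (20 * ε) := by
  classical
  choose fa fb hf using h4
  obtain ⟨K, hK⟩ : ∃ K : ℤ, ∀ j, |u j| ≤ K ∧ |v j| ≤ K :=
    ⟨∑ j, (|u j| + |v j|), fun j => by
      have := Finset.single_le_sum (f := fun j => |u j| + |v j|) (fun i _ => by positivity)
        (Finset.mem_univ j)
      have h1 := abs_nonneg (u j)
      have h2 := abs_nonneg (v j)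
      constructor <;> linarith⟩
  obtain ⟨n, hn, a, b, h, x, y, g1, g2, g3, g4, g5⟩ := dbs
    (fun a b h => (a ≠ 0 ∨ b ≠ 0) ∧ LS μ (fun j => ((a * u j + b * v j - h : ℤ) : ℝ)))
    (fun a b h h' hP hh => ⟨hP.1, by
      have hh' : (h : ℝ) ≤ h' := by exact_mod_cast hh
      rcases hP.2 with hL | hL
      · refine Or.inl fun β b0 b1 b2 => lt_of_le_of_lt (Finset.sum_le_sum fun j _ =>
          mul_le_mul_of_nonneg_left ?_ (b0 j)) (hL β b0 b1 b2)
        push_cast; linarith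
      · refine Or.inr fun j => ?_
        have := hL j
        push_cast at this ⊢; linarith⟩)
    (((Icc (-K) K) ×ˢ (Icc (-K) K)).image
      (fun c => (fa c.1 c.2, fb c.1 c.2, fa c.1 c.2 * c.1 + fb c.1 c.2 * c.2)) ∪
      {(1, 0, K), (-1, 0, K), (0, 1, K), (0, -1, K)})
    (fun f hf' => by
      rcases Finset.mem_union.1 hf' with h | h
      · obtain ⟨c, -, rfl⟩ := Finset.mem_image.1 h
        exact ⟨(hf _ _).1, (hf c.1 c.2).2.congr fun j => by push_cast; ring⟩
      · simp only [Finset.mem_insert, Finset.mem_singleton] at h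
        rcases h with rfl | rfl | rfl | rfl <;> refine ⟨by simp, Or.inr fun j => ?_⟩ <;>
          obtain ⟨k1, k2⟩ := hK j <;> rw [abs_le] at k1 k2 <;>
          exact Int.cast_nonpos.2 (by dsimp only; omega))
    (fun X Y => by
      by_cases hb : (-K ≤ X ∧ X ≤ K) ∧ (-K ≤ Y ∧ Y ≤ K)
      · exact ⟨_, Finset.mem_union_left _ (Finset.mem_image.2 ⟨(X, Y), Finset.mem_product.2
          ⟨Finset.mem_Icc.2 hb.1, Finset.mem_Icc.2 hb.2⟩, rfl⟩), le_rfl⟩
      · rcases (show K ≤ X ∨ X ≤ -K ∨ K ≤ Y ∨ Y ≤ -K by omega) with h | h | h | h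
        · exact ⟨(1, 0, K), by simp, by simpa using h⟩
        · exact ⟨(-1, 0, K), by simp, by simp; omega⟩
        · exact ⟨(0, 1, K), by simp, by simpa using h⟩
        · exact ⟨(0, -1, K), by simp, by simp; omega⟩)
  have mass : ∀ i, ms μ (fun j => h i ≤ a i * u j + b i * v j) ≤ 2 ∧
      (1 ≤ ms μ (fun j => h i ≤ a i * u j + b i * v j) → ∀ j, a i * u j + b i * v j ≤ h i) := by
    intro i
    rcases (g1 i).2 with hL | hL
    · have := hL.mass hG.pos (C := fun j => h i ≤ a i * u j + b i * v j)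
        (fun j hj => by exact_mod_cast sub_nonneg.2 hj)
      exact ⟨by linarith, fun h => by linarith⟩
    · have e : ∀ j, a i * u j + b i * v j ≤ h i := fun j => by
        have : a i * u j + b i * v j - h i ≤ 0 := Int.cast_nonpos.1 (hL j)
        omega
      exact ⟨(ms_mono hG.pos fun j hj => le_antisymm (e j) hj).trans (hG.line _ _ _ (g1 i).1),
        fun _ => e⟩
  rcases (show n = 0 ∨ n = 1 ∨ n = 2 ∨ n = 3 ∨ n = 4 by omega) with rfl | rfl | rfl | rfl | rfl
  · obtain ⟨i, -⟩ := g2 0 0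
    exact i.elim0
  · have e := ms_true (μ := μ) (P := fun j => h 0 ≤ a 0 * u j + b 0 * v j) fun j => by
      obtain ⟨i, hi⟩ := g2 (u j) (v j)
      rwa [Subsingleton.elim i 0] at hi
    have := (mass 0).1
    linarith
  · have cov : ∀ j, h 0 ≤ a 0 * u j + b 0 * v j ∨ h 1 ≤ a 1 * u j + b 1 * v j := fun j => by
      obtain ⟨i, hi⟩ := g2 (u j) (v j)
      fin_cases i
      · exact Or.inl hi
      · exact Or.inr hi
    have s1 := sum_le_add hG.pos cov
    have e0 := (mass 0).2 (by linarith [(mass 1).1])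
    have e1 := (mass 1).2 (by linarith [(mass 0).1])
    have hD : a 0 * b 1 - a 1 * b 0 = 0 := by
      by_contra hD
      have hp := mul_self_pos.2 hD
      obtain ⟨i, hi⟩ := g2 (x 0 - (a 0 * b 1 - a 1 * b 0) * (b 1 - b 0))
        (y 0 - (a 0 * b 1 - a 1 * b 0) * (a 0 - a 1))
      have k0 := g3 0
      have k1 := g4 0 1 (by decide)
      fin_cases i
      · simp only [Fin.zero_eta] at hi; nlinarith
      · simp only [Fin.mk_one] at hi; nlinarith
    refine ⟨a 0, b 0, h 0, a 0 * x 1 + b 0 * y 1, (g1 0).1, ?_⟩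
    rw [ms_true fun j => ?_]
    · linarith
    · rcases cov j with hj | hj
      · exact Or.inl (le_antisymm (e0 j) hj)
      · refine Or.inr ?_
        have k1 : a 1 * (u j - x 1) + b 1 * (v j - y 1) = 0 := by
          have := le_antisymm (e1 j) hj
          linear_combination this - g3 1
        have k2 : a 1 * (a 0 * (u j - x 1) + b 0 * (v j - y 1)) = 0 := by
          linear_combination a 0 * k1 - (v j - y 1) * hD
        have k3 : b 1 * (a 0 * (u j - x 1) + b 0 * (v j - y 1)) = 0 := by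
          linear_combination b 0 * k1 + (u j - x 1) * hD
        have k4 : a 0 * (u j - x 1) + b 0 * (v j - y 1) = 0 := by
          rcases (g1 1).1 with h | h
          · exact (mul_eq_zero.1 k2).resolve_left h
          · exact (mul_eq_zero.1 k3).resolve_left h
        linear_combination k4
  · obtain ⟨u', v', k1, k2, k3⟩ := normalize hG (x 2) (y 2) _ _ _ _
      (tri g2 g3 g4 g5 (i := 2) (k := 0) (l := 1) (by decide) (by decide) (by decide))
    have t0 := g3 0
    have t1 := g3 1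
    have t2 := g3 2
    have s01 := g4 0 1 (by decide)
    have s02 := g4 0 2 (by decide)
    have s10 := g4 1 0 (by decide)
    have s12 := g4 1 2 (by decide)
    have s20 := g4 2 0 (by decide)
    have s21 := g4 2 1 (by decide)
    refine k2 _ (case3 (w := fun j => 1 - u' j - v' j) (fun j => by ring) k1 hε0 hε hT (cpos s10)
      (cpos s20) (cpos s01) (cpos s21) (cpos s02) (cpos s12) ((g1 0).2.congr fun j => ?_)
      ((g1 1).2.congr fun j => ?_) ((g1 2).2.congr fun j => ?_) ?_ ?_ ?_)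
    · rw [(k3 j).1, (k3 j).2, ← t0]; push_cast; ring
    · rw [(k3 j).1, (k3 j).2, ← t1]; push_cast; ring
    · rw [(k3 j).1, (k3 j).2, ← t2]; push_cast; ring
    · obtain ⟨i, hi⟩ := g2 (x 1 + x 2 - x 0) (y 1 + y 2 - y 0)
      rw [Int.cast_le, Int.cast_le]
      fin_cases i
      · simp only [Fin.zero_eta] at hi; exfalso; linarith
      · simp only [Fin.mk_one] at hi; left; linarith
      · simp only [Fin.reduceFinMk] at hi; right; linarith
    · obtain ⟨i, hi⟩ := g2 (x 0 + x 2 - x 1) (y 0 + y 2 - y 1)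
      rw [Int.cast_le, Int.cast_le]
      fin_cases i
      · simp only [Fin.zero_eta] at hi; left; linarith
      · simp only [Fin.mk_one] at hi; exfalso; linarith
      · simp only [Fin.reduceFinMk] at hi; right; linarith
    · obtain ⟨i, hi⟩ := g2 (x 0 + x 1 - x 2) (y 0 + y 1 - y 2)
      rw [Int.cast_le, Int.cast_le]
      fin_cases i
      · simp only [Fin.zero_eta] at hi; left; linarith
      · simp only [Fin.mk_one] at hi; right; linarith
      · simp only [Fin.reduceFinMk] at hi; exfalso; linarith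
  · have d012 := tri g2 g3 g4 g5 (i := 0) (k := 1) (l := 2) (by decide) (by decide) (by decide)
    have d013 := tri g2 g3 g4 g5 (i := 0) (k := 1) (l := 3) (by decide) (by decide) (by decide)
    have d032 := tri g2 g3 g4 g5 (i := 0) (k := 3) (l := 2) (by decide) (by decide) (by decide)
    have d123 := tri g2 g3 g4 g5 (i := 1) (k := 2) (l := 3) (by decide) (by decide) (by decide)
    have hL := fun i => (g1 i).2
    obtain ⟨D, hD⟩ : ∃ D, D = (x 1 - x 0) * (y 2 - y 0) - (y 1 - y 0) * (x 2 - x 0) := ⟨_, rfl⟩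
    obtain ⟨E, hE⟩ : ∃ E, E = (x 1 - x 0) * (y 3 - y 0) - (y 1 - y 0) * (x 3 - x 0) := ⟨_, rfl⟩
    obtain ⟨F, hF⟩ : ∃ F, F = (x 3 - x 0) * (y 2 - y 0) - (y 3 - y 0) * (x 2 - x 0) := ⟨_, rfl⟩
    have e1 : (x 2 - x 1) * (y 3 - y 1) - (y 2 - y 1) * (x 3 - x 1) = D - E - F := by
      rw [hD, hE, hF]; ring
    have ex : D * (x 3 - x 0) = F * (x 1 - x 0) + E * (x 2 - x 0) := by rw [hD, hE, hF]; ring
    have ey : D * (y 3 - y 0) = F * (y 1 - y 0) + E * (y 2 - y 0) := by rw [hD, hE, hF]; ring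
    have d012' := d012
    have d013' := d013
    have d032' := d032
    rw [← hD] at d012'
    rw [← hE] at d013'
    rw [← hF] at d032'
    rw [e1] at d123
    have hD0 : D ≠ 0 := by omega
    rcases (show (E = D ∧ F = D) ∨ (E = -D ∧ F = D) ∨ (E = D ∧ F = -D) by omega) with
      ⟨r1, r2⟩ | ⟨r1, r2⟩ | ⟨r1, r2⟩
    · refine square hG hε0 hε hT hL g3 g4 (i := 0) (k := 1) (l := 3) (m := 2) (by decide)
        (by decide) (by decide) (by decide) (mul_left_cancel₀ hD0 ?_) (mul_left_cancel₀ hD0 ?_)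
        d012
      · rw [r1, r2] at ex; linear_combination ex
      · rw [r1, r2] at ey; linear_combination ey
    · refine square hG hε0 hε hT hL g3 g4 (i := 0) (k := 3) (l := 1) (m := 2) (by decide)
        (by decide) (by decide) (by decide) (mul_left_cancel₀ hD0 ?_) (mul_left_cancel₀ hD0 ?_)
        d032
      · rw [r1, r2] at ex; linear_combination -ex
      · rw [r1, r2] at ey; linear_combination -ey
    · refine square hG hε0 hε hT hL g3 g4 (i := 0) (k := 1) (l := 2) (m := 3) (by decide)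
        (by decide) (by decide) (by decide) (mul_left_cancel₀ hD0 ?_) (mul_left_cancel₀ hD0 ?_)
        d013
      · rw [r1, r2] at ex; linear_combination -ex
      · rw [r1, r2] at ey; linear_combination -ey

end Pool.Agent.MP_f9a021_co.EX
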