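import Pool.Agent.MP_f9a021_co.EX1

open Finset Module

set_option linter.unusedSectionVars false

namespace Pool.Agent.MP_f9a021_co.EX

theorem EXlat_gcd {ι : Type*} [Fintype ι] (a : ι → ℤ) (j1 : ι) (h1 : a j1 ≠ 0) :
    ∃ (e : ℤ) (u g : ι → ℤ), e ≠ 0 ∧ (∀ j, a j = e * u j) ∧ ∑ j, g j * u j = 1 := by
  obtain ⟨g, hg⟩ := Finset.gcd_eq_sum_mul (univ : Finset ι) a
  have hd : ∀ j, univ.gcd a ∣ a j := fun j => Finset.gcd_dvd (mem_univ j)
  choose u hu using hd
  have he : univ.gcd a ≠ 0 := fun h => h1 (by rw [hu j1, h, zero_mul])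
  refine ⟨univ.gcd a, u, g, he, hu, mul_left_cancel₀ he ?_⟩
  rw [mul_one, mul_sum]
  refine (sum_congr rfl fun j _ => ?_).trans hg.symm
  linear_combination (-g j) * hu j

theorem EXlat_fix {ι : Type*} [Fintype ι] (u v g : ι → ℤ) (j0 : ι) (hu : u j0 = 0)
    (hv : v j0 = 0) : AffLat u v (∑ j, g j * u j) (∑ j, g j * v j) := by
  classical
  refine ⟨fun j => g j + if j = j0 then 1 - ∑ i, g i else 0, ?_, ?_, ?_⟩
  · rw [sum_add_distrib]; simp
  · simp [add_mul, sum_add_distrib, hu]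
  · simp [add_mul, sum_add_distrib, hv]

theorem lat1 {ι : Type*} [Fintype ι] (a : ι → ℤ) (j0 j1 : ι) (h0 : a j0 = 0) (h1 : a j1 ≠ 0) :
    ∃ (e : ℤ) (u : ι → ℤ), e ≠ 0 ∧ (∀ j, a j = e * u j) ∧ ∀ c, AffLat u (fun _ => 0) c 0 := by
  obtain ⟨e, u, g, he, hu, hg⟩ := EXlat_gcd a j1 h1
  have u0 : u j0 = 0 := (mul_eq_zero.1 ((hu j0).symm.trans h0)).resolve_left he
  refine ⟨e, u, he, hu, fun c => ?_⟩
  have := EXlat_fix u (fun _ => 0) (fun j => c * g j) j0 u0 rfl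
  simp only [mul_assoc, ← mul_sum, hg, mul_one, mul_zero, sum_const_zero] at this
  exact this

theorem lat2 {ι : Type*} [Fintype ι] (a b : ι → ℤ) (j0 j1 j2 : ι) (h0 : a j0 = 0)
    (h0' : b j0 = 0) (h1 : a j1 ≠ 0) (h1' : b j1 = 0) (h2 : b j2 ≠ 0) :
    ∃ (e x h : ℤ) (u v : ι → ℤ), e ≠ 0 ∧ h ≠ 0 ∧ (∀ j, a j = e * u j + x * v j) ∧
      (∀ j, b j = h * v j) ∧ ∀ c d, AffLat u v c d := by
  obtain ⟨h, v, g, hh, hv, hg⟩ := EXlat_gcd b j2 h2
  have v0 : v j0 = 0 := (mul_eq_zero.1 ((hv j0).symm.trans h0')).resolve_left hh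
  have v1 : v j1 = 0 := (mul_eq_zero.1 ((hv j1).symm.trans h1')).resolve_left hh
  obtain ⟨x, hx⟩ : ∃ x, x = ∑ j, g j * a j := ⟨_, rfl⟩
  obtain ⟨e, u, g', he, hu, hg'⟩ := EXlat_gcd (fun j => a j - x * v j) j1 (by simpa [v1] using h1)
  have u0 : u j0 = 0 := (mul_eq_zero.1 ((hu j0).symm.trans (by simp [h0, v0]))).resolve_left he
  have gu : ∑ j, g j * u j = 0 := by
    refine (mul_eq_zero.1 ?_).resolve_left he
    have e1 : e * ∑ j, g j * u j = ∑ j, g j * a j - x * ∑ j, g j * v j := by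
      rw [mul_sum, mul_sum, ← sum_sub_distrib]
      refine sum_congr rfl fun j _ => ?_
      linear_combination (-g j) * hu j
    rw [e1, hg, ← hx]; ring
  refine ⟨e, x, h, u, v, he, hh, fun j => by linear_combination hu j, hv, fun c d => ?_⟩
  obtain ⟨y, hy⟩ : ∃ y, y = ∑ j, g' j * v j := ⟨_, rfl⟩
  have := EXlat_fix u v (fun j => c * g' j + (d - c * y) * g j) j0 u0 v0
  simp only [add_mul, mul_assoc, sum_add_distrib, ← mul_sum, hg, hg', gu, ← hy] at this
  rwa [show c * 1 + (d - c * y) * 0 = c by ring, show c * y + (d - c * y) * 1 = d by ring] at this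

theorem EXlat_min {κ : Type*} (f : κ → ℕ) (k : ℕ) (S : Finset κ) :
    min k (∑ g ∈ S, f g) ≤ ∑ g ∈ S, min k (f g) := by
  classical
  induction S using Finset.induction_on with
  | empty => simp
  | insert a S ha ih => rw [sum_insert ha, sum_insert ha]; omega

theorem oneD_aux {p : ℕ} {κ : Type*} [Fintype κ] [DecidableEq κ] (f : κ → ℕ) (k e : ℕ)
    (hp : 0 < p) (he : 10 * e ≤ p) (hk : k ≤ p) (hk' : p ≤ k + e) (htot : 4 * p ≤ ∑ g, f g + e)
    (hfib : ∀ g, f g ≤ 2 * p) (hmin : ∑ g, min k (f g) + 1 < p + k) :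
    ∃ s t : κ, s ≠ t ∧ ∑ g, f g ≤ f s + f t + e := by
  have hne : (univ : Finset κ).Nonempty := by
    by_contra h
    rw [not_nonempty_iff_eq_empty] at h
    rw [h, sum_empty] at htot
    omega
  obtain ⟨s, -, hs⟩ := exists_max_image univ f hne
  have e1 : ∀ F : κ → ℕ, ∑ g, F g = F s + ∑ g ∈ univ.erase s, F g := fun F =>
    (add_sum_erase univ F (mem_univ s)).symm
  have hfs := hfib s
  have hne' : (univ.erase s).Nonempty := by
    by_contra h
    rw [not_nonempty_iff_eq_empty] at h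
    rw [e1 f, h, sum_empty] at htot
    omega
  obtain ⟨t, ht, hmax⟩ := exists_max_image (univ.erase s) f hne'
  have e2 : ∀ F : κ → ℕ, ∑ g ∈ univ.erase s, F g = F t + ∑ g ∈ (univ.erase s).erase t, F g :=
    fun F => (add_sum_erase _ F ht).symm
  refine ⟨s, t, (ne_of_mem_erase ht).symm, ?_⟩
  have hst := hs t (mem_univ t)
  rcases lt_or_ge (f t) k with h | h
  · exfalso
    have e3 : ∑ g ∈ univ.erase s, min k (f g) = ∑ g ∈ univ.erase s, f g :=
      sum_congr rfl fun g hg => min_eq_right ((hmax g hg).trans h.le)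
    rw [e1, e3] at hmin
    rw [e1] at htot
    omega
  · have e4 := EXlat_min f k ((univ.erase s).erase t)
    rw [e1, e2] at hmin
    rw [e1, e2]
    omega

end Pool.Agent.MP_f9a021_co.EX
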