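import Pool.Agent.MP_f9a021_co.EXsep
import Pool.Agent.MP_f9a021_co.EX1

open Finset Module

set_option linter.unusedSectionVars false

namespace Pool.Agent.MP_f9a021_co.EX

/-- An integer that is a combination with coefficients in `[0, 1]` lies in a fixed interval. -/
lemma EXprep_box {ι : Type*} [Fintype ι] (w : ι → ℤ) (f : ι → ℝ) (f0 : ∀ j, 0 ≤ f j)
    (f1 : ∀ j, f j ≤ 1) {e K : ℤ} (he : ∑ j, f j * w j = e) (hK : ∑ j, |w j| ≤ K) :
    -K ≤ e ∧ e ≤ K := by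
  have h1 : |(e : ℝ)| ≤ ∑ j, |(w j : ℝ)| := by
    rw [← he]
    refine (abs_sum_le_sum_abs _ _).trans (sum_le_sum fun j _ => ?_)
    rw [abs_mul, abs_of_nonneg (f0 j)]
    exact mul_le_of_le_one_left (abs_nonneg _) (f1 j)
  have h2 : |e| ≤ ∑ j, |w j| := by exact_mod_cast h1
  exact abs_le.1 (h2.trans hK)

theorem round_lat {ι : Type*} [Fintype ι] (u v : ι → ℤ) : ∃ C : ℕ, ∀ (p : ℕ) (c d : ℤ)
    (β : ι → ℝ), AffLat u v c d → ∑ j, β j = 1 → ∑ j, β j * u j = c → ∑ j, β j * v j = d →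
    ∃ α : ι → ℤ, ∑ j, α j = p ∧ ∑ j, α j * u j = p * c ∧ ∑ j, α j * v j = p * d ∧
      ∀ j, |(α j : ℝ) - p * β j| ≤ C := by
  classical
  have hch : ∀ e : ℤ × ℤ × ℤ, ∃ g : ι → ℤ, (∃ g' : ι → ℤ, ∑ j, g' j = e.1 ∧
      ∑ j, g' j * u j = e.2.1 ∧ ∑ j, g' j * v j = e.2.2) →
      (∑ j, g j = e.1 ∧ ∑ j, g j * u j = e.2.1 ∧ ∑ j, g j * v j = e.2.2) := fun e => by
    by_cases h : ∃ g' : ι → ℤ, ∑ j, g' j = e.1 ∧ ∑ j, g' j * u j = e.2.1 ∧
      ∑ j, g' j * v j = e.2.2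
    · exact ⟨h.choose, fun _ => h.choose_spec⟩
    · exact ⟨0, fun h' => absurd h' h⟩
  choose G hG using hch
  obtain ⟨K, hK⟩ : ∃ K : ℤ, K = ∑ j, (|(1 : ℤ)| + |u j| + |v j|) := ⟨_, rfl⟩
  have K1 : ∑ _j : ι, |(1 : ℤ)| ≤ K := hK ▸ sum_le_sum fun j _ => by
    have := abs_nonneg (u j); have := abs_nonneg (v j); linarith
  have K2 : ∑ j, |u j| ≤ K := hK ▸ sum_le_sum fun j _ => by
    have := abs_nonneg (1 : ℤ); have := abs_nonneg (v j); linarith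
  have K3 : ∑ j, |v j| ≤ K := hK ▸ sum_le_sum fun j _ => by
    have := abs_nonneg (1 : ℤ); have := abs_nonneg (u j); linarith
  refine ⟨(∑ e ∈ Finset.Icc (-K, -K, -K) (K, K, K), ∑ j, (G e j).natAbs) + 1, ?_⟩
  rintro p c d β ⟨g, g1, g2, g3⟩ b1 b2 b3
  obtain ⟨a, ha⟩ : ∃ a : ι → ℤ, ∀ j, a j = ⌊(p : ℝ) * β j⌋ := ⟨_, fun _ => rfl⟩
  have f0 : ∀ j, 0 ≤ (p : ℝ) * β j - a j := fun j => by
    rw [ha]; exact sub_nonneg.2 (Int.floor_le _)
  have f1 : ∀ j, (p : ℝ) * β j - a j ≤ 1 := fun j => by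
    rw [ha]; have := Int.lt_floor_add_one ((p : ℝ) * β j); linarith
  obtain ⟨e, he⟩ : ∃ e : ℤ × ℤ × ℤ, e = ((p : ℤ) - ∑ j, a j, (p : ℤ) * c - ∑ j, a j * u j,
    (p : ℤ) * d - ∑ j, a j * v j) := ⟨_, rfl⟩
  have e1 : e.1 = (p : ℤ) - ∑ j, a j := by rw [he]
  have e2 : e.2.1 = (p : ℤ) * c - ∑ j, a j * u j := by rw [he]
  have e3 : e.2.2 = (p : ℤ) * d - ∑ j, a j * v j := by rw [he]
  have x1 := EXprep_box (fun _ => 1) _ f0 f1 (e := e.1) (by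
    rw [e1]; push_cast
    simp only [mul_one, sum_sub_distrib, ← mul_sum, b1]) K1
  have x2 := EXprep_box u _ f0 f1 (e := e.2.1) (by
    rw [e2]; push_cast
    simp only [sub_mul, mul_assoc, sum_sub_distrib, ← mul_sum, b2]) K2
  have x3 := EXprep_box v _ f0 f1 (e := e.2.2) (by
    rw [e3]; push_cast
    simp only [sub_mul, mul_assoc, sum_sub_distrib, ← mul_sum, b3]) K3
  have hB : e ∈ Finset.Icc (-K, -K, -K) (K, K, K) :=
    Finset.mem_Icc.2 ⟨⟨x1.1, x2.1, x3.1⟩, ⟨x1.2, x2.2, x3.2⟩⟩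
  obtain ⟨y1, y2, y3⟩ := hG e ⟨fun j => p * g j - a j,
    by rw [e1]; simp only [sum_sub_distrib, ← mul_sum, g1, mul_one],
    by rw [e2]; simp only [sub_mul, mul_assoc, sum_sub_distrib, ← mul_sum, g2],
    by rw [e3]; simp only [sub_mul, mul_assoc, sum_sub_distrib, ← mul_sum, g3]⟩
  refine ⟨fun j => a j + G e j, ?_, ?_, ?_, fun j => ?_⟩
  · rw [sum_add_distrib, y1, e1]; ring
  · simp only [add_mul]
    rw [sum_add_distrib, y2, e2]; ring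
  · simp only [add_mul]
    rw [sum_add_distrib, y3, e3]; ring
  · have z1 : (G e j).natAbs ≤ ∑ e ∈ Finset.Icc (-K, -K, -K) (K, K, K), ∑ j, (G e j).natAbs :=
      (single_le_sum (f := fun j => (G e j).natAbs) (fun _ _ => Nat.zero_le _)
        (mem_univ j)).trans
        (single_le_sum (f := fun e => ∑ j, (G e j).natAbs) (fun _ _ => Nat.zero_le _) hB)
    obtain ⟨S, hS⟩ : ∃ S : ℕ,
      S = ∑ e ∈ Finset.Icc (-K, -K, -K) (K, K, K), ∑ j, (G e j).natAbs := ⟨_, rfl⟩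
    rw [← hS] at z1 ⊢
    have z2 : -(S : ℤ) ≤ G e j ∧ G e j ≤ S := by omega
    have z3 : -(S : ℝ) ≤ G e j := by exact_mod_cast z2.1
    have z4 : (G e j : ℝ) ≤ S := by exact_mod_cast z2.2
    have := f0 j
    have := f1 j
    push_cast
    rw [abs_le]
    constructor <;> linarith

theorem prep {ι : Type*} [Fintype ι] (u v : ι → ℤ) (τ : ℝ) (hτ : 0 < τ) (hτ1 : τ ≤ 1) :
    ∃ p0 : ℕ, ∀ p : ℕ, p0 ≤ p → ∀ m : ι → ℕ, FreeZ p u v m → ∀ c d : ℤ, AffLat u v c d →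
      ∃ a b : ℤ, Light (fun j => (m j : ℝ) / p - τ)
          (fun j => ((a * (u j - c) + b * (v j - d) : ℤ) : ℝ)) ∨
        ((∀ j, a * (u j - c) + b * (v j - d) ≤ 0) ∧ ∃ j, a * (u j - c) + b * (v j - d) < 0) := by
  classical
  obtain ⟨C, hC⟩ := round_lat u v
  have hch : ∀ e : ℤ × ℤ, ∃ γ : ι → ℕ, ((∀ j, 0 < γ j) ∧ ∑ j, (γ j : ℤ) * (u j - e.1) = 0 ∧
      ∑ j, (γ j : ℤ) * (v j - e.2) = 0) ∨
      ∃ a b : ℤ, (∀ j, a * (u j - e.1) + b * (v j - e.2) ≤ 0) ∧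
        ∃ j, a * (u j - e.1) + b * (v j - e.2) < 0 := fun e => by
    rcases stiemke (fun j => u j - e.1) (fun j => v j - e.2) with ⟨γ, h⟩ | h
    · exact ⟨γ, Or.inl h⟩
    · exact ⟨0, Or.inr h⟩
  choose Γ hΓ using hch
  obtain ⟨K, hK⟩ : ∃ K : ℤ, K = ∑ j, (|u j| + |v j|) := ⟨_, rfl⟩
  have K2 : ∑ j, |u j| ≤ K := hK ▸ sum_le_sum fun j _ => by
    have := abs_nonneg (v j); linarith
  have K3 : ∑ j, |v j| ≤ K := hK ▸ sum_le_sum fun j _ => by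
    have := abs_nonneg (u j); linarith
  obtain ⟨S, hS⟩ : ∃ S : ℕ, S = ∑ e ∈ Finset.Icc (-K, -K) (K, K), ∑ j, Γ e j := ⟨_, rfl⟩
  obtain ⟨p0, hp0⟩ := exists_nat_gt (2 * (C : ℝ) * S / τ)
  refine ⟨p0, fun p hp m hm c d hcd => ?_⟩
  have hp1 : 2 * (C : ℝ) * S < p * τ := by
    rw [div_lt_iff₀ hτ] at hp0
    have : (p0 : ℝ) ≤ p := by exact_mod_cast hp
    nlinarith
  have hp2 : (0 : ℝ) < p := by
    have : 0 ≤ 2 * (C : ℝ) * S := by positivity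
    exact (pos_iff_pos_of_mul_pos (this.trans_lt hp1)).2 hτ
  rcases hΓ (c, d) with ⟨γ0, γ1, γ2⟩ | ⟨a, b, h⟩
  swap
  · exact ⟨a, b, Or.inr h⟩
  have key : ¬ ∃ β : ι → ℝ, (∀ j, 0 ≤ β j) ∧ (∀ j, β j ≤ (m j : ℝ) / p - τ) ∧ ∑ j, β j = 1 ∧
      ∑ j, β j * ((u j - c : ℤ) : ℝ) = 0 ∧ ∑ j, β j * ((v j - d : ℤ) : ℝ) = 0 := by
    rintro ⟨β, β0, β1, b1, b2, b3⟩
    have b2' : ∑ j, β j * u j = c := by
      push_cast at b2
      simp only [mul_sub, sum_sub_distrib, ← sum_mul, b1] at b2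
      linarith
    have b3' : ∑ j, β j * v j = d := by
      push_cast at b3
      simp only [mul_sub, sum_sub_distrib, ← sum_mul, b1] at b3
      linarith
    have β2 : ∀ j, β j ≤ 1 := fun j =>
      b1 ▸ single_le_sum (f := β) (fun i _ => β0 i) (mem_univ j)
    have x2 := EXprep_box u β β0 β2 b2' K2
    have x3 := EXprep_box v β β0 β2 b3' K3
    have hB : (c, d) ∈ Finset.Icc (-K, -K) (K, K) :=
      Finset.mem_Icc.2 ⟨⟨x2.1, x3.1⟩, ⟨x2.2, x3.2⟩⟩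
    obtain ⟨γ, hγ⟩ : ∃ γ : ι → ℕ, γ = Γ (c, d) := ⟨_, rfl⟩
    have hGS : ∑ j, γ j ≤ S := by
      rw [hS, hγ]
      exact single_le_sum (f := fun e => ∑ j, Γ e j) (fun _ _ => Nat.zero_le _) hB
    rw [← hγ] at γ0 γ1 γ2
    obtain ⟨G, hG⟩ : ∃ G : ℝ, G = ∑ j, (γ j : ℝ) := ⟨_, rfl⟩
    have G1 : G ≤ S := by rw [hG]; exact_mod_cast hGS
    have G2 : ∀ j, (γ j : ℝ) ≤ G := fun j =>
      hG ▸ single_le_sum (f := fun j => (γ j : ℝ)) (fun i _ => Nat.cast_nonneg _) (mem_univ j)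
    have G3 : ∀ j, (1 : ℝ) ≤ γ j := fun j => by exact_mod_cast γ0 j
    have G4 : 1 ≤ G := by
      obtain ⟨j, -, -⟩ := exists_ne_zero_of_sum_ne_zero (b1.trans_ne one_ne_zero)
      exact (G3 j).trans (G2 j)
    obtain ⟨δ, hδ⟩ : ∃ δ : ℝ, δ = τ / (2 * G) := ⟨_, rfl⟩
    have δ0 : 0 < δ := by rw [hδ]; positivity
    have δ1 : δ * G = τ / 2 := by rw [hδ]; field_simp
    have c1 : ∑ j, (γ j : ℝ) * u j = G * c := by
      have h : ∑ j, (γ j : ℝ) * (u j - c) = 0 := by exact_mod_cast γ1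
      simp only [mul_sub, sum_sub_distrib, ← sum_mul, ← hG] at h
      linarith
    have c2 : ∑ j, (γ j : ℝ) * v j = G * d := by
      have h : ∑ j, (γ j : ℝ) * (v j - d) = 0 := by exact_mod_cast γ2
      simp only [mul_sub, sum_sub_distrib, ← sum_mul, ← hG] at h
      linarith
    obtain ⟨α, a1, a2, a3, a4⟩ := hC p c d (fun j => (1 - τ / 2) * β j + δ * γ j) hcd
      (by rw [sum_add_distrib, ← mul_sum, ← mul_sum, b1, ← hG, δ1]; ring)
      (by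
        simp only [add_mul, mul_assoc]
        rw [sum_add_distrib, ← mul_sum, ← mul_sum, b2', c1, ← mul_assoc, δ1]; ring)
      (by
        simp only [add_mul, mul_assoc]
        rw [sum_add_distrib, ← mul_sum, ← mul_sum, b3', c2, ← mul_assoc, δ1]; ring)
    have C0 : (0 : ℝ) ≤ C := Nat.cast_nonneg _
    have q1 : (C : ℝ) ≤ p * δ := by
      refine le_of_mul_le_mul_right ?_ (show (0 : ℝ) < G by linarith)
      rw [mul_assoc, δ1]
      nlinarith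
    have q2 : (C : ℝ) ≤ p * (τ / 2) := by nlinarith
    have lo : ∀ j, 0 ≤ α j := fun j => by
      have h1 := (abs_le.1 (a4 j)).1
      have h2 : δ ≤ (1 - τ / 2) * β j + δ * γ j := by
        have := mul_nonneg (show 0 ≤ 1 - τ / 2 by linarith) (β0 j)
        have := mul_le_mul_of_nonneg_left (G3 j) δ0.le
        linarith
      have h3 := mul_le_mul_of_nonneg_left h2 hp2.le
      have h4 : (0 : ℝ) ≤ α j := by linarith
      exact_mod_cast h4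
    have hi : ∀ j, α j ≤ m j := fun j => by
      have h1 := (abs_le.1 (a4 j)).2
      have h2 : (1 - τ / 2) * β j + δ * γ j ≤ (m j : ℝ) / p - τ / 2 := by
        have := mul_nonneg hτ.le (β0 j)
        have := mul_le_mul_of_nonneg_left (G2 j) δ0.le
        have := β1 j
        linarith
      have h3 := mul_le_mul_of_nonneg_left h2 hp2.le
      have h5 : (p : ℝ) * ((m j : ℝ) / p - τ / 2) = m j - p * (τ / 2) := by field_simp
      have h4 : (α j : ℝ) ≤ m j := by linarith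
      exact_mod_cast h4
    choose n hn using fun j => Int.eq_ofNat_of_zero_le (lo j)
    obtain rfl : α = fun j => (n j : ℤ) := funext hn
    have a5 : ∑ j, (n j : ℤ) = p := a1
    exact hm n (fun j => Int.ofNat_le.1 (hi j)) (by exact_mod_cast a5) ⟨c, a2⟩ ⟨d, a3⟩
  obtain ⟨a, b, h⟩ := separate (fun j => (m j : ℝ) / p - τ) (fun j => u j - c)
    (fun j => v j - d) key
  refine ⟨a, b, Or.inl ?_⟩
  have e : (fun j => ((a * (u j - c) + b * (v j - d) : ℤ) : ℝ)) =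
      fun j => (a : ℝ) * ((u j - c : ℤ) : ℝ) + (b : ℝ) * ((v j - d : ℤ) : ℝ) := by
    funext j; push_cast; ring
  rw [e]
  exact h

end Pool.Agent.MP_f9a021_co.EX
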