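import Pool.Agent.MP_f9a021_co.EXim
import Pool.Agent.MP_f9a021_co.EXprep
import Pool.Agent.MP_f9a021_co.EXlat

/-! Stability for integer models of sequences with bounded support. -/

open Finset

set_option linter.unusedSectionVars false

namespace Pool.Agent.MP_f9a021_co.EX

variable {ι : Type*} [Fintype ι]

lemma pick (P : ι → Prop) [DecidablePred P] (m : ι → ℕ) (k : ℕ) (hk : k ≤ ∑ j with P j, m j) :
    ∃ α : ι → ℕ, (∀ j, α j ≤ m j) ∧ ∑ j, α j = k ∧ ∀ j, ¬ P j → α j = 0 := by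
  classical
  induction k with
  | zero => exact ⟨0, by simp, by simp, by simp⟩
  | succ k ih =>
    obtain ⟨α, h1, h2, h3⟩ := ih (by omega)
    obtain ⟨i, hi, hlt⟩ : ∃ i, P i ∧ α i < m i := by
      by_contra hc
      push Not at hc
      have e1 : ∑ j with P j, m j ≤ ∑ j with P j, α j :=
        Finset.sum_le_sum fun j hj => hc j (Finset.mem_filter.1 hj).2
      have e2 : ∑ j with P j, α j ≤ ∑ j, α j :=
        Finset.sum_le_sum_of_subset (Finset.filter_subset _ _)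
      omega
    refine ⟨fun j => α j + if j = i then 1 else 0, fun j => ?_, ?_, fun j hj => ?_⟩
    · have := h1 j
      dsimp only
      split_ifs with h
      · rw [h]; omega
      · omega
    · rw [Finset.sum_add_distrib, h2]; simp
    · dsimp only
      rw [h3 j hj, if_neg (by rintro rfl; exact hj hi)]

lemma sum_filter_mono {P Q : ι → Prop} [DecidablePred P] [DecidablePred Q] (m : ι → ℕ)
    (h : ∀ j, P j → Q j) : ∑ j with P j, m j ≤ ∑ j with Q j, m j :=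
  Finset.sum_le_sum_of_subset fun j hj => Finset.mem_filter.2
    ⟨Finset.mem_univ _, h j (Finset.mem_filter.1 hj).2⟩

lemma sum_supp {α : ι → ℕ} {u : ι → ℤ} {c : ℤ} (h : ∀ j, α j ≠ 0 → u j = c) :
    ∑ j, (α j : ℤ) * u j = (∑ j, α j : ℕ) * c := by
  push_cast
  rw [Finset.sum_mul]
  refine Finset.sum_congr rfl fun j _ => ?_
  by_cases hj : α j = 0
  · simp [hj]
  · rw [h j hj]

lemma ms_le_div {p : ℕ} {m : ι → ℕ} {τ : ℝ} (hτ : 0 ≤ τ) (P : ι → Prop) [DecidablePred P] :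
    ms (fun j => (m j : ℝ) / p - τ) P ≤ ((∑ j with P j, m j : ℕ) : ℝ) / p := by
  unfold ms
  push_cast
  rw [Finset.sum_div, Finset.sum_filter]
  refine Finset.sum_le_sum fun j _ => ?_
  split_ifs <;> linarith

lemma FreeZ.pt {p : ℕ} {u v : ι → ℤ} {m : ι → ℕ} (h : FreeZ p u v m) (c d : ℤ) :
    ∑ j with (u j = c ∧ v j = d), m j < p := by
  by_contra hc
  obtain ⟨α, h1, h2, h3⟩ := pick _ m p (not_lt.1 hc)
  have e : ∀ j, α j ≠ 0 → u j = c ∧ v j = d := fun j hj => by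
    by_contra h4; exact hj (h3 j h4)
  refine h α h1 h2 ?_ ?_
  · rw [sum_supp fun j hj => (e j hj).1, h2]; exact Dvd.intro _ rfl
  · rw [sum_supp fun j hj => (e j hj).2, h2]; exact Dvd.intro _ rfl

lemma FreeZ.mid {p : ℕ} {u v : ι → ℤ} {m : ι → ℕ} (h : FreeZ p u v m) (j0 j1 j2 : ι)
    (h0 : 0 < m j0) (h1 : u j1 + u j2 = 2 * u j0) (h2 : v j1 + v j2 = 2 * v j0)
    (h3 : u j1 ≠ u j0 ∨ v j1 ≠ v j0) :
    ∑ j with (u j = u j0 ∧ v j = v j0), m j + 2 * min (∑ j with (u j = u j1 ∧ v j = v j1), m j)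
      (∑ j with (u j = u j2 ∧ v j = v j2), m j) < p := by
  by_contra hc
  have e0 := h.pt (u j0) (v j0)
  have e1 : m j0 ≤ ∑ j with (u j = u j0 ∧ v j = v j0), m j :=
    Finset.single_le_sum (f := m) (fun _ _ => Nat.zero_le _) (by simp)
  set M := ∑ j with (u j = u j0 ∧ v j = v j0), m j with hM
  obtain ⟨α0, a1, a2, a3⟩ := pick (fun j => u j = u j0 ∧ v j = v j0) m (p - 2 * ((p - M + 1) / 2))
    (by omega)
  obtain ⟨α1, b1, b2, b3⟩ := pick (fun j => u j = u j1 ∧ v j = v j1) m ((p - M + 1) / 2) (by omega)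
  obtain ⟨α2, c1, c2, c3⟩ := pick (fun j => u j = u j2 ∧ v j = v j2) m ((p - M + 1) / 2) (by omega)
  have a4 : ∀ j, α0 j ≠ 0 → u j = u j0 ∧ v j = v j0 := fun j hj => by
    by_contra h4; exact hj (a3 j h4)
  have b4 : ∀ j, α1 j ≠ 0 → u j = u j1 ∧ v j = v j1 := fun j hj => by
    by_contra h4; exact hj (b3 j h4)
  have c4 : ∀ j, α2 j ≠ 0 → u j = u j2 ∧ v j = v j2 := fun j hj => by
    by_contra h4; exact hj (c3 j h4)
  obtain ⟨t, ht⟩ : ∃ t, t = (p - M + 1) / 2 := ⟨_, rfl⟩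
  rw [← ht] at a2 b2 c2
  have e2 : ((p - 2 * t : ℕ) : ℤ) = p - 2 * t := by omega
  refine h (fun j => α0 j + α1 j + α2 j) (fun j => ?_) ?_ ?_ ?_
  · have := a1 j; have := b1 j; have := c1 j
    have := a4 j; have := b4 j; have := c4 j
    omega
  · rw [Finset.sum_add_distrib, Finset.sum_add_distrib]; omega
  · simp only [Nat.cast_add, add_mul, Finset.sum_add_distrib]
    rw [sum_supp fun j hj => (a4 j hj).1, sum_supp fun j hj => (b4 j hj).1,
      sum_supp fun j hj => (c4 j hj).1, a2, b2, c2, e2]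
    exact ⟨u j0, by linear_combination (t : ℤ) * h1⟩
  · simp only [Nat.cast_add, add_mul, Finset.sum_add_distrib]
    rw [sum_supp fun j hj => (a4 j hj).2, sum_supp fun j hj => (b4 j hj).2,
      sum_supp fun j hj => (c4 j hj).2, a2, b2, c2, e2]
    exact ⟨v j0, by linear_combination (t : ℤ) * h2⟩

lemma exists_tau (N D : ℕ) {ε : ℝ} (hε : 0 < ε) :
    ∃ τ : ℝ, 0 < τ ∧ τ ≤ 1 ∧ τ * D ≤ 1 ∧ τ * N ≤ ε := by
  have hD : (0 : ℝ) < D + 1 := by positivity
  have hN : (0 : ℝ) < N + 1 := by positivity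
  refine ⟨min (1 / (D + 1)) (ε / (N + 1)), by positivity, ?_, ?_, ?_⟩
  · exact (min_le_left _ _).trans ((div_le_one hD).2 (by linarith [Nat.cast_nonneg (α := ℝ) D]))
  · refine (mul_le_mul_of_nonneg_right (min_le_left _ _) (Nat.cast_nonneg _)).trans ?_
    rw [div_mul_eq_mul_div, div_le_one hD]; linarith
  · refine (mul_le_mul_of_nonneg_right (min_le_right _ _) (Nat.cast_nonneg _)).trans ?_
    rw [div_mul_eq_mul_div, div_le_iff₀ hN]; nlinarith

lemma mu_facts {p D : ℕ} (hp : 0 < p) {m : ι → ℕ} (hD : ∀ j, p ≤ D * m j) {τ ε T : ℝ}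
    (t0 : 0 < τ) (t2 : τ * D ≤ 1) (t3 : τ * Fintype.card ι ≤ ε)
    (hT : T * p ≤ ((∑ j, m j : ℕ) : ℝ)) :
    (∀ j, 0 ≤ (m j : ℝ) / p - τ) ∧ ((∑ j, m j : ℕ) : ℝ) / p - ε ≤ ∑ j, ((m j : ℝ) / p - τ) ∧
      T ≤ ((∑ j, m j : ℕ) : ℝ) / p := by
  have hp' : (0 : ℝ) < p := by exact_mod_cast hp
  refine ⟨fun j => ?_, ?_, (le_div_iff₀ hp').2 hT⟩
  · have h1 : (p : ℝ) ≤ D * m j := by exact_mod_cast hD j
    rw [sub_nonneg, le_div_iff₀ hp']
    nlinarith [Nat.cast_nonneg (α := ℝ) (m j), mul_le_mul_of_nonneg_left h1 t0.le]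
  · rw [Finset.sum_sub_distrib, ← Finset.sum_div, Finset.sum_const, Finset.card_univ,
      nsmul_eq_mul]
    push_cast
    linarith

theorem imz (a b : ι → ℤ) (D : ℕ) {ε : ℝ} (hε0 : 0 < ε) (hε : ε ≤ 1 / 200) : ∃ p0 : ℕ,
    ∀ p : ℕ, p0 ≤ p → ∀ j0 j1 : ι, a j0 = 0 → b j0 = 0 → a j1 ≠ 0 → b j1 = 0 → ∀ m : ι → ℕ,
      FreeZ p a b m → (∀ j, p ≤ D * m j) →
      (∀ α β h : ℤ, (α ≠ 0 ∨ β ≠ 0) → ∑ j with α * a j + β * b j = h, m j ≤ 2 * p) →
      (4 - ε) * p ≤ ((∑ j, m j : ℕ) : ℝ) → ∃ α β s t : ℤ, (α ≠ 0 ∨ β ≠ 0) ∧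
        ((∑ j, m j : ℕ) : ℝ) - 41 * ε * p ≤
          ((∑ j with (α * a j + β * b j = s ∨ α * a j + β * b j = t), m j : ℕ) : ℝ) := by
  classical
  by_cases hex : ∃ j0 j1 j2, a j0 = 0 ∧ b j0 = 0 ∧ a j1 ≠ 0 ∧ b j1 = 0 ∧ b j2 ≠ 0
  swap
  · refine ⟨1, fun p hp j0 j1 h0 h0' h1 h1' m _ _ hl hT => ?_⟩
    have e : ∀ j, b j = 0 := fun j => by
      by_contra h; exact hex ⟨j0, j1, j, h0, h0', h1, h1', h⟩
    have h2 := hl 0 1 0 (Or.inr one_ne_zero)
    rw [Finset.filter_true_of_mem fun j _ => by rw [e j]; ring] at h2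
    have h3 : ((∑ j, m j : ℕ) : ℝ) ≤ 2 * p := by exact_mod_cast h2
    have h4 : (1 : ℝ) ≤ p := by exact_mod_cast hp
    nlinarith
  obtain ⟨j0, j1, j2, h0, h0', h1, h1', h2⟩ := hex
  obtain ⟨e, x, h, u, v, e0, hh0, ha, hb, hlat⟩ := lat2 a b j0 j1 j2 h0 h0' h1 h1' h2
  obtain ⟨τ, t0, t1, t2, t3⟩ := exists_tau (Fintype.card ι) D hε0
  obtain ⟨p0, hp0⟩ := prep u v τ t0 t1
  refine ⟨p0 + 1, fun p hp _ _ _ _ _ _ m hF hD hl hT => ?_⟩
  have hp1 : 0 < p := by omega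
  have hp' : (0 : ℝ) < p := by exact_mod_cast hp1
  obtain ⟨m0, m1, m2⟩ := mu_facts hp1 hD t0 t2 t3 hT
  have hF' : FreeZ p u v m := fun α a1 a2 a3 a4 => hF α a1 a2 (by
      simp only [ha, mul_add, Finset.sum_add_distrib, mul_left_comm _ e, mul_left_comm _ x,
        ← Finset.mul_sum]
      exact dvd_add (a3.mul_left _) (a4.mul_left _)) (by
      simp only [hb, mul_left_comm _ h, ← Finset.mul_sum]
      exact a4.mul_left _)
  have tr : ∀ α β g : ℤ, ∀ j, α * u j + β * v j = g →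
      α * h * a j + (β * e - α * x) * b j = e * h * g := fun α β g j hj => by
    rw [ha, hb, ← hj]; ring
  have tr0 : ∀ α β : ℤ, (α ≠ 0 ∨ β ≠ 0) → (α * h ≠ 0 ∨ β * e - α * x ≠ 0) := fun α β hab => by
    by_cases hα : α = 0
    · right; rw [hα, zero_mul, sub_zero]; exact mul_ne_zero (hab.resolve_left (not_not.2 hα)) e0
    · exact Or.inl (mul_ne_zero hα hh0)
  have hG : Good (fun j => (m j : ℝ) / p - τ) u v := by
    refine ⟨m0, fun c d => ?_, fun α β g hab => ?_, fun i0 i1 i2 k1 k2 k3 => ?_⟩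
    · refine (ms_le_div t0.le _).trans ((div_le_one hp').2 ?_)
      exact_mod_cast (hF'.pt c d).le
    · refine (ms_le_div t0.le _).trans ((div_le_iff₀ hp').2 ?_)
      have := (sum_filter_mono m (tr α β g)).trans (hl _ _ (e * h * g) (tr0 α β hab))
      exact_mod_cast this
    · have k4 := hF'.mid i0 i1 i2 (Nat.pos_of_ne_zero fun h => by
        have := hD i0; rw [h] at this; omega) k1 k2 k3
      have k5 := ms_le_div (p := p) (m := m) t0.le (fun j => u j = u i0 ∧ v j = v i0)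
      have k6 := min_le_min (ms_le_div (p := p) (m := m) t0.le (fun j => u j = u i1 ∧ v j = v i1))
        (ms_le_div (p := p) (m := m) t0.le (fun j => u j = u i2 ∧ v j = v i2))
      rw [min_div_div_right hp'.le, ← Nat.cast_min] at k6
      refine le_trans (add_le_add k5 (mul_le_mul_of_nonneg_left k6 zero_le_two)) ?_
      rw [← mul_div_assoc, ← add_div, div_le_one hp']
      exact_mod_cast k4.le
  obtain ⟨α, β, s, t, k1, k2⟩ := im hG (ε := 2 * ε) (by linarith) (by linarith) (by linarith)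
    (fun c d => by
      obtain ⟨α, β, k⟩ := hp0 p (by omega) m hF' c d (hlat c d)
      refine ⟨α, β, ?_, k.imp id fun k j => Int.cast_nonpos.2 (k.1 j)⟩
      by_contra hc
      push Not at hc
      rcases k with k | ⟨-, j, k⟩
      · have := k.mass m0 (C := fun _ => True) (fun j _ => by simp [hc.1, hc.2])
        rw [ms_true fun _ => trivial] at this
        linarith
      · simp [hc.1, hc.2] at k)
  refine ⟨_, _, e * h * s, e * h * t, tr0 α β k1, ?_⟩
  have k3 := k2.trans (ms_le_div t0.le _)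
  have k4 : ((∑ j with (α * u j + β * v j = s ∨ α * u j + β * v j = t), m j : ℕ) : ℝ) ≤
      ((∑ j with (α * h * a j + (β * e - α * x) * b j = e * h * s ∨
        α * h * a j + (β * e - α * x) * b j = e * h * t), m j : ℕ) : ℝ) := by
    exact_mod_cast sum_filter_mono m fun j hj => Or.imp (tr α β s j) (tr α β t j) hj
  rw [le_div_iff₀ hp'] at k3
  have k5 := mul_le_mul_of_nonneg_right m1 hp'.le
  rw [sub_mul, div_mul_cancel₀ _ hp'.ne'] at k5
  nlinarith

theorem sk1z (a : ι → ℤ) (D : ℕ) {ε : ℝ} (hε0 : 0 < ε) (hε : ε ≤ 1 / 200) : ∃ p0 : ℕ,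
    ∀ p : ℕ, p0 ≤ p → ∀ j0 : ι, a j0 = 0 → ∀ m : ι → ℕ, FreeZ p a (fun _ => 0) m →
      (∀ j, p ≤ D * m j) → (2 - ε) * p ≤ ((∑ j, m j : ℕ) : ℝ) → ∃ s t : ℤ, s ≠ t ∧
        (1 - 8 * ε) * p ≤ ((∑ j with a j = s, m j : ℕ) : ℝ) ∧
        (1 - 8 * ε) * p ≤ ((∑ j with a j = t, m j : ℕ) : ℝ) := by
  classical
  by_cases hex : ∃ j0 j1, a j0 = 0 ∧ a j1 ≠ 0
  swap
  · refine ⟨1, fun p hp j0 h0 m hF _ hT => ?_⟩
    have e : ∀ j, a j = 0 := fun j => by
      by_contra h; exact hex ⟨j0, j, h0, h⟩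
    have h2 := hF.pt 0 0
    rw [Finset.filter_true_of_mem fun j _ => ⟨e j, rfl⟩] at h2
    have h3 : ((∑ j, m j : ℕ) : ℝ) ≤ p := by exact_mod_cast h2.le
    have h4 : (1 : ℝ) ≤ p := by exact_mod_cast hp
    nlinarith
  obtain ⟨j0, j1, h0, h1⟩ := hex
  obtain ⟨e, u, e0, ha, hlat⟩ := lat1 a j0 j1 h0 h1
  obtain ⟨τ, t0, t1, t2, t3⟩ := exists_tau (Fintype.card ι) D hε0
  obtain ⟨p0, hp0⟩ := prep u (fun _ => 0) τ t0 t1
  refine ⟨p0 + 1, fun p hp _ _ m hF hD hT => ?_⟩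
  have hp1 : 0 < p := by omega
  have hp' : (0 : ℝ) < p := by exact_mod_cast hp1
  obtain ⟨m0, m1, m2⟩ := mu_facts hp1 hD t0 t2 t3 hT
  set μ : ι → ℝ := fun j => (m j : ℝ) / p - τ with hμ
  have hF' : FreeZ p u (fun _ => 0) m := fun α a1 a2 a3 a4 => hF α a1 a2 (by
      simp only [ha, mul_left_comm _ e, ← Finset.mul_sum]
      exact a3.mul_left _) a4
  have hT' : 2 - 2 * ε ≤ ∑ j, μ j := by linarith
  have nl : ∀ φ : ι → ℝ, Light μ φ → (∀ j, 0 ≤ φ j) → False := fun φ k h => by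
    have := k.mass m0 (C := fun _ => True) (fun j _ => h j)
    rw [ms_true fun _ => trivial] at this
    linarith
  have dich : ∀ c : ℤ, (∃ α : ℝ, 0 < α ∧ LS μ (fun j => α * (u j - c))) ∨
      ∃ α : ℝ, 0 < α ∧ LS μ (fun j => -α * (u j - c)) := by
    intro c
    obtain ⟨α, β, k⟩ := hp0 p (by omega) m hF' c 0 (hlat c)
    have k' : LS μ (fun j => (α : ℝ) * (u j - c)) :=
      LS.congr (k.imp id fun k j => Int.cast_nonpos.2 (k.1 j)) fun j => by push_cast; ring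
    rcases lt_trichotomy α 0 with h | h | h
    · exact Or.inr ⟨-α, by simpa using h, k'.congr fun j => by ring⟩
    · exfalso
      rcases k with k | ⟨-, j, k⟩
      · exact nl _ k fun j => by simp [h]
      · simp [h] at k
    · exact Or.inl ⟨α, by exact_mod_cast h, k'⟩
  obtain ⟨K, hK⟩ : ∃ K : ℤ, ∀ j, |u j| ≤ K :=
    ⟨∑ j, |u j|, fun j => Finset.single_le_sum (f := fun j => |u j|) (fun i _ => abs_nonneg _)
      (Finset.mem_univ j)⟩
  obtain ⟨c, ⟨α', c1, c2⟩, c3⟩ := Int.exists_least_of_bdd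
    (P := fun c : ℤ => ∃ α : ℝ, 0 < α ∧ LS μ (fun j => α * (u j - c)))
    ⟨-K, fun c ⟨α, h1, h2⟩ => by
      by_contra hc
      have e : ∀ j, 0 < α * ((u j : ℝ) - c) := fun j => mul_pos h1 (by
        have : c < u j := by have := abs_le.1 (hK j); omega
        exact sub_pos.2 (by exact_mod_cast this))
      rcases h2 with h2 | h2
      · exact nl _ h2 fun j => (e j).le
      · exact absurd (h2 j0) (not_le.2 (e j0))⟩
    ⟨K, 1, one_pos, Or.inr fun j => by
      have : (u j : ℝ) ≤ K := by exact_mod_cast (abs_le.1 (hK j)).2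
      linarith⟩
  obtain ⟨α, d1, d2⟩ := (dich (c - 1)).resolve_left fun h => by have := c3 _ h; omega
  have pt : ∀ g : ℤ, ms μ (fun j => u j = g) ≤ 1 := fun g => by
    refine (ms_le_div t0.le _).trans ((div_le_one hp').2 ?_)
    have := (hF'.pt g 0).le
    simp only [and_true] at this
    exact_mod_cast this
  have n1 : ms μ (fun j => u j - (c - 1) ≤ 0) ≤ 1 := by
    rcases d2 with d2 | d2
    · refine (d2.mass m0 fun j hj => ?_).le
      have : ((u j - (c - 1) : ℤ) : ℝ) ≤ 0 := by exact_mod_cast hj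
      push_cast at this ⊢; nlinarith
    · refine (ms_mono m0 fun j hj => ?_).trans (pt (c - 1))
      have h2 := d2 j
      have : (0 : ℝ) ≤ ((u j - (c - 1) : ℤ) : ℝ) := by
        by_contra h; push Not at h; push_cast at h h2; nlinarith
      have : 0 ≤ u j - (c - 1) := by exact_mod_cast this
      omega
  have n2 : ms μ (fun j => 1 ≤ u j - (c - 1)) ≤ 1 := by
    rcases c2 with d2 | d2
    · refine (d2.mass m0 fun j hj => ?_).le
      have : (1 : ℝ) ≤ ((u j - (c - 1) : ℤ) : ℝ) := by exact_mod_cast hj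
      push_cast at this ⊢; nlinarith
    · refine (ms_mono m0 fun j hj => ?_).trans (pt c)
      have h2 := d2 j
      have : ((u j - c : ℤ) : ℝ) ≤ 0 := by
        by_contra h; push Not at h; push_cast at h h2; nlinarith
      have : u j - c ≤ 0 := by exact_mod_cast this
      omega
  have s1 := sum_le_add m0 (Q := fun j => u j - (c - 1) ≤ 0) (R := fun j => 1 ≤ u j - (c - 1))
    (fun j => by omega)
  have p1 := pair m0 (C := fun j => u j - (c - 1) ≤ 0) (C' := fun j => 1 ≤ u j - (c - 1))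
    (u := fun j => u j - (c - 1)) (ε := 2 * ε) (fun _ h => h) (fun _ h => h) d1 c1 d2 c2
    (fun j _ => by push_cast; exact le_rfl) (fun j _ => by push_cast; exact le_of_eq (by ring))
    (by linarith) (by linarith) n1 (by linarith) n2
  have q1 := ms_le_add m0 (P := fun j => u j - (c - 1) ≤ 0) (Q := fun j => a j = e * (c - 1))
    (R := fun j => u j - (c - 1) ≤ 0 ∧ u j - (c - 1) ≠ 0) (fun j h => by
      by_cases h' : u j = c - 1
      · exact Or.inl (by rw [ha, h'])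
      · exact Or.inr (by omega))
  have q2 := ms_le_add m0 (P := fun j => 1 ≤ u j - (c - 1)) (Q := fun j => a j = e * c)
    (R := fun j => 1 ≤ u j - (c - 1) ∧ u j - (c - 1) ≠ 1) (fun j h => by
      by_cases h' : u j = c
      · exact Or.inl (by rw [ha, h'])
      · exact Or.inr (by omega))
  have q3 := ms_nonneg m0 (fun j => u j - (c - 1) ≤ 0 ∧ u j - (c - 1) ≠ 0)
  have q4 := ms_nonneg m0 (fun j => 1 ≤ u j - (c - 1) ∧ u j - (c - 1) ≠ 1)
  refine ⟨e * (c - 1), e * c, fun h => by have := mul_left_cancel₀ e0 h; omega, ?_, ?_⟩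
  · exact (le_div_iff₀ hp').1 (le_trans (by linarith) (ms_le_div t0.le _))
  · exact (le_div_iff₀ hp').1 (le_trans (by linarith) (ms_le_div t0.le _))

end Pool.Agent.MP_f9a021_co.EX
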