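import Mathlib

namespace Pool.Agent.MP_f9a021_co

/-- The least `l` such that every sequence of at least `l` elements of `G` (repetitions allowed)
contains `h` terms with sum `0`. For `h = exp G` this is the Erdos-Ginzburg-Ziv constant. -/
noncomputable def egz (G : Type*) [AddCommMonoid G] (h : ℕ) : ℕ :=
  sInf {l : ℕ | ∀ S : Multiset G, l ≤ S.card → ∃ T ≤ S, T.card = h ∧ T.sum = 0}

end Pool.Agent.MP_f9a021_co
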