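import Pool.Agent.MP_f9a021_co.EZ4
import Pool.Agent.MP_f9a021_co.EZDefs

/-! The Harborth constant of `F_p^(r+1)` against the Erdos-Ginzburg-Ziv constant of `F_p^r`. -/

open Finset Module

set_option linter.unusedSectionVars false

namespace Pool.Agent.MP_f9a021_co.EZ

lemma sub_replicate {H ι : Type*} [AddCommMonoid H] (s : Finset ι) (m : ι → ℕ) (v : ι → H) :
    ∀ T ≤ ∑ j ∈ s, Multiset.replicate (m j) (v j), ∃ α : ι → ℕ, (∀ j, α j ≤ m j) ∧
      ∑ j ∈ s, α j = T.card ∧ ∑ j ∈ s, α j • v j = T.sum := by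
  classical
  induction s using Finset.induction_on with
  | empty =>
    intro T hT
    rw [Finset.sum_empty, Multiset.le_zero] at hT
    exact ⟨0, by simp, by simp [hT], by simp [hT]⟩
  | insert i s hi ih =>
    intro T hT
    rw [Finset.sum_insert hi] at hT
    obtain ⟨α, h1, h2, h3⟩ := ih (T - Multiset.replicate (m i) (v i)) (tsub_le_iff_left.2 hT)
    obtain ⟨k, hk, h4⟩ := Multiset.le_replicate_iff.1
      (Multiset.inter_le_right (s := T) (t := Multiset.replicate (m i) (v i)))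
    have h5 := Multiset.sub_add_inter T (Multiset.replicate (m i) (v i))
    have h6 : ∀ j ∈ s, Function.update α i k j = α j := fun j hj =>
      Function.update_of_ne (by rintro rfl; exact hi hj) _ _
    refine ⟨Function.update α i k, fun j => ?_, ?_, ?_⟩
    · by_cases h : j = i
      · rw [h, Function.update_self]; exact hk
      · rw [Function.update_of_ne h]; exact h1 j
    · rw [Finset.sum_insert hi, Function.update_self, Finset.sum_congr rfl h6, h2]
      conv_rhs => rw [← h5, Multiset.card_add, h4, Multiset.card_replicate]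
      rw [add_comm]
    · rw [Finset.sum_insert hi, Function.update_self,
        Finset.sum_congr rfl fun j hj => by rw [h6 j hj], h3]
      conv_rhs => rw [← h5, Multiset.sum_add, h4, Multiset.sum_replicate]
      rw [add_comm]

lemma exists_functional {p : ℕ} [Fact p.Prime] {G : Type*} [AddCommGroup G] [Module (ZMod p) G]
    {N : ℕ} (hN : N < p) (w : Fin N → G) (hw : ∀ j, w j ≠ 0) :
    ∃ φ : G →ₗ[ZMod p] ZMod p, ∀ j, φ (w j) ≠ 0 := by
  have h := Submodule.iUnion_ssubset_of_forall_ne_top_of_card_lt (K := ZMod p) (univ : Finset (Fin N))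
    (fun j => LinearMap.ker (Module.Dual.eval (ZMod p) G (w j))) (fun j h => by
      obtain ⟨f, h1, _⟩ := Submodule.exists_le_ker_of_notMem (K := ZMod p) (p := ⊥) (v := w j)
        (by simpa using hw j)
      have : f ∈ LinearMap.ker (Module.Dual.eval (ZMod p) G (w j)) := by rw [h]; trivial
      exact h1 this) (by
      rw [ENat.card_eq_coe_natCard, Nat.card_zmod]
      simpa using hN)
  obtain ⟨φ, -, h2⟩ := Set.exists_of_ssubset h
  refine ⟨φ, fun j hj => h2 ?_⟩
  simp only [Set.mem_iUnion]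
  exact ⟨j, Finset.mem_univ _, hj⟩

lemma upper_nat (r L : ℕ) (hL : 0 < L) : ∃ p0 : ℕ, ∀ (p : ℕ) [Fact p.Prime], p0 ≤ p →
    ∀ s : ℕ, (∀ S : Multiset (Fin r → ZMod p), s ≤ S.card → ∃ T ≤ S, T.card = p ∧ T.sum = 0) →
    ∀ A : Finset (Fin (r + 1) → ZMod p), WeaklyZeroSumFree p A → p ≤ A.card →
      L * A.card < L * s + (r + 3) * A.card := by
  classical
  obtain ⟨Nb, p0, h⟩ := core (r + 1) L hL
  refine ⟨p0 + Nb + 1, fun p _ hp s hs A hA hpA => ?_⟩
  have hfr : finrank (ZMod p) (Fin (r + 1) → ZMod p) = r + 1 := by simp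
  obtain ⟨N, hN, P, m, hN0, h1, h2, h3, h4, h5, h6⟩ := h p (by omega) (Fin (r + 1) → ZMod p)
    hfr.le A hA hpA
  have hex : ∀ j, ∃ x w : Fin (r + 1) → ZMod p, w ≠ 0 ∧ (0 < m j → x ∈ P j ∧ w ∈ sp p (P j)) := by
    intro j
    by_cases hj : 0 < m j
    · obtain ⟨x, hx, y, hy, hxy⟩ := Finset.one_lt_card.1 (h4 j hj)
      exact ⟨x, x - y, sub_ne_zero.2 hxy, fun _ => ⟨hx, sub_mem_sp hx hy⟩⟩
    · exact ⟨0, 1, one_ne_zero, fun h => absurd h hj⟩
  choose x w hw hxw using hex
  obtain ⟨φ, hφ⟩ := exists_functional (p := p) (show N < p by omega) w hw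
  have hrank : finrank (ZMod p) (LinearMap.ker φ) = finrank (ZMod p) (Fin r → ZMod p) := by
    have e1 := LinearMap.finrank_range_add_finrank_ker φ
    have e2 : LinearMap.range φ = ⊤ := by
      rw [LinearMap.range_eq_top]
      intro c
      refine ⟨(c * (φ (w ⟨0, hN0⟩))⁻¹) • w ⟨0, hN0⟩, ?_⟩
      rw [map_smul, smul_eq_mul, mul_assoc, inv_mul_cancel₀ (hφ _), mul_one]
    rw [e2, hfr] at e1
    simp at e1 ⊢
    omega
  obtain ⟨e⟩ := FiniteDimensional.nonempty_linearEquiv_of_finrank_eq hrank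
  let u : Fin N → LinearMap.ker φ := fun j => ⟨x j - (φ (x j) * (φ (w j))⁻¹) • w j, by
    rw [LinearMap.mem_ker, map_sub, map_smul, smul_eq_mul, mul_assoc, inv_mul_cancel₀ (hφ j),
      mul_one, sub_self]⟩
  have hlt : ∑ j, m j < s := by
    by_contra hc
    obtain ⟨T, t1, t2, t3⟩ := hs (∑ j, Multiset.replicate (m j) (e (u j))) (by
      rw [Multiset.card_sum]; simpa using hc)
    obtain ⟨α, a1, a2, a3⟩ := sub_replicate univ m (fun j => e (u j)) T t1
    refine h6 (fun j => u j) (fun j hj => ⟨x j, (hxw j hj).1, ?_⟩) α a1 (a2.trans t2) ?_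
    · simp only [u, sub_sub_cancel_left]
      exact Submodule.neg_mem _ (Submodule.smul_mem _ _ (hxw j hj).2)
    · have e1 : e (∑ j, α j • u j) = 0 := by
        rw [map_sum]; simp only [map_nsmul]; rw [a3, t3]
      have e2 : ∑ j, α j • u j = 0 := e.injective (e1.trans (map_zero e).symm)
      have e3 := congrArg (LinearMap.ker φ).subtype e2
      rw [map_sum, map_zero] at e3
      simpa only [map_nsmul, Submodule.subtype_apply] using e3
  have := Nat.mul_lt_mul_of_pos_left hlt hL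
  rw [show r + 1 + 2 = r + 3 from rfl] at h5
  omega

lemma tau_bdd (G : Type*) [AddCommMonoid G] [Fintype G] (h : ℕ) :
    BddAbove {n : ℕ | ∃ A : Finset G, WeaklyZeroSumFree h A ∧ A.card = n} :=
  ⟨Fintype.card G, by rintro n ⟨A, -, rfl⟩; exact Finset.card_le_univ A⟩

lemma tau_attained (G : Type*) [AddCommMonoid G] [Fintype G] {h : ℕ} (hh : 0 < h) :
    ∃ A : Finset G, WeaklyZeroSumFree h A ∧ A.card = tauHat G h := by
  refine Nat.sSup_mem (s := {n : ℕ | ∃ A : Finset G, WeaklyZeroSumFree h A ∧ A.card = n})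
    ⟨0, ∅, fun B hB hc => ?_, rfl⟩ (tau_bdd G h)
  rw [Finset.subset_empty.1 hB] at hc
  simp at hc; omega

lemma lower_mem (r p : ℕ) [NeZero p] (S : Multiset (Fin r → ZMod p))
    (hS : tauHat (Fin (r + 1) → ZMod p) p + 1 ≤ S.card) : ∃ T ≤ S, T.card = p ∧ T.sum = 0 := by
  classical
  by_contra hc
  push Not at hc
  have hcount : ∀ x, S.count x < p := by
    intro x
    by_contra h
    refine hc (Multiset.replicate p x) (Multiset.le_count_iff_replicate_le.1 (not_lt.1 h))
      (Multiset.card_replicate _ _) ?_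
    rw [Multiset.sum_replicate, ← Nat.cast_smul_eq_nsmul (ZMod p), ZMod.natCast_self, zero_smul]
  let f : (Fin r → ZMod p) × ℕ → (Fin (r + 1) → ZMod p) := fun q => Fin.cons (q.2 : ZMod p) q.1
  have hf : Set.InjOn f S.toEnumFinset := by
    rintro ⟨x, i⟩ h1 ⟨y, j⟩ h2 h
    have h3 := (Multiset.mem_toEnumFinset _ _).1 (Finset.mem_coe.1 h1)
    have h4 := (Multiset.mem_toEnumFinset _ _).1 (Finset.mem_coe.1 h2)
    obtain ⟨h5, h6⟩ := Fin.cons_inj.1 h
    have h7 := (ZMod.natCast_eq_natCast_iff' i j p).1 h5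
    rw [Nat.mod_eq_of_lt (h3.trans (hcount _)), Nat.mod_eq_of_lt (h4.trans (hcount _))] at h7
    exact Prod.ext h6 h7
  have hA : WeaklyZeroSumFree p (S.toEnumFinset.image f) := by
    intro B hB hBc h0
    obtain ⟨C, hC, rfl⟩ := Finset.subset_image_iff.1 hB
    have hfC : Set.InjOn f C := hf.mono (Finset.coe_subset.2 hC)
    rw [Finset.card_image_of_injOn hfC] at hBc
    rw [Finset.sum_image hfC] at h0
    refine hc (C.val.map Prod.fst) ?_ (by simpa using hBc) ?_
    · rw [← Multiset.map_toEnumFinset_fst S]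
      exact Multiset.map_le_map (Finset.val_le_iff.2 hC)
    · change ∑ q ∈ C, q.1 = 0
      funext i
      have := congrFun h0 i.succ
      simpa [f, Finset.sum_apply] using this
  have h1 := le_csSup (tau_bdd (Fin (r + 1) → ZMod p) p) ⟨_, hA, rfl⟩
  rw [Finset.card_image_of_injOn hf, Multiset.card_toEnumFinset] at h1
  unfold tauHat at hS
  omega

theorem main (r : ℕ) (ε : ℝ) (hε : 0 < ε) : ∃ P : ℕ, ∀ p : ℕ, p.Prime → P ≤ p →
    egz (Fin r → ZMod p) p ≤ tauHat (Fin (r + 1) → ZMod p) p + 1 ∧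
    ((tauHat (Fin (r + 1) → ZMod p) p + 1 : ℕ) : ℝ) ≤ (1 + ε) * egz (Fin r → ZMod p) p := by
  obtain ⟨L, hL⟩ := exists_nat_gt (((r : ℝ) + 3) * (1 + 2 / ε))
  have hc : (0 : ℝ) < (r : ℝ) + 3 := by positivity
  have hL1 : ((r : ℝ) + 3) * (ε + 2) < L * ε := by
    have := mul_lt_mul_of_pos_right hL hε
    rwa [show ((r : ℝ) + 3) * (1 + 2 / ε) * ε = (r + 3) * (ε + 2) by field_simp] at this
  have hL0 : 0 < L := by
    rcases Nat.eq_zero_or_pos L with h | h
    · rw [h] at hL1; simp at hL1; nlinarith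
    · exact h
  obtain ⟨p0, h0⟩ := upper_nat r L hL0
  obtain ⟨p1, hp1⟩ := exists_nat_gt (2 / ε)
  refine ⟨p0 + p1, fun p hp hP => ?_⟩
  have := Fact.mk hp
  have hmem : tauHat (Fin (r + 1) → ZMod p) p + 1 ∈ {l : ℕ | ∀ S : Multiset (Fin r → ZMod p),
      l ≤ S.card → ∃ T ≤ S, T.card = p ∧ T.sum = 0} := lower_mem r p
  refine ⟨Nat.sInf_le hmem, ?_⟩
  have hs : ∀ S : Multiset (Fin r → ZMod p), egz (Fin r → ZMod p) p ≤ S.card →
      ∃ T ≤ S, T.card = p ∧ T.sum = 0 := Nat.sInf_mem ⟨_, hmem⟩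
  obtain ⟨A, hA, hAc⟩ := tau_attained (Fin (r + 1) → ZMod p) hp.pos
  rw [← hAc]
  set s := egz (Fin r → ZMod p) p with hsdef
  have hps : p ≤ s := by
    by_contra h
    obtain ⟨T, t1, t2, -⟩ := hs (Multiset.replicate s 0) (by simp)
    have := Multiset.card_le_card t1
    rw [Multiset.card_replicate] at this
    omega
  have hps' : (p : ℝ) ≤ s := by exact_mod_cast hps
  have hp2 : 2 < ε * p := by
    have e1 : (p1 : ℝ) ≤ p := by exact_mod_cast (show p1 ≤ p by omega)
    have e2 := (div_lt_iff₀ hε).1 (hp1.trans_le e1)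
    linarith
  have hs2 : 2 < ε * s := hp2.trans_le (mul_le_mul_of_nonneg_left hps' hε.le)
  by_contra hcon
  push Not at hcon
  push_cast at hcon
  have e1 : (1 + ε / 2) * s < (A.card : ℝ) := by linarith
  have e2 : p ≤ A.card := by
    have : (p : ℝ) ≤ A.card := by nlinarith
    exact_mod_cast this
  have e3 : (L : ℝ) * A.card < L * s + (r + 3) * A.card := by exact_mod_cast h0 p (by omega) s hs A hA e2
  have e4 : (0 : ℝ) < L - (r + 3) := by nlinarith
  have e5 := mul_lt_mul_of_pos_left e1 e4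
  have e6 : (0 : ℝ) ≤ s := Nat.cast_nonneg _
  nlinarith [mul_le_mul_of_nonneg_right hL1.le e6]

end Pool.Agent.MP_f9a021_co.EZ
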