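import Pool.Agent.MP_f9a021_co.EXsk
import Pool.Agent.MP_f9a021_co.EXcore
import Pool.Agent.MP_f9a021_co.EXfin
import Pool.Agent.MP_f9a021_co.EZ5

/-! The value of the weak zero-sum-free constant of `F_p^3` for large primes. -/

open Finset Module

set_option linter.unusedSectionVars false

namespace Pool.Agent.MP_f9a021_co.EX

section
variable {p : ℕ} [Fact p.Prime] {G : Type*} [AddCommGroup G] [Module (ZMod p) G] [Fintype G]
  [DecidableEq G] {n : ℕ} {P : Fin n → Finset G} {x : Fin n → G} {m : Fin n → ℕ}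

/-- The conclusion of the structure theorem on thick pieces. -/
def Hyp (p : ℕ) [Fact p.Prime] {G : Type*} [AddCommGroup G] [Module (ZMod p) G] {n : ℕ}
    (P : Fin n → Finset G) (x : Fin n → G) (m : Fin n → ℕ) : Prop :=
  ∀ α : Fin n → ℕ, (∀ j, α j ≤ m j) → ∑ j, α j = p → ∀ w : Fin n → G,
    (∀ j, w j ∈ EZ.sp p (P j)) → (∀ j, α j = 0 → w j = 0) → ∑ j, α j • x j + ∑ j, w j ≠ 0

lemma notW (H : Hyp p P x m) (h1 : ∀ j, 1 ≤ m j) (β : Fin n → ℕ) (b1 : ∀ j, β j ≤ m j - 1)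
    (b2 : ∑ j, β j + n = p) : ∑ j, (β j + 1) • x j ∉ ⨆ j, EZ.sp p (P j) := by
  intro h
  have h' : -∑ j, (β j + 1) • x j ∈ ⨆ j ∈ (univ : Finset (Fin n)), EZ.sp p (P j) := by
    simpa using h
  obtain ⟨μ, hμ⟩ := (Submodule.mem_iSup_finset_iff_exists_sum _ _).1 h'
  refine H (fun j => β j + 1) (fun j => by have := b1 j; have := h1 j; omega)
    (by rw [sum_add_distrib]; simpa using b2) (fun j => μ j) (fun j => (μ j).2)
    (fun j hj => by omega) ?_
  rw [hμ, add_neg_cancel]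

lemma freeW (H : Hyp p P x m) {W : Submodule (ZMod p) G} (hW : ∀ j, W ≤ EZ.sp p (P j))
    (α : Fin n → ℕ) (a1 : ∀ j, α j ≤ m j) (a2 : ∑ j, α j = p) : ∑ j, α j • x j ∉ W := by
  intro h
  obtain ⟨j0, hj0⟩ : ∃ j0, α j0 ≠ 0 := by
    by_contra hc
    push Not at hc
    have := (Fact.out : p.Prime).pos
    simp [hc] at a2
    omega
  refine H α a1 a2 (Pi.single j0 (-∑ j, α j • x j)) (fun j => ?_) (fun j hj => ?_) (by simp)
  · by_cases e : j = j0
    · rw [e, Pi.single_eq_same]; exact hW _ (W.neg_mem h)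
    · rw [Pi.single_eq_of_ne e]; exact Submodule.zero_mem _
  · rw [Pi.single_eq_of_ne fun e => hj0 (by rw [← e]; exact hj)]

lemma massle {A : Finset G} (hP : ∀ j, P j ⊆ A) (hd : ∀ i j, i ≠ j → Disjoint (P i) (P j))
    (hm : ∀ j, m j ≤ (P j).card) (q : Fin n → Prop) [DecidablePred q] (Q : G → Prop)
    [DecidablePred Q] (h : ∀ j, q j → ∀ a ∈ P j, Q a) :
    ∑ j with q j, m j ≤ (A.filter Q).card := by
  refine (sum_le_sum fun j _ => hm j).trans ?_
  rw [← card_biUnion fun i _ j _ hij => hd i j hij]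
  refine card_le_card fun a ha => ?_
  obtain ⟨j, hj, ha⟩ := mem_biUnion.1 ha
  exact mem_filter.2 ⟨hP j ha, h j (mem_filter.1 hj).2 a ha⟩

lemma zconst (hx : ∀ j, x j ∈ P j) (z : G →ₗ[ZMod p] ZMod p)
    (hz : (⨆ j, EZ.sp p (P j)) ≤ LinearMap.ker z) (j : Fin n) (a : G) (ha : a ∈ P j) :
    z a = z (x j) := by
  have : z (a - x j) = 0 := hz (le_iSup (fun j => EZ.sp p (P j)) j (EZ.sub_mem_sp ha (hx j)))
  rwa [map_sub, sub_eq_zero] at this

lemma rank1 (hs : ∀ j, EZ.sp p (P j) ≠ ⊥) (h : finrank (ZMod p) ↥(⨆ j, EZ.sp p (P j)) ≤ 1)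
    (j : Fin n) : (⨆ j, EZ.sp p (P j)) ≤ EZ.sp p (P j) :=
  (Submodule.eq_of_le_of_finrank_le (le_iSup (fun j => EZ.sp p (P j)) j)
    (h.trans (Submodule.one_le_finrank_iff.2 (hs j)))).ge

lemma pick1 (h1 : ∀ j, 1 ≤ m j) (hn : n ≤ p) (hT : p ≤ ∑ j, m j) :
    ∃ β : Fin n → ℕ, (∀ j, β j ≤ m j - 1) ∧ ∑ j, β j + n = p := by
  have e1 : ∑ j, (m j - 1) + n = ∑ j, m j := by
    rw [show ∑ j, m j = ∑ j, (m j - 1 + 1) from
      sum_congr rfl fun j _ => (Nat.sub_add_cancel (h1 j)).symm, sum_add_distrib]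
    simp
  obtain ⟨β, b1, b2, -⟩ := pick (fun _ => True) (fun j => m j - 1) (p - n) (by
    rw [Finset.filter_true]; omega)
  exact ⟨β, b1, by omega⟩

lemma ker2 (hG : finrank (ZMod p) G = 3) {z : G →ₗ[ZMod p] ZMod p} (hz : z ≠ 0) :
    finrank (ZMod p) (LinearMap.ker z) ≤ 2 := by
  have := Submodule.finrank_lt (LinearMap.ker_eq_top.not.2 hz)
  omega

end

open Classical in
theorem plane : ∃ p0 : ℕ, ∀ (p : ℕ) [Fact p.Prime], p0 ≤ p →
    ∀ (G : Type) [AddCommGroup G] [Module (ZMod p) G] [Fintype G] [DecidableEq G],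
      finrank (ZMod p) G = 3 → ∀ A : Finset G, WeaklyZeroSumFree p A →
      ∀ z : G →ₗ[ZMod p] ZMod p, z ≠ 0 → ∀ s : ZMod p,
      3199 * p ≤ 1600 * (A.filter (fun a => z a = s)).card →
      ∃ w b1 b2 : G, w ≠ 0 ∧ z w = 0 ∧ z b1 = s ∧ z b2 = s ∧ b2 - b1 ∉ (ZMod p ∙ w) ∧
        99 * p ≤ 100 * (A.filter (fun a => a - b1 ∈ (ZMod p ∙ w))).card ∧
        99 * p ≤ 100 * (A.filter (fun a => a - b2 ∈ (ZMod p ∙ w))).card := by
  obtain ⟨Nb, D, p0, h0⟩ := coreH 3 20000 (by norm_num)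
  choose f hf using fun n => sk1 n D (ε := 1 / 800) (by norm_num) (by norm_num)
  refine ⟨p0 + Nb + (range (Nb + 1)).sup f + 2000 ^ 40, fun p hp hp0 G _ _ _ _ hG A hA z hz s hs =>
    ?_⟩
  have hpos := hp.out.pos
  have hb := pl_bound (by omega) hG z hz A hA s
  set B := A.filter (fun a => z a = s) with hB
  obtain ⟨n, hn, P, x, m, c1, c2, c3, c4, c5, c6, c7, H⟩ := h0 p (by omega) G hG.le B
    (fun C hC => hA C (hC.trans (filter_subset _ _))) (by omega)
  have h1 : ∀ j, 1 ≤ m j := fun j => Nat.pos_of_ne_zero fun h => by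
    have := c5 j; rw [h] at this; omega
  have hT : 1599 * p ≤ 800 * ∑ j, m j := by omega
  have zs : ∀ j, ∀ a ∈ P j, z a = s := fun j a ha => (mem_filter.1 (c1 j ha)).2
  have hle : (⨆ j, EZ.sp p (P j)) ≤ LinearMap.ker z := iSup_le fun j => EZ.sp_le
    fun a ha b hb => by rw [LinearMap.mem_ker, map_sub, zs j a ha, zs j b hb, sub_self]
  have zsum : ∀ α : Fin n → ℕ, ∑ j, α j = p → z (∑ j, α j • x j) = 0 := fun α hα => by
    rw [map_sum]
    simp only [map_nsmul, fun j => zs j _ (c3 j)]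
    rw [← Finset.sum_smul, hα, p_smul]
  have hlt : (⨆ j, EZ.sp p (P j)) < LinearMap.ker z := by
    refine lt_of_le_of_ne hle fun h => ?_
    obtain ⟨β, b1, b2⟩ := pick1 (p := p) h1 (by omega) (by omega)
    refine notW H h1 β b1 b2 ?_
    rw [h]
    exact zsum _ (by rw [sum_add_distrib]; simpa using b2)
  have r1 : finrank (ZMod p) ↥(⨆ j, EZ.sp p (P j)) ≤ 1 := by
    have := Submodule.finrank_lt_finrank_of_lt hlt
    have := ker2 hG hz
    omega
  obtain ⟨j0⟩ : Nonempty (Fin n) := by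
    by_contra hc
    rw [not_nonempty_iff] at hc
    simp at hT; omega
  obtain ⟨w, w1, w2⟩ := Submodule.exists_mem_ne_zero_of_ne_bot (c6 j0)
  have w3 : w ∈ ⨆ j, EZ.sp p (P j) := le_iSup (fun j => EZ.sp p (P j)) j0 w1
  obtain ⟨e, ze, he⟩ := SetLike.exists_of_lt hlt
  obtain ⟨y, ye, hy⟩ := Submodule.exists_le_ker_of_notMem he
  obtain ⟨u, uw, -⟩ := Submodule.exists_le_ker_of_notMem
    (p := (⊥ : Submodule (ZMod p) G)) (v := w) fun h => w2 ((Submodule.mem_bot _).1 h)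
  have ki := fun v => (ker_inj hG u y z hz w e (hle w3) ze (hy w3) ye uw v).1
  have wl : (ZMod p ∙ w) ≤ ⨆ j, EZ.sp p (P j) := (Submodule.span_singleton_le_iff_mem _ _).2 w3
  obtain ⟨i, k, g1, g2, g3⟩ := hf n p
    ((le_sup (f := f) (mem_range.2 (show n < Nb + 1 by omega))).trans (by omega)) (fun j => y (x j)) m
    (fun α a1 a2 a3 => freeW H (rank1 c6 r1) α a1 a2 (wl (ki _ (by
      rw [map_sum]; simpa only [map_nsmul] using a3) (zsum α a2)))) c5 (by
      have : (1599 * p : ℝ) ≤ 800 * ((∑ j, m j : ℕ) : ℝ) := by exact_mod_cast hT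
      linarith)
  have key : ∀ i, (1 - 8 * (1 / 800 : ℝ)) * p ≤ ((∑ j with y (x j) = y (x i), m j : ℕ) : ℝ) →
      99 * p ≤ 100 * (A.filter (fun a => a - x i ∈ (ZMod p ∙ w))).card := fun i hi => by
    have k1 := massle (fun j => (c1 j).trans (filter_subset _ _)) c2 c4
      (fun j => y (x j) = y (x i)) (fun a => a - x i ∈ (ZMod p ∙ w)) fun j hj a ha =>
        ki _ (by rw [map_sub, zconst c3 y hy j a ha, hj, sub_self])
          (by rw [map_sub, zs j a ha, zs i _ (c3 i), sub_self])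
    have k2 : (99 * p : ℝ) ≤ 100 * ((∑ j with y (x j) = y (x i), m j : ℕ) : ℝ) := by linarith
    have k3 : 99 * p ≤ 100 * ∑ j with y (x j) = y (x i), m j := by exact_mod_cast k2
    omega
  refine ⟨w, x i, x k, w2, hle w3, zs i _ (c3 i), zs k _ (c3 k), fun h => g1 ?_, key i g2,
    key k g3⟩
  have : y (x k - x i) = 0 := hy (wl h)
  rw [map_sub, sub_eq_zero] at this
  exact this.symm

theorem twoPlanes : ∃ p0 : ℕ, ∀ (p : ℕ) [Fact p.Prime], p0 ≤ p →
    ∀ (G : Type) [AddCommGroup G] [Module (ZMod p) G] [Fintype G] [DecidableEq G],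
      finrank (ZMod p) G = 3 → ∀ A : Finset G, WeaklyZeroSumFree p A → A.card + 3 = 4 * p →
      ∃ z : G →ₗ[ZMod p] ZMod p, z ≠ 0 ∧ ∃ s t : ZMod p,
        6399 * p ≤ 1600 * (A.filter (fun a => z a = s ∨ z a = t)).card := by
  classical
  obtain ⟨Nb, D, p0, h0⟩ := coreH 3 10000000 (by norm_num)
  choose f hf using fun n => sk2 n D (ε := 1 / 70000) (by norm_num) (by norm_num)
  refine ⟨p0 + 10000 * Nb + (range (Nb + 1)).sup f + 2000 ^ 40,
    fun p hp hp0 G _ _ _ _ hG A hA hc => ?_⟩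
  have hpos := hp.out.pos
  obtain ⟨n, hn, P, x, m, c1, c2, c3, c4, c5, c6, c7, H⟩ := h0 p (by omega) G hG.le A hA (by omega)
  have h1 : ∀ j, 1 ≤ m j := fun j => Nat.pos_of_ne_zero fun h => by
    have := c5 j; rw [h] at this; omega
  have hT : 399999 * p ≤ 100000 * ∑ j, m j := by omega
  have ms : ∀ z : G →ₗ[ZMod p] ZMod p, (⨆ j, EZ.sp p (P j)) ≤ LinearMap.ker z →
      ∀ s t, ∑ j with (z (x j) = s ∨ z (x j) = t), m j ≤
        (A.filter (fun a => z a = s ∨ z a = t)).card := fun z hz s t =>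
    massle c1 c2 c4 _ _ fun j hj a ha => by rwa [zconst c3 z hz j a ha]
  have mb : ∀ z : G →ₗ[ZMod p] ZMod p, z ≠ 0 → (⨆ j, EZ.sp p (P j)) ≤ LinearMap.ker z →
      ∀ s, ∑ j with z (x j) = s, m j ≤ 2 * p := fun z h hz s => by
    have k1 := massle c1 c2 c4 (fun j => z (x j) = s) (fun a => z a = s) fun j hj a ha => by
      rwa [zconst c3 z hz j a ha]
    have := pl_bound (by omega) hG z h A hA s
    omega
  by_cases r1 : finrank (ZMod p) ↥(⨆ j, EZ.sp p (P j)) ≤ 1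
  · obtain ⟨j0⟩ : Nonempty (Fin n) := by
      by_contra hc
      rw [not_nonempty_iff] at hc
      simp at hT; omega
    have r2 := (Submodule.one_le_finrank_iff.2 (c6 j0)).trans
      (Submodule.finrank_mono (le_iSup (fun j => EZ.sp p (P j)) j0))
    have r0 := freeW H (rank1 c6 r1)
    set W := ⨆ j, EZ.sp p (P j) with hW
    have r3 := W.finrank_quotient_add_finrank
    letI : Fintype (G ⧸ W) := Fintype.ofFinite _
    have zz : ∀ φ : (G ⧸ W) →+ ZMod p, (∃ k, φ k ≠ 0) → ∃ z : G →ₗ[ZMod p] ZMod p, z ≠ 0 ∧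
        W ≤ LinearMap.ker z ∧ ∀ a, φ (W.mkQ a) = z a := fun φ ⟨k, hk⟩ => by
      refine ⟨(φ.toZModLinearMap p).comp W.mkQ, fun h => hk ?_, fun a ha => ?_, fun a => rfl⟩
      · obtain ⟨a, rfl⟩ := W.mkQ_surjective k
        exact LinearMap.congr_fun h a
      · change φ (W.mkQ a) = 0
        rw [show W.mkQ a = 0 from (Submodule.Quotient.mk_eq_zero W).2 ha, map_zero]
    obtain ⟨φ, g1, s, t, g2⟩ := hf n p
      ((le_sup (f := f) (mem_range.2 (show n < Nb + 1 by omega))).trans (by omega)) (G ⧸ W)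
      (by omega) (fun j => W.mkQ (x j)) m
      (fun α a1 a2 a3 => r0 α a1 a2 ((Submodule.Quotient.mk_eq_zero W).1 (by
        change W.mkQ _ = 0
        rw [map_sum]; simpa only [map_nsmul] using a3))) c5
      (fun φ hφ g => by
        obtain ⟨z, z1, z2, z3⟩ := zz φ hφ
        simp only [z3]
        exact mb z z1 z2 g) (by
      have : (399999 * p : ℝ) ≤ 100000 * ((∑ j, m j : ℕ) : ℝ) := by exact_mod_cast hT
      have : (0 : ℝ) ≤ p := Nat.cast_nonneg _
      linarith)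
    obtain ⟨z, z1, z2, z3⟩ := zz φ g1
    simp only [z3] at g2
    refine ⟨z, z1, s, t, ?_⟩
    have k1 := ms z z2 s t
    have k2 : (70000 * ((∑ j, m j : ℕ) : ℝ)) ≤
        70000 * ((∑ j with (z (x j) = s ∨ z (x j) = t), m j : ℕ) : ℝ) + 41 * p := by linarith
    have k3 : 70000 * ∑ j, m j ≤ 70000 * ∑ j with (z (x j) = s ∨ z (x j) = t), m j + 41 * p := by
      exact_mod_cast k2
    omega
  · have hne : (⨆ j, EZ.sp p (P j)) ≠ ⊤ := fun h => by
      obtain ⟨β, b1, b2⟩ := pick1 (p := p) h1 (by omega) (by omega)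
      exact notW H h1 β b1 b2 (by rw [h]; trivial)
    obtain ⟨e, -, he⟩ := SetLike.exists_of_lt (lt_top_iff_ne_top.2 hne)
    obtain ⟨z, ze, hz⟩ := Submodule.exists_le_ker_of_notMem he
    have z0 : z ≠ 0 := fun h => ze (by rw [h]; rfl)
    have hk := Submodule.eq_of_le_of_finrank_le hz (by have := ker2 hG z0; omega)
    have e1 : ∑ j, (m j - 1) + n = ∑ j, m j := by
      rw [show ∑ j, m j = ∑ j, (m j - 1 + 1) from
        sum_congr rfl fun j _ => (Nat.sub_add_cancel (h1 j)).symm, sum_add_distrib]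
      simp
    obtain ⟨s, t, k⟩ := oneD (fun j => z (x j)) (fun j => m j - 1) (p - n) (p / 3200)
      (-∑ j, z (x j)) (by omega) (by omega) (by omega) (by omega)
      (fun g => (Finset.sum_le_sum fun j _ => Nat.sub_le _ _).trans (mb z z0 hz g))
      (fun β b1 b2 b3 => notW H h1 β b1 (by omega) (by
        rw [hk, LinearMap.mem_ker, map_sum]
        simp only [map_nsmul, nsmul_eq_mul, Nat.cast_add, add_mul, Finset.sum_add_distrib,
          Nat.cast_one, one_mul]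
        rw [b3]; ring))
    refine ⟨z, z0, s, t, ?_⟩
    have k1 := ms z hz s t
    have k2 : ∑ j with (z (x j) = s ∨ z (x j) = t), (m j - 1) ≤
        ∑ j with (z (x j) = s ∨ z (x j) = t), m j := Finset.sum_le_sum fun j _ => Nat.sub_le _ _
    omega

theorem upper3 : ∃ p0 : ℕ, ∀ (p : ℕ) [Fact p.Prime], p0 ≤ p →
    ∀ A : Finset (Fin 3 → ZMod p), WeaklyZeroSumFree p A → A.card + 4 ≤ 4 * p := by
  obtain ⟨p0, h0⟩ := plane
  obtain ⟨p1, h1⟩ := twoPlanes
  refine ⟨p0 + p1 + 2000 ^ 40, fun p hp hp0 A hA => ?_⟩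
  by_contra hc
  obtain ⟨B, b1, b2⟩ := exists_subset_card_eq (s := A) (n := 4 * p - 3) (by omega)
  have hB : WeaklyZeroSumFree p B := fun C hC => hA C (hC.trans b1)
  have hG : finrank (ZMod p) (Fin 3 → ZMod p) = 3 := by simp
  obtain ⟨z, hz, s, t, k⟩ := h1 p (by omega) _ hG B hB (by omega)
  have k1 := pl_bound (by omega) hG z hz B hB s
  have k2 := pl_bound (by omega) hG z hz B hB t
  have k3 : (B.filter (fun a => z a = s ∨ z a = t)).card ≤
      (B.filter (fun a => z a = s)).card + (B.filter (fun a => z a = t)).card := by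
    rw [filter_or]; exact card_union_le _ _
  have hst : s ≠ t := fun h => by
    simp only [← h, or_self] at k
    omega
  obtain ⟨w0, x1, x2, q1, q2, q3, q4, q5, q6, q7⟩ := h0 p (by omega) _ hG B hB z hz s (by omega)
  obtain ⟨w1, x3, x4, r1, r2, r3, r4, r5, r6, r7⟩ := h0 p (by omega) _ hG B hB z hz t (by omega)
  have := final4 (by omega) hG B hB z hz s t hst w0 w1 x1 x2 x3 x4 q1 r1 q2 r2 q3 q4 r3 r4 q5 r5
    q6 q7 r6 r7
  omega

theorem exact3 : ∃ P : ℕ, ∀ p : ℕ, p.Prime → P ≤ p → tauHat (Fin 3 → ZMod p) p = 4 * p - 4 := by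
  obtain ⟨p0, h0⟩ := upper3
  refine ⟨p0, fun p hp hp0 => ?_⟩
  haveI := Fact.mk hp
  obtain ⟨A, a1, a2⟩ := EZ.tau_attained (Fin 3 → ZMod p) hp.pos
  obtain ⟨B, b1, b2⟩ := lower3 (p := p)
  have k1 := h0 p hp0 A a1
  have k2 : 4 * p - 4 ≤ tauHat (Fin 3 → ZMod p) p := le_csSup (EZ.tau_bdd _ _) ⟨B, b1, b2⟩
  omega

end Pool.Agent.MP_f9a021_co.EX
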