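import Pool.Agent.MP_f9a021_co.EZ1
import Pool.Agent.MP_f9a021_co.EX1

open Finset Module

set_option linter.unusedSectionVars false

namespace Pool.Agent.MP_f9a021_co.EX

section
open _root_.Pool.Agent.MP_f9a021_co.GT _root_.Pool.Agent.MP_f9a021_co.EZ

variable {p : ℕ} [Fact p.Prime] {G : Type} [AddCommGroup G] [Module (ZMod p) G] [Fintype G]
  [DecidableEq G]

lemma EXmf_grow {n w u : ℕ} (Y : Submodule (ZMod p) G) (d : Fin n → G)
    (hY : 1 ≤ finrank (ZMod p) Y)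
    (hφ : ∀ φ : G →+ ZMod p, (∃ k ∈ Y, φ k ≠ 0) → ∃ k, (w : ℤ) < |(φ (d k)).valMinAbs|)
    (hu : p ≤ u * w) (B : Finset G) (hB : ∀ b ∈ B, b ∈ Y) (hB1 : 1 ≤ B.card) :
    ∃ k, (∀ J ≤ p, 2 * B.card ≤ J ^ finrank (ZMod p) Y →
        B.card ≤ 2 * finrank (ZMod p) Y * J * lam B (d k)) ∧
      (2 * B.card ≤ p ^ finrank (ZMod p) Y →
        B.card ≤ 2 * (2 * u * (n + 1) + 1) * lam B (d k)) := by
  obtain ⟨k0, hk0, hk1⟩ : ∃ k ∈ Y, k ≠ 0 := by
    by_contra hc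
    push Not at hc
    have : Y = ⊥ := (Submodule.eq_bot_iff Y).2 hc
    rw [this] at hY; simp at hY
  obtain ⟨φ0, hφ0⟩ := hsep (p := p) k0 hk1
  obtain ⟨k1, -⟩ := hφ φ0 ⟨k0, hk0, hφ0⟩
  obtain ⟨k, -, hmax⟩ := Finset.exists_max_image univ (fun k => lam B (d k)) ⟨k1, mem_univ _⟩
  have hl : ∀ x ∈ univ.image d, lam B x ≤ lam B (d k) := fun x hx => by
    obtain ⟨y, hy, rfl⟩ := Finset.mem_image.1 hx
    exact hmax y hy
  refine ⟨k, fun J hJ hB2 => ?_, fun hB2 => ?_⟩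
  · obtain ⟨S, U, -, h2, h3⟩ := shifts Y (univ.image d) B (lam B (d k)) J hJ
      (fun U hU => by
        by_contra hc
        obtain ⟨x, hx, hxU⟩ := SetLike.not_le_iff_exists.1 hc
        obtain ⟨f, h1, h2⟩ := Submodule.exists_le_ker_of_notMem hxU
        obtain ⟨i, hi⟩ := hφ f.toAddMonoidHom ⟨x, hx, h1⟩
        have h3 : f.toAddMonoidHom (d i) = 0 := h2 (hU _ (Finset.mem_image_of_mem _ (mem_univ i)))
        rw [h3, ZMod.valMinAbs_zero, abs_zero] at hi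
        omega) hl _ le_rfl
    obtain ⟨s, hs, hs2⟩ := avg B S hB1 (by rw [h3]; exact hB2)
    have := (h2 s hs).2
    nlinarith
  · have hc : Nat.card Y.toAddSubgroup = p ^ finrank (ZMod p) Y := card_W Y
    by_contra hcon
    obtain ⟨φ, h1, h2⟩ := stuck (hsep (p := p)) Y.toAddSubgroup B hB (univ.image d)
      ⟨d k, Finset.mem_image_of_mem _ (mem_univ k)⟩ 0 (v := n + 1) hu (fun x hx => by
        rw [hc, sub_zero]
        obtain ⟨c, hc'⟩ := Nat.exists_eq_add_of_le (show B.card ≤ p ^ finrank (ZMod p) Y by omega)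
        rw [hc'] at hB2 ⊢
        rw [Nat.add_sub_cancel_left]
        have e0 := Nat.mul_le_mul_right (2 * u * (n + 1) + 1) (hl x hx)
        have e2 : 2 * (lam B x * (2 * u * (n + 1) + 1)) < B.card := by
          push Not at hcon; linarith
        have e3 : B.card ≤ c := by omega
        have e4 := Nat.mul_lt_mul_of_pos_right e2 (show 0 < c by omega)
        have e5 := Nat.mul_le_mul_left (lam B x * (2 * u * (n + 1) + 1)) e3
        nlinarith)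
    obtain ⟨i, hi⟩ := hφ φ h1
    have h3 : 0 < ((univ.image d).filter fun a => (w : ℤ) < |(φ (a - 0)).valMinAbs|).card :=
      Finset.card_pos.2 ⟨d i, Finset.mem_filter.2
        ⟨Finset.mem_image_of_mem _ (mem_univ i), by rwa [sub_zero]⟩⟩
    have h4 : (univ.image d).card ≤ n := Finset.card_image_le.trans (by simp)
    have h5 := Nat.mul_le_mul_right (n + 1) h3
    omega

lemma EXmf_step {n t : ℕ} (Y : Submodule (ZMod p) G) (d : Fin n → G) (hd : ∀ k, d k ∈ Y)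
    (B : Finset G) (hB : ∀ b ∈ B, b ∈ Y)
    (hF : ∀ b ∈ B, ∃ s : Fin n → ℕ, ∑ k, s k ≤ t ∧ ∑ k, s k • d k = b) (k : Fin n) :
    ∃ B' : Finset G, (∀ b ∈ B', b ∈ Y) ∧
      (∀ b ∈ B', ∃ s : Fin n → ℕ, ∑ k, s k ≤ t + 1 ∧ ∑ k, s k • d k = b) ∧
      B'.card = B.card + lam B (d k) := by
  refine ⟨B ∪ (B.filter (fun b => b + d k ∉ B)).image (fun b => b + d k), ?_, ?_, ?_⟩
  · intro b hb
    rcases Finset.mem_union.1 hb with h | h
    · exact hB b h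
    · obtain ⟨b₀, h0, rfl⟩ := Finset.mem_image.1 h
      exact Y.add_mem (hB b₀ (Finset.mem_filter.1 h0).1) (hd k)
  · intro b hb
    rcases Finset.mem_union.1 hb with h | h
    · obtain ⟨s, h1, h2⟩ := hF b h
      exact ⟨s, by omega, h2⟩
    · obtain ⟨b₀, h0, rfl⟩ := Finset.mem_image.1 h
      obtain ⟨s, h1, h2⟩ := hF b₀ (Finset.mem_filter.1 h0).1
      refine ⟨fun i => s i + if i = k then 1 else 0, ?_, ?_⟩
      · simpa [Finset.sum_add_distrib] using h1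
      · simp [add_nsmul, Finset.sum_add_distrib, h2]
  · rw [Finset.card_union_of_disjoint, Finset.card_image_of_injective _
      (add_left_injective _)]
    · rfl
    · rw [Finset.disjoint_right]
      intro b hb
      obtain ⟨b₀, h0, rfl⟩ := Finset.mem_image.1 hb
      exact (Finset.mem_filter.1 h0).2

lemma EXmf_all {n w u c J0 M m : ℕ} (Y : Submodule (ZMod p) G) (d : Fin n → G)
    (hY : 1 ≤ finrank (ZMod p) Y) (hd : ∀ k, d k ∈ Y)
    (hφ : ∀ φ : G →+ ZMod p, (∃ k ∈ Y, φ k ≠ 0) → ∃ k, (w : ℤ) < |(φ (d k)).valMinAbs|)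
    (hu : p ≤ u * w) (hc : 2 * finrank (ZMod p) Y ^ 2 * 2 ^ finrank (ZMod p) Y ≤ c)
    (hJ : J0 + 1 ≤ p) (hM : p ≤ M * (J0 + 1))
    (hm : 2 * (2 * u * (n + 1) + 1) * M ^ finrank (ZMod p) Y < m) (y : G) (hy : y ∈ Y) :
    ∃ t : Fin n → ℕ, ∑ k, t k ≤ 2 * (c * J0 + m) ∧ ∑ k, t k • d k = y := by
  obtain ⟨b, ⟨B, h1, h2, rfl⟩, h3⟩ := numeric
    (fun t b => ∃ B : Finset G, (∀ b ∈ B, b ∈ Y) ∧
      (∀ b ∈ B, ∃ s : Fin n → ℕ, ∑ k, s k ≤ t ∧ ∑ k, s k • d k = b) ∧ B.card = b)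
    (c * J0 + m) p _ (2 * (2 * u * (n + 1) + 1)) c J0 M m hY
    (by
      rintro t - b hb ⟨B, h1, h2, rfl⟩
      obtain ⟨k, g1, g2⟩ := EXmf_grow Y d hY hφ hu B h1 hb
      exact ⟨lam B (d k), EXmf_step Y d hd B h1 h2 k, g1, g2⟩)
    ⟨{0}, by simp, fun b hb => ⟨0, by simp, by simpa using (Finset.mem_singleton.1 hb).symm⟩,
      by simp⟩ hc hJ hM hm le_rfl
  obtain ⟨b, hb, b', hb', rfl⟩ := two_halves Y B B h1 h1 h3 h3 y hy
  obtain ⟨s, a1, rfl⟩ := h2 b hb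
  obtain ⟨s', a2, rfl⟩ := h2 b' hb'
  refine ⟨fun k => s k + s' k, ?_, ?_⟩
  · rw [Finset.sum_add_distrib]; omega
  · simp only [add_nsmul, Finset.sum_add_distrib]

end

theorem mflex (R n M : ℕ) : ∃ w p0 : ℕ, ∀ (p : ℕ) [Fact p.Prime], p0 ≤ p →
    ∀ (G : Type) [AddCommGroup G] [Module (ZMod p) G] [Fintype G] [DecidableEq G]
      (Y : Submodule (ZMod p) G) (d : Fin n → G), 1 ≤ finrank (ZMod p) Y →
      finrank (ZMod p) Y ≤ R → (∀ k, d k ∈ Y) →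
      (∀ φ : G →+ ZMod p, (∃ k ∈ Y, φ k ≠ 0) → ∃ k, (w : ℤ) < |(φ (d k)).valMinAbs|) →
      ∀ y ∈ Y, ∃ t : Fin n → ℕ, M * ∑ k, t k ≤ p ∧ ∑ k, t k • d k = y := by
  obtain ⟨Z, hZ⟩ : ∃ Z, Z = 2 * M + 1 := ⟨_, rfl⟩
  obtain ⟨c, hc⟩ : ∃ c, c = 2 * R ^ 2 * 2 ^ R := ⟨_, rfl⟩
  obtain ⟨M', hM'⟩ : ∃ M', M' = 3 * c * Z + 2 := ⟨_, rfl⟩
  obtain ⟨g, hg⟩ : ∃ g, g = 4 * (n + 1) * M' ^ R := ⟨_, rfl⟩
  refine ⟨3 * g * Z + 1, 3 * Z * (g + 2 * M' ^ R + 1) + 2, ?_⟩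
  intro p _ hp G _ _ _ _ Y d hY hR hd hφ y hy
  set w := 3 * g * Z + 1 with hw
  have hM0 : 0 < M' := by omega
  have hw0 : 0 < w := by omega
  have d1 : M' * (p / M') ≤ p := Nat.mul_div_le p M'
  have d2 : w * (p / w) ≤ p := Nat.mul_div_le p w
  have d3 : p < M' * (p / M' + 1) := Nat.lt_mul_div_succ p hM0
  have d4 : p < w * (p / w + 1) := Nat.lt_mul_div_succ p hw0
  set J0 := p / M' with hJ0
  set u0 := p / w with hu0
  have hn : Z * (c * J0 + (g * (u0 + 1) + 2 * M' ^ R + 1)) ≤ p := by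
    have e1 : 3 * (Z * (c * J0)) ≤ p := by rw [hM'] at d1; nlinarith [Nat.zero_le J0]
    have e2 : 3 * (Z * (g * u0)) ≤ p := by rw [hw] at d2; nlinarith [Nat.zero_le u0]
    nlinarith
  obtain ⟨t, h1, h2⟩ := EXmf_all (u := u0 + 1) (c := c) (J0 := J0) (M := M')
    (m := g * (u0 + 1) + 2 * M' ^ R + 1) Y d hY hd hφ (by rw [mul_comm]; exact d4.le)
    (by
      rw [hc]
      exact Nat.mul_le_mul (Nat.mul_le_mul_left _ (Nat.pow_le_pow_left hR 2))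
        (Nat.pow_le_pow_right (by norm_num) hR))
    (by
      have : 2 * J0 ≤ M' * J0 := Nat.mul_le_mul_right _ (by omega)
      omega) d3.le
    (by
      have e1 : M' ^ finrank (ZMod p) Y ≤ M' ^ R := Nat.pow_le_pow_right hM0 hR
      have e2 := Nat.mul_le_mul_left (2 * (2 * (u0 + 1) * (n + 1) + 1)) e1
      rw [hg]; nlinarith) y hy
  refine ⟨t, (Nat.mul_le_mul_left M h1).trans (le_trans ?_ hn), h2⟩
  rw [← mul_assoc]
  exact Nat.mul_le_mul_right _ (by omega)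

end Pool.Agent.MP_f9a021_co.EX
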