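import Pool.Agent.MP_f9a021_co.EXcd
import Pool.Agent.MP_f9a021_co.EXlat
import Pool.Agent.MP_f9a021_co.EX1

open Finset Module

set_option linter.unusedSectionVars false

namespace Pool.Agent.MP_f9a021_co.EX

theorem oneD {p : ℕ} [Fact p.Prime] {ι : Type*} [Fintype ι] (y : ι → ZMod p) (n : ι → ℕ)
    (k e : ℕ) (c : ZMod p) (he : 10 * e ≤ p) (hk : k ≤ p) (hk' : p ≤ k + e)
    (htot : 4 * p ≤ ∑ j, n j + e) (hfib : ∀ g, ∑ j with y j = g, n j ≤ 2 * p)
    (hno : ∀ α : ι → ℕ, (∀ j, α j ≤ n j) → ∑ j, α j = k → ∑ j, (α j : ZMod p) * y j ≠ c) :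
    ∃ s t : ZMod p, ∑ j, n j ≤ ∑ j with (y j = s ∨ y j = t), n j + e := by
  classical
  have hp : 0 < p := (Fact.out : p.Prime).pos
  set B : Finset ((_ : ι) × ℕ) := univ.sigma (fun j => range (n j)) with hB
  have hcard : B.card = ∑ j, n j := by simp [hB, card_sigma]
  have hfibre : ∀ g, (B.filter fun a => y a.1 = g).card = ∑ j with y j = g, n j := by
    intro g
    have : B.filter (fun a => y a.1 = g) =
        (univ.filter fun j => y j = g).sigma (fun j => range (n j)) := by
      ext a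
      simp [hB, and_comm]
    rw [this, card_sigma]
    simp
  obtain ⟨X, hX, hX'⟩ := cdsum (fun a : (_ : ι) × ℕ => y a.1) k B (by omega)
  have hc : c ∉ X := by
    intro hc
    obtain ⟨T, hT, hTk, hTs⟩ := hX' c hc
    refine hno (fun j => (T.filter fun a => a.1 = j).card) (fun j => ?_) ?_ ?_
    · rw [← card_range (n j)]
      refine card_le_card_of_injOn (fun a => a.2) ?_ ?_
      · intro a ha
        obtain ⟨h1, rfl⟩ := mem_filter.mp (mem_coe.mp ha)
        exact mem_coe.mpr (mem_sigma.mp (hT h1)).2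
      · rintro ⟨a, i⟩ ha ⟨b, l⟩ hb h
        obtain rfl : a = j := (mem_filter.mp (mem_coe.mp ha)).2
        obtain rfl : b = a := (mem_filter.mp (mem_coe.mp hb)).2
        obtain rfl : i = l := h
        rfl
    · rw [← hTk]
      exact (card_eq_sum_card_fiberwise (fun a _ => mem_coe.mpr (mem_univ a.1))).symm
    · rw [← hTs, ← sum_fiberwise T (fun a => a.1)]
      refine sum_congr rfl fun j _ => ?_
      rw [sum_congr rfl (fun a ha => by rw [(mem_filter.mp ha).2] :
        ∀ a ∈ T.filter (fun a => a.1 = j), y a.1 = y j), sum_const, nsmul_eq_mul]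
  have hlt : X.card < p := by
    have := card_lt_card (ssubset_univ_iff.mpr fun h : X = univ => hc (h ▸ mem_univ c))
    rwa [card_univ, ZMod.card] at this
  simp only [hfibre] at hX
  have htot' : ∑ g, ∑ j with y j = g, n j = ∑ j, n j := sum_fiberwise univ y n
  obtain ⟨s, t, hst, h⟩ := oneD_aux (fun g => ∑ j with y j = g, n j) k e hp he hk hk'
    (by rw [htot']; exact htot) hfib (by omega)
  refine ⟨s, t, ?_⟩
  rw [filter_or, sum_union (disjoint_filter.mpr fun j _ h1 h2 => hst (h1.symm.trans h2)), ← htot']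
  exact h

end Pool.Agent.MP_f9a021_co.EX
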