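import Pool.Agent.MP_f9a021_co.EX0

open Finset

set_option linter.unusedSectionVars false

namespace Pool.Agent.MP_f9a021_co.EX

theorem EXsep_comb {ι : Type*} [Fintype ι] (x y : ι → ℤ) (j k l : ι) (p q r : ℤ) (hp : 0 < p)
    (hq : 0 ≤ q) (hr : 0 ≤ r) (h1 : p * x j + q * x k + r * x l = 0)
    (h2 : p * y j + q * y k + r * y l = 0) :
    ∃ γ : ι → ℕ, 0 < γ j ∧ ∑ i, (γ i : ℤ) * x i = 0 ∧ ∑ i, (γ i : ℤ) * y i = 0 := by
  classical
  lift p to ℕ using hp.le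
  lift q to ℕ using hq
  lift r to ℕ using hr
  have e : ∀ z : ι → ℤ, ∑ i, (((if i = j then p else 0) + (if i = k then q else 0) +
      (if i = l then r else 0) : ℕ) : ℤ) * z i = p * z j + q * z k + r * z l := fun z => by
    simp [add_mul, sum_add_distrib]
  refine ⟨fun i => (if i = j then p else 0) + (if i = k then q else 0) + (if i = l then r else 0),
    ?_, (e x).trans h1, (e y).trans h2⟩
  have : 0 < p := by exact_mod_cast hp
  simp only [if_true]
  omega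

theorem EXsep_one {ι : Type*} [Fintype ι] (x y : ι → ℤ)
    (hno : ∀ a b : ℤ, (∀ i, a * x i + b * y i ≤ 0) → ∀ i, 0 ≤ a * x i + b * y i) (j : ι) :
    ∃ γ : ι → ℕ, 0 < γ j ∧ ∑ i, (γ i : ℤ) * x i = 0 ∧ ∑ i, (γ i : ℤ) * y i = 0 := by
  classical
  obtain ⟨X, hX⟩ : ∃ X : ι → ℤ, ∀ i, X i = x j * x i + y j * y i := ⟨_, fun _ => rfl⟩
  obtain ⟨Y, hY⟩ : ∃ Y : ι → ℤ, ∀ i, Y i = x j * y i - y j * x i := ⟨_, fun _ => rfl⟩
  have hYj : Y j = 0 := by rw [hY]; ring
  have hX0 : 0 ≤ X j := by rw [hX]; nlinarith [mul_self_nonneg (x j), mul_self_nonneg (y j)]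
  rcases hX0.eq_or_lt with h0 | h0
  · rw [hX] at h0
    have a1 : x j = 0 := by nlinarith [mul_self_nonneg (x j), mul_self_nonneg (y j)]
    have a2 : y j = 0 := by nlinarith [mul_self_nonneg (x j), mul_self_nonneg (y j)]
    exact EXsep_comb x y j j j 1 0 0 one_pos le_rfl le_rfl (by simp [a1]) (by simp [a2])
  by_cases hc : ∃ k l, ∃ q r : ℤ, 0 ≤ q ∧ 0 ≤ r ∧ q * Y k + r * Y l = 0 ∧ q * X k + r * X l < 0
  · obtain ⟨k, l, q, r, hq, hr, a1, a2⟩ := hc
    refine EXsep_comb x y j k l (-(q * X k + r * X l)) (X j * q) (X j * r) (by linarith)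
      (mul_nonneg hX0 hq) (mul_nonneg hX0 hr) ?_ ?_
    · simp only [hX, hY] at a1 ⊢
      linear_combination (-y j) * a1
    · simp only [hX, hY] at a1 ⊢
      linear_combination (x j) * a1
  exfalso
  have c1 : ∀ k l, ∀ q r : ℤ, 0 ≤ q → 0 ≤ r → q * Y k + r * Y l = 0 → 0 ≤ q * X k + r * X l :=
    fun k l q r a b c => not_lt.1 fun d => hc ⟨k, l, q, r, a, b, c, d⟩
  have c2 : ∀ i, Y i = 0 → 0 ≤ X i := fun i h => by
    simpa using c1 i i 1 0 zero_le_one le_rfl (by simp [h])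
  have c3 : ∀ s t : ℤ, (∀ i, s * X i + t * Y i ≤ 0) → ∀ i, 0 ≤ s * X i + t * Y i := by
    intro s t h i
    have e : ∀ i, (s * x j - t * y j) * x i + (s * y j + t * x j) * y i = s * X i + t * Y i :=
      fun i => by rw [hX, hY]; ring
    rw [← e]
    exact hno _ _ (fun i => (e i).trans_le (h i)) i
  by_cases hp : ∃ k, 0 < Y k
  · obtain ⟨k0, hk0⟩ := hp
    obtain ⟨k, hk, hmin⟩ := exists_min_image (univ.filter fun i => 0 < Y i)
      (fun i => (X i : ℚ) / Y i) ⟨k0, mem_filter.2 ⟨mem_univ _, hk0⟩⟩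
    have hk' := (mem_filter.1 hk).2
    have a1 := c3 (-Y k) (X k) (fun i => by
      rcases lt_trichotomy (Y i) 0 with h | h | h
      · have := c1 k i (-Y i) (Y k) (by linarith) hk'.le (by ring)
        linarith
      · have := mul_nonneg hk'.le (c2 i h)
        rw [h]
        linarith
      · have b1 := hmin i (mem_filter.2 ⟨mem_univ _, h⟩)
        rw [div_le_div_iff₀ (by exact_mod_cast hk') (by exact_mod_cast h)] at b1
        have b2 : X k * Y i ≤ X i * Y k := by exact_mod_cast b1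
        linarith) j
    have := mul_pos hk' h0
    rw [hYj] at a1
    linarith
  · have a1 : ∀ i, Y i ≤ 0 := fun i => not_lt.1 fun h => hp ⟨i, h⟩
    have a2 := c3 0 1 fun i => by linarith [a1 i]
    have a3 := c3 (-1) 0 (fun i => by linarith [c2 i (le_antisymm (a1 i) (by linarith [a2 i]))]) j
    linarith

theorem stiemke {ι : Type*} [Fintype ι] (x y : ι → ℤ) :
    (∃ γ : ι → ℕ, (∀ j, 0 < γ j) ∧ ∑ j, (γ j : ℤ) * x j = 0 ∧ ∑ j, (γ j : ℤ) * y j = 0) ∨
      ∃ a b : ℤ, (∀ j, a * x j + b * y j ≤ 0) ∧ ∃ j, a * x j + b * y j < 0 := by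
  refine or_iff_not_imp_right.2 fun h => ?_
  choose γ h1 h2 h3 using EXsep_one x y fun a b h' i => not_lt.1 fun d => h ⟨a, b, h', i, d⟩
  refine ⟨fun i => ∑ j, γ j i, fun i => (h1 i).trans_le
    (single_le_sum (f := fun j => γ j i) (fun _ _ => Nat.zero_le _) (mem_univ i)), ?_, ?_⟩
  · simp only [Nat.cast_sum, sum_mul]
    rw [sum_comm]
    exact sum_eq_zero fun j _ => h2 j
  · simp only [Nat.cast_sum, sum_mul]
    rw [sum_comm]
    exact sum_eq_zero fun j _ => h3 j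

theorem separate {ι : Type*} [Fintype ι] (μ : ι → ℝ) (x y : ι → ℤ)
    (h : ¬ ∃ β : ι → ℝ, (∀ j, 0 ≤ β j) ∧ (∀ j, β j ≤ μ j) ∧ ∑ j, β j = 1 ∧
      ∑ j, β j * x j = 0 ∧ ∑ j, β j * y j = 0) :
    ∃ a b : ℤ, Light μ (fun j => (a : ℝ) * x j + (b : ℝ) * y j) := by
  let L : (ι → ℝ) →ₗ[ℝ] ℝ × ℝ :=
    { toFun := fun β => (∑ j, β j * x j, ∑ j, β j * y j)
      map_add' := fun β β' => by simp [add_mul, sum_add_distrib]
      map_smul' := fun c β => by simp [mul_sum, mul_assoc] }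
  let S : Set (ι → ℝ) := Set.Icc 0 μ ∩ {β | ∑ j, β j = 1}
  have hS : IsCompact S := isCompact_Icc.inter_right
    (isClosed_eq (continuous_finsetSum _ fun j _ => continuous_apply j) continuous_const)
  have hC : Convex ℝ S := (convex_Icc _ _).inter fun β hβ β' hβ' s t _ _ hst => by
    simp only [Set.mem_ofPred_eq, Pi.add_apply, Pi.smul_apply, smul_eq_mul] at hβ hβ' ⊢
    rw [sum_add_distrib, ← mul_sum, ← mul_sum, hβ, hβ']
    linarith
  obtain ⟨f, u, h1, h2⟩ := geometric_hahn_banach_closed_point (hC.linear_image L)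
    (hS.image L.continuous_of_finiteDimensional).isClosed (x := 0) (by
      rintro ⟨β, ⟨⟨a, b⟩, c⟩, d⟩
      exact h ⟨β, a, b, c, congrArg Prod.fst d, congrArg Prod.snd d⟩)
  rw [map_zero] at h2
  have hf : ∀ s t : ℝ, f (s, t) = f (1, 0) * s + f (0, 1) * t := fun s t => by
    rw [show ((s, t) : ℝ × ℝ) = s • (1, 0) + t • (0, 1) by simp, map_add, map_smul, map_smul]
    simp only [smul_eq_mul]
    ring
  generalize f (1, 0) = A at hf
  generalize f (0, 1) = B at hf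
  obtain ⟨n, hn⟩ := exists_nat_gt ((∑ j, |(x j : ℝ)| + ∑ j, |(y j : ℝ)|) / -u)
  rw [div_lt_iff₀ (by linarith)] at hn
  refine ⟨⌊n * A⌋, ⌊n * B⌋, fun β a b c => ?_⟩
  have a1 : A * ∑ j, β j * x j + B * ∑ j, β j * y j < u :=
    (hf _ _).symm.trans_lt (h1 _ ⟨β, ⟨⟨a, b⟩, c⟩, rfl⟩)
  have a2 : ∀ z : ι → ℝ, |∑ j, β j * z j| ≤ ∑ j, |z j| := fun z =>
    (abs_sum_le_sum_abs _ _).trans (sum_le_sum fun j _ => by
      rw [abs_mul, abs_of_nonneg (a j)]
      exact mul_le_of_le_one_left (abs_nonneg _)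
        ((single_le_sum (fun i _ => a i) (mem_univ j)).trans_eq c))
  have a3 : ∀ t s : ℝ, (⌊t⌋ : ℝ) * s ≤ t * s + |s| := fun t s => by
    have b1 := Int.floor_le t
    have b2 := Int.lt_floor_add_one t
    have b3 := neg_abs_le s
    nlinarith [abs_nonneg s]
  have a4 := mul_le_mul_of_nonneg_left a1.le (Nat.cast_nonneg (α := ℝ) n)
  have a5 : ∑ j, β j * ((⌊n * A⌋ : ℝ) * x j + (⌊n * B⌋ : ℝ) * y j) =
      (⌊n * A⌋ : ℝ) * ∑ j, β j * x j + (⌊n * B⌋ : ℝ) * ∑ j, β j * y j := by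
    rw [mul_sum, mul_sum, ← sum_add_distrib]
    exact sum_congr rfl fun j _ => by ring
  have a6 := a3 (n * A) (∑ j, β j * x j)
  have a7 := a3 (n * B) (∑ j, β j * y j)
  have a8 := a2 fun j => x j
  have a9 := a2 fun j => y j
  rw [a5]
  linarith

end Pool.Agent.MP_f9a021_co.EX
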