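import Pool.Agent.MP_f9a021_co.EXimz
import Pool.Agent.MP_f9a021_co.EXmf
import Pool.Agent.MP_f9a021_co.EXone

/-! Stability for sequences with bounded support over `F_p` and `F_p^2`. -/

open Finset Module

set_option linter.unusedSectionVars false

namespace Pool.Agent.MP_f9a021_co.EX

lemma unif {σ : Type*} (S : Finset σ) (Q : σ → ℕ → Prop) (h : ∀ s, ∃ p0, ∀ p, p0 ≤ p → Q s p) :
    ∃ p0, ∀ s ∈ S, ∀ p, p0 ≤ p → Q s p := by
  choose f hf using h
  exact ⟨S.sup f, fun s hs p hp => hf s p ((Finset.le_sup hs).trans hp)⟩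

section
variable {p : ℕ} [Fact p.Prime] {G : Type*} [AddCommGroup G] [Module (ZMod p) G]
  {ι : Type*} [Fintype ι]

lemma p_smul (x : G) : p • x = 0 := by
  rw [← Nat.cast_smul_eq_nsmul (ZMod p), ZMod.natCast_self, zero_smul]

lemma adjust {x : ι → G} {m : ι → ℕ} (hF : Free p x m) {l : ℕ} (α : ι → ℕ)
    (h1 : ∀ j, l ≤ α j) (h2 : ∀ j, α j + l ≤ m j) (h3 : ∑ j, α j = p) (γ : ι → ℤ)
    (g1 : ∑ j, γ j = 0) (g2 : ∀ j, |γ j| ≤ l) (g3 : ∑ j, γ j • x j = -∑ j, α j • x j) : False := by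
  have e : ∀ j, (((α j + γ j).toNat : ℕ) : ℤ) = α j + γ j := fun j => by
    have := h1 j; have := abs_le.1 (g2 j); omega
  refine hF (fun j => (α j + γ j).toNat) (fun j => ?_) ?_ ?_
  · have := e j; have := h2 j; have := abs_le.1 (g2 j); omega
  · have : ((∑ j, (α j + γ j).toNat : ℕ) : ℤ) = p := by
      push_cast
      simp only [e]
      rw [Finset.sum_add_distrib, g1, add_zero, ← h3]; push_cast; rfl
    exact_mod_cast this
  · simp only [← natCast_zsmul, e, add_smul]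
    rw [Finset.sum_add_distrib, g3]
    simp

lemma sum_shift (x : ι → G) (x0 : G) (α : ι → ℕ) (h : ∑ j, α j = p) :
    ∑ j, α j • (x j - x0) = ∑ j, α j • x j := by
  simp only [smul_sub]
  rw [Finset.sum_sub_distrib, ← Finset.sum_smul, h, p_smul, sub_zero]

lemma map_comb (φ : G →+ ZMod p) (y : ι → G) (c : ι → ℤ) (h : ∀ j, φ (y j) = c j) (α : ι → ℕ) :
    φ (∑ j, α j • y j) = ((∑ j, (α j : ℤ) * c j : ℤ) : ZMod p) := by
  rw [map_sum]; push_cast
  exact Finset.sum_congr rfl fun j _ => by rw [map_nsmul, h, nsmul_eq_mul]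

end

lemma margin {n D E p : ℕ} {m : Fin n → ℕ} (hE : 2 * D ≤ E) (hp : 0 < p)
    (hD : ∀ j, p ≤ D * m j) (j : Fin n) : 2 * (p / E) ≤ m j := by
  have h1 : E * (p / E) ≤ p := Nat.mul_div_le p E
  have h2 := hD j
  have h3 : 0 < D := Nat.pos_of_ne_zero fun h => by rw [h] at h2; omega
  refine Nat.le_of_mul_le_mul_left ?_ h3
  nlinarith [Nat.mul_le_mul_right (p / E) hE]

lemma sum_sub_margin {n l : ℕ} {m : Fin n → ℕ} (h : ∀ j, 2 * l ≤ m j) :
    ∑ j, (m j - 2 * l) + 2 * (n * l) = ∑ j, m j := by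
  rw [show 2 * (n * l) = ∑ _j : Fin n, 2 * l by simp; ring, ← Finset.sum_add_distrib]
  exact Finset.sum_congr rfl fun j _ => Nat.sub_add_cancel (h j)

lemma rank0 (R n D : ℕ) : ∃ w p0 : ℕ, ∀ (p : ℕ) [Fact p.Prime], p0 ≤ p →
    ∀ (G : Type) [AddCommGroup G] [Module (ZMod p) G] [Fintype G] [DecidableEq G]
      (x : Fin n → G) (m : Fin n → ℕ) (j0 : Fin n), 1 ≤ finrank (ZMod p) G →
      finrank (ZMod p) G ≤ R → Free p x m → (∀ j, p ≤ D * m j) → 3 * p ≤ 2 * ∑ j, m j →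
      ∃ φ : G →+ ZMod p, (∃ k, φ k ≠ 0) ∧ ∀ k, |(φ (x k - x j0)).valMinAbs| ≤ w := by
  obtain ⟨E, hE⟩ : ∃ E, E = 2 * D + 2 * n + 1 := ⟨_, rfl⟩
  obtain ⟨w, p0, h⟩ := mflex R n E
  refine ⟨w, p0, fun p hp hp0 G _ _ _ _ x m j0 r1 r2 hF hD hT => ?_⟩
  by_contra hc
  push Not at hc
  have hl := margin (E := E) (by omega) hp.out.pos hD
  have h1 : E * (p / E) ≤ p := Nat.mul_div_le p E
  set l := p / E with hl'
  have h2 : 2 * (n * l) ≤ p := by rw [hE] at h1; nlinarith [Nat.zero_le (D * l)]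
  have h3 := sum_sub_margin hl
  obtain ⟨α, a1, a2, -⟩ := pick (fun _ => True) (fun j => m j - 2 * l) (p - n * l) (by
    rw [Finset.filter_true]; omega)
  obtain ⟨t, t1, t2⟩ := h p hp0 G ⊤ (fun k => x k - x j0) (by simpa using r1) (by simpa using r2)
    (fun _ => trivial) (fun φ ⟨k, _, hk⟩ => hc φ ⟨k, hk⟩) (-∑ j, (α j + l) • x j) trivial
  have t3 : ∑ k, t k ≤ l := (Nat.le_div_iff_mul_le (by omega)).2 (by rw [mul_comm]; exact t1)
  refine adjust hF (l := l) (fun j => α j + l) (fun j => by omega)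
    (fun j => by have := a1 j; have := hl j; omega)
    (by rw [Finset.sum_add_distrib, a2]; simp; omega)
    (fun j => (t j : ℤ) - if j = j0 then ((∑ k, t k : ℕ) : ℤ) else 0) (by simp) (fun j => ?_) ?_
  · have := Finset.single_le_sum (f := t) (fun _ _ => Nat.zero_le _) (Finset.mem_univ j)
    rw [abs_le]; split_ifs <;> omega
  · rw [← t2]
    simp only [sub_smul, smul_sub, ite_smul, zero_smul, Finset.sum_sub_distrib, natCast_zsmul,
      Finset.sum_ite_eq', Finset.mem_univ, if_true, Finset.sum_smul]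

theorem sk1 (n D : ℕ) {ε : ℝ} (hε0 : 0 < ε) (hε : ε ≤ 1 / 200) : ∃ p0 : ℕ,
    ∀ (p : ℕ) [Fact p.Prime], p0 ≤ p → ∀ (x : Fin n → ZMod p) (m : Fin n → ℕ), Free p x m →
      (∀ j, p ≤ D * m j) → (2 - ε) * p ≤ ((∑ j, m j : ℕ) : ℝ) → ∃ i k : Fin n, x i ≠ x k ∧
        (1 - 8 * ε) * p ≤ ((∑ j with x j = x i, m j : ℕ) : ℝ) ∧
        (1 - 8 * ε) * p ≤ ((∑ j with x j = x k, m j : ℕ) : ℝ) := by
  classical
  obtain ⟨w, p0, h0⟩ := rank0 1 n D
  obtain ⟨p1, h1⟩ := unif (Fintype.piFinset fun _ : Fin n => Icc (-(w : ℤ)) w) _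
    fun a => sk1z a D hε0 hε
  refine ⟨p0 + p1 + 2 * w + 1, fun p hp hp0 x m hF hD hT => ?_⟩
  have hp' : (0 : ℝ) < p := by exact_mod_cast hp.out.pos
  have hT' : 3 * p ≤ 2 * ∑ j, m j := by
    have : (3 : ℝ) * p ≤ 2 * ((∑ j, m j : ℕ) : ℝ) := by nlinarith
    exact_mod_cast this
  obtain ⟨j0⟩ : Nonempty (Fin n) := by
    by_contra hc
    rw [not_nonempty_iff] at hc
    have := hp.out.pos
    simp at hT'; omega
  obtain ⟨φ, ⟨k0, f1⟩, f2⟩ := h0 p (by omega) (ZMod p) x m j0 (by simp) (by simp) hF hD hT'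
  have hinj : ∀ y, φ y = 0 → y = 0 := fun y hy => by
    by_contra hy0
    apply f1
    have e := (φ.toZModLinearMap p).map_smul (k0 * y⁻¹) y
    rw [smul_eq_mul, mul_assoc, inv_mul_cancel₀ hy0, mul_one, AddMonoidHom.coe_toZModLinearMap,
      hy, smul_zero] at e
    exact e
  have hv : ∀ j, φ (x j - x j0) = ((φ (x j - x j0)).valMinAbs : ℤ) := fun j =>
    (ZMod.coe_valMinAbs _).symm
  obtain ⟨s, t, g1, g2, g3⟩ := h1 (fun j => (φ (x j - x j0)).valMinAbs)
    (Fintype.mem_piFinset.2 fun j => Finset.mem_Icc.2 (abs_le.1 (f2 j))) p (by omega) j0 (by simp)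
    m (fun α a1 a2 a3 _ => hF α a1 a2 (by
      rw [← sum_shift x (x j0) α a2]
      apply hinj
      rw [map_comb φ _ _ hv]
      exact (ZMod.intCast_zmod_eq_zero_iff_dvd _ _).2 a3)) hD hT
  have key : ∀ s : ℤ, (1 - 8 * ε) * p ≤
      ((∑ j with (φ (x j - x j0)).valMinAbs = s, m j : ℕ) : ℝ) →
      ∃ i, (φ (x i - x j0)).valMinAbs = s ∧
        (1 - 8 * ε) * p ≤ ((∑ j with x j = x i, m j : ℕ) : ℝ) := by
    intro s hs
    obtain ⟨i, hi⟩ : ∃ i, (φ (x i - x j0)).valMinAbs = s := by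
      by_contra hc
      push Not at hc
      rw [Finset.filter_false_of_mem fun j _ => hc j] at hs
      simp only [Finset.sum_empty, Nat.cast_zero] at hs
      nlinarith
    refine ⟨i, hi, hs.trans ?_⟩
    exact_mod_cast sum_filter_mono m fun j hj => by
      have e := ZMod.injective_valMinAbs (hj.trans hi.symm)
      have := hinj (x j - x i) (by
        rw [show x j - x i = (x j - x j0) - (x i - x j0) by ring, map_sub, e, sub_self])
      exact sub_eq_zero.1 this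
  obtain ⟨i, i1, i2⟩ := key s g2
  obtain ⟨k, k1, k2⟩ := key t g3
  exact ⟨i, k, fun h => g1 (by rw [← i1, ← k1, h]), i2, k2⟩

lemma prim {p : ℕ} (hp : p.Prime) {α β : ℤ} (h : α ≠ 0 ∨ β ≠ 0) : ∃ g α' β' : ℤ, g ≠ 0 ∧
    α = g * α' ∧ β = g * β' ∧ ¬ ((α' : ZMod p) = 0 ∧ (β' : ZMod p) = 0) := by
  obtain ⟨g, a, b, g0, g1, g2, g3⟩ := Int.exists_gcd_one' (Int.gcd_pos_iff.2 h)
  refine ⟨g, a, b, by exact_mod_cast g0.ne', by rw [g2, mul_comm], by rw [g3, mul_comm], ?_⟩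
  rintro ⟨h1, h2⟩
  have := Int.dvd_gcd ((ZMod.intCast_zmod_eq_zero_iff_dvd _ _).1 h1)
    ((ZMod.intCast_zmod_eq_zero_iff_dvd _ _).1 h2)
  rw [g1] at this
  exact hp.one_lt.ne' (Nat.dvd_one.1 this)

theorem sk2 (n D : ℕ) {ε : ℝ} (hε0 : 0 < ε) (hε : ε ≤ 1 / 200) : ∃ p0 : ℕ,
    ∀ (p : ℕ) [Fact p.Prime], p0 ≤ p →
    ∀ (H : Type) [AddCommGroup H] [Module (ZMod p) H] [Fintype H] [DecidableEq H],
      finrank (ZMod p) H = 2 → ∀ (x : Fin n → H) (m : Fin n → ℕ), Free p x m →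
      (∀ j, p ≤ D * m j) →
      (∀ φ : H →+ ZMod p, (∃ k, φ k ≠ 0) → ∀ g, ∑ j with φ (x j) = g, m j ≤ 2 * p) →
      (4 - ε) * p ≤ ((∑ j, m j : ℕ) : ℝ) → ∃ φ : H →+ ZMod p, (∃ k, φ k ≠ 0) ∧ ∃ s t : ZMod p,
        ((∑ j, m j : ℕ) : ℝ) - 41 * ε * p ≤
          ((∑ j with (φ (x j) = s ∨ φ (x j) = t), m j : ℕ) : ℝ) := by
  classical
  obtain ⟨w0, p0, h0⟩ := rank0 2 n D
  obtain ⟨E0, hE0⟩ := exists_nat_ge (2 * n / ε)
  obtain ⟨E, hE⟩ : ∃ E, E = 2 * D + E0 + 1 := ⟨_, rfl⟩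
  obtain ⟨w1, p1, h1⟩ := mflex 2 n (4 * w0 * E)
  obtain ⟨p2, h2⟩ := unif ((Fintype.piFinset fun _ : Fin n => Icc (-(w0 : ℤ)) w0) ×ˢ
    (Fintype.piFinset fun _ : Fin n => Icc (-(w1 : ℤ)) w1)) _ fun q => imz q.1 q.2 D hε0 hε
  obtain ⟨p3, hp3⟩ := exists_nat_ge (1 / ε)
  refine ⟨p0 + p1 + p2 + p3 + 100, fun p hp hp0 H _ _ _ _ hH x m hF hD hl hT => ?_⟩
  have hpos := hp.out.pos
  have hp' : (100 : ℝ) ≤ p := by exact_mod_cast (show 100 ≤ p by omega)
  have hT' : 3 * p ≤ ∑ j, m j := by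
    have : (3 : ℝ) * p ≤ ((∑ j, m j : ℕ) : ℝ) := by nlinarith
    exact_mod_cast this
  obtain ⟨j0⟩ : Nonempty (Fin n) := by
    by_contra hc
    rw [not_nonempty_iff] at hc
    simp at hT'; omega
  obtain ⟨ξ, f1, f2⟩ := h0 p (by omega) H x m j0 (by omega) (by omega) hF hD (by omega)
  obtain ⟨a, ha⟩ : ∃ a : Fin n → ℤ, a = fun j => (ξ (x j - x j0)).valMinAbs := ⟨_, rfl⟩
  have av : ∀ j, ξ (x j - x j0) = a j := fun j => by rw [ha]; exact (ZMod.coe_valMinAbs _).symm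
  have ab : ∀ j, |a j| ≤ w0 := fun j => by rw [ha]; exact f2 j
  have a0 : a j0 = 0 := by rw [ha]; simp
  obtain ⟨j1, hj1⟩ : ∃ j1, ξ (x j1 - x j0) ≠ 0 := by
    by_contra hc
    push Not at hc
    have := hl ξ f1 (ξ (x j0))
    rw [Finset.filter_true_of_mem fun j _ => by
      have := hc j; rwa [map_sub, sub_eq_zero] at this] at this
    omega
  have g0 : (a j1 : ZMod p) ≠ 0 := by rwa [← av]
  let Y := LinearMap.ker (ξ.toZModLinearMap p)
  have hY : finrank (ZMod p) Y = 1 := by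
    have e1 := LinearMap.finrank_range_add_finrank_ker (ξ.toZModLinearMap p)
    have e2 : LinearMap.range (ξ.toZModLinearMap p) = ⊤ := by
      rw [LinearMap.range_eq_top]
      intro c
      refine ⟨(c * (ξ (x j1 - x j0))⁻¹) • (x j1 - x j0), ?_⟩
      rw [map_smul, smul_eq_mul, AddMonoidHom.coe_toZModLinearMap, mul_assoc,
        inv_mul_cancel₀ hj1, mul_one]
    rw [e2, hH, finrank_top, finrank_self] at e1
    exact Nat.add_left_cancel (e1.trans (show 2 = 1 + 1 from rfl))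
  let d : Fin n → H := fun k => a j1 • (x k - x j0) - a k • (x j1 - x j0)
  have hd : ∀ k, d k ∈ Y := fun k => by
    change ξ (d k) = 0
    simp only [d, map_sub ξ (a j1 • _), map_zsmul, av, zsmul_eq_mul]; ring
  by_cases hth : ∀ φ : H →+ ZMod p, (∃ k ∈ Y, φ k ≠ 0) → ∃ k, (w1 : ℤ) < |(φ (d k)).valMinAbs|
  · have hm := margin (E := E) (by omega) hpos hD
    have e1 : E * (p / E) ≤ p := Nat.mul_div_le p E
    set l := p / E with hl'
    have e2 : (2 * (n * l) : ℝ) ≤ ε * p := by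
      have k1 : (E0 : ℝ) * l ≤ p := by
        exact_mod_cast (show E0 * l ≤ p from (Nat.mul_le_mul_right _ (by omega)).trans e1)
      have k2 := (div_le_iff₀ hε0).1 hE0
      nlinarith [Nat.cast_nonneg (α := ℝ) l]
    have e3 : (1 : ℝ) ≤ ε * p := by
      have k1 : (p3 : ℝ) ≤ p := by exact_mod_cast (show p3 ≤ p by omega)
      have k2 := (div_le_iff₀ hε0).1 hp3
      nlinarith
    have e4 := sum_sub_margin hm
    have e5 := Nat.le_ceil (ε * p)
    have e6 := Nat.ceil_lt_add_one (show 0 ≤ ε * p by positivity)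
    set c := ⌈ε * p⌉₊ with hc
    have e7 : 10 * (c + 2 * (n * l)) ≤ p := by
      have : (10 * (c + 2 * (n * l)) : ℝ) ≤ p := by nlinarith
      exact_mod_cast this
    have e8 : 4 * p ≤ ∑ j, m j + c := by
      have : (4 * p : ℝ) ≤ ((∑ j, m j : ℕ) : ℝ) + c := by linarith
      exact_mod_cast this
    obtain ⟨s, t, k⟩ := oneD (fun j => ξ (x j)) (fun j => m j - 2 * l) (p - n * l)
      (c + 2 * (n * l)) (-∑ j, (l : ZMod p) * ξ (x j)) e7 (by omega) (by omega) (by omega)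
      (fun g => (Finset.sum_le_sum fun j _ => Nat.sub_le _ _).trans (hl ξ f1 g))
      (fun α a1 a2 a3 => by
        obtain ⟨t, t1, t2⟩ := h1 p (by omega) H Y d hY.ge (by omega) hd hth
          (-∑ j, (α j + l) • x j) (Y.neg_mem (by
            change ξ _ = 0
            rw [map_sum]
            simp only [map_nsmul, nsmul_eq_mul, Nat.cast_add, add_mul, Finset.sum_add_distrib]
            rw [a3]; ring))
        have t3 : 4 * w0 * ∑ k, t k ≤ l :=
          (Nat.le_div_iff_mul_le (by omega)).2 (by linarith)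
        have t4 : (4 * (w0 * ((∑ k, t k : ℕ) : ℤ))) ≤ l := by exact_mod_cast (by linarith)
        have t5 : |∑ k, (t k : ℤ) * a k| ≤ w0 * ((∑ k, t k : ℕ) : ℤ) := by
          refine (Finset.abs_sum_le_sum_abs _ _).trans ?_
          push_cast
          rw [Finset.mul_sum]
          refine Finset.sum_le_sum fun k _ => ?_
          rw [abs_mul, Nat.abs_cast, mul_comm]
          exact mul_le_mul_of_nonneg_right (ab k) (Nat.cast_nonneg _)
        have t6 : ∀ y : ℕ, y ≤ ∑ k, t k → |a j1 * y| ≤ w0 * ((∑ k, t k : ℕ) : ℤ) := fun y hy => by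
          rw [abs_mul, Nat.abs_cast]
          exact mul_le_mul (ab j1) (by exact_mod_cast hy) (Nat.cast_nonneg _) (Nat.cast_nonneg _)
        refine adjust hF (l := l) (fun j => α j + l) (fun j => by omega)
          (fun j => by have := a1 j; have := hm j; omega)
          (by rw [Finset.sum_add_distrib, a2]; simp; omega)
          (fun j => a j1 * t j - (if j = j1 then ∑ k, (t k : ℤ) * a k else 0) +
            if j = j0 then ∑ k, (t k : ℤ) * a k - a j1 * ((∑ k, t k : ℕ) : ℤ) else 0) ?_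
          (fun j => ?_) ?_
        · simp [Finset.sum_add_distrib, Finset.mul_sum]
        · have u1 := abs_le.1 (t6 _ (Finset.single_le_sum (f := t) (fun _ _ => Nat.zero_le _)
            (Finset.mem_univ j)))
          have u2 := abs_le.1 (t6 _ le_rfl)
          have u3 := abs_le.1 t5
          rw [abs_le]; split_ifs <;> constructor <;> linarith
        · rw [← t2]
          simp only [add_smul, sub_smul, ite_smul, zero_smul, Finset.sum_add_distrib,
            Finset.sum_sub_distrib, Finset.sum_ite_eq', Finset.mem_univ, if_true, d, smul_sub,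
            ← natCast_zsmul, smul_smul, Nat.cast_sum, Finset.sum_mul, Finset.sum_smul,
            mul_comm (a j1)]
          abel)
    refine ⟨ξ, f1, s, t, ?_⟩
    have k2 : ∑ j with (ξ (x j) = s ∨ ξ (x j) = t), (m j - 2 * l) ≤
        ∑ j with (ξ (x j) = s ∨ ξ (x j) = t), m j := Finset.sum_le_sum fun j _ => Nat.sub_le _ _
    have k3 : ∑ j, m j ≤ ∑ j with (ξ (x j) = s ∨ ξ (x j) = t), m j + c + 2 * (2 * (n * l)) := by
      omega
    have k4 : ((∑ j, m j : ℕ) : ℝ) ≤ ((∑ j with (ξ (x j) = s ∨ ξ (x j) = t), m j : ℕ) : ℝ) + c +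
        2 * (2 * (n * l)) := by exact_mod_cast k3
    linarith
  · push Not at hth
    obtain ⟨φ, ⟨k0, k1, k2⟩, f3⟩ := hth
    have k1' : ξ k0 = 0 := k1
    obtain ⟨b, hb⟩ : ∃ b : Fin n → ℤ, b = fun j => (φ (d j)).valMinAbs := ⟨_, rfl⟩
    have bv : ∀ j, φ (d j) = b j := fun j => by rw [hb]; exact (ZMod.coe_valMinAbs _).symm
    let ζ : H →+ ZMod p := (a j1) • φ - (AddMonoidHom.mulLeft (φ (x j1 - x j0))).comp ξ
    have zv : ∀ y, ζ y = a j1 * φ y - φ (x j1 - x j0) * ξ y := fun y => by simp [ζ]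
    have zb : ∀ j, ζ (x j - x j0) = b j := fun j => by
      rw [zv, ← bv, av]
      simp only [d, map_sub φ (a j1 • _), map_zsmul, zsmul_eq_mul]; ring
    have hinj : ∀ y, ξ y = 0 → ζ y = 0 → y = 0 := fun y y1 y2 => by
      rw [zv, y1, mul_zero, sub_zero] at y2
      have y3 := (mul_eq_zero.1 y2).resolve_left g0
      have hk : (⟨k0, k1⟩ : Y) ≠ 0 := fun h => k2 (by
        rw [show k0 = 0 from congrArg Subtype.val h, map_zero])
      obtain ⟨c, hc⟩ := (finrank_eq_one_iff_of_nonzero' _ hk).1 hY ⟨y, y1⟩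
      have e : c • k0 = y := congrArg Subtype.val hc
      have e2 := (φ.toZModLinearMap p).map_smul c k0
      rw [e, AddMonoidHom.coe_toZModLinearMap, y3, smul_eq_mul] at e2
      rw [← e, (mul_eq_zero.1 e2.symm).resolve_right k2, zero_smul]
    have fn : ∀ α β : ℤ, (α ≠ 0 ∨ β ≠ 0) → ∃ ψ : H →+ ZMod p, (∃ k, ψ k ≠ 0) ∧
        ∀ h : ℤ, ∃ g : ZMod p, ∀ j, α * a j + β * b j = h → ψ (x j) = g := by
      intro α β hab
      obtain ⟨g, α', β', q0, q1, q2, q3⟩ := prim hp.out hab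
      have ev : ∀ y, (α' • ξ + β' • ζ) y = α' * ξ y + β' * ζ y := fun y => by simp
      refine ⟨α' • ξ + β' • ζ, ?_, fun h => ⟨((h / g : ℤ) : ZMod p) + (α' • ξ + β' • ζ) (x j0),
        fun j hj => ?_⟩⟩
      · by_contra hc
        push Not at hc
        have c1 := hc k0
        rw [ev, zv, k1', mul_zero, mul_zero, sub_zero, zero_add] at c1
        have c2 : (β' : ZMod p) = 0 := (mul_eq_zero.1 c1).resolve_right (mul_ne_zero g0 k2)
        have c3 := hc (x j1 - x j0)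
        rw [ev, c2, zero_mul, add_zero] at c3
        exact q3 ⟨(mul_eq_zero.1 c3).resolve_right hj1, c2⟩
      · have e : h / g = α' * a j + β' * b j := by
          rw [← hj, q1, q2, mul_assoc, mul_assoc, ← mul_add, Int.mul_ediv_cancel_left _ q0]
        rw [← sub_eq_iff_eq_add, ← map_sub, ev, av, zb, e]; push_cast; ring
    obtain ⟨α, β, s, t, r1, r2⟩ := h2 (a, b) (Finset.mem_product.2
      ⟨Fintype.mem_piFinset.2 fun j => Finset.mem_Icc.2 (abs_le.1 (ab j)),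
        Fintype.mem_piFinset.2 fun j => Finset.mem_Icc.2 (abs_le.1 (by rw [hb]; exact f3 j))⟩)
      p (by omega) j0 j1 a0 (by simp [hb, d, a0]) (fun h => g0 (by
        rw [show a j1 = 0 from h]; simp)) (by simp [hb, d]) m
      (fun α a1 a2 a3 a4 => hF α a1 a2 (by
        rw [← sum_shift x (x j0) α a2]
        apply hinj
        · rw [map_comb ξ _ _ av]; exact (ZMod.intCast_zmod_eq_zero_iff_dvd _ _).2 a3
        · rw [map_comb ζ _ _ zb]; exact (ZMod.intCast_zmod_eq_zero_iff_dvd _ _).2 a4)) hD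
      (fun α β h hab => by
        obtain ⟨ψ, s1, s2⟩ := fn α β hab
        obtain ⟨g, hg⟩ := s2 h
        exact (sum_filter_mono m hg).trans (hl ψ s1 g)) hT
    obtain ⟨ψ, s1, s2⟩ := fn α β r1
    obtain ⟨g1, hg1⟩ := s2 s
    obtain ⟨g2, hg2⟩ := s2 t
    refine ⟨ψ, s1, g1, g2, r2.trans ?_⟩
    exact_mod_cast sum_filter_mono m fun j hj => Or.imp (hg1 j) (hg2 j) hj

end Pool.Agent.MP_f9a021_co.EX
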