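import Pool.Agent.Mg.Ff9a021.G91b7a1

/-! Thick subsets of a coset of a subspace: sums of `t` distinct elements fill the coset as soon
as `t` is a small positive proportion of `p`. -/

open Finset Module

set_option linter.unusedSectionVars false

namespace Pool.Agent.MP_f9a021_co.EZ

open _root_.Pool.Agent.MP_f9a021_co.GT

lemma lin (R : ℕ → ℕ → Prop) (Gr : ℕ → ℕ → Prop) (T : ℕ)
    (hs : ∀ t < T, ∀ b, 1 ≤ b → R t b → ∃ l, R (t + 1) (b + l) ∧ Gr b l)
    {t0 b0 X y q : ℕ} (h0 : R t0 b0) (hb : 1 ≤ b0)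
    (hg : ∀ b l, b0 ≤ b → 2 * b ≤ X → Gr b l → y ≤ q * l) (m : ℕ) (hm : t0 + m ≤ T) :
    ∃ b, R (t0 + m) b ∧ b0 ≤ b ∧ (X < 2 * b ∨ q * b0 + m * y ≤ q * b) := by
  induction m with
  | zero => exact ⟨b0, h0, le_rfl, Or.inr (by simp)⟩
  | succ m ih =>
    obtain ⟨b, h1, h2, h3⟩ := ih (by omega)
    obtain ⟨l, h4, h5⟩ := hs (t0 + m) (by omega) b (by omega) h1
    refine ⟨b + l, h4, by omega, ?_⟩
    by_cases hX : X < 2 * b
    · exact Or.inl (by omega)
    · have h6 := hg b l h2 (by omega) h5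
      rcases h3 with h3 | h3
      · exact absurd h3 hX
      · refine Or.inr ?_
        rw [mul_add, add_mul, one_mul]; omega

lemma pow_succ_le (J d : ℕ) : (J + 1) * (J + 1) ^ d ≤ (J + 1) * J ^ d + d * (J + 1) ^ d := by
  induction d with
  | zero => simp
  | succ d ih =>
    have h1 : J ^ d ≤ (J + 1) ^ d := Nat.pow_le_pow_left (by omega) d
    have h2 := Nat.mul_le_mul_left (J + 1) ih
    have h3 := Nat.mul_le_mul_left (J + 1) h1
    rw [pow_succ, pow_succ]
    nlinarith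

lemma numeric (R : ℕ → ℕ → Prop) (T p d j c J0 M m : ℕ) (hd : 1 ≤ d)
    (hs : ∀ t < T, ∀ b, 1 ≤ b → R t b → ∃ l, R (t + 1) (b + l) ∧
      ((∀ J ≤ p, 2 * b ≤ J ^ d → b ≤ 2 * d * J * l) ∧ (2 * b ≤ p ^ d → b ≤ j * l)))
    (h0 : R 0 1) (hc : 2 * d ^ 2 * 2 ^ d ≤ c) (hJ : J0 + 1 ≤ p) (hM : p ≤ M * (J0 + 1))
    (hm : j * M ^ d < m) (hT : c * J0 + m ≤ T) :
    ∃ b, R (c * J0 + m) b ∧ p ^ d < 2 * b := by
  have ph1 : ∀ J, J ≤ J0 → ∃ b, R (c * J) b ∧ 1 ≤ b ∧ (J + 1) ^ d ≤ 2 * b := by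
    intro J
    induction J with
    | zero => intro _; exact ⟨1, by simpa using h0, le_rfl, by simp⟩
    | succ J ih =>
      intro hJ0
      obtain ⟨b0, h1, h2, h3⟩ := ih (by omega)
      have hT' : c * J + c ≤ T := by
        have := Nat.mul_le_mul_left c hJ0
        rw [mul_add, mul_one] at this; omega
      obtain ⟨b, h4, h5, h6⟩ := lin R _ T hs (X := (J + 1 + 1) ^ d) (y := (J + 1) ^ d)
        (q := 4 * d * (J + 1 + 1)) h1 h2 (fun b l hb hX hG => by
          have := hG.1 (J + 1 + 1) (by omega) hX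
          nlinarith) c hT'
      refine ⟨b, by rwa [mul_add, mul_one], by omega, ?_⟩
      rcases h6 with h6 | h6
      · exact h6.le
      · have e1 := pow_succ_le (J + 1) d
        have e2 : (J + 1 + 1) ^ d ≤ 2 ^ d * (J + 1) ^ d := by
          rw [← mul_pow]; exact Nat.pow_le_pow_left (by omega) d
        have e3 : 2 * d ^ 2 * 2 ^ d * (J + 1) ^ d ≤ c * (J + 1) ^ d := Nat.mul_le_mul_right _ hc
        have e4 : 0 < 4 * d * (J + 1 + 1) := by positivity
        refine Nat.le_of_mul_le_mul_left ?_ e4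
        have e5 := Nat.mul_le_mul_left (4 * d) e1
        have e6 := Nat.mul_le_mul_left (4 * d * (J + 1 + 1)) h3
        have e7 := Nat.mul_le_mul_left (4 * d ^ 2) e2
        nlinarith
  obtain ⟨b0, h1, h2, h3⟩ := ph1 J0 le_rfl
  obtain ⟨b, h4, h5, h6⟩ := lin R _ T hs (X := p ^ d) (y := (J0 + 1) ^ d)
    (q := 2 * j) h1 h2 (fun b l hb hX hG => by
      have := hG.2 hX
      nlinarith) m hT
  refine ⟨b, h4, ?_⟩
  rcases h6 with h6 | h6
  · exact h6
  · have e2 : p ^ d ≤ M ^ d * (J0 + 1) ^ d := by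
      rw [← mul_pow]; exact Nat.pow_le_pow_left hM d
    have e3 : 0 < (J0 + 1) ^ d := by positivity
    have e4 : j * M ^ d * (J0 + 1) ^ d < m * (J0 + 1) ^ d := Nat.mul_lt_mul_of_pos_right hm e3
    have e5 := Nat.mul_le_mul_left j e2
    refine Nat.lt_of_mul_lt_mul_left (a := j) ?_
    nlinarith [Nat.zero_le (2 * j * b0)]

variable {p : ℕ} [Fact p.Prime] {G : Type*} [AddCommGroup G] [Module (ZMod p) G] [Fintype G]
  [DecidableEq G]

lemma avg (B S : Finset G) (hB : 1 ≤ B.card) (hS : 2 * B.card ≤ S.card) :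
    ∃ s ∈ S, B.card ≤ 2 * lam B s := by
  by_contra hc
  push Not at hc
  have h1 : ∑ s ∈ S, (B.filter (fun b => b + s ∈ B)).card ≤ B.card * B.card := by
    simp only [Finset.card_filter]
    rw [Finset.sum_comm]
    simp only [← Finset.card_filter]
    refine (Finset.sum_le_card_nsmul _ _ B.card fun b _ => ?_).trans (by simp)
    exact Finset.card_le_card_of_injOn (fun s => b + s)
      (fun s hs => (Finset.mem_filter.1 hs).2) (fun s _ s' _ h => add_left_cancel h)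
  have h2 : S.card * (B.card + 1) ≤ ∑ s ∈ S, 2 * (B.filter (fun b => b + s ∈ B)).card := by
    rw [← smul_eq_mul]
    refine Finset.card_nsmul_le_sum _ _ _ fun s hs => ?_
    have := Finset.card_filter_add_card_filter_not (s := B) (fun b => b + s ∈ B)
    have h3 := hc s hs
    unfold lam at h3
    omega
  rw [← Finset.mul_sum] at h2
  nlinarith

lemma shifts (W : Submodule (ZMod p) G) (D B : Finset G) (l J : ℕ) (hJ : J ≤ p)
    (hsp : ∀ U : Submodule (ZMod p) G, (∀ x ∈ D, x ∈ U) → W ≤ U)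
    (hl : ∀ x ∈ D, lam B x ≤ l) (k : ℕ) (hk : k ≤ finrank (ZMod p) W) :
    ∃ (S : Finset G) (U : Submodule (ZMod p) G), finrank (ZMod p) U ≤ k ∧
      (∀ s ∈ S, s ∈ U ∧ lam B s ≤ k * J * l) ∧ S.card = J ^ k := by
  induction k with
  | zero =>
    refine ⟨{0}, ⊥, by simp, fun s hs => ?_, by simp⟩
    rw [Finset.mem_singleton.1 hs]; simp [lam_zero]
  | succ k ih =>
    obtain ⟨S, U, h1, h2, h3⟩ := ih (by omega)
    obtain ⟨x, hxD, hxU⟩ : ∃ x ∈ D, x ∉ U := by
      by_contra hc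
      push Not at hc
      have := Submodule.finrank_mono (hsp U hc)
      omega
    have hx0 : x ≠ 0 := fun h => hxU (h ▸ U.zero_mem)
    refine ⟨(S ×ˢ range J).image (fun q => q.1 + q.2 • x), U ⊔ (ZMod p ∙ x), ?_, ?_, ?_⟩
    · have := Submodule.finrank_add_le_finrank_add_finrank U (ZMod p ∙ x)
      rw [finrank_span_singleton hx0] at this
      omega
    · intro s hs
      obtain ⟨⟨s0, i⟩, hq, rfl⟩ := Finset.mem_image.1 hs
      obtain ⟨hq1, hq2⟩ := Finset.mem_product.1 hq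
      refine ⟨Submodule.add_mem_sup (h2 s0 hq1).1
        (Submodule.smul_of_tower_mem _ _ (Submodule.mem_span_singleton_self x)), ?_⟩
      have e1 := lam_add B s0 (i • x)
      have e2 := lam_nsmul B x i
      have e3 : i * lam B x ≤ J * l := Nat.mul_le_mul (Finset.mem_range.1 hq2).le (hl x hxD)
      have e4 := (h2 s0 hq1).2
      dsimp only
      nlinarith
    · rw [Finset.card_image_of_injOn, Finset.card_product, h3, Finset.card_range, pow_succ]
      rintro ⟨s, i⟩ hq ⟨s', i'⟩ hq' h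
      obtain ⟨hq1, hq2⟩ := Finset.mem_product.1 (Finset.mem_coe.1 hq)
      obtain ⟨hq1', hq2'⟩ := Finset.mem_product.1 (Finset.mem_coe.1 hq')
      dsimp only at h hq1 hq2 hq1' hq2'
      have e1 : ((i : ZMod p) - (i' : ZMod p)) • x = s' - s := by
        rw [sub_smul, Nat.cast_smul_eq_nsmul, Nat.cast_smul_eq_nsmul]
        exact sub_eq_sub_iff_add_eq_add.2 (by rw [add_comm, h])
      have e2 : (i : ZMod p) = (i' : ZMod p) := by
        by_contra hne
        apply hxU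
        have := U.smul_mem ((i : ZMod p) - (i' : ZMod p))⁻¹
          (U.sub_mem (h2 s' hq1').1 (h2 s hq1).1)
        rwa [← e1, smul_smul, inv_mul_cancel₀ (sub_ne_zero.2 hne), one_smul] at this
      have e3 : i = i' := by
        have := (ZMod.natCast_eq_natCast_iff' i i' p).1 e2
        rwa [Nat.mod_eq_of_lt ((Finset.mem_range.1 hq2).trans_le hJ),
          Nat.mod_eq_of_lt ((Finset.mem_range.1 hq2').trans_le hJ)] at this
      subst e3
      rw [add_right_cancel h]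

lemma step (W : Submodule (ZMod p) G) {Q B : Finset G} {t : ℕ} {s a a' : G}
    (hB : ∀ b ∈ B, b ∈ W) (hF : Fill Q t s B) (ha : a ∉ Q) (ha' : a' ∉ Q)
    (hd : a - a' ∈ W) :
    ∃ B' : Finset G, (∀ b ∈ B', b ∈ W) ∧ Fill (insert a (insert a' Q)) (t + 1) (s + a') B' ∧
      B'.card = B.card + lam B (a - a') := by
  refine ⟨B ∪ (B.filter (fun b => b + (a - a') ∉ B)).image (fun b => b + (a - a')), ?_, ?_, ?_⟩
  · intro b hb
    rcases Finset.mem_union.1 hb with h | h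
    · exact hB b h
    · obtain ⟨b₀, h0, rfl⟩ := Finset.mem_image.1 h
      exact W.add_mem (hB b₀ (Finset.mem_filter.1 h0).1) hd
  · intro k hk
    rcases Finset.mem_union.1 hk with h | h
    · obtain ⟨S, h1, h2, h3⟩ := hF k h
      have h4 : a' ∉ S := fun h => ha' (h1 h)
      refine ⟨insert a' S, ?_, by rw [Finset.card_insert_of_notMem h4, h2], ?_⟩
      · exact (Finset.insert_subset_insert _ h1).trans (Finset.subset_insert _ _)
      · rw [Finset.sum_insert h4, h3]; abel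
    · obtain ⟨b₀, h0, rfl⟩ := Finset.mem_image.1 h
      obtain ⟨S, h1, h2, h3⟩ := hF b₀ (Finset.mem_filter.1 h0).1
      have h4 : a ∉ S := fun h => ha (h1 h)
      refine ⟨insert a S, ?_, by rw [Finset.card_insert_of_notMem h4, h2], ?_⟩
      · exact Finset.insert_subset_insert _ (h1.trans (Finset.subset_insert _ _))
      · rw [Finset.sum_insert h4, h3]; abel
  · rw [Finset.card_union_of_disjoint, Finset.card_image_of_injective _
      (add_left_injective _)]
    · rfl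
    · rw [Finset.disjoint_right]
      intro b hb
      obtain ⟨b₀, h0, rfl⟩ := Finset.mem_image.1 hb
      exact (Finset.mem_filter.1 h0).2

/-- The points of `P` outside the slab of half-width `w` around the level `t` of `φ`. -/
def out (P : Finset G) (w : ℕ) (φ : G →+ ZMod p) (t : ZMod p) : Finset G :=
  P.filter (fun a => (w : ℤ) < |(φ a - t).valMinAbs|)

/-- At least a proportion `1/L` of `P` lies outside any slab transversal to `W`. -/
def Thick (W : Submodule (ZMod p) G) (P : Finset G) (w L : ℕ) : Prop :=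
  ∀ φ : G →+ ZMod p, (∃ k ∈ W, φ k ≠ 0) → ∀ t, P.card ≤ L * (out P w φ t).card

lemma hsep (x : G) (hx : x ≠ 0) : ∃ φ : G →+ ZMod p, φ x ≠ 0 := by
  obtain ⟨f, h1, _⟩ := Submodule.exists_le_ker_of_notMem (K := ZMod p) (p := ⊥) (v := x)
    (by simpa using hx)
  exact ⟨f.toAddMonoidHom, h1⟩

lemma card_W (W : Submodule (ZMod p) G) : Nat.card W = p ^ finrank (ZMod p) W := by
  rw [Module.natCard_eq_pow_finrank (K := ZMod p), Nat.card_zmod]

lemma grow (W : Submodule (ZMod p) G) (P : Finset G) {w L u : ℕ} (hW : 1 ≤ finrank (ZMod p) W)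
    (hT : Thick W P w L) (hu : p ≤ u * w) (E : Finset G) (hE : 2 * L * E.card < P.card)
    (B : Finset G) (hB : ∀ b ∈ B, b ∈ W) (hB1 : 1 ≤ B.card) :
    ∃ a ∈ P \ E, ∃ a' ∈ P \ E, a ≠ a' ∧
      (∀ J ≤ p, 2 * B.card ≤ J ^ finrank (ZMod p) W →
        B.card ≤ 2 * finrank (ZMod p) W * J * lam B (a - a')) ∧
      (2 * B.card ≤ p ^ finrank (ZMod p) W →
        B.card ≤ 2 * (2 * u * (2 * L + 1) + 1) * lam B (a - a')) := by
  have key : ∀ φ : G →+ ZMod p, (∃ k ∈ W, φ k ≠ 0) → ∀ t,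
      (P \ E).card < (out (P \ E) w φ t).card * (2 * L + 1) := by
    intro φ hφ t
    have h1 := hT φ hφ t
    have h2 : (out P w φ t).card ≤ (out (P \ E) w φ t).card + E.card := by
      refine le_trans (Finset.card_le_card ?_) (Finset.card_union_le _ _)
      intro a ha
      obtain ⟨h3, h4⟩ := Finset.mem_filter.1 ha
      by_cases h5 : a ∈ E
      · exact Finset.mem_union_right _ h5
      · exact Finset.mem_union_left _ (Finset.mem_filter.2 ⟨Finset.mem_sdiff.2 ⟨h3, h5⟩, h4⟩)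
    have h3 : (P \ E).card ≤ P.card := Finset.card_le_card Finset.sdiff_subset
    have h4 := Nat.mul_le_mul_left L h2
    nlinarith
  have key2 : ∀ φ : G →+ ZMod p, (∃ k ∈ W, φ k ≠ 0) → ∀ t, ∃ a ∈ P \ E, φ a ≠ t := by
    intro φ hφ t
    have h1 := key φ hφ t
    obtain ⟨a, ha⟩ : (out (P \ E) w φ t).Nonempty := by
      rw [← Finset.card_pos]
      by_contra h
      have : (out (P \ E) w φ t).card = 0 := by omega
      rw [this] at h1; omega
    obtain ⟨h3, h4⟩ := Finset.mem_filter.1 ha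
    refine ⟨a, h3, fun h => ?_⟩
    rw [h, sub_self] at h4
    simp at h4
    omega
  obtain ⟨k0, hk0, hk1⟩ : ∃ k ∈ W, k ≠ 0 := by
    by_contra hc
    push Not at hc
    have : W = ⊥ := (Submodule.eq_bot_iff W).2 hc
    rw [this] at hW; simp at hW
  obtain ⟨φ0, hφ0⟩ := hsep (p := p) k0 hk1
  obtain ⟨a', ha', -⟩ := key2 φ0 ⟨k0, hk0, hφ0⟩ 0
  obtain ⟨a1, ha1, ha2⟩ := key2 φ0 ⟨k0, hk0, hφ0⟩ (φ0 a')
  have hne : a1 ≠ a' := fun h => ha2 (by rw [h])
  obtain ⟨a, ha, hmax⟩ := Finset.exists_max_image ((P \ E).erase a') (fun a => lam B (a - a'))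
    ⟨a1, Finset.mem_erase.2 ⟨hne, ha1⟩⟩
  have hl : ∀ x ∈ P \ E, lam B (x - a') ≤ lam B (a - a') := by
    intro x hx
    by_cases h : x = a'
    · rw [h, sub_self, lam_zero]; exact Nat.zero_le _
    · exact hmax x (Finset.mem_erase.2 ⟨h, hx⟩)
  refine ⟨a, (Finset.mem_erase.1 ha).2, a', ha', (Finset.mem_erase.1 ha).1, ?_, ?_⟩
  · intro J hJ hB2
    obtain ⟨S, U, -, h2, h3⟩ := shifts W ((P \ E).image (fun x => x - a')) B (lam B (a - a')) J hJ
      (fun U hU => by
        by_contra hc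
        obtain ⟨k, hk, hkU⟩ := SetLike.not_le_iff_exists.1 hc
        obtain ⟨f, h1, h2⟩ := Submodule.exists_le_ker_of_notMem hkU
        obtain ⟨x, hx, hx2⟩ := key2 f.toAddMonoidHom ⟨k, hk, h1⟩ (f a')
        have := h2 (hU _ (Finset.mem_image_of_mem _ hx))
        rw [LinearMap.mem_ker, map_sub, sub_eq_zero] at this
        exact hx2 this)
      (fun x hx => by
        obtain ⟨y, hy, rfl⟩ := Finset.mem_image.1 hx
        exact hl y hy) _ le_rfl
    obtain ⟨s, hs, hs2⟩ := avg B S hB1 (by rw [h3]; exact hB2)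
    have := (h2 s hs).2
    nlinarith
  · intro hB2
    have hc : Nat.card W.toAddSubgroup = p ^ finrank (ZMod p) W := card_W W
    by_contra hcon
    obtain ⟨φ, h1, h2⟩ := stuck (hsep (p := p)) W.toAddSubgroup B hB (P \ E) ⟨a', ha'⟩ a'
      (v := 2 * L + 1) hu (fun x hx => by
        rw [hc]
        obtain ⟨c, hc'⟩ := Nat.exists_eq_add_of_le (show B.card ≤ p ^ finrank (ZMod p) W by omega)
        rw [hc'] at hB2 ⊢
        rw [Nat.add_sub_cancel_left]
        have e1 := hl x hx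
        have e0 := Nat.mul_le_mul_right (2 * u * (2 * L + 1) + 1) e1
        have e2 : 2 * (lam B (x - a') * (2 * u * (2 * L + 1) + 1)) < B.card := by
          push Not at hcon; linarith
        have e3 : B.card ≤ c := by omega
        have e4 := Nat.mul_lt_mul_of_pos_right e2 (show 0 < c by omega)
        have e5 := Nat.mul_le_mul_left (lam B (x - a') * (2 * u * (2 * L + 1) + 1)) e3
        nlinarith)
    have h3 := key φ h1 (φ a')
    unfold out at h3
    simp only [map_sub] at h2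
    omega

lemma half (W : Submodule (ZMod p) G) (P : Finset G) {w L u c J0 M m : ℕ}
    (hW : 1 ≤ finrank (ZMod p) W) (hP : ∀ a ∈ P, ∀ a' ∈ P, a - a' ∈ W)
    (hT : Thick W P w L) (hu : p ≤ u * w)
    (hc : 2 * finrank (ZMod p) W ^ 2 * 2 ^ finrank (ZMod p) W ≤ c) (hJ : J0 + 1 ≤ p)
    (hM : p ≤ M * (J0 + 1))
    (hm : 2 * (2 * u * (2 * L + 1) + 1) * M ^ finrank (ZMod p) W < m)
    (E : Finset G) (hE : E.card ≤ 2 * (c * J0 + m)) (hn : 8 * L * (c * J0 + m) < P.card) :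
    ∃ Q ⊆ P \ E, Q.card = 2 * (c * J0 + m) ∧ ∃ (s : G) (B : Finset G), (∀ b ∈ B, b ∈ W) ∧
      Fill Q (c * J0 + m) s B ∧ p ^ finrank (ZMod p) W < 2 * B.card := by
  obtain ⟨b, ⟨Q, h1, h2, s, B, h3, h4, h5⟩, h6⟩ := numeric
    (fun t b => ∃ Q ⊆ P \ E, Q.card = 2 * t ∧ ∃ (s : G) (B : Finset G), (∀ b ∈ B, b ∈ W) ∧
      Fill Q t s B ∧ B.card = b) (c * J0 + m) p _ (2 * (2 * u * (2 * L + 1) + 1)) c J0 M m hW
    (by
      rintro t ht b hb ⟨Q, h1, h2, s, B, h3, h4, rfl⟩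
      have e1 : (E ∪ Q).card ≤ 4 * (c * J0 + m) := (Finset.card_union_le _ _).trans (by omega)
      obtain ⟨a, ha, a', ha', hne, g1, g2⟩ := grow W P hW hT hu (E ∪ Q)
        (by have := Nat.mul_le_mul_left (2 * L) e1; nlinarith) B h3 hb
      simp only [Finset.mem_sdiff, Finset.mem_union, not_or] at ha ha'
      obtain ⟨B', k1, k2, k3⟩ := step W h3 h4 ha.2.2 ha'.2.2 (hP a ha.1 a' ha'.1)
      refine ⟨lam B (a - a'), ⟨insert a (insert a' Q), ?_, ?_, _, B', k1, k2, k3⟩, g1, g2⟩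
      · exact Finset.insert_subset (Finset.mem_sdiff.2 ⟨ha.1, ha.2.1⟩)
          (Finset.insert_subset (Finset.mem_sdiff.2 ⟨ha'.1, ha'.2.1⟩) h1)
      · rw [Finset.card_insert_of_notMem (by simp [hne, ha.2.2]),
          Finset.card_insert_of_notMem ha'.2.2]
        omega)
    ⟨∅, by simp, rfl, 0, {0}, by simp, fun k hk =>
      ⟨∅, by simp, rfl, by simpa using (Finset.mem_singleton.1 hk).symm⟩, by simp⟩
    hc hJ hM hm le_rfl
  exact ⟨Q, h1, h2, s, B, h3, h4, by rw [h5]; exact h6⟩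

lemma sum_sub_mem (W : Submodule (ZMod p) G) (x : G) (S : Finset G) (hS : ∀ a ∈ S, a - x ∈ W) :
    ∑ a ∈ S, a - S.card • x ∈ W := by
  have := W.sum_mem hS
  rwa [Finset.sum_sub_distrib, Finset.sum_const] at this

lemma two_halves (W : Submodule (ZMod p) G) (B B' : Finset G) (hB : ∀ b ∈ B, b ∈ W)
    (hB' : ∀ b ∈ B', b ∈ W) (h1 : p ^ finrank (ZMod p) W < 2 * B.card)
    (h2 : p ^ finrank (ZMod p) W < 2 * B'.card) (z : G) (hz : z ∈ W) :
    ∃ b ∈ B, ∃ b' ∈ B', b + b' = z := by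
  classical
  by_contra hc
  push Not at hc
  have e1 : Disjoint B (B'.image (fun b => z - b)) := by
    rw [Finset.disjoint_left]
    intro b hb hb2
    obtain ⟨b', h3, rfl⟩ := Finset.mem_image.1 hb2
    exact hc _ hb b' h3 (by abel)
  have e2 : B ∪ B'.image (fun b => z - b) ⊆ univ.filter (· ∈ W.toAddSubgroup) := by
    intro b hb
    refine Finset.mem_filter.2 ⟨Finset.mem_univ _, ?_⟩
    rcases Finset.mem_union.1 hb with h | h
    · exact hB b h
    · obtain ⟨b', h3, rfl⟩ := Finset.mem_image.1 h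
      exact W.sub_mem hz (hB' b' h3)
  have e3 := Finset.card_le_card e2
  have hc' : Nat.card W.toAddSubgroup = p ^ finrank (ZMod p) W := card_W W
  rw [card_filter_mem, hc', Finset.card_union_of_disjoint e1,
    Finset.card_image_of_injective _ sub_right_injective] at e3
  omega

lemma flex0 (W : Submodule (ZMod p) G) (P : Finset G) (x : G) {w L u c J0 M m : ℕ}
    (hW : 1 ≤ finrank (ZMod p) W) (hP : ∀ a ∈ P, a - x ∈ W)
    (hT : Thick W P w L) (hu : p ≤ u * w)
    (hc : 2 * finrank (ZMod p) W ^ 2 * 2 ^ finrank (ZMod p) W ≤ c) (hJ : J0 + 1 ≤ p)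
    (hM : p ≤ M * (J0 + 1))
    (hm : 2 * (2 * u * (2 * L + 1) + 1) * M ^ finrank (ZMod p) W < m)
    (hn : 8 * L * (c * J0 + m) < P.card) (t : ℕ) (ht : 2 * (c * J0 + m) ≤ t)
    (ht' : t + 2 * (c * J0 + m) ≤ P.card) (y : G) (hy : y ∈ W) :
    ∃ T ⊆ P, T.card = t ∧ ∑ a ∈ T, a = t • x + y := by
  have hP' : ∀ a ∈ P, ∀ a' ∈ P, a - a' ∈ W := fun a ha a' ha' => by
    have := W.sub_mem (hP a ha) (hP a' ha')
    rwa [sub_sub_sub_cancel_right] at this
  obtain ⟨Q1, a1, a2, s1, B1, a3, a4, a5⟩ := half W P hW hP' hT hu hc hJ hM hm ∅ (by simp) hn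
  obtain ⟨Q2, b1, b2, s2, B2, b3, b4, b5⟩ := half W P hW hP' hT hu hc hJ hM hm Q1 a2.le hn
  set n := c * J0 + m with hn'
  rw [Finset.sdiff_empty] at a1
  have b1' : Q2 ⊆ P := b1.trans Finset.sdiff_subset
  have hdis : Disjoint Q1 Q2 := Finset.disjoint_left.2 fun a ha ha2 =>
    (Finset.mem_sdiff.1 (b1 ha2)).2 ha
  have hcard : (P \ (Q1 ∪ Q2)).card + 4 * n = P.card := by
    have := Finset.card_sdiff_add_card_eq_card (Finset.union_subset a1 b1')
    rw [Finset.card_union_of_disjoint hdis] at this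
    omega
  obtain ⟨F, f1, f2⟩ := Finset.exists_subset_card_eq (s := P \ (Q1 ∪ Q2)) (n := t - 2 * n)
    (by omega)
  have hs : ∀ (Q B : Finset G) (s : G), Q ⊆ P → (∀ b ∈ B, b ∈ W) → Fill Q n s B →
      p ^ finrank (ZMod p) W < 2 * B.card → s - n • x ∈ W := by
    intro Q B s h1 h2 h3 h4
    obtain ⟨b, hb⟩ : B.Nonempty := Finset.card_pos.1 (by omega)
    obtain ⟨S, k1, k2, k3⟩ := h3 b hb
    have e1 := sum_sub_mem W x S (fun a ha => hP a (h1 (k1 ha)))
    rw [k2, k3] at e1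
    have := W.sub_mem e1 (h2 b hb)
    rwa [show s + b - n • x - b = s - n • x by abel] at this
  have e1 := hs Q1 B1 s1 a1 a3 a4 a5
  have e2 := hs Q2 B2 s2 b1' b3 b4 b5
  have e3 := sum_sub_mem W x F (fun a ha => hP a (Finset.mem_sdiff.1 (f1 ha)).1)
  rw [f2] at e3
  obtain ⟨b, hb, b', hb', hz⟩ := two_halves W B1 B2 a3 b3 a5 b5 _
    (W.sub_mem (W.sub_mem (W.sub_mem hy e1) e2) e3)
  obtain ⟨S1, k1, k2, k3⟩ := a4 b hb
  obtain ⟨S2, l1, l2, l3⟩ := b4 b' hb'
  have d1 : Disjoint S1 S2 := Finset.disjoint_of_subset_left k1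
    (Finset.disjoint_of_subset_right l1 hdis)
  have d2 : Disjoint (S1 ∪ S2) F := Finset.disjoint_left.2 fun a ha ha2 =>
    (Finset.mem_sdiff.1 (f1 ha2)).2 (Finset.union_subset_union k1 l1 ha)
  refine ⟨S1 ∪ S2 ∪ F, Finset.union_subset (Finset.union_subset (k1.trans a1) (l1.trans b1'))
    (f1.trans Finset.sdiff_subset), ?_, ?_⟩
  · rw [Finset.card_union_of_disjoint d2, Finset.card_union_of_disjoint d1]; omega
  · rw [Finset.sum_union d2, Finset.sum_union d1, k3, l3]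
    have e4 : t • x = n • x + n • x + (t - 2 * n) • x := by
      rw [← add_nsmul, ← add_nsmul]; congr 1; omega
    rw [e4, show s1 + b + (s2 + b') = s1 + s2 + (b + b') by abel, hz]
    abel

/-- Flexibility of thick pieces, with constants independent of `p`. -/
lemma flex (R L D M : ℕ) : ∃ w p0 : ℕ, ∀ (p : ℕ) [Fact p.Prime], p0 ≤ p →
    ∀ (G : Type) [AddCommGroup G] [Module (ZMod p) G] [Fintype G] [DecidableEq G]
      (W : Submodule (ZMod p) G) (P : Finset G) (x : G), 1 ≤ finrank (ZMod p) W →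
      finrank (ZMod p) W ≤ R → (∀ a ∈ P, a - x ∈ W) → Thick W P w L → p ≤ D * P.card →
      ∀ t : ℕ, p ≤ M * t → M * t + p ≤ M * P.card → ∀ y ∈ W,
        ∃ T ⊆ P, T.card = t ∧ ∑ a ∈ T, a = t • x + y := by
  obtain ⟨Z, hZ⟩ : ∃ Z, Z = 2 * M + 8 * L * D + 1 := ⟨_, rfl⟩
  obtain ⟨c, hc⟩ : ∃ c, c = 2 * R ^ 2 * 2 ^ R := ⟨_, rfl⟩
  obtain ⟨M', hM'⟩ : ∃ M', M' = 3 * c * Z + 2 := ⟨_, rfl⟩
  obtain ⟨g, hg⟩ : ∃ g, g = 4 * (2 * L + 1) * M' ^ R := ⟨_, rfl⟩
  refine ⟨3 * g * Z + 1, 3 * Z * (g + 2 * M' ^ R + 1) + 2, ?_⟩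
  intro p _ hp G _ _ _ _ W P x hW hR hP hT hD t ht ht' y hy
  set w := 3 * g * Z + 1 with hw
  have hM0 : 0 < M' := by omega
  have hw0 : 0 < w := by omega
  have d1 : M' * (p / M') ≤ p := Nat.mul_div_le p M'
  have d2 : w * (p / w) ≤ p := Nat.mul_div_le p w
  have d3 : p < M' * (p / M' + 1) := Nat.lt_mul_div_succ p hM0
  have d4 : p < w * (p / w + 1) := Nat.lt_mul_div_succ p hw0
  set J0 := p / M' with hJ0
  set u0 := p / w with hu0
  have hn : Z * (c * J0 + (g * (u0 + 1) + 2 * M' ^ R + 1)) ≤ p := by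
    have e1 : 3 * (Z * (c * J0)) ≤ p := by rw [hM'] at d1; nlinarith [Nat.zero_le J0]
    have e2 : 3 * (Z * (g * u0)) ≤ p := by rw [hw] at d2; nlinarith [Nat.zero_le u0]
    nlinarith
  set n := c * J0 + (g * (u0 + 1) + 2 * M' ^ R + 1) with hn'
  have hn0 : 1 ≤ n := by omega
  have hM1 : 0 < M := by
    rcases Nat.eq_zero_or_pos M with h | h
    · rw [h] at ht; omega
    · exact h
  have hZn : 2 * M * n + 8 * L * D * n + n ≤ p := by rw [hZ] at hn; nlinarith
  refine flex0 W P x (u := u0 + 1) (c := c) (J0 := J0) (M := M')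
    (m := g * (u0 + 1) + 2 * M' ^ R + 1) hW hP hT (by rw [mul_comm]; exact d4.le) ?_ ?_ d3.le ?_
    ?_ t ?_ ?_ y hy
  · rw [hc]
    exact Nat.mul_le_mul (Nat.mul_le_mul_left _ (Nat.pow_le_pow_left hR 2))
      (Nat.pow_le_pow_right (by norm_num) hR)
  · have : 2 * J0 ≤ M' * J0 := Nat.mul_le_mul_right _ (by omega)
    omega
  · have e1 : M' ^ finrank (ZMod p) W ≤ M' ^ R := Nat.pow_le_pow_right hM0 hR
    have e2 := Nat.mul_le_mul_left (2 * (2 * (u0 + 1) * (2 * L + 1) + 1)) e1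
    rw [hg]; nlinarith
  · rw [← hn']
    refine Nat.lt_of_mul_lt_mul_left (a := D) ?_
    nlinarith [Nat.zero_le (2 * M * n)]
  · rw [← hn']
    refine Nat.le_of_mul_le_mul_left ?_ hM1
    nlinarith [Nat.zero_le (8 * L * D * n)]
  · rw [← hn']
    refine Nat.le_of_mul_le_mul_left ?_ hM1
    nlinarith [Nat.zero_le (8 * L * D * n)]

end Pool.Agent.MP_f9a021_co.EZ
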