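import Mathlib

/-! Amplification of small multiplicities by simultaneous Dirichlet approximation. -/

open Finset

namespace Pool.Agent.MP_f9a021_co.EZ

lemma close_of_div_eq {p x y : ℕ} (hp : 0 < p) (h : x / p = y / p) : x < y + p := by
  have h1 := Nat.div_add_mod x p
  have h2 := Nat.div_add_mod y p
  have h3 := Nat.mod_lt x hp
  rw [h] at h1
  omega

lemma dirichlet (N Y p : ℕ) (hp : 0 < p) (hY : 0 < Y) (x : Fin N → ℕ) :
    ∃ k1 k2 : ℕ, k1 < k2 ∧ k2 ≤ Y ^ N ∧ ∀ i, Y * (k1 * x i % p) / p = Y * (k2 * x i % p) / p := by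
  let f : Fin (Y ^ N + 1) → (Fin N → Fin Y) := fun k i =>
    ⟨Y * (k * x i % p) / p, by
      rw [Nat.div_lt_iff_lt_mul hp]
      exact Nat.mul_lt_mul_of_pos_left (Nat.mod_lt _ hp) hY⟩
  obtain ⟨a, b, hab, h⟩ := Fintype.exists_ne_map_eq_of_card_lt f (by simp)
  have h' : ∀ i, Y * (a * x i % p) / p = Y * (b * x i % p) / p := fun i =>
    congrArg Fin.val (congrFun h i)
  rcases lt_or_gt_of_ne hab with h1 | h1
  · exact ⟨a, b, h1, Nat.lt_succ_iff.1 b.2, h'⟩
  · exact ⟨b, a, h1, Nat.lt_succ_iff.1 a.2, fun i => (h' i).symm⟩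

lemma amp_step (N M Y p : ℕ) (hp : 0 < p) (hY1 : 2 * M ≤ Y) (hY2 : N < Y) (α : Fin N → ℕ)
    (I : Finset (Fin N)) (hs : ∑ j, α j = p) (hI : ∀ i ∈ I, p ≤ M * α i) (j0 : Fin N)
    (hj : j0 ∉ I) (ha : 0 < α j0) (hmax : ∀ j, j ∉ I → α j ≤ α j0) :
    ∃ (k : ℕ) (β : Fin N → ℕ), ∑ j, β j = p ∧ (∀ j, β j ≡ k * α j [MOD p]) ∧
      (∀ i ∈ I, p ≤ 2 * M * β i) ∧ p ≤ Y ^ (N + 1) * β j0 ∧ ∀ j, Y * β j ≤ Y * α j + p := by
  have hY : 0 < Y := by omega
  obtain ⟨X, hX⟩ : ∃ X, X = p / (Y ^ (N + 1) * α j0) := ⟨_, rfl⟩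
  have hq : 0 < Y ^ (N + 1) * α j0 := by positivity
  have hX1 : Y ^ (N + 1) * α j0 * X ≤ p := hX ▸ Nat.mul_div_le _ _
  have hX2 : p < Y ^ (N + 1) * α j0 * (X + 1) := hX ▸ Nat.lt_mul_div_succ p hq
  obtain ⟨k1, k2, h1, h2, h3⟩ := dirichlet N Y p hp hY (fun i => X * α i)
  obtain ⟨d, rfl⟩ := Nat.exists_eq_add_of_lt h1
  set r1 : Fin N → ℕ := fun i => k1 * (X * α i) % p with hr1
  set r2 : Fin N → ℕ := fun i => (k1 + d + 1) * (X * α i) % p with hr2
  have c1 : ∀ i, Y * r1 i < Y * r2 i + p := fun i => close_of_div_eq hp (h3 i)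
  have c2 : ∀ i, Y * r2 i < Y * r1 i + p := fun i => close_of_div_eq hp (h3 i).symm
  have c3 : ∀ i ∈ I, r1 i ≤ α i + r2 i := by
    intro i hi
    have e1 := hI i hi
    have e2 := c1 i
    have e3 : M * α i ≤ Y * α i := Nat.mul_le_mul_right _ (by omega)
    refine Nat.le_of_mul_le_mul_left ?_ hY
    rw [mul_add]; omega
  set β : Fin N → ℕ := fun i => if i ∈ I then α i + r2 i - r1 i else ((d + 1) * X + 1) * α i
    with hβ
  have b1 : ∀ i ∈ I, β i + r1 i = α i + r2 i := by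
    intro i hi
    have := c3 i hi
    simp only [hβ, if_pos hi]; omega
  have b2 : ∀ i, i ∉ I → β i = ((d + 1) * X + 1) * α i := fun i hi => by simp only [hβ, if_neg hi]
  have m1 : ∀ j, β j ≡ ((d + 1) * X + 1) * α j [MOD p] := by
    intro j
    by_cases hj : j ∈ I
    · refine Nat.ModEq.add_right_cancel' (r1 j) ?_
      rw [b1 j hj]
      have e1 : α j + r2 j ≡ α j + (k1 + d + 1) * (X * α j) [MOD p] :=
        (Nat.mod_modEq _ _).add_left _
      have e2 : ((d + 1) * X + 1) * α j + r1 j ≡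
          ((d + 1) * X + 1) * α j + k1 * (X * α j) [MOD p] := (Nat.mod_modEq _ _).add_left _
      refine e1.trans (Nat.ModEq.trans ?_ e2.symm)
      rw [show α j + (k1 + d + 1) * (X * α j) = ((d + 1) * X + 1) * α j + k1 * (X * α j) by ring]
    · rw [b2 j hj]
  have u1 : ∀ j, Y * β j ≤ Y * α j + p := by
    intro j
    by_cases hj : j ∈ I
    · have e1 := congrArg (Y * ·) (b1 j hj)
      simp only [mul_add] at e1
      have := c2 j
      omega
    · rw [b2 j hj]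
      have e1 : (d + 1) * (X * α j) ≤ Y ^ N * (X * α j0) :=
        Nat.mul_le_mul (by omega) (Nat.mul_le_mul_left _ (hmax j hj))
      have e2 := Nat.mul_le_mul_left Y e1
      rw [pow_succ] at hX1
      nlinarith
  have u2 : ∀ j, Y * α j ≤ Y * β j + p := by
    intro j
    by_cases hj : j ∈ I
    · have e1 := congrArg (Y * ·) (b1 j hj)
      simp only [mul_add] at e1
      have := c1 j
      omega
    · rw [b2 j hj]
      nlinarith [Nat.zero_le (Y * ((d + 1) * X * α j))]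
  refine ⟨(d + 1) * X + 1, β, ?_, m1, ?_, ?_, u1⟩
  · have e1 : ∑ j, β j ≡ ∑ j, ((d + 1) * X + 1) * α j [MOD p] :=
      Nat.ModEq.sum (fun j _ => m1 j)
    rw [← Finset.mul_sum, hs] at e1
    have e2 : p ∣ ∑ j, β j :=
      (Nat.modEq_zero_iff_dvd).1 (e1.trans ((Nat.modEq_zero_iff_dvd).2 (Dvd.intro_left _ rfl)))
    have e3 : ∑ j, Y * β j ≤ ∑ j, (Y * α j + p) := Finset.sum_le_sum fun j _ => u1 j
    have e4 : ∑ j, Y * α j ≤ ∑ j, (Y * β j + p) := Finset.sum_le_sum fun j _ => u2 j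
    rw [Finset.sum_add_distrib, ← Finset.mul_sum, ← Finset.mul_sum] at e3 e4
    simp only [hs, Finset.sum_const, Finset.card_univ, Fintype.card_fin, smul_eq_mul] at e3 e4
    obtain ⟨q, hq⟩ := e2
    rw [hq] at e3 e4 ⊢
    have e5 : N * p < Y * p := Nat.mul_lt_mul_of_pos_right hY2 hp
    have e6 : q < 2 := by
      by_contra h
      have : Y * (p * 2) ≤ Y * (p * q) := Nat.mul_le_mul_left _ (Nat.mul_le_mul_left _ (by omega))
      nlinarith
    have e7 : q ≠ 0 := by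
      rintro rfl
      simp at e4; omega
    rw [show q = 1 by omega, mul_one]
  · intro i hi
    have e1 := Nat.mul_le_mul_left (2 * M) (u2 i)
    have e2 := Nat.mul_le_mul_left (2 * Y) (hI i hi)
    have e3 : 2 * M * p ≤ Y * p := Nat.mul_le_mul_right _ hY1
    refine Nat.le_of_mul_le_mul_left ?_ hY
    nlinarith
  · rw [b2 j0 hj]
    nlinarith [Nat.zero_le (Y ^ (N + 1) * (d * X * α j0))]

lemma amplify (N E n : ℕ) : ∀ M : ℕ, ∃ M' : ℕ, ∀ p : ℕ, 0 < p → ∀ (α : Fin N → ℕ)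
    (I : Finset (Fin N)), ∑ j, α j = p → (∀ i ∈ I, p ≤ M * α i) → Iᶜ.card ≤ n →
    ∃ (k : ℕ) (β : Fin N → ℕ), ∑ j, β j = p ∧ (∀ j, β j ≡ k * α j [MOD p]) ∧
      (∀ j, β j = 0 ∨ p ≤ M' * β j) ∧ ∀ j, E * β j ≤ E * α j + n * p := by
  induction n with
  | zero =>
    intro M
    refine ⟨M, fun p _ α I hs hI hc => ⟨1, α, hs, fun j => by rw [one_mul], fun j => ?_,
      fun j => by simp⟩⟩
    refine Or.inr (hI j ?_)
    by_contra h
    have := Finset.card_pos.2 ⟨j, Finset.mem_compl.2 h⟩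
    omega
  | succ n ih =>
    intro M
    obtain ⟨Y, hY⟩ : ∃ Y, Y = 2 * M + E + N + 1 := ⟨_, rfl⟩
    obtain ⟨M', hM'⟩ := ih (2 * M + Y ^ (N + 1))
    refine ⟨M + M', fun p hp α I hs hI hc => ?_⟩
    by_cases h0 : ∀ j, j ∉ I → α j = 0
    · refine ⟨1, α, hs, fun j => by rw [one_mul], fun j => ?_, fun j => by omega⟩
      by_cases hj : j ∈ I
      · exact Or.inr ((hI j hj).trans (Nat.mul_le_mul_right _ (by omega)))
      · exact Or.inl (h0 j hj)
    · push Not at h0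
      obtain ⟨j1, hj1, hj2⟩ := h0
      obtain ⟨j0, hj0, hmax⟩ := Finset.exists_max_image Iᶜ α ⟨j1, Finset.mem_compl.2 hj1⟩
      have hmax' : ∀ j, j ∉ I → α j ≤ α j0 := fun j hj => hmax j (Finset.mem_compl.2 hj)
      obtain ⟨k, β, g1, g2, g3, g4, g5⟩ := amp_step N M Y p hp (by omega) (by omega) α I hs hI j0
        (Finset.mem_compl.1 hj0) (by have := hmax' j1 hj1; omega) hmax'
      obtain ⟨k', γ, f1, f2, f3, f4⟩ := hM' p hp β (insert j0 I) g1 (fun i hi => by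
        rcases Finset.mem_insert.1 hi with rfl | hi
        · exact g4.trans (Nat.mul_le_mul_right _ (by omega))
        · exact (g3 i hi).trans (Nat.mul_le_mul_right _ (Nat.le_add_right _ _))) (by
        rw [Finset.compl_insert, Finset.card_erase_of_mem hj0]; omega)
      refine ⟨k' * k, γ, f1, fun j => ?_, fun j => ?_, fun j => ?_⟩
      · rw [mul_assoc]; exact (f2 j).trans ((g2 j).mul_left _)
      · exact (f3 j).imp id fun h => h.trans (Nat.mul_le_mul_right _ (by omega))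
      · have e1 := f4 j
        have e2 := g5 j
        have e3 : E * β j ≤ E * α j + p := by
          rcases le_total (β j) (α j) with h | h
          · have := Nat.mul_le_mul_left E h; omega
          · obtain ⟨c, hc⟩ := Nat.exists_eq_add_of_le h
            rw [hc] at e2 ⊢
            have : E * c ≤ Y * c := Nat.mul_le_mul_right _ (by omega)
            rw [mul_add] at e2 ⊢; omega
        rw [add_mul, one_mul]; omega

/-- Every solution can be replaced by one whose multiplicities are zero or of order `p`. -/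
lemma robust (N E : ℕ) : ∃ M : ℕ, ∀ p : ℕ, 0 < p → ∀ α : Fin N → ℕ, ∑ j, α j = p →
    ∃ (k : ℕ) (β : Fin N → ℕ), ∑ j, β j = p ∧ (∀ j, β j ≡ k * α j [MOD p]) ∧
      (∀ j, β j = 0 ∨ p ≤ M * β j) ∧ ∀ j, E * β j ≤ E * α j + N * p := by
  obtain ⟨M, hM⟩ := amplify N E N 0
  exact ⟨M, fun p hp α hs => hM p hp α ∅ hs (by simp) (by simp)⟩

end Pool.Agent.MP_f9a021_co.EZ
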