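import Pool.Agent.MP_f9a021_co.EZ1

/-! Decomposition of a set into boundedly many thick pieces. -/

open Finset Module

set_option linter.unusedSectionVars false

namespace Pool.Agent.MP_f9a021_co.EZ

variable {p : ℕ} [Fact p.Prime] {G : Type*} [AddCommGroup G] [Module (ZMod p) G] [Fintype G]
  [DecidableEq G]

/-- The span of the differences of elements of `P`. -/
def sp (p : ℕ) [Fact p.Prime] {G : Type*} [AddCommGroup G] [Module (ZMod p) G] (P : Finset G) :
    Submodule (ZMod p) G :=
  Submodule.span (ZMod p) {x | ∃ a ∈ P, ∃ b ∈ P, x = a - b}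

lemma sub_mem_sp {P : Finset G} {a b : G} (ha : a ∈ P) (hb : b ∈ P) : a - b ∈ sp p P :=
  Submodule.subset_span ⟨a, ha, b, hb, rfl⟩

lemma sp_le {P : Finset G} {U : Submodule (ZMod p) G} (h : ∀ a ∈ P, ∀ b ∈ P, a - b ∈ U) :
    sp p P ≤ U := by
  refine Submodule.span_le.2 ?_
  rintro x ⟨a, ha, b, hb, rfl⟩
  exact h a ha b hb

/-- The piece with label `j`. -/
def pc {N : ℕ} (A : Finset G) (c : G → Fin N) (j : Fin N) : Finset G := A.filter (fun a => c a = j)

/-- Potential: the sum over the elements of the dimension of their piece. -/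
noncomputable def pot (p : ℕ) [Fact p.Prime] {G : Type*} [AddCommGroup G] [Module (ZMod p) G]
    {N : ℕ} (A : Finset G) (c : G → Fin N) : ℕ :=
  ∑ a ∈ A, finrank (ZMod p) (sp p (pc A c (c a)))

open Classical in
/-- The elements lying in a piece that is not thick. -/
noncomputable def thin (p : ℕ) [Fact p.Prime] {G : Type*} [AddCommGroup G] [Module (ZMod p) G]
    {N : ℕ} (A : Finset G) (c : G → Fin N) (w L : ℕ) : Finset G :=
  A.filter (fun a => ¬ Thick (sp p (pc A c (c a))) (pc A c (c a)) w L)

lemma refine_step {N : ℕ} (A : Finset G) (c : G → Fin N) (w L : ℕ) :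
    ∃ A' ⊆ A, ∃ c' : G → Fin (N * (2 * w + 1)),
      pot p A' c' + (thin p A c w L).card ≤ pot p A c ∧
      L * A.card ≤ L * A'.card + (thin p A c w L).card := by
  classical
  let Th : Fin N → Prop := fun j => Thick (sp p (pc A c j)) (pc A c j) w L
  have hex : ∀ j, ∃ (φ : G →+ ZMod p) (t : ZMod p), ¬ Th j →
      (∃ k ∈ sp p (pc A c j), φ k ≠ 0) ∧ L * (out (pc A c j) w φ t).card < (pc A c j).card := by
    intro j
    by_cases h : Th j
    · exact ⟨0, 0, fun h' => absurd h h'⟩
    · have h' := h
      simp only [Th, Thick] at h'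
      push Not at h'
      obtain ⟨φ, h1, t, h2⟩ := h'
      exact ⟨φ, t, fun _ => ⟨h1, h2⟩⟩
  choose φ t hφ using hex
  let v : G → ℤ := fun a => (φ (c a) a - t (c a)).valMinAbs
  let o : G → Fin (2 * w + 1) := fun a =>
    if Th (c a) then 0 else ⟨min (v a + w).toNat (2 * w), by omega⟩
  let A' := A.filter (fun a => ¬ Th (c a) → |v a| ≤ w)
  let c' : G → Fin (N * (2 * w + 1)) := fun a => finProdFinEquiv (c a, o a)
  have hsub : ∀ a, pc A' c' (c' a) ⊆ pc A c (c a) := by
    intro a b hb
    obtain ⟨h1, h2⟩ := Finset.mem_filter.1 hb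
    have h3 := finProdFinEquiv.injective h2
    exact Finset.mem_filter.2 ⟨(Finset.mem_filter.1 h1).1, congrArg Prod.fst h3⟩
  have hle : ∀ a, sp p (pc A' c' (c' a)) ≤ sp p (pc A c (c a)) := fun a =>
    sp_le fun x hx y hy => sub_mem_sp (hsub a hx) (hsub a hy)
  have hval : ∀ a ∈ A', ¬ Th (c a) → ∀ b ∈ pc A' c' (c' a), φ (c a) b = φ (c a) a := by
    intro a ha hth b hb
    obtain ⟨h1, h2⟩ := Finset.mem_filter.1 hb
    have h3 := finProdFinEquiv.injective h2
    have h4 : c b = c a := congrArg Prod.fst h3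
    have h5 : o b = o a := congrArg Prod.snd h3
    have h6 := (Finset.mem_filter.1 ha).2 hth
    have h7 := (Finset.mem_filter.1 h1).2 (h4 ▸ hth)
    simp only [o, h4, if_neg hth, Fin.mk.injEq] at h5
    rw [abs_le] at h6 h7
    have h8 : v b = v a := by omega
    simp only [v, h4] at h8
    have h9 := ZMod.injective_valMinAbs h8
    exact sub_left_injective h9
  have hlt : ∀ a ∈ A', ¬ Th (c a) →
      finrank (ZMod p) (sp p (pc A' c' (c' a))) < finrank (ZMod p) (sp p (pc A c (c a))) := by
    intro a ha hth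
    refine Submodule.finrank_lt_finrank_of_lt (lt_of_le_of_ne (hle a) fun h => ?_)
    obtain ⟨k, hk, hk2⟩ := (hφ _ hth).1
    rw [← h] at hk
    have : sp p (pc A' c' (c' a)) ≤ LinearMap.ker ((φ (c a)).toZModLinearMap p) :=
      sp_le fun x hx y hy => by
        rw [LinearMap.mem_ker, AddMonoidHom.coe_toZModLinearMap, map_sub, hval a ha hth x hx,
          hval a ha hth y hy, sub_self]
    exact hk2 (this hk)
  have hpos : ∀ a, ¬ Th (c a) → 1 ≤ finrank (ZMod p) (sp p (pc A c (c a))) := by
    intro a hth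
    obtain ⟨k, hk, hk2⟩ := (hφ _ hth).1
    by_contra h
    have h0 : finrank (ZMod p) (sp p (pc A c (c a))) = 0 := by omega
    rw [Submodule.finrank_eq_zero] at h0
    rw [h0, Submodule.mem_bot] at hk
    exact hk2 (by rw [hk, map_zero])
  refine ⟨A', Finset.filter_subset _ _, c', ?_, ?_⟩
  · unfold pot thin
    rw [Finset.card_filter, Finset.sum_filter, ← Finset.sum_add_distrib]
    refine Finset.sum_le_sum fun a ha => ?_
    have h1 := Submodule.finrank_mono (hle a)
    by_cases hth : Th (c a)
    · rw [if_neg (not_not.2 hth)]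
      split_ifs <;> omega
    · rw [if_pos hth]
      have h2 := hpos a hth
      split_ifs with h3
      · have := hlt a (Finset.mem_filter.2 ⟨ha, h3⟩) hth
        omega
      · omega
  · have e1 := Finset.card_filter_add_card_filter_not (s := A) (fun a => ¬ Th (c a) → |v a| ≤ w)
    have e2 : L * (A.filter (fun a => ¬ (¬ Th (c a) → |v a| ≤ w))).card ≤
        (thin p A c w L).card := by
      rw [Finset.card_eq_sum_card_fiberwise (f := c) (t := univ) (fun _ _ => Finset.mem_univ _),
        Finset.card_eq_sum_card_fiberwise (s := thin p A c w L) (f := c) (t := univ)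
          (fun _ _ => Finset.mem_univ _), Finset.mul_sum]
      refine Finset.sum_le_sum fun j _ => ?_
      by_cases hth : Th j
      · rw [Finset.card_eq_zero.2, mul_zero]
        · exact Nat.zero_le _
        · rw [Finset.filter_eq_empty_iff]
          intro a ha h
          exact (Finset.mem_filter.1 ha).2 fun h' => absurd (h ▸ hth) h'
      · refine le_trans (Nat.mul_le_mul_left _ (Finset.card_le_card ?_))
          ((hφ j hth).2.le.trans (Finset.card_le_card ?_))
        · intro a ha
          obtain ⟨h1, h2⟩ := Finset.mem_filter.1 ha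
          obtain ⟨h3, h4⟩ := Finset.mem_filter.1 h1
          refine Finset.mem_filter.2 ⟨Finset.mem_filter.2 ⟨h3, h2⟩, ?_⟩
          by_contra h5
          apply h4
          intro _
          simp only [v, h2]
          exact not_lt.1 h5
        · intro a ha
          obtain ⟨h1, h2⟩ := Finset.mem_filter.1 ha
          exact Finset.mem_filter.2 ⟨Finset.mem_filter.2 ⟨h1, h2 ▸ hth⟩, h2⟩
    have e3 : L * A.card = L * A'.card +
        L * (A.filter (fun a => ¬ (¬ Th (c a) → |v a| ≤ w))).card := by
      rw [← mul_add, e1]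
    omega

/-- Bound for the number of pieces after `k` rounds. -/
def bd (F : ℕ → ℕ) : ℕ → ℕ → ℕ
  | 0, N => N
  | k + 1, N => max N (bd F k (N * (2 * F N + 1)))

lemma decomp (F : ℕ → ℕ) (L u : ℕ) (hu : 0 < u) (k : ℕ) : ∀ (N : ℕ) (A : Finset G)
    (c : G → Fin N), pot p A c ≤ k * u → ∃ N' ≤ bd F k N, ∃ A' ⊆ A, ∃ c' : G → Fin N',
      (thin p A' c' (F N') L).card < u ∧ L * A.card ≤ L * A'.card + pot p A c := by
  induction k with
  | zero =>
    intro N A c h
    obtain ⟨A', -, c', h1, -⟩ := refine_step (p := p) A c (F N) L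
    exact ⟨N, le_rfl, A, Finset.Subset.refl _, c, by omega, by omega⟩
  | succ k ih =>
    intro N A c h
    by_cases h0 : (thin p A c (F N) L).card < u
    · exact ⟨N, le_max_left _ _, A, Finset.Subset.refl _, c, h0, by omega⟩
    · obtain ⟨A', h1, c', h2, h3⟩ := refine_step (p := p) A c (F N) L
      obtain ⟨N', g1, A'', g2, c'', g3, g4⟩ := ih _ A' c' (by rw [add_mul] at h; omega)
      exact ⟨N', g1.trans (le_max_right _ _), A'', g2.trans h1, c'', g3, by omega⟩

end Pool.Agent.MP_f9a021_co.EZ
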