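import Pool.Agent.MP_f9a021_co.EZ2
import Pool.Agent.MP_f9a021_co.EZ3

/-! Structure of sets without `p` distinct elements of sum zero. -/

open Finset Module

set_option linter.unusedSectionVars false

namespace Pool.Agent.MP_f9a021_co.EZ

lemma nsmul_congr {p : ℕ} {G : Type*} [AddCommGroup G] [Module (ZMod p) G] {a b : ℕ}
    (h : a ≡ b [MOD p]) (x : G) : a • x = b • x := by
  rw [← Nat.cast_smul_eq_nsmul (ZMod p), ← Nat.cast_smul_eq_nsmul (ZMod p),
    (ZMod.natCast_eq_natCast_iff a b p).2 h]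

/-- The set is, up to a small proportion, a bounded union of pieces `P j`, and no point of the
coset spanned by a piece may be used with multiplicities at most `m j` in a zero sum. -/
lemma core (R L : ℕ) (hL : 0 < L) : ∃ Nb p0 : ℕ, ∀ (p : ℕ) [Fact p.Prime], p0 ≤ p →
    ∀ (G : Type) [AddCommGroup G] [Module (ZMod p) G] [Fintype G] [DecidableEq G],
      finrank (ZMod p) G ≤ R → ∀ A : Finset G, WeaklyZeroSumFree p A → p ≤ A.card →
      ∃ N ≤ Nb, ∃ (P : Fin N → Finset G) (m : Fin N → ℕ), 0 < N ∧ (∀ j, P j ⊆ A) ∧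
        (∀ i j, i ≠ j → Disjoint (P i) (P j)) ∧ (∀ j, m j ≤ (P j).card) ∧
        (∀ j, 0 < m j → 2 ≤ (P j).card) ∧ L * A.card ≤ L * ∑ j, m j + (R + 2) * A.card ∧
        ∀ u : Fin N → G, (∀ j, 0 < m j → ∃ x ∈ P j, u j - x ∈ sp p (P j)) →
          ∀ α : Fin N → ℕ, (∀ j, α j ≤ m j) → ∑ j, α j = p → ∑ j, α j • u j ≠ 0 := by
  classical
  choose Mr hMr using fun N => robust N (2 * L * N * (N + 1))
  choose F p1 hF using fun N => flex R L (L * N) (Mr N + 2 * L * N * (N + 1))
  obtain ⟨Nb, hNb⟩ : ∃ Nb, Nb = bd F (R * L) 1 := ⟨_, rfl⟩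
  refine ⟨Nb, (range (Nb + 1)).sup p1 + L * Nb, ?_⟩
  intro p hp hp0 G _ _ _ _ hR A hA hpA
  have hpos : 0 < p := hp.out.pos
  have hpot : pot p A (fun _ => (0 : Fin 1)) ≤ R * A.card := by
    unfold pot
    rw [mul_comm, ← smul_eq_mul]
    exact Finset.sum_le_card_nsmul _ _ _ fun a _ => (Submodule.finrank_le _).trans hR
  obtain ⟨N, hN, A', hA', c, h1, h2⟩ := decomp (p := p) F L (A.card / L + 1) (Nat.succ_pos _) (R * L) 1 A
    (fun _ => 0) (hpot.trans (by
      rw [mul_assoc]; exact Nat.mul_le_mul_left _ (Nat.lt_mul_div_succ _ hL).le))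
  rw [← hNb] at hN
  have hN0 : 0 < N := Fin.pos (c 0)
  have hp1 : p1 N ≤ p := by
    have : p1 N ≤ (range (Nb + 1)).sup p1 :=
      Finset.le_sup (f := p1) (Finset.mem_range.2 (Nat.lt_succ_of_le hN))
    omega
  have hLN : L * N ≤ p := by
    have := Nat.mul_le_mul_left L hN
    omega
  have hLN0 : 0 < L * N := by positivity
  obtain ⟨ρ, hρ⟩ : ∃ ρ, ρ = p / (L * N) := ⟨_, rfl⟩
  have r1 : L * N * ρ ≤ p := hρ ▸ Nat.mul_div_le _ _
  have r2 : p < L * N * (ρ + 1) := hρ ▸ Nat.lt_mul_div_succ _ hLN0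
  have r3 : 1 ≤ ρ := hρ ▸ Nat.div_pos hLN hLN0
  let Th : Fin N → Prop := fun j => Thick (sp p (pc A' c j)) (pc A' c j) (F N) L
  let m : Fin N → ℕ := fun j => if Th j then (pc A' c j).card - ρ else 0
  have hm : ∀ j, 0 < m j → Th j ∧ m j + ρ = (pc A' c j).card := by
    intro j hj
    by_cases h : Th j
    · simp only [m, if_pos h] at hj ⊢
      exact ⟨h, by omega⟩
    · simp only [m, if_neg h] at hj
      omega
  have hdis : ∀ i j, i ≠ j → Disjoint (pc A' c i) (pc A' c j) := fun i j hij =>
    Finset.disjoint_left.2 fun a ha hb =>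
      hij ((Finset.mem_filter.1 ha).2.symm.trans (Finset.mem_filter.1 hb).2)
  refine ⟨N, hN, pc A' c, m, hN0, fun j => (Finset.filter_subset _ _).trans hA', hdis, ?_, ?_, ?_,
    ?_⟩
  · intro j
    rcases Nat.eq_zero_or_pos (m j) with h | h
    · omega
    · have := (hm j h).2; omega
  · intro j h
    have := (hm j h).2; omega
  · have e1 : A'.card ≤ ∑ j, m j + N * ρ + (thin p A' c (F N) L).card := by
      rw [Finset.card_eq_sum_card_fiberwise (f := c) (t := univ) (fun _ _ => Finset.mem_univ _),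
        Finset.card_eq_sum_card_fiberwise (s := thin p A' c (F N) L) (f := c) (t := univ)
          (fun _ _ => Finset.mem_univ _),
        show N * ρ = ∑ _j : Fin N, ρ by simp, ← Finset.sum_add_distrib, ← Finset.sum_add_distrib]
      refine Finset.sum_le_sum fun j _ => ?_
      by_cases h : Th j
      · have : m j = (A'.filter (fun a => c a = j)).card - ρ := if_pos h
        omega
      · refine le_trans (Finset.card_le_card ?_) (Nat.le_add_left _ _)
        intro a ha
        obtain ⟨h3, h4⟩ := Finset.mem_filter.1 ha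
        exact Finset.mem_filter.2 ⟨Finset.mem_filter.2 ⟨h3, h4 ▸ h⟩, h4⟩
    have e2 := Nat.mul_le_mul_left L e1
    have e3 : L * (thin p A' c (F N) L).card ≤ A.card :=
      (Nat.mul_le_mul_left L (Nat.lt_succ_iff.1 h1)).trans (Nat.mul_div_le _ _)
    nlinarith
  · intro u hu α hα hs h0
    obtain ⟨k, β, g1, g2, g3, g4⟩ := hMr N p hpos α hs
    obtain ⟨E, hE⟩ : ∃ E, E = 2 * L * N * (N + 1) := ⟨_, rfl⟩
    rw [← hE] at g4
    have hEN : N < E := by rw [hE]; nlinarith
    have hEρ : (N + 1) * p ≤ E * ρ := by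
      have : p ≤ 2 * L * N * ρ := by nlinarith
      rw [hE]; nlinarith
    have hT : ∀ j, ∃ T ⊆ pc A' c j, T.card = β j ∧ ∑ a ∈ T, a = β j • u j := by
      intro j
      rcases g3 j with h | h
      · exact ⟨∅, by simp, by simp [h], by simp [h]⟩
      have hαj : 0 < α j := by
        by_contra hc
        have e0 : α j = 0 := by omega
        have e1 := g2 j
        have e2 := g4 j
        rw [e0, mul_zero] at e1 e2
        have e3 : β j < p := by
          by_contra h3
          have := Nat.mul_le_mul_left E (not_lt.1 h3)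
          nlinarith
        have e4 : β j = 0 := Nat.eq_zero_of_dvd_of_lt (Nat.modEq_zero_iff_dvd.1 e1) e3
        rw [e4] at h; omega
      have hmj : 0 < m j := hαj.trans_le (hα j)
      obtain ⟨t1, t2⟩ := hm j hmj
      obtain ⟨x, hx, hx2⟩ := hu j hmj
      obtain ⟨y, hy, hxy⟩ := Finset.exists_mem_ne (show 1 < (pc A' c j).card by omega) x
      have hW : 1 ≤ finrank (ZMod p) (sp p (pc A' c j)) := by
        by_contra h5
        have h6 : finrank (ZMod p) (sp p (pc A' c j)) = 0 := by omega
        rw [Submodule.finrank_eq_zero] at h6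
        have := sub_mem_sp (p := p) hy hx
        rw [h6, Submodule.mem_bot, sub_eq_zero] at this
        exact hxy this
      obtain ⟨T, k1, k2, k3⟩ := hF N p hp1 G (sp p (pc A' c j)) (pc A' c j) x hW
        ((Submodule.finrank_le _).trans hR) (fun a ha => sub_mem_sp ha hx) t1
        (r2.le.trans (Nat.mul_le_mul_left _ (by omega))) (β j)
        (h.trans (Nat.mul_le_mul_right _ (Nat.le_add_right _ _))) (by
          rw [← hE, ← t2]
          have e1 := g4 j
          have e2 := Nat.mul_le_mul_left E (hα j)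
          have e3 : E * β j + p ≤ E * (m j + ρ) := by nlinarith
          have e4 : β j ≤ m j + ρ := Nat.le_of_mul_le_mul_left (by omega) (show 0 < E by omega)
          have e5 := Nat.mul_le_mul_left (Mr N) e4
          nlinarith) (β j • (u j - x)) (Submodule.smul_of_tower_mem _ _ hx2)
      exact ⟨T, k1, k2, by rw [k3, smul_sub]; abel⟩
    choose T k1 k2 k3 using hT
    have hpd : Set.PairwiseDisjoint ((univ : Finset (Fin N)) : Set (Fin N)) T :=
      fun i _ j _ hij => Finset.disjoint_of_subset_left (k1 i)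
        (Finset.disjoint_of_subset_right (k1 j) (hdis i j hij))
    refine hA (univ.biUnion T) (Finset.biUnion_subset.2 fun j _ =>
      (k1 j).trans ((Finset.filter_subset _ _).trans hA')) ?_ ?_
    · rw [Finset.card_biUnion hpd]; simp only [k2]; exact g1
    · rw [Finset.sum_biUnion hpd]
      simp only [k3]
      rw [Finset.sum_congr rfl fun j _ => nsmul_congr (g2 j) (u j)]
      simp only [mul_smul]
      rw [← Finset.smul_sum, h0, smul_zero]

end Pool.Agent.MP_f9a021_co.EZ
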