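import Pool.Agent.Mg.Ff9a021.G4a7582

namespace Pool.Agent.MP_f9a021_co.ExactPlusMOld

open Pool.Agent.MP_f9a021_co

theorem result (H : Type) [AddCommGroup H] [Fintype H] (e m k : ℕ) (hm : 2 ≤ m)
    (he : AddMonoid.exponent H = e) (hH : Fintype.card H = m * e) (hk : 1 < k)
    (hp : ∀ p : ℕ, p.Prime → p ∣ k → 30 * Fintype.card H ^ 5 < p) (hem : e ≤ m ∨ m ≤ 3)
    (hc : (e ≤ m ∧ ¬ e.Prime ∧ e ≠ 4 ∧ e ≠ 6) ∨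
      (∃ p : ℕ, p.Prime ∧ p ∣ k ∧ ¬ p ≡ 1 [MOD m] ∧
        (p ≠ k ∨ e = 5 ∨ 7 ≤ e ∨ (e = 3 ∧ m = 3))) ∨
      (∃ f d : ℕ, f * d = e * k ∧ 7 ≤ f ∧ 2 * m ≤ d ∧ 2 ≤ d % m)) :
    tauHat (H × ZMod k) (AddMonoid.exponent (H × ZMod k)) =
      AddMonoid.exponent (H × ZMod k) + m := by
  subst he
  rw [exp_eq hm hH hp]
  refine le_antisymm (upper_main hm hH hk hp le_rfl (by omega) (by omega)) ?_
  rcases hc with ⟨h1, h2, h3, h4⟩ | ⟨p, h1, h2, h3, h4⟩ | ⟨f, d, h1, h2, h3, h4⟩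
  · exact lower_comp hm hH hk hp h1 h2 h3 h4
  · exact lower_prime hm hH hk hp h1 h2 h3 h4
  · exact lower_seven hm hH hk hp h1 h3 h4 h2

end Pool.Agent.MP_f9a021_co.ExactPlusMOld
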