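import Pool.Agent.Mg.Ff9a021.G4a7582

namespace Pool.Agent.MP_f9a021_co.ExactWideOld

open Pool.Agent.MP_f9a021_co

theorem result (H : Type) [AddCommGroup H] [Fintype H] (m k : ℕ) (hm : 3 ≤ m)
    (hH : Fintype.card H = m * AddMonoid.exponent H) (hd : 2 * m - 1 ∣ AddMonoid.exponent H)
    (hk : 1 < k) (hp : ∀ p : ℕ, p.Prime → p ∣ k → 30 * Fintype.card H ^ 5 < p) :
    tauHat (H × ZMod k) (AddMonoid.exponent (H × ZMod k)) =
      AddMonoid.exponent (H × ZMod k) + (2 * m - 3) := by
  rw [exp_eq (by omega) hH hp]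
  exact le_antisymm (upper_main (by omega) hH hk hp (by omega) (by omega) (by omega))
    (lower_two hm hH hk hp hd)

end Pool.Agent.MP_f9a021_co.ExactWideOld
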