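import Pool.Agent.MP_f9a021_co.Four

namespace Pool.Agent.MP_f9a021_co.ExponentFourOld

open Pool.Agent.MP_f9a021_co

theorem result (s r : ℕ) (hs : s ≤ 1) (hr : 1 ≤ r) :
    tauHat ((Fin s → ZMod 2) × (Fin r → ZMod 4)) 4 = (4 + s) * 2 ^ (r - 1) :=
  Four.tauHat_four s r hs hr

end Pool.Agent.MP_f9a021_co.ExponentFourOld
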