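import Pool.Agent.MP_f9a021_co.Defs

/-! The Harborth constant of `(ZMod 2)^s × (ZMod 4)^r` for `s ≤ 1`, in every rank. -/

open Finset

namespace Pool.Agent.MP_f9a021_co.Four

/-- Parity of a residue mod 4. -/
def par (x : ZMod 4) : Bool := decide (x = 1 ∨ x = 3)

lemma add_mem_of_par {x y : ZMod 4} (h : par x = par y) : x + y ∈ ({0, 2} : Finset (ZMod 4)) := by
  revert x y; decide

lemma add_self_of_mem {x : ZMod 4} (h : x ∈ ({0, 2} : Finset (ZMod 4))) : x + x = 0 := by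
  revert x; decide

lemma free_iff {G : Type*} [AddCommMonoid G] [DecidableEq G] (A : Finset G) :
    WeaklyZeroSumFree 4 A ↔ ∀ x ∈ A, ∀ y ∈ A, ∀ z ∈ A, ∀ w ∈ A, x ≠ y → x ≠ z → x ≠ w →
      y ≠ z → y ≠ w → z ≠ w → x + (y + (z + w)) ≠ 0 := by
  have key : ∀ x y z w : G, x ≠ y → x ≠ z → x ≠ w → y ≠ z → y ≠ w → z ≠ w →
      ({x, y, z, w} : Finset G).card = 4 ∧
        ∑ g ∈ ({x, y, z, w} : Finset G), g = x + (y + (z + w)) := by
    intro x y z w hxy hxz hxw hyz hyw hzw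
    have m1 : x ∉ ({y, z, w} : Finset G) := by simp [hxy, hxz, hxw]
    have m2 : y ∉ ({z, w} : Finset G) := by simp [hyz, hyw]
    have m3 : z ∉ ({w} : Finset G) := by simp [hzw]
    refine ⟨?_, ?_⟩
    · rw [card_insert_of_notMem m1, card_insert_of_notMem m2, card_insert_of_notMem m3,
        card_singleton]
    · rw [sum_insert m1, sum_insert m2, sum_insert m3, sum_singleton]
  constructor
  · intro hA x hx y hy z hz w hw hxy hxz hxw hyz hyw hzw
    obtain ⟨h1, h2⟩ := key x y z w hxy hxz hxw hyz hyw hzw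
    rw [← h2]
    refine hA _ ?_ h1
    intro g hg
    simp only [mem_insert, mem_singleton] at hg
    rcases hg with rfl | rfl | rfl | rfl <;> assumption
  · intro h B hB hc
    obtain ⟨x, y, z, w, hxy, hxz, hxw, hyz, hyw, hzw, rfl⟩ := card_eq_four.1 hc
    rw [(key x y z w hxy hxz hxw hyz hyw hzw).2]
    exact h x (hB (by simp)) y (hB (by simp)) z (hB (by simp)) w (hB (by simp))
      hxy hxz hxw hyz hyw hzw

lemma tangent (j x : ℕ) : 2 * j * x ≤ (x * x - x) + j * (j + 1) := by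
  have h1 : x ≤ x * x := Nat.le_mul_self x
  zify [h1]
  rcases le_or_gt (x : ℤ) j with h | h
  · nlinarith [mul_nonneg (sub_nonneg.2 h) (by linarith : (0 : ℤ) ≤ j + 1 - x)]
  · nlinarith [mul_nonneg (by linarith : (0 : ℤ) ≤ x - j) (by linarith : (0 : ℤ) ≤ x - j - 1)]

/-- The pair-counting bound in a group of exponent four. -/
theorem upper {H ι : Type} [AddCommGroup H] [Fintype H] [DecidableEq H] [Fintype ι]
    [DecidableEq ι] (hH : ∀ h : H, h + h = 0) (A : Finset (H × (ι → ZMod 4)))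
    (hA : WeaklyZeroSumFree 4 A) (j : ℕ) :
    2 * j * A.card ≤ (2 * Fintype.card H + j * (j + 1)) * 2 ^ Fintype.card ι := by
  classical
  rw [free_iff] at hA
  let cls : H × (ι → ZMod 4) → (ι → Bool) := fun a i => par (a.2 i)
  let T : Finset (H × (ι → ZMod 4)) :=
    univ ×ˢ Fintype.piFinset (fun _ : ι => ({0, 2} : Finset (ZMod 4)))
  let P : Finset ((H × (ι → ZMod 4)) × (H × (ι → ZMod 4))) :=
    A.offDiag.filter (fun p => cls p.1 = cls p.2)
  have hTc : T.card = Fintype.card H * 2 ^ Fintype.card ι := by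
    have hc2 : ({0, 2} : Finset (ZMod 4)).card = 2 := by decide
    simp [T, Fintype.card_piFinset, hc2]
  have hPT : ∀ p ∈ P, p.1 + p.2 ∈ T := by
    intro p hp
    refine mem_product.2 ⟨mem_univ _, Fintype.mem_piFinset.2 fun i => ?_⟩
    exact add_mem_of_par (congrFun (mem_filter.1 hp).2 i)
  have hT2 : ∀ t ∈ T, t + t = 0 := by
    intro t ht
    refine Prod.ext (hH _) (funext fun i => ?_)
    exact add_self_of_mem (Fintype.mem_piFinset.1 (mem_product.1 ht).2 i)
  have hP : P.card ≤ 2 * T.card := by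
    refine card_le_mul_card_image_of_maps_to hPT 2 ?_
    intro t ht
    by_cases hne : (P.filter (fun p => p.1 + p.2 = t)).Nonempty
    · obtain ⟨p, hp⟩ := hne
      obtain ⟨hpP, hpt⟩ := mem_filter.1 hp
      obtain ⟨hp1, hp2, hp12⟩ := mem_offDiag.1 (mem_filter.1 hpP).1
      refine le_trans (card_le_card (t := {p, p.swap}) ?_) card_le_two
      intro q hq
      obtain ⟨hqP, hqt⟩ := mem_filter.1 hq
      obtain ⟨hq1, hq2, hq12⟩ := mem_offDiag.1 (mem_filter.1 hqP).1
      have hpq : p.1 + p.2 = q.1 + q.2 := hpt.trans hqt.symm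
      rw [mem_insert, mem_singleton]
      by_cases e1 : p.1 = q.1
      · left
        rw [e1] at hpq
        exact Prod.ext e1.symm (add_left_cancel hpq).symm
      by_cases e2 : p.1 = q.2
      · right
        rw [e2, add_comm] at hpq
        exact Prod.ext (add_right_cancel hpq).symm e2.symm
      by_cases e3 : p.2 = q.1
      · exfalso
        rw [e3, add_comm] at hpq
        exact e2 (add_left_cancel hpq)
      by_cases e4 : p.2 = q.2
      · exfalso
        rw [e4] at hpq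
        exact e1 (add_right_cancel hpq)
      exfalso
      refine hA p.1 hp1 p.2 hp2 q.1 hq1 q.2 hq2 hp12 e1 e2 e3 e4 hq12 ?_
      rw [← add_assoc, hpt, hqt]
      exact hT2 t ht
    · rw [not_nonempty_iff_eq_empty.1 hne]
      simp
  have hAs : A.card = ∑ c : ι → Bool, (A.filter (fun a => cls a = c)).card :=
    card_eq_sum_card_fiberwise (fun _ _ => mem_coe.2 (mem_univ _))
  have hPs : P.card = ∑ c : ι → Bool, (P.filter (fun p => cls p.1 = c)).card :=
    card_eq_sum_card_fiberwise (fun _ _ => mem_coe.2 (mem_univ _))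
  have hfib : ∀ c : ι → Bool, P.filter (fun p => cls p.1 = c) =
      (A.filter (fun a => cls a = c)).offDiag := by
    intro c
    ext p
    simp only [P, mem_filter, mem_offDiag]
    constructor
    · rintro ⟨⟨⟨h1, h2, h3⟩, h4⟩, h5⟩
      exact ⟨⟨h1, h5⟩, ⟨h2, h4 ▸ h5⟩, h3⟩
    · rintro ⟨⟨h1, h5⟩, ⟨h2, h6⟩, h3⟩
      exact ⟨⟨⟨h1, h2, h3⟩, h5.trans h6.symm⟩, h5⟩
  have hsum : 2 * j * A.card ≤ P.card + j * (j + 1) * 2 ^ Fintype.card ι := by
    rw [hAs, hPs, mul_sum]
    have : j * (j + 1) * 2 ^ Fintype.card ι = ∑ _c : ι → Bool, j * (j + 1) := by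
      simp [mul_comm]
    rw [this, ← sum_add_distrib]
    refine sum_le_sum fun c _ => ?_
    rw [hfib c, offDiag_card]
    exact tangent _ _
  rw [hTc] at hP
  calc 2 * j * A.card ≤ P.card + j * (j + 1) * 2 ^ Fintype.card ι := hsum
    _ ≤ 2 * (Fintype.card H * 2 ^ Fintype.card ι) + j * (j + 1) * 2 ^ Fintype.card ι := by omega
    _ = _ := by ring

lemma four_bits (x y z w : ZMod 4) (hx : x ∈ ({0, 1} : Finset (ZMod 4)))
    (hy : y ∈ ({0, 1} : Finset (ZMod 4))) (hz : z ∈ ({0, 1} : Finset (ZMod 4)))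
    (hw : w ∈ ({0, 1} : Finset (ZMod 4))) (h : x + (y + (z + w)) = 0) :
    x = y ∧ x = z ∧ x = w := by
  revert x y z w; decide

/-- Doubling: a free set in `H × ZMod 4` gives a free set in `H × (ZMod 4)^(n+1)`. -/
theorem lower {H : Type} [AddCommGroup H] [Fintype H] [DecidableEq H] (B : Finset (H × ZMod 4))
    (hB : WeaklyZeroSumFree 4 B) (n : ℕ) : ∃ A : Finset (H × (Fin (n + 1) → ZMod 4)),
    WeaklyZeroSumFree 4 A ∧ A.card = B.card * 2 ^ n := by
  classical
  rw [free_iff] at hB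
  let F : (H × ZMod 4) × (Fin n → ZMod 4) → H × (Fin (n + 1) → ZMod 4) :=
    fun p => (p.1.1, Fin.cons p.1.2 p.2)
  have hF : Function.Injective F := by
    rintro ⟨⟨a, b⟩, c⟩ ⟨⟨a', b'⟩, c'⟩ h
    have h1 : a = a' := congrArg Prod.fst h
    have h2 : (Fin.cons b c : Fin (n + 1) → ZMod 4) = Fin.cons b' c' := congrArg Prod.snd h
    obtain ⟨h3, h4⟩ := Fin.cons_injective2 h2
    rw [h1, h3, h4]
  refine ⟨(B ×ˢ Fintype.piFinset (fun _ : Fin n => ({0, 1} : Finset (ZMod 4)))).image F, ?_, ?_⟩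
  · rw [free_iff]
    intro x hx0 y hy0 z hz0 w hw0 hxy hxz hxw hyz hyw hzw hs
    obtain ⟨x, hx, rfl⟩ := mem_image.1 hx0
    obtain ⟨y, hy, rfl⟩ := mem_image.1 hy0
    obtain ⟨z, hz, rfl⟩ := mem_image.1 hz0
    obtain ⟨w, hw, rfl⟩ := mem_image.1 hw0
    rw [mem_product, Fintype.mem_piFinset] at hx hy hz hw
    have he : ∀ i, x.2 i = y.2 i ∧ x.2 i = z.2 i ∧ x.2 i = w.2 i := fun i =>
      four_bits _ _ _ _ (hx.2 i) (hy.2 i) (hz.2 i) (hw.2 i)
        (by simpa [F] using congrFun (congrArg Prod.snd hs) i.succ)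
    have e1 : x.2 = y.2 := funext fun i => (he i).1
    have e2 : x.2 = z.2 := funext fun i => (he i).2.1
    have e3 : x.2 = w.2 := funext fun i => (he i).2.2
    have key : ∀ p q : (H × ZMod 4) × (Fin n → ZMod 4), F p ≠ F q → p.2 = q.2 → p.1 ≠ q.1 :=
      fun p q h h2 h1 => h (by rw [Prod.ext h1 h2])
    refine hB x.1 hx.1 y.1 hy.1 z.1 hz.1 w.1 hw.1 (key _ _ hxy e1) (key _ _ hxz e2)
      (key _ _ hxw e3) (key _ _ hyz (e1.symm.trans e2)) (key _ _ hyw (e1.symm.trans e3))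
      (key _ _ hzw (e2.symm.trans e3)) ?_
    refine Prod.ext ?_ ?_
    · simpa [F] using congrArg Prod.fst hs
    · simpa [F] using congrFun (congrArg Prod.snd hs) 0
  · have hc2 : ({0, 1} : Finset (ZMod 4)).card = 2 := by decide
    rw [card_image_of_injective _ hF, card_product, Fintype.card_piFinset]
    simp [hc2]

lemma base (s : ℕ) (hs : s ≤ 1) : ∃ B : Finset ((Fin s → ZMod 2) × ZMod 4),
    WeaklyZeroSumFree 4 B ∧ B.card = 4 + s := by
  interval_cases s
  · refine ⟨univ, fun B hB => ?_, by decide⟩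
    have h : ∀ B ∈ (univ : Finset ((Fin 0 → ZMod 2) × ZMod 4)).powerset,
        B.card = 4 → ∑ x ∈ B, x ≠ 0 := by
      decide +kernel
    exact h B (mem_powerset.2 hB)
  · refine ⟨{(0, 0), (0, 1), (0, 2), (0, 3), (1, 0)}, fun B hB => ?_, by decide⟩
    have h : ∀ B ∈ ({(0, 0), (0, 1), (0, 2), (0, 3), (1, 0)} :
        Finset ((Fin 1 → ZMod 2) × ZMod 4)).powerset, B.card = 4 → ∑ x ∈ B, x ≠ 0 := by
      decide +kernel
    exact h B (mem_powerset.2 hB)

theorem tauHat_four (s r : ℕ) (hs : s ≤ 1) (hr : 1 ≤ r) :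
    tauHat ((Fin s → ZMod 2) × (Fin r → ZMod 4)) 4 = (4 + s) * 2 ^ (r - 1) := by
  obtain ⟨n, rfl⟩ : ∃ n, r = n + 1 := ⟨r - 1, by omega⟩
  rw [Nat.add_sub_cancel]
  unfold tauHat
  have hH : ∀ h : Fin s → ZMod 2, h + h = 0 := fun h => funext fun i => by
    have : ∀ x : ZMod 2, x + x = 0 := by decide
    exact this _
  have hub : ∀ m ∈ {m : ℕ | ∃ A : Finset ((Fin s → ZMod 2) × (Fin (n + 1) → ZMod 4)),
      WeaklyZeroSumFree 4 A ∧ A.card = m}, m ≤ (4 + s) * 2 ^ n := by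
    rintro m ⟨A, hA, rfl⟩
    have h := upper hH A hA (s + 1)
    simp only [Fintype.card_fin, Fintype.card_pi, ZMod.card, prod_const, card_univ, pow_succ] at h
    interval_cases s
    · simp only [pow_zero] at h
      omega
    · simp only [pow_one] at h
      omega
  obtain ⟨B, hB, hc⟩ := base s hs
  obtain ⟨A, hA, hAc⟩ := lower B hB n
  refine le_antisymm (csSup_le ⟨_, A, hA, rfl⟩ hub) ?_
  exact le_csSup ⟨_, hub⟩ ⟨A, hA, by rw [hAc, hc]⟩

end Pool.Agent.MP_f9a021_co.Four
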