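import Pool.Agent.MP_f9a021_co.Defs

/-! Fourier step: a set that is almost invariant under many translations yields a homomorphism
to `ZMod n` on which these translations are small. -/

open Finset

namespace Pool.Agent.MP_f9a021_co.GT

variable {G : Type*} [AddCommGroup G] [Fintype G] [DecidableEq G] {n : ℕ} [NeZero n]

/-- Number of points of `B` pushed out of `B` by the translation `x`. -/
def lam (B : Finset G) (x : G) : ℕ := (B.filter (fun b => b + x ∉ B)).card

omit [Fintype G] in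
lemma lam_add (B : Finset G) (x y : G) : lam B (x + y) ≤ lam B x + lam B y := by
  unfold lam
  have h1 : B.filter (fun b => b + (x + y) ∉ B) ⊆ B.filter (fun b => b + x ∉ B) ∪
      (B.filter (fun b => b + y ∉ B)).image (fun b => b - x) := by
    intro b hb
    rw [Finset.mem_filter] at hb
    by_cases h : b + x ∈ B
    · refine Finset.mem_union_right _ (Finset.mem_image.2 ⟨b + x, Finset.mem_filter.2 ⟨h, ?_⟩, by abel⟩)
      rw [add_assoc]; exact hb.2
    · exact Finset.mem_union_left _ (Finset.mem_filter.2 ⟨hb.1, h⟩)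
  exact (Finset.card_le_card h1).trans ((Finset.card_union_le _ _).trans
    (Nat.add_le_add_left Finset.card_image_le _))

omit [Fintype G] in
lemma lam_zero (B : Finset G) : lam B 0 = 0 := by
  unfold lam
  rw [Finset.card_eq_zero, Finset.filter_eq_empty_iff]
  intro b hb; simpa using hb

omit [Fintype G] in
lemma lam_nsmul (B : Finset G) (x : G) (s : ℕ) : lam B (s • x) ≤ s * lam B x := by
  induction s with
  | zero => simp [lam_zero]
  | succ s ih => rw [succ_nsmul, add_mul, one_mul]; exact (lam_add _ _ _).trans (by omega)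

noncomputable instance homFintype : Fintype (G →+ ZMod n) :=
  haveI : Finite (G →+ ZMod n) :=
    Finite.of_injective (fun f : G →+ ZMod n => (f : G → ZMod n)) DFunLike.coe_injective
  Fintype.ofFinite _

lemma orth (hsep : ∀ x : G, x ≠ 0 → ∃ φ : G →+ ZMod n, φ x ≠ 0) (x : G) :
    ∑ φ : G →+ ZMod n, ZMod.stdAddChar (φ x) =
      if x = 0 then (Fintype.card (G →+ ZMod n) : ℂ) else 0 := by
  classical
  let ψ : AddChar (G →+ ZMod n) ℂ :=
    (ZMod.stdAddChar (N := n)).compAddMonoidHom (AddMonoidHom.eval x)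
  have h1 := AddChar.sum_eq_ite ψ
  have h2 : ∀ φ, ψ φ = ZMod.stdAddChar (φ x) := fun φ => rfl
  simp only [h2] at h1
  rw [h1]
  by_cases hx : x = 0
  · rw [if_pos hx, if_pos]
    ext φ; rw [h2, hx]; simp
  · rw [if_neg hx, if_neg]
    intro h0
    obtain ⟨φ, hφ⟩ := hsep x hx
    apply hφ
    apply ZMod.injective_stdAddChar
    rw [← h2, h0]; simp

/-- Squared modulus of the Fourier coefficient of `B`. -/
noncomputable def wt (B : Finset G) (φ : G →+ ZMod n) : ℝ :=
  Complex.normSq (∑ b ∈ B, ZMod.stdAddChar (φ b))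

omit [Fintype G] [DecidableEq G] in
lemma wt_nonneg (B : Finset G) (φ : G →+ ZMod n) : 0 ≤ wt B φ := Complex.normSq_nonneg _

lemma conj_std (k : ZMod n) :
    (starRingEnd ℂ) (ZMod.stdAddChar k) = ZMod.stdAddChar (-k) := by
  rw [AddChar.map_neg_eq_inv, ZMod.stdAddChar_apply, ← Circle.coe_inv_eq_conj]
  simp

lemma four (hsep : ∀ x : G, x ≠ 0 → ∃ φ : G →+ ZMod n, φ x ≠ 0) (B : Finset G) (x : G) :
    ∑ φ : G →+ ZMod n, wt B φ * (ZMod.stdAddChar (φ x)).re =
      Fintype.card (G →+ ZMod n) * ((B.card : ℝ) - lam B x) := by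
  have h1 : ∀ φ : G →+ ZMod n, ((wt B φ : ℝ) : ℂ) * ZMod.stdAddChar (φ x) =
      ∑ b ∈ B, ∑ b' ∈ B, ZMod.stdAddChar (φ (b + x - b')) := by
    intro φ
    unfold wt
    rw [← Complex.mul_conj, map_sum, Finset.sum_mul_sum, Finset.sum_mul]
    refine Finset.sum_congr rfl fun b _ => ?_
    rw [Finset.sum_mul]
    refine Finset.sum_congr rfl fun b' _ => ?_
    rw [conj_std, ← AddChar.map_add_eq_mul, ← AddChar.map_add_eq_mul, map_sub φ, map_add φ]
    congr 1; ring
  have h2 : ∑ φ : G →+ ZMod n, ((wt B φ : ℝ) : ℂ) * ZMod.stdAddChar (φ x) =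
      Fintype.card (G →+ ZMod n) * (((B.card : ℝ) - lam B x : ℝ) : ℂ) := by
    simp only [h1]
    rw [Finset.sum_comm]
    have h3 : ∀ b ∈ B, ∑ φ : G →+ ZMod n, ∑ b' ∈ B, ZMod.stdAddChar (φ (b + x - b')) =
        if b + x ∈ B then (Fintype.card (G →+ ZMod n) : ℂ) else 0 := by
      intro b _
      rw [Finset.sum_comm]
      simp only [orth hsep, sub_eq_zero]
      rw [Finset.sum_ite_eq]
    rw [Finset.sum_congr rfl h3, ← Finset.sum_filter, Finset.sum_const, nsmul_eq_mul, mul_comm]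
    congr 1
    have h4 := Finset.card_filter_add_card_filter_not (s := B) (fun b => b + x ∈ B)
    unfold lam
    rw [← h4]; push_cast; ring
  have h5 := congrArg Complex.re h2
  rw [Complex.re_sum] at h5
  simp only [Complex.re_ofReal_mul] at h5
  rw [h5, ← Complex.ofReal_natCast, ← Complex.ofReal_mul, Complex.ofReal_re]

lemma norm_std_sub_one (k : ZMod n) :
    4 * |(k.valMinAbs : ℝ)| / n ≤ ‖ZMod.stdAddChar k - 1‖ := by
  have hn : (0 : ℝ) < n := by exact_mod_cast NeZero.pos n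
  set v := k.valMinAbs with hv
  have h1 : ZMod.stdAddChar k = Complex.exp (Complex.I * ((2 * Real.pi * v / n : ℝ) : ℂ)) := by
    conv_lhs => rw [← ZMod.coe_valMinAbs k]
    rw [ZMod.stdAddChar_coe]
    congr 1; push_cast; ring
  have h2 : 2 * |(v : ℝ)| ≤ n := by
    have := ZMod.natAbs_valMinAbs_le k
    have h3 : 2 * v.natAbs ≤ n := by omega
    have h4 : ((2 * v.natAbs : ℕ) : ℝ) ≤ n := by exact_mod_cast h3
    rw [Nat.cast_mul, Nat.cast_natAbs, Int.cast_abs] at h4
    exact_mod_cast h4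
  rw [h1, Complex.norm_exp_I_mul_ofReal_sub_one, Real.norm_eq_abs, abs_mul, abs_two]
  have h5 : |2 * Real.pi * v / n / 2| = Real.pi * |(v : ℝ)| / n := by
    rw [show 2 * Real.pi * v / n / 2 = Real.pi * v / n by ring, abs_div, abs_mul,
      abs_of_pos Real.pi_pos, abs_of_pos hn]
  have h6 : |2 * Real.pi * v / n / 2| ≤ Real.pi / 2 := by
    rw [h5, div_le_div_iff₀ hn two_pos]; nlinarith [Real.pi_pos]
  have h7 := Real.mul_abs_le_abs_sin h6
  rw [h5] at h7
  have h8 : 2 / Real.pi * (Real.pi * |(v : ℝ)| / n) = 2 * |(v : ℝ)| / n := by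
    field_simp
  rw [h8] at h7
  have h9 : 4 * |(v : ℝ)| / n = 2 * (2 * |(v : ℝ)| / n) := by ring
  rw [h9]; linarith

lemma geom_re (k : ZMod n) {u w : ℕ} (hn : n ≤ u * w) (hk : (w : ℤ) < |k.valMinAbs|) :
    (u : ℝ) / 2 ≤ ∑ s ∈ range u, (1 - (ZMod.stdAddChar ((s + 1) • k)).re) := by
  have hn0 : (0 : ℝ) < n := by exact_mod_cast NeZero.pos n
  set z := ZMod.stdAddChar k with hz
  have h0 : ‖z‖ = 1 := by rw [hz, ZMod.stdAddChar_apply]; exact Circle.norm_coe _
  have h1 : (∑ s ∈ range u, z ^ (s + 1)) * (z - 1) = z * (z ^ u - 1) := by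
    rw [← geom_sum_mul, ← mul_assoc, Finset.mul_sum]
    congr 1
    exact Finset.sum_congr rfl fun s _ => by ring
  have h2 : ‖∑ s ∈ range u, z ^ (s + 1)‖ * ‖z - 1‖ ≤ 2 := by
    rw [← norm_mul, h1, norm_mul, h0, one_mul]
    refine (norm_sub_le _ _).trans ?_
    rw [norm_pow, h0, one_pow, norm_one]; norm_num
  have h3 := norm_std_sub_one k
  have h4 : (w : ℝ) < |(k.valMinAbs : ℝ)| := by exact_mod_cast hk
  have h5 : (n : ℝ) ≤ u * w := by exact_mod_cast hn
  have hu : (0 : ℝ) ≤ u := Nat.cast_nonneg u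
  have h6 : ‖∑ s ∈ range u, z ^ (s + 1)‖ ≤ u / 2 := by
    set N := ‖∑ s ∈ range u, z ^ (s + 1)‖
    have hN : 0 ≤ N := norm_nonneg _
    have h7 : N * (4 * |(k.valMinAbs : ℝ)| / n) ≤ 2 := (mul_le_mul_of_nonneg_left h3 hN).trans h2
    rw [← mul_div_assoc, div_le_iff₀ hn0] at h7
    have hw : (0 : ℝ) ≤ w := Nat.cast_nonneg w
    by_contra h8
    push Not at h8
    nlinarith [mul_le_mul_of_nonneg_left h4.le hu]
  have h9 : ∑ s ∈ range u, (1 - (ZMod.stdAddChar ((s + 1) • k)).re) =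
      u - (∑ s ∈ range u, z ^ (s + 1)).re := by
    rw [Finset.sum_sub_distrib, Complex.re_sum]
    simp only [AddChar.map_nsmul_eq_pow, hz]
    simp
  rw [h9]
  have := (Complex.re_le_norm _).trans h6
  linarith

lemma re_std_le (k : ZMod n) : (ZMod.stdAddChar k).re ≤ 1 := by
  refine (Complex.re_le_norm _).trans ?_
  rw [ZMod.stdAddChar_apply]; exact (Circle.norm_coe _).le

omit [DecidableEq G] in
lemma card_filter_mem (K : AddSubgroup G) [DecidablePred (· ∈ K)] :
    (univ.filter (· ∈ K)).card = Nat.card K := by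
  rw [Nat.card_eq_fintype_card, Fintype.card_subtype]

lemma mass (hsep : ∀ x : G, x ≠ 0 → ∃ φ : G →+ ZMod n, φ x ≠ 0) (K : AddSubgroup G)
    (B : Finset G) (hB : ∀ b ∈ B, b ∈ K) [DecidablePred fun φ : G →+ ZMod n => ∀ k ∈ K, φ k = 0] :
    (Fintype.card (G →+ ZMod n) : ℝ) * (B.card * (Nat.card K - B.card)) ≤
      Nat.card K * ∑ φ ∈ univ.filter (fun φ : G →+ ZMod n => ¬ ∀ k ∈ K, φ k = 0), wt B φ := by
  classical
  have hK : (0 : ℝ) < Nat.card K := by exact_mod_cast Nat.card_pos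
  have par : ∀ C : Finset G, ∑ φ : G →+ ZMod n, wt C φ = Fintype.card (G →+ ZMod n) * C.card := by
    intro C
    have := four hsep C 0
    simpa [lam_zero] using this
  have triv : ∀ C : Finset G, (∀ b ∈ C, b ∈ K) →
      ∑ φ ∈ univ.filter (fun φ : G →+ ZMod n => ∀ k ∈ K, φ k = 0), wt C φ =
        (univ.filter (fun φ : G →+ ZMod n => ∀ k ∈ K, φ k = 0)).card * (C.card : ℝ) ^ 2 := by
    intro C hC
    rw [Finset.sum_congr rfl (g := fun _ => (C.card : ℝ) ^ 2), Finset.sum_const, nsmul_eq_mul]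
    intro φ hφ
    unfold wt
    rw [Finset.sum_congr rfl (g := fun _ => (1 : ℂ))
      (fun b hb => by rw [(Finset.mem_filter.1 hφ).2 b (hC b hb)]; simp)]
    simp [sq]
  set a : ℝ := ((univ.filter (fun φ : G →+ ZMod n => ∀ k ∈ K, φ k = 0)).card : ℝ) with ha
  have h1 : a * (Nat.card K : ℝ) ^ 2 ≤ Fintype.card (G →+ ZMod n) * Nat.card K := by
    rw [← card_filter_mem K, ← triv _ (fun b hb => (Finset.mem_filter.1 hb).2), ← par]
    exact Finset.sum_le_sum_of_subset_of_nonneg (Finset.subset_univ _) fun φ _ _ => wt_nonneg _ _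
  have h2 := Finset.sum_filter_add_sum_filter_not univ
    (fun φ : G →+ ZMod n => ∀ k ∈ K, φ k = 0) (wt B)
  rw [triv B hB, par] at h2
  have h3 : a * Nat.card K ≤ Fintype.card (G →+ ZMod n) := by
    by_contra h; push Not at h; nlinarith
  have h4 : (0 : ℝ) ≤ (B.card : ℝ) ^ 2 := sq_nonneg _
  rw [eq_sub_of_add_eq' h2]
  nlinarith

lemma stuck (hsep : ∀ x : G, x ≠ 0 → ∃ φ : G →+ ZMod n, φ x ≠ 0) (K : AddSubgroup G)
    (B : Finset G) (hB : ∀ b ∈ B, b ∈ K) (A : Finset G) (hA : A.Nonempty) (a' : G) {u v w : ℕ}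
    (hn : n ≤ u * w)
    (hl : ∀ a ∈ A, lam B (a - a') * (2 * u * v + 1) * Nat.card K <
      B.card * (Nat.card K - B.card)) :
    ∃ φ : G →+ ZMod n, (∃ k ∈ K, φ k ≠ 0) ∧
      (A.filter (fun a => (w : ℤ) < |(φ (a - a')).valMinAbs|)).card * v ≤ A.card := by
  classical
  by_contra hcon
  push Not at hcon
  have hK : (0 : ℝ) < Nat.card K := by exact_mod_cast Nat.card_pos
  have hBK : B.card ≤ Nat.card K := by
    rw [← card_filter_mem K]
    exact Finset.card_le_card fun b hb => Finset.mem_filter.2 ⟨Finset.mem_univ _, hB b hb⟩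
  have hu : 0 < u := Nat.pos_of_ne_zero fun h => by
    rw [h, zero_mul] at hn; exact absurd (NeZero.pos n) (by omega)
  set P : ℝ := B.card * (Nat.card K - B.card) with hP
  set F : ℝ := (Fintype.card (G →+ ZMod n) : ℝ) with hF
  have hF0 : 0 < F := by rw [hF]; exact_mod_cast Fintype.card_pos
  have hl' : ∀ a ∈ A, (lam B (a - a') : ℝ) * (2 * u * v + 1) * Nat.card K ≤ P := by
    intro a ha
    have := (hl a ha).le
    rw [hP, ← Nat.cast_sub hBK]; exact_mod_cast this
  have hP0 : 0 < P := by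
    obtain ⟨a, ha⟩ := hA
    have := hl a ha
    rw [hP, ← Nat.cast_sub hBK]
    exact_mod_cast (Nat.zero_le _).trans_lt this
  have e1 : ∀ a ∈ A, ∑ φ : G →+ ZMod n, wt B φ *
      ∑ s ∈ range u, (1 - (ZMod.stdAddChar ((s + 1) • φ (a - a'))).re) ≤
      F * (u * (u * lam B (a - a'))) := by
    intro a _
    simp only [Finset.mul_sum]
    rw [Finset.sum_comm]
    have : ∀ s ∈ range u, ∑ φ : G →+ ZMod n,
        wt B φ * (1 - (ZMod.stdAddChar ((s + 1) • φ (a - a'))).re) ≤ F * (u * lam B (a - a')) := by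
      intro s hs
      have h1 := four hsep B ((s + 1) • (a - a'))
      have h2 := four hsep B 0
      simp only [map_nsmul] at h1
      simp only [map_zero, AddChar.map_zero_eq_one, Complex.one_re, lam_zero] at h2
      simp only [mul_sub]
      rw [Finset.sum_sub_distrib, h1, h2, ← hF]
      have h3 : lam B ((s + 1) • (a - a')) ≤ u * lam B (a - a') :=
        (lam_nsmul _ _ _).trans (Nat.mul_le_mul_right _ (Finset.mem_range.1 hs))
      have h4 : (lam B ((s + 1) • (a - a')) : ℝ) ≤ u * lam B (a - a') := by exact_mod_cast h3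
      push_cast
      nlinarith
    refine (Finset.sum_le_sum this).trans ?_
    rw [Finset.sum_const, Finset.card_range, nsmul_eq_mul]
    exact le_of_eq (by ring)
  have e2 : ∀ φ : G →+ ZMod n, (¬ ∀ k ∈ K, φ k = 0) → (u : ℝ) / 2 * A.card ≤
      v * ∑ a ∈ A, ∑ s ∈ range u, (1 - (ZMod.stdAddChar ((s + 1) • φ (a - a'))).re) := by
    intro φ hφ
    push Not at hφ
    have h1 := hcon φ hφ
    have h2 : ((A.filter (fun a => (w : ℤ) < |(φ (a - a')).valMinAbs|)).card : ℝ) * (u / 2) ≤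
        ∑ a ∈ A, ∑ s ∈ range u, (1 - (ZMod.stdAddChar ((s + 1) • φ (a - a'))).re) := by
      rw [← nsmul_eq_mul, ← Finset.sum_const]
      refine (Finset.sum_le_sum fun a ha => geom_re _ hn (Finset.mem_filter.1 ha).2).trans ?_
      refine Finset.sum_le_sum_of_subset_of_nonneg (Finset.filter_subset _ _) fun a _ _ => ?_
      exact Finset.sum_nonneg fun s _ => sub_nonneg.2 (re_std_le _)
    have h3 : (A.card : ℝ) ≤
        (A.filter (fun a => (w : ℤ) < |(φ (a - a')).valMinAbs|)).card * v := by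
      exact_mod_cast h1.le
    have hv : (0 : ℝ) ≤ v := Nat.cast_nonneg v
    have hu' : (0 : ℝ) ≤ u / 2 := by positivity
    nlinarith [mul_le_mul_of_nonneg_left h2 hv, mul_le_mul_of_nonneg_left h3 hu']
  set M := ∑ φ ∈ univ.filter (fun φ : G →+ ZMod n => ¬ ∀ k ∈ K, φ k = 0), wt B φ with hM
  have e3 : M * ((u : ℝ) / 2 * A.card) ≤ v * ∑ a ∈ A, F * (u * (u * lam B (a - a'))) := by
    have hv : (0 : ℝ) ≤ v := Nat.cast_nonneg v
    refine le_trans ?_ (mul_le_mul_of_nonneg_left (Finset.sum_le_sum e1) hv)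
    rw [Finset.sum_comm, hM, Finset.sum_mul, Finset.mul_sum]
    refine (Finset.sum_le_sum fun φ hφ => mul_le_mul_of_nonneg_left
      (e2 φ (Finset.mem_filter.1 hφ).2) (wt_nonneg B φ)).trans ?_
    refine le_trans (Finset.sum_le_sum_of_subset_of_nonneg (Finset.filter_subset _ _)
      fun φ _ _ => ?_) (le_of_eq (Finset.sum_congr rfl fun φ _ => ?_))
    · refine mul_nonneg (wt_nonneg _ _) (mul_nonneg hv ?_)
      exact Finset.sum_nonneg fun a _ => Finset.sum_nonneg fun s _ => sub_nonneg.2 (re_std_le _)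
    · rw [← Finset.mul_sum]; ring
  have e4 : F * P ≤ Nat.card K * M := mass hsep K B hB
  have e5 : (∑ a ∈ A, F * (u * (u * (lam B (a - a') : ℝ)))) * ((2 * u * v + 1) * Nat.card K) ≤
      A.card * (F * (u * (u * P))) := by
    rw [Finset.sum_mul, ← nsmul_eq_mul, ← Finset.sum_const]
    refine Finset.sum_le_sum fun a ha => ?_
    have h1 := hl' a ha
    have h2 : 0 ≤ F * (u * u) := by positivity
    nlinarith [mul_le_mul_of_nonneg_left h1 h2]
  set S := ∑ a ∈ A, F * (u * (u * (lam B (a - a') : ℝ))) with hS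
  have hA0 : (0 : ℝ) < A.card := by exact_mod_cast hA.card_pos
  have hu0 : (0 : ℝ) < u := by exact_mod_cast hu
  have hv : (0 : ℝ) ≤ v := Nat.cast_nonneg v
  have e6 : F * P * (u / 2 * A.card) * (2 * u * v + 1) ≤ v * (A.card * (F * (u * (u * P)))) := by
    calc F * P * (u / 2 * A.card) * (2 * u * v + 1)
        ≤ Nat.card K * M * (u / 2 * A.card) * (2 * u * v + 1) := by gcongr
      _ = M * (u / 2 * A.card) * ((2 * u * v + 1) * Nat.card K) := by ring
      _ ≤ v * S * ((2 * u * v + 1) * Nat.card K) := by gcongr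
      _ = v * (S * ((2 * u * v + 1) * Nat.card K)) := by ring
      _ ≤ _ := by gcongr
  have e7 : 0 < F * P * (u / 2 * A.card) := by positivity
  nlinarith

end Pool.Agent.MP_f9a021_co.GT
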