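import Pool.Agent.MP_f9a021_co.GT1

/-! Greedy filling of a subgroup by sums of fixed-size subsets, or concentration in an arc. -/

open Finset

set_option linter.unusedSectionVars false

namespace Pool.Agent.MP_f9a021_co.GT

variable {G : Type*} [AddCommGroup G] [Fintype G] [DecidableEq G] {n : ℕ} [NeZero n]

/-- Every element of `s + X` is the sum of a `t`-subset of `P`. -/
def Fill (P : Finset G) (t : ℕ) (s : G) (X : Set G) : Prop :=
  ∀ k ∈ X, ∃ S ⊆ P, S.card = t ∧ ∑ x ∈ S, x = s + k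

lemma key_step {b c l j b' c' : ℕ} (h1 : b + l ≤ b') (h2 : c' + l ≤ c)
    (h3 : b * c ≤ l * j * (b + c)) : b * (c' * (j + 1)) ≤ b' * j * c := by
  obtain ⟨d, rfl⟩ := Nat.exists_eq_add_of_le h2
  calc b * (c' * (j + 1)) ≤ (b + l) * j * (c' + l + d) := by
        nlinarith [Nat.zero_le (b * d * j), Nat.zero_le (b * l), Nat.zero_le (b * d)]
    _ ≤ _ := by gcongr

lemma greedy (hsep : ∀ x : G, x ≠ 0 → ∃ φ : G →+ ZMod n, φ x ≠ 0) (K : AddSubgroup G)
    (A : Finset G) (hd : ∀ x ∈ A, ∀ x' ∈ A, x - x' ∈ K) {u v w T : ℕ} (hn : n ≤ u * w)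
    (hv : 0 < v) (hT : 2 * T + 2 ≤ A.card) (t : ℕ) (ht : t ≤ T) :
    (∃ P ⊆ A, P.card = 2 * t ∧ ∃ s : G, ∃ B : Finset G, (∀ b ∈ B, b ∈ K) ∧ Fill P t s B ∧
      0 < B.card ∧ (Nat.card K - B.card) * (2 * u * v + 1 + 1) ^ t ≤
        B.card * Nat.card K * (2 * u * v + 1) ^ t) ∨
    ∃ φ : G →+ ZMod n, (∃ k ∈ K, φ k ≠ 0) ∧ ∃ a ∈ A, ∃ A₁ ⊆ A,
      A.card ≤ A₁.card + (2 * T + A.card / v) ∧ ∀ x ∈ A₁, |(φ (x - a)).valMinAbs| ≤ w := by
  classical
  induction t with
  | zero =>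
    refine Or.inl ⟨∅, by simp, rfl, 0, {0}, by simp, ?_, by simp, by simp⟩
    intro k hk
    exact ⟨∅, by simp, rfl, by simpa using (Finset.mem_singleton.1 hk).symm⟩
  | succ t ih =>
    rcases ih (by omega) with ⟨P, hP, hPc, s, B, hB, hF, hB0, hI⟩ | h
    swap
    · exact Or.inr h
    set j := 2 * u * v + 1 with hj
    have hc : (A \ P).card + P.card = A.card := Finset.card_sdiff_add_card_eq_card hP
    obtain ⟨a', ha'⟩ : (A \ P).Nonempty := Finset.card_pos.1 (by omega)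
    by_cases hs : ∀ a ∈ A \ P, lam B (a - a') * j * Nat.card K < B.card * (Nat.card K - B.card)
    · obtain ⟨φ, h1, h2⟩ := stuck hsep K B hB (A \ P) ⟨a', ha'⟩ a' hn hs
      refine Or.inr ⟨φ, h1, a', (Finset.mem_sdiff.1 ha').1,
        (A \ P).filter (fun a => ¬ (w : ℤ) < |(φ (a - a')).valMinAbs|),
        (Finset.filter_subset _ _).trans Finset.sdiff_subset, ?_,
        fun x hx => not_lt.1 (Finset.mem_filter.1 hx).2⟩
      have h3 := Finset.card_filter_add_card_filter_not (s := A \ P)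
        (fun a => (w : ℤ) < |(φ (a - a')).valMinAbs|)
      have h4 := (Nat.le_div_iff_mul_le hv).2 (h2.trans (show (A \ P).card ≤ A.card by omega))
      omega
    · obtain ⟨a, ha, hne, hl⟩ : ∃ a ∈ A \ P, a ≠ a' ∧
          B.card * (Nat.card K - B.card) ≤ lam B (a - a') * j * Nat.card K := by
        push Not at hs
        obtain ⟨a, ha, hl⟩ := hs
        by_cases h : a = a'
        · obtain ⟨a₂, ha₂, hne⟩ := Finset.exists_mem_ne (show 1 < (A \ P).card by omega) a'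
          refine ⟨a₂, ha₂, hne, ?_⟩
          rw [h, sub_self, lam_zero, zero_mul, zero_mul] at hl
          exact hl.trans (Nat.zero_le _)
        · exact ⟨a, ha, h, hl⟩
      obtain ⟨haA, haP⟩ := Finset.mem_sdiff.1 ha
      obtain ⟨haA', haP'⟩ := Finset.mem_sdiff.1 ha'
      set B' := B ∪ (B.filter (fun b => b + (a - a') ∉ B)).image (fun b => b + (a - a')) with hB'
      have hB'K : ∀ b ∈ B', b ∈ K := by
        intro b hb
        rcases Finset.mem_union.1 hb with h | h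
        · exact hB b h
        · obtain ⟨b₀, h0, rfl⟩ := Finset.mem_image.1 h
          exact K.add_mem (hB b₀ (Finset.mem_filter.1 h0).1) (hd a haA a' haA')
      have hB'c : B'.card = B.card + lam B (a - a') := by
        rw [hB', Finset.card_union_of_disjoint, Finset.card_image_of_injective _
          (add_left_injective _)]
        · rfl
        · rw [Finset.disjoint_right]
          intro b hb
          obtain ⟨b₀, h0, rfl⟩ := Finset.mem_image.1 hb
          exact (Finset.mem_filter.1 h0).2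
      have hle : B'.card ≤ Nat.card K := by
        rw [← card_filter_mem K]
        exact Finset.card_le_card fun b hb => Finset.mem_filter.2 ⟨Finset.mem_univ _, hB'K b hb⟩
      refine Or.inl ⟨insert a (insert a' P), ?_, ?_, s + a', B', hB'K, ?_, by omega, ?_⟩
      · exact Finset.insert_subset haA (Finset.insert_subset haA' hP)
      · rw [Finset.card_insert_of_notMem (by simp [hne, haP]), Finset.card_insert_of_notMem haP']
        omega
      · intro k hk
        rcases Finset.mem_union.1 hk with h | h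
        · obtain ⟨S, h1, h2, h3⟩ := hF k h
          have h4 : a' ∉ S := fun h => haP' (h1 h)
          refine ⟨insert a' S, ?_, by rw [Finset.card_insert_of_notMem h4, h2], ?_⟩
          · exact (Finset.insert_subset_insert _ h1).trans (Finset.subset_insert _ _)
          · rw [Finset.sum_insert h4, h3]; abel
        · obtain ⟨b₀, h0, rfl⟩ := Finset.mem_image.1 h
          obtain ⟨S, h1, h2, h3⟩ := hF b₀ (Finset.mem_filter.1 h0).1
          have h4 : a ∉ S := fun h => haP (h1 h)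
          refine ⟨insert a S, ?_, by rw [Finset.card_insert_of_notMem h4, h2], ?_⟩
          · exact Finset.insert_subset_insert _ (h1.trans (Finset.subset_insert _ _))
          · rw [Finset.sum_insert h4, h3]; abel
      · have k1 := key_step (b := B.card) (c := Nat.card K - B.card) (l := lam B (a - a')) (j := j)
          (b' := B'.card) (c' := Nat.card K - B'.card) hB'c.ge (by omega)
          (by rwa [show B.card + (Nat.card K - B.card) = Nat.card K by omega])
        refine Nat.le_of_mul_le_mul_left ?_ hB0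
        calc B.card * ((Nat.card K - B'.card) * (j + 1) ^ (t + 1))
            = B.card * ((Nat.card K - B'.card) * (j + 1)) * (j + 1) ^ t := by ring
          _ ≤ B'.card * j * (Nat.card K - B.card) * (j + 1) ^ t := by gcongr
          _ = B'.card * j * ((Nat.card K - B.card) * (j + 1) ^ t) := by ring
          _ ≤ B'.card * j * (B.card * Nat.card K * j ^ t) := by gcongr
          _ = _ := by ring

lemma two_mul_pow_le (j : ℕ) (hj : 0 < j) : 2 * j ^ j ≤ (j + 1) ^ j := by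
  have := pow_add_mul_le_add_pow_of_sq_nonneg (a := j) (b := 1) (Nat.zero_le _) (Nat.zero_le _)
    (Nat.zero_le _) (Nat.zero_le _) j
  obtain ⟨i, rfl⟩ : ∃ i, j = i + 1 := ⟨j - 1, by omega⟩
  rw [Nat.add_sub_cancel, Nat.cast_id, mul_one, ← pow_succ'] at this
  omega

lemma round (hsep : ∀ x : G, x ≠ 0 → ∃ φ : G →+ ZMod n, φ x ≠ 0) (K : AddSubgroup G)
    (A : Finset G) (hd : ∀ x ∈ A, ∀ x' ∈ A, x - x' ∈ K) {u v w T I : ℕ} (hn : n ≤ u * w)
    (hv : 0 < v) (hI : Nat.card K ≤ 2 ^ I) (hTd : T = (2 * u * v + 1) * (2 * I + 1))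
    (hT : 2 * T + 2 ≤ A.card) :
    (∃ P ⊆ A, P.card = 2 * T ∧ ∃ s : G, Fill P T s K) ∨
    ∃ φ : G →+ ZMod n, (∃ k ∈ K, φ k ≠ 0) ∧ ∃ a ∈ A, ∃ A₁ ⊆ A,
      A.card ≤ A₁.card + (2 * T + A.card / v) ∧ ∀ x ∈ A₁, |(φ (x - a)).valMinAbs| ≤ w := by
  classical
  rcases greedy hsep K A hd hn hv hT T le_rfl with ⟨P, hP, hPc, s, B, hB, hF, -, hI'⟩ | h
  swap
  · exact Or.inr h
  refine Or.inl ⟨P, hP, hPc, s, ?_⟩
  set j := 2 * u * v + 1 with hj
  have hj0 : 0 < j := by omega
  have hsub : B ⊆ univ.filter (· ∈ K) :=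
    fun b hb => Finset.mem_filter.2 ⟨Finset.mem_univ _, hB b hb⟩
  have hle : B.card ≤ Nat.card K := by rw [← card_filter_mem K]; exact Finset.card_le_card hsub
  have hge : Nat.card K ≤ B.card := by
    by_contra hlt
    have h1 : (j + 1) ^ T ≤ 2 ^ I * 2 ^ I * j ^ T := by
      calc (j + 1) ^ T ≤ (Nat.card K - B.card) * (j + 1) ^ T :=
            Nat.le_mul_of_pos_left _ (by omega)
        _ ≤ B.card * Nat.card K * j ^ T := hI'
        _ ≤ _ := by gcongr; exact hle.trans hI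
    have h2 : (2 * j ^ j) ^ (2 * I + 1) ≤ (j + 1) ^ T := by
      rw [hTd, pow_mul]; exact Nat.pow_le_pow_left (two_mul_pow_le j hj0) _
    rw [mul_pow, ← pow_mul, ← hTd] at h2
    have h3 : 0 < 2 ^ I * 2 ^ I * j ^ T := by positivity
    have h4 : 2 ^ (2 * I + 1) * j ^ T = 2 * (2 ^ I * 2 ^ I * j ^ T) := by ring
    omega
  have hEq : B = univ.filter (· ∈ K) :=
    Finset.eq_of_subset_of_card_le hsub (by rw [card_filter_mem]; exact hge)
  intro k hk
  exact hF k (by rw [hEq]; simpa using hk)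

lemma card_le_of_diff (K : AddSubgroup G) (A : Finset G) (hd : ∀ x ∈ A, ∀ x' ∈ A, x - x' ∈ K) :
    A.card ≤ Nat.card K := by
  classical
  rcases A.eq_empty_or_nonempty with rfl | ⟨a, ha⟩
  · simp
  rw [← card_filter_mem K]
  exact Finset.card_le_card_of_injOn (fun x => x - a)
    (fun x hx => by simpa using hd x hx a ha) (fun x _ y _ h => sub_left_injective h)

lemma dich (hsep : ∀ x : G, x ≠ 0 → ∃ φ : G →+ ZMod n, φ x ≠ 0) {u v w T I m ρ M : ℕ}
    (hn : n ≤ u * w) (hv : 0 < v) (hTd : T = (2 * u * v + 1) * (2 * I + 1))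
    (hm : 2 * T + 2 ≤ m) (hρ : 2 * T + M / v ≤ ρ) (i : ℕ) (hi : i ≤ I) :
    ∀ (K : AddSubgroup G) (A : Finset G), (∀ x ∈ A, ∀ x' ∈ A, x - x' ∈ K) → Nat.card K ≤ 2 ^ i →
      A.card ≤ M → m + ρ * i ≤ A.card →
    (∃ K' ≤ K, ∃ A₁ ⊆ A, m ≤ A₁.card ∧ (∀ x ∈ A₁, ∀ x' ∈ A₁, x - x' ∈ K') ∧
      ∃ P ⊆ A₁, P.card = 2 * T ∧ ∃ s : G, Fill P T s K') ∨
    ∃ φ : G →+ ZMod n, ∃ a ∈ A, ∃ A₁ ⊆ A, m ≤ A₁.card ∧
      (∀ x ∈ A₁, |(φ (x - a)).valMinAbs| ≤ w) ∧ ∃ x ∈ A₁, ∃ x' ∈ A₁, φ x ≠ φ x' := by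
  induction i with
  | zero =>
    intro K A hd hK _ hA
    have := card_le_of_diff K A hd
    omega
  | succ i ih =>
    intro K A hd hK hM hA
    have hmul : ρ * (i + 1) = ρ * i + ρ := by ring
    rcases round hsep K A hd hn hv (hK.trans (Nat.pow_le_pow_right two_pos hi)) hTd (by omega) with
      h | ⟨φ, ⟨k, hk, hk'⟩, a, ha, A₁, h1, h2, h3⟩
    · exact Or.inl ⟨K, le_rfl, A, subset_rfl, by omega, hd, h⟩
    have h4 : A.card / v ≤ M / v := Nat.div_le_div_right hM
    by_cases hc : ∃ x ∈ A₁, ∃ x' ∈ A₁, φ x ≠ φ x'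
    · exact Or.inr ⟨φ, a, ha, A₁, h1, by omega, h3, hc⟩
    push Not at hc
    have hle : K ⊓ φ.ker ≤ K := inf_le_left
    have hK' : Nat.card (K ⊓ φ.ker : AddSubgroup G) ≤ 2 ^ i := by
      obtain ⟨c, hc'⟩ := AddSubgroup.card_dvd_of_le hle
      have hne : c ≠ 1 := by
        rintro rfl
        have := AddSubgroup.eq_of_le_of_card_ge hle (by omega)
        rw [← this] at hk
        exact hk' hk.2
      have h0 : c ≠ 0 := by
        rintro rfl
        exact absurd (Nat.card_pos (α := K)) (by omega)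
      have : Nat.card (K ⊓ φ.ker : AddSubgroup G) * 2 ≤ Nat.card K := by
        rw [hc']; exact Nat.mul_le_mul_left _ (by omega)
      rw [pow_succ] at hK
      omega
    rcases ih (by omega) (K ⊓ φ.ker) A₁ (fun x hx x' hx' => AddSubgroup.mem_inf.2 ⟨hd x (h1 hx) x' (h1 hx'), by
        rw [AddMonoidHom.mem_ker, map_sub, hc x hx x' hx', sub_self]⟩) hK'
        ((Finset.card_le_card h1).trans hM) (by omega) with
      ⟨K', k1, A₂, k2, k3⟩ | ⟨ψ, b, hb, A₂, k2, k3⟩
    · exact Or.inl ⟨K', k1.trans hle, A₂, k2.trans h1, k3⟩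
    · exact Or.inr ⟨ψ, b, h1 hb, A₂, k2.trans h1, k3⟩

omit [Fintype G] [DecidableEq G] in
lemma nsmul_eq_zero_of_sep (hsep : ∀ x : G, x ≠ 0 → ∃ φ : G →+ ZMod n, φ x ≠ 0) (x : G) :
    n • x = 0 := by
  by_contra h
  obtain ⟨φ, hφ⟩ := hsep _ h
  exact hφ (by rw [map_nsmul, nsmul_eq_mul, ZMod.natCast_self, zero_mul])

omit [Fintype G] [DecidableEq G] [NeZero n] in
lemma sum_sub_mem (K : AddSubgroup G) (S : Finset G) (p : G) (h : ∀ x ∈ S, x - p ∈ K) :
    ∑ x ∈ S, x - S.card • p ∈ K := by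
  rw [← Finset.sum_const, ← Finset.sum_sub_distrib]
  exact K.sum_mem h

omit [Fintype G] [NeZero n] in
lemma fill_done (hG : ∀ x : G, n • x = 0) (K : AddSubgroup G) (A : Finset G)
    (hd : ∀ x ∈ A, ∀ x' ∈ A, x - x' ∈ K) {T : ℕ} (hT : T ≤ n) (hA : n + T ≤ A.card)
    (h0 : 0 < n) (P : Finset G) (hP : P ⊆ A) (hPc : P.card = 2 * T) (s : G) (hF : Fill P T s K) :
    ∃ U ⊆ A, U.card = n ∧ ∑ x ∈ U, x = 0 := by
  have hc : (A \ P).card + P.card = A.card := Finset.card_sdiff_add_card_eq_card hP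
  obtain ⟨S, h1, h2⟩ := Finset.exists_subset_card_eq (show n - T ≤ (A \ P).card by omega)
  obtain ⟨p, hp⟩ : A.Nonempty := Finset.card_pos.1 (by omega)
  obtain ⟨S₀, k1, k2, k3⟩ := hF 0 K.zero_mem
  have e1 := sum_sub_mem K S p fun x hx => hd x (Finset.sdiff_subset (h1 hx)) p hp
  have e2 := sum_sub_mem K S₀ p fun x hx => hd x (hP (k1 hx)) p hp
  rw [k2, k3, add_zero] at e2
  rw [h2] at e1
  have e3 : -(∑ x ∈ S, x + s) ∈ K := by
    have := K.neg_mem (K.add_mem e1 e2)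
    have e4 : (n - T) • p + T • p = 0 := by rw [← add_nsmul, Nat.sub_add_cancel hT, hG]
    rwa [show ∑ x ∈ S, x - (n - T) • p + (s - T • p) =
      ∑ x ∈ S, x + s - ((n - T) • p + T • p) by abel, e4, sub_zero] at this
  obtain ⟨S₁, l1, l2, l3⟩ := hF _ e3
  have hdis : Disjoint S S₁ := Finset.disjoint_left.2 fun x hx hx' =>
    (Finset.mem_sdiff.1 (h1 hx)).2 (l1 hx')
  refine ⟨S ∪ S₁, Finset.union_subset (h1.trans Finset.sdiff_subset) (l1.trans hP), ?_, ?_⟩
  · rw [Finset.card_union_of_disjoint hdis]; omega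
  · rw [Finset.sum_union hdis, l3]; abel

lemma arc_card (K : AddSubgroup G) (φ : G →+ ZMod n) {W r : ℕ} {h : G} (hh : h ∈ K) {γ : ℤ}
    (hγ0 : γ ≠ 0) (hγ : |γ| ≤ 2 * W) (hφ : φ h = γ) (hr : r * (4 * W) ≤ n) (a : G) (X : Finset G)
    (hX : ∀ x ∈ X, x - a ∈ K ∧ |(φ (x - a)).valMinAbs| ≤ W) : X.card * r ≤ Nat.card K := by
  classical
  wlog hpos : 0 < γ generalizing h γ
  · refine this (K.neg_mem hh) (neg_ne_zero.2 hγ0) (by rwa [abs_neg]) (by rw [map_neg, hφ]; simp) ?_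
    omega
  rw [abs_of_pos hpos] at hγ
  set k : ℤ := 2 * W / γ + 1 with hk
  have h1 : 2 * W < k * γ := by
    have := Int.lt_ediv_add_one_mul_self (2 * (W : ℤ)) hpos
    rwa [hk]
  have h2 : k * γ ≤ 4 * W := by
    have := Int.ediv_mul_le (2 * (W : ℤ)) hγ0
    rw [hk, add_mul]; omega
  rw [← card_filter_mem K, ← Finset.card_range r, ← Finset.card_product]
  refine Finset.card_le_card_of_injOn (fun p => p.1 - a + ((p.2 : ℤ) * k) • h) ?_ ?_
  · intro p hp
    obtain ⟨p1, -⟩ := Finset.mem_product.1 hp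
    simpa using K.add_mem (hX _ p1).1 (K.zsmul_mem hh _)
  · rintro ⟨x, i⟩ hp ⟨x', i'⟩ hp' hE
    obtain ⟨p1, p2⟩ := Finset.mem_product.1 hp
    obtain ⟨p1', p2'⟩ := Finset.mem_product.1 hp'
    simp only [Finset.mem_range] at p1 p2 p1' p2' hE
    have e1 := congrArg φ hE
    rw [map_add, map_add, map_zsmul, map_zsmul, hφ, ← ZMod.coe_valMinAbs (φ (x - a)),
      ← ZMod.coe_valMinAbs (φ (x' - a))] at e1
    have b1 := (hX x p1).2
    have b2 := (hX x' p1').2
    generalize (φ (x - a)).valMinAbs = z at e1 b1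
    generalize (φ (x' - a)).valMinAbs = z' at e1 b2
    have e2 : (n : ℤ) ∣ z - z' + ((i : ℤ) - i') * (k * γ) := by
      rw [← ZMod.intCast_zmod_eq_zero_iff_dvd]
      push_cast
      simp only [zsmul_eq_mul, Int.cast_mul, Int.cast_natCast] at e1
      linear_combination e1
    have hr' : (r : ℤ) * (4 * W) ≤ n := by exact_mod_cast hr
    have hi : (i : ℤ) + 1 ≤ r := by exact_mod_cast p2
    have hi' : (i' : ℤ) + 1 ≤ r := by exact_mod_cast p2'
    have hi0 : (0 : ℤ) ≤ i := Int.natCast_nonneg i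
    have hi0' : (0 : ℤ) ≤ i' := Int.natCast_nonneg i'
    rw [abs_le] at b1 b2
    generalize k * γ = Γ at h1 h2 e2
    have e3 := Int.eq_zero_of_abs_lt_dvd e2 (by rw [abs_lt]; constructor <;> nlinarith)
    have e4 : (i : ℤ) = i' := by
      rcases lt_trichotomy (i : ℤ) i' with c | c | c
      · nlinarith
      · exact c
      · nlinarith
    have e5 : i = i' := by exact_mod_cast e4
    subst e5
    simpa using hE

end Pool.Agent.MP_f9a021_co.GT
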