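import Pool.Agent.MP_f9a021_co.GT2

/-! Short words, exchange of elements inside reserved sets, and two integer lemmas. -/

open Finset

set_option linter.unusedSectionVars false

namespace Pool.Agent.MP_f9a021_co.GT

section

variable {Γ : Type*} [AddCommGroup Γ] {D : Set Γ}

/-- `τ` is a sum of `J` elements of `D`. -/
def Wd (D : Set Γ) : ℕ → Γ → Prop
  | 0, τ => τ = 0
  | J + 1, τ => ∃ d ∈ D, Wd D J (τ - d)

lemma Wd.add {a : ℕ} {x : Γ} (h1 : Wd D a x) (b : ℕ) : ∀ y, Wd D b y → Wd D (a + b) (x + y) := by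
  induction b with
  | zero => intro y h; rw [show y = 0 from h, add_zero, add_zero]; exact h1
  | succ b ih =>
    rintro y ⟨d, hd, h⟩
    exact ⟨d, hd, by rw [add_sub_assoc]; exact ih _ h⟩

lemma Wd.nsmul {d : Γ} (hd : d ∈ D) (k : ℕ) : Wd D k (k • d) := by
  induction k with
  | zero => exact zero_nsmul d
  | succ k ih => exact ⟨d, hd, by rw [succ_nsmul, add_sub_cancel_right]; exact ih⟩

lemma Wd.mono (h0 : (0 : Γ) ∈ D) {a b : ℕ} (hab : a ≤ b) {x : Γ} (h : Wd D a x) : Wd D b x := by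
  obtain ⟨c, rfl⟩ := Nat.exists_eq_add_of_le hab
  have := h.add c _ (Wd.nsmul h0 c)
  rwa [nsmul_zero, add_zero] at this

lemma Wd.zsmul {d : Γ} (hd : d ∈ D) (hd' : -d ∈ D) (k : ℤ) : Wd D k.natAbs (k • d) := by
  rcases Int.natAbs_eq k with h | h
  · conv_rhs => rw [h, natCast_zsmul]
    exact Wd.nsmul hd _
  · conv_rhs => rw [h, neg_zsmul, natCast_zsmul, ← smul_neg]
    exact Wd.nsmul hd' _

lemma Wd.bound (f : Γ →+ ℤ) {B : ℤ} (hB : ∀ d ∈ D, |f d| ≤ B) (J : ℕ) :
    ∀ τ, Wd D J τ → |f τ| ≤ J * B := by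
  induction J with
  | zero => intro τ h; rw [show τ = 0 from h]; simp
  | succ J ih =>
    rintro τ ⟨d, hd, h⟩
    have h1 := ih _ h
    have h2 := hB d hd
    rw [map_sub] at h1
    push_cast
    rw [abs_le] at *
    constructor <;> nlinarith [h1.1, h1.2, h2.1, h2.2]

lemma words (h0 : (0 : Γ) ∈ D) (hneg : ∀ d ∈ D, -d ∈ D) (δ : Γ) (Y : Finset Γ)
    (hY : ∀ γ ∈ AddSubgroup.closure D, ∃ k : ℤ, γ - k • δ ∈ Y) :
    ∀ γ ∈ AddSubgroup.closure D, ∃ k : ℤ, Wd D Y.card (γ - k • δ) := by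
  classical
  let X : ℕ → Finset Γ := fun i => Y.filter (fun y => ∃ k : ℤ, Wd D i (y - k • δ))
  have hmono : ∀ i, X i ⊆ X (i + 1) := by
    intro i y hy
    obtain ⟨h1, k, h2⟩ := Finset.mem_filter.1 hy
    exact Finset.mem_filter.2 ⟨h1, k, h2.mono h0 (by omega)⟩
  obtain ⟨i, hi, hX⟩ : ∃ i ≤ Y.card, X i = X (i + 1) := by
    by_contra hc
    push Not at hc
    have : ∀ i ≤ Y.card + 1, i ≤ (X i).card := by
      intro i
      induction i with
      | zero => omega
      | succ i ih =>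
        intro h
        have := Finset.card_lt_card (Finset.ssubset_iff_subset_ne.2 ⟨hmono i, hc i (by omega)⟩)
        have := ih (by omega)
        omega
    have h1 := this _ le_rfl
    have h2 : (X (Y.card + 1)).card ≤ Y.card := Finset.card_le_card (Finset.filter_subset _ _)
    omega
  have step : ∀ d ∈ D, ∀ x ∈ AddSubgroup.closure D, (∃ k : ℤ, Wd D i (x - k • δ)) →
      ∃ k : ℤ, Wd D i (d + x - k • δ) := by
    rintro d hd x hx ⟨k, hk⟩
    obtain ⟨k', hk'⟩ := hY (d + x) (AddSubgroup.add_mem _ (AddSubgroup.subset_closure hd) hx)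
    have h1 : d + x - k' • δ ∈ X (i + 1) := Finset.mem_filter.2 ⟨hk', k - k', d, hd, by
      rwa [show d + x - k' • δ - (k - k') • δ - d = x - k • δ by rw [sub_zsmul]; abel]⟩
    rw [← hX] at h1
    obtain ⟨-, k'', h2⟩ := Finset.mem_filter.1 h1
    exact ⟨k' + k'', by rwa [add_zsmul, ← sub_sub]⟩
  intro γ hγ
  obtain ⟨k, hk⟩ : ∃ k : ℤ, Wd D i (γ - k • δ) := by
    induction hγ using AddSubgroup.closure_induction_left with
    | zero => exact ⟨0, by simpa using Wd.nsmul h0 i⟩
    | add_left x hx y hy ih => exact step x hx y hy ih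
    | neg_add_cancel x hx y hy ih => exact step _ (hneg x hx) y hy ih
  exact ⟨k, hk.mono h0 hi⟩

variable {α : Type*} [DecidableEq α] [DecidableEq Γ]

lemma realize (κ : α → Γ) (H : Finset α) (J : ℕ) : ∀ (R R' : Finset α) (τ : Γ), Disjoint R R' →
    (∀ a ∈ H, J ≤ (R.filter (fun x => κ x = κ a)).card) →
    (∀ a ∈ H, J ≤ (R'.filter (fun x => κ x = κ a)).card) →
    Wd {d | ∃ a ∈ H, ∃ a' ∈ H, d = κ a - κ a'} J τ →
    ∃ S ⊆ R ∪ R', S.card = R.card ∧ ∑ x ∈ S, κ x = ∑ x ∈ R, κ x + τ := by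
  induction J with
  | zero =>
    intro R R' τ _ _ _ h
    exact ⟨R, Finset.subset_union_left, rfl, by rw [show τ = 0 from h, add_zero]⟩
  | succ J ih =>
    rintro R R' τ hd h1 h2 ⟨_, ⟨a, ha, a', ha', rfl⟩, h⟩
    obtain ⟨u, hu⟩ : (R.filter (fun x => κ x = κ a')).Nonempty :=
      Finset.card_pos.1 (by have := h1 a' ha'; omega)
    obtain ⟨v, hv⟩ : (R'.filter (fun x => κ x = κ a)).Nonempty :=
      Finset.card_pos.1 (by have := h2 a ha; omega)
    obtain ⟨u1, u2⟩ := Finset.mem_filter.1 hu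
    obtain ⟨v1, v2⟩ := Finset.mem_filter.1 hv
    have u3 : u ∉ R' := Finset.disjoint_left.1 hd u1
    have v3 : v ∉ R := Finset.disjoint_right.1 hd v1
    have key : ∀ (T : Finset α) (p q : α) (b : α), J + 1 ≤ (T.filter (fun x => κ x = κ b)).card →
        J ≤ ((insert q (T.erase p)).filter (fun x => κ x = κ b)).card := by
      intro T p q b hT
      have e1 : (T.filter (fun x => κ x = κ b)).erase p ⊆
          (insert q (T.erase p)).filter (fun x => κ x = κ b) := by
        intro x hx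
        simp only [Finset.mem_erase, Finset.mem_filter, Finset.mem_insert] at hx ⊢
        tauto
      have := Finset.card_le_card e1
      have := Finset.pred_card_le_card_erase (s := T.filter (fun x => κ x = κ b)) (a := p)
      omega
    obtain ⟨S, s1, s2, s3⟩ := ih (insert v (R.erase u)) (insert u (R'.erase v)) _ (by
        rw [Finset.disjoint_left]
        intro x hx hx'
        simp only [Finset.mem_insert, Finset.mem_erase] at hx hx'
        rcases hx with rfl | ⟨x1, x2⟩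
        · rcases hx' with rfl | ⟨x3, -⟩
          · exact u3 v1
          · exact x3 rfl
        · rcases hx' with rfl | ⟨-, x3⟩
          · exact x1 rfl
          · exact Finset.disjoint_left.1 hd x2 x3)
      (fun b hb => key _ _ _ _ (h1 b hb)) (fun b hb => key _ _ _ _ (h2 b hb)) h
    have v4 : v ∉ R.erase u := fun h => v3 (Finset.mem_of_mem_erase h)
    refine ⟨S, s1.trans ?_, ?_, ?_⟩
    · intro x hx
      simp only [Finset.mem_union, Finset.mem_insert, Finset.mem_erase] at hx ⊢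
      rcases hx with (rfl | h) | rfl | h
      · exact Or.inr v1
      · exact Or.inl h.2
      · exact Or.inl u1
      · exact Or.inr h.2
    · rw [s2, Finset.card_insert_of_notMem v4, Finset.card_erase_add_one u1]
    · rw [s3, Finset.sum_insert v4, ← Finset.add_sum_erase _ _ u1, u2, v2]; abel

lemma reserve (κ : α → Γ) (Z : Finset α) (J : ℕ) (C : Finset Γ)
    (h : ∀ c ∈ C, J ≤ (Z.filter (fun x => κ x = c)).card) :
    ∃ R ⊆ Z, R.card ≤ C.card * J ∧ ∀ c ∈ C, (R.filter (fun x => κ x = c)).card = J := by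
  have h1 : ∀ c, ∃ F : Finset α, c ∈ C → F ⊆ Z.filter (fun x => κ x = c) ∧ F.card = J := by
    intro c
    by_cases hc : c ∈ C
    · obtain ⟨F, hF⟩ := Finset.exists_subset_card_eq (h c hc)
      exact ⟨F, fun _ => hF⟩
    · exact ⟨∅, fun h => absurd h hc⟩
  choose F hF using h1
  refine ⟨C.biUnion F, Finset.biUnion_subset.2 fun c hc =>
    (hF c hc).1.trans (Finset.filter_subset _ _),
    Finset.card_biUnion_le_card_mul _ _ _ fun c hc => (hF c hc).2.le, fun c hc => ?_⟩
  rw [← (hF c hc).2]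
  congr 1
  ext x
  simp only [Finset.mem_filter, Finset.mem_biUnion]
  constructor
  · rintro ⟨⟨c', h1, h2⟩, h3⟩
    rwa [← h3, (Finset.mem_filter.1 ((hF c' h1).1 h2)).2]
  · intro hx
    exact ⟨⟨c, hc, hx⟩, (Finset.mem_filter.1 ((hF c hc).1 hx)).2⟩

end

section

variable {α : Type*} [DecidableEq α]

lemma walk (W : Finset α) (y : α → ℤ) {B : ℤ} (hB : ∀ x ∈ W, |y x| ≤ B) (hB0 : 0 ≤ B) (τ : ℤ)
    (S' : Finset α) (hS' : S' ⊆ W) (h2 : τ ≤ ∑ x ∈ S', y x) (d : ℕ) :
    ∀ S ⊆ W, S.card = S'.card → (S \ S').card = d → ∑ x ∈ S, y x ≤ τ →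
      ∃ T ⊆ W, T.card = S'.card ∧ |∑ x ∈ T, y x - τ| ≤ 2 * B := by
  induction d with
  | zero =>
    intro S hS hc hd h1
    have : S = S' := Finset.eq_of_subset_of_card_le
      (Finset.sdiff_eq_empty_iff_subset.1 (Finset.card_eq_zero.1 hd)) hc.ge
    subst this
    exact ⟨S, hS, rfl, by rw [abs_le]; constructor <;> linarith⟩
  | succ d ih =>
    intro S hS hc hd h1
    obtain ⟨a, ha⟩ : (S \ S').Nonempty := Finset.card_pos.1 (by omega)
    obtain ⟨b, hb⟩ : (S' \ S).Nonempty :=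
      Finset.card_pos.1 (by rw [← Finset.card_sdiff_comm hc]; omega)
    obtain ⟨a1, a2⟩ := Finset.mem_sdiff.1 ha
    obtain ⟨b1, b2⟩ := Finset.mem_sdiff.1 hb
    have b3 : b ∉ S.erase a := fun h => b2 (Finset.mem_of_mem_erase h)
    have e1 : ∑ x ∈ insert b (S.erase a), y x = ∑ x ∈ S, y x - y a + y b := by
      rw [Finset.sum_insert b3, ← Finset.add_sum_erase _ _ a1]; ring
    by_cases h : ∑ x ∈ insert b (S.erase a), y x ≤ τ
    · refine ih _ (Finset.insert_subset (hS' b1) ((Finset.erase_subset _ _).trans hS)) ?_ ?_ h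
      · rw [Finset.card_insert_of_notMem b3, Finset.card_erase_add_one a1, hc]
      · rw [Finset.insert_sdiff_of_mem _ b1, Finset.erase_sdiff_comm, Finset.card_erase_of_mem ha]
        omega
    · have := abs_le.1 (hB a (hS a1))
      have := abs_le.1 (hB b (hS' b1))
      exact ⟨S, hS, hc, by rw [abs_le]; constructor <;> linarith⟩

lemma bottom (W : Finset α) (y : α → ℤ) (s : ℕ) (hs : s ≤ W.card) :
    ∃ T ⊆ W, T.card = s ∧ ∀ x ∈ T, ∀ x' ∈ W \ T, y x ≤ y x' := by
  induction s with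
  | zero => exact ⟨∅, by simp, rfl, by simp⟩
  | succ s ih =>
    obtain ⟨T, h1, h2, h3⟩ := ih (by omega)
    have hc : (W \ T).card + T.card = W.card := Finset.card_sdiff_add_card_eq_card h1
    obtain ⟨a, ha, hm⟩ := Finset.exists_min_image (W \ T) y (Finset.card_pos.1 (by omega))
    obtain ⟨a1, a2⟩ := Finset.mem_sdiff.1 ha
    refine ⟨insert a T, Finset.insert_subset a1 h1, by rw [Finset.card_insert_of_notMem a2, h2], ?_⟩
    intro x hx x' hx'
    have : x' ∈ W \ T := Finset.sdiff_subset_sdiff subset_rfl (Finset.subset_insert _ _) hx'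
    rcases Finset.mem_insert.1 hx with rfl | h
    · exact hm x' this
    · exact h3 x h x' this

end

end Pool.Agent.MP_f9a021_co.GT
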