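import Pool.Agent.MP_f9a021_co.GT3

/-! The structure of large sets without a zero-sum `n`-subset. -/

open Finset

set_option linter.unusedSectionVars false

namespace Pool.Agent.MP_f9a021_co.GT

variable {G : Type*} [AddCommGroup G] [Fintype G] [DecidableEq G] {n : ℕ} [NeZero n]

lemma pw {l : ℕ} (hl : 2000 ≤ l) (c a b : ℕ) (hc : c ≤ 2000) (hab : a < b) : c * l ^ a ≤ l ^ b :=
  calc c * l ^ a ≤ l * l ^ a := Nat.mul_le_mul_right _ (by omega)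
    _ = l ^ (a + 1) := by ring
    _ ≤ l ^ b := Nat.pow_le_pow_right (by omega) hab

lemma eta_facts {l η n : ℕ} (hl : 2000 ≤ l) (hn : l ^ 40 ≤ n) (hη : η = (n / l ^ 5 + 1) * l ^ 4) :
    n ≤ η * l ∧ η * l ≤ 2 * n ∧ l ^ 39 ≤ η := by
  have h0 : 0 < l ^ 5 := by positivity
  have h1 : η * l = n / l ^ 5 * l ^ 5 + l ^ 5 := by rw [hη]; ring
  have h2 := Nat.div_mul_le_self n (l ^ 5)
  have h3 := Nat.lt_div_mul_add (a := n) h0
  have h4 : l ^ 5 ≤ l ^ 40 := Nat.pow_le_pow_right (by omega) (by norm_num)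
  refine ⟨by omega, by omega, Nat.le_of_mul_le_mul_right ?_ (show 0 < l by omega)⟩
  rw [show l ^ 39 * l = l ^ 40 by ring]; omega

lemma arc_two (K : AddSubgroup G) (φ : G →+ ZMod n) {w W r : ℕ} (hw : w ≤ W) {x x' b : G}
    (hx : |(φ (x - b)).valMinAbs| ≤ w) (hx' : |(φ (x' - b)).valMinAbs| ≤ w) (hne : φ x ≠ φ x')
    (hK : x - x' ∈ K) (hr : r * (4 * W) ≤ n) (a : G) (X : Finset G)
    (hX : ∀ x ∈ X, x - a ∈ K ∧ |(φ (x - a)).valMinAbs| ≤ W) : X.card * r ≤ Nat.card K := by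
  have e : φ (x - x') = (((φ (x - b)).valMinAbs - (φ (x' - b)).valMinAbs : ℤ) : ZMod n) := by
    push_cast
    rw [← map_sub]; congr 1; abel
  refine arc_card K φ hK ?_ ?_ e hr a X hX
  · intro h0
    rw [h0, map_sub, Int.cast_zero, sub_eq_zero] at e
    exact hne e
  · have : (w : ℤ) ≤ W := by exact_mod_cast hw
    rw [abs_le] at *
    constructor <;> linarith [hx.1, hx.2, hx'.1, hx'.2]

lemma stage1 (hsep : ∀ x : G, x ≠ 0 → ∃ φ : G →+ ZMod n, φ x ≠ 0) {l η : ℕ} (hl : 2000 ≤ l)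
    (hn : l ^ 40 ≤ n) (hη : η = (n / l ^ 5 + 1) * l ^ 4) (hG : Nat.card G ≤ 2 ^ l) (A : Finset G)
    (h1 : n + 100 * η ≤ A.card) (h2 : A.card ≤ 3 * n)
    (hf : ∀ U ⊆ A, U.card = n → ∑ x ∈ U, x ≠ 0) :
    ∃ φ : G →+ ZMod n, ∃ a : G, ∃ Z ⊆ A, A.card ≤ Z.card + 21 * η ∧
      (∀ x ∈ Z, |(φ (x - a)).valMinAbs| ≤ (l ^ 5 : ℕ)) ∧ ∃ x ∈ Z, ∃ x' ∈ Z, φ x ≠ φ x' := by
  obtain ⟨e1, e2, e3⟩ := eta_facts hl hn hη
  set u := n / l ^ 5 + 1 with hu
  have hu0 : 1 ≤ u := Nat.le_add_left _ _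
  have e4 : η * l = u * l ^ 5 := by rw [hη]; ring
  have hT : (2 * u * l ^ 2 + 1) * (2 * l + 1) ≤ 9 * (u * l ^ 3) := by
    have : 1 ≤ u * l ^ 2 := Nat.one_le_iff_ne_zero.2 (by positivity)
    calc (2 * u * l ^ 2 + 1) * (2 * l + 1) ≤ (3 * (u * l ^ 2)) * (3 * l) :=
          Nat.mul_le_mul (by rw [mul_assoc]; omega) (by omega)
      _ = _ := by ring
  have e5 : 9 * (u * l ^ 3) ≤ η := by
    rw [hη, mul_left_comm]; exact Nat.mul_le_mul_left _ (pw hl 9 3 4 (by norm_num) (by norm_num))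
  have e6 : 3 * n / l ^ 2 ≤ 3 * (u * l ^ 3) :=
    Nat.div_le_of_le_mul (by rw [show l ^ 2 * (3 * (u * l ^ 3)) = 3 * (u * l ^ 5) by ring]; omega)
  have e7 : 21 * (u * l ^ 3) * l = 21 * η := by rw [hη]; ring
  have e8 : η * 2000 ≤ η * l := Nat.mul_le_mul_left _ hl
  have e9 : 0 < n := NeZero.pos n
  have e10 : 2 ≤ n := by
    have := pw hl 2 0 40 (by norm_num) (by norm_num)
    rw [pow_zero] at this
    omega
  rcases dich hsep (u := u) (v := l ^ 2) (w := l ^ 5) (I := l) (m := A.card - 21 * η)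
    (ρ := 21 * (u * l ^ 3)) (M := 3 * n) (by omega) (by positivity) rfl (by omega) (by omega) l
    le_rfl ⊤ A (fun _ _ _ _ => AddSubgroup.mem_top _) (by rwa [AddSubgroup.card_top]) h2
    (by omega) with ⟨K, -, A₁, k1, k2, k3, P, k4, k5, s, k6⟩ | ⟨φ, a, -, Z, k1, k2, k3⟩
  · obtain ⟨U, u1, u2, u3⟩ := fill_done (nsmul_eq_zero_of_sep hsep) K A₁ k3 (by omega) (by omega)
      e9 P k4 k5 s k6
    exact absurd u3 (hf U (u1.trans k1) u2)
  · exact ⟨φ, a, Z, k1, by omega, k3⟩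

lemma stage2 (hsep : ∀ x : G, x ≠ 0 → ∃ φ : G →+ ZMod n, φ x ≠ 0) {l η : ℕ} (hl : 2000 ≤ l)
    (hn : l ^ 40 ≤ n) (hη : η = (n / l ^ 5 + 1) * l ^ 4) (hG : Nat.card G ≤ 2 ^ l)
    (H : AddSubgroup G) (hH : Nat.card H ≤ 16 * l ^ 5 * n) (V : Finset G)
    (hd : ∀ x ∈ V, ∀ x' ∈ V, x - x' ∈ H) (h1 : n ≤ V.card * (3 * l ^ 5)) (h2 : V.card ≤ 3 * n) :
    ∃ L ≤ H, ∃ A ⊆ V, V.card ≤ A.card + 4 * η ∧ V.card ≤ 2 * A.card ∧
      (∀ x ∈ A, ∀ x' ∈ A, x - x' ∈ L) ∧ ∃ T ≤ l ^ 16, ∃ P ⊆ A, P.card = 2 * T ∧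
        ∃ s : G, Fill P T s L := by
  obtain ⟨e1, e2, e3⟩ := eta_facts hl hn hη
  have hl0 : 0 < l := by omega
  obtain ⟨T, hT⟩ : ∃ T, T = (2 * l ^ 12 * l ^ 2 + 1) * (2 * l + 1) := ⟨_, rfl⟩
  have hT1 : T ≤ 9 * l ^ 15 := by
    have : 1 ≤ l ^ 12 * l ^ 2 := Nat.one_le_iff_ne_zero.2 (by positivity)
    calc T ≤ (3 * (l ^ 12 * l ^ 2)) * (3 * l) := by
          rw [hT]; exact Nat.mul_le_mul (by rw [mul_assoc]; omega) (by omega)
      _ = _ := by ring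
  have hT2 := pw hl 9 15 16 (by norm_num) (by norm_num)
  have hT3 : T * l ≤ l ^ 17 := by rw [pow_succ l 16]; exact Nat.mul_le_mul_right _ (by omega)
  have hV : l ^ 34 ≤ V.card := by
    refine Nat.le_of_mul_le_mul_right ?_ (show 0 < 3 * l ^ 5 by positivity)
    have := pw hl 3 39 40 (by norm_num) (by norm_num)
    rw [show l ^ 34 * (3 * l ^ 5) = 3 * l ^ 39 by ring]; omega
  have f1 : V.card / l ^ 2 * l * l ≤ V.card := by
    rw [mul_assoc, ← sq]; exact Nat.div_mul_le_self _ _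
  have f2 : V.card / l ^ 2 * l ≤ 3 * η :=
    Nat.le_of_mul_le_mul_right (by rw [mul_assoc 3]; omega) hl0
  have f3 : V.card / l ^ 2 * l * 2000 ≤ V.card / l ^ 2 * l * l := Nat.mul_le_mul_left _ hl
  have f4 := pw hl 100 17 34 (by norm_num) (by norm_num)
  have f5 := pw hl 2 17 39 (by norm_num) (by norm_num)
  have f6 := pw hl 1 16 17 (by norm_num) (by norm_num)
  have f7 := pw hl 1 0 17 (by norm_num) (by norm_num)
  rw [pow_zero] at f7
  have f8 : (2 * T + V.card / l ^ 2) * l = 2 * (T * l) + V.card / l ^ 2 * l := by ring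
  have f9 : n ≤ l ^ 12 * (n / l ^ 12 + 1) := by
    have := Nat.lt_div_mul_add (a := n) (show 0 < l ^ 12 by positivity)
    rw [mul_add, mul_one, mul_comm]; omega
  have hHG : Nat.card H ≤ 2 ^ l := (AddSubgroup.card_le_card_addGroup H).trans hG
  rcases dich hsep (u := l ^ 12) (v := l ^ 2) (w := n / l ^ 12 + 1) (I := l)
    (m := V.card - (2 * T + V.card / l ^ 2) * l) (ρ := 2 * T + V.card / l ^ 2) (M := V.card)
    f9 (by positivity) hT (by omega) le_rfl l le_rfl H V hd hHG le_rfl (by omega) with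
    ⟨L, k0, A, k1, k2, k3, k4⟩ | ⟨ψ, a, ha, A, k1, k2, k3, x, hx, x', hx', hne⟩
  · exact ⟨L, k0, A, k1, by omega, by omega, k3, T, by omega, k4⟩
  exfalso
  have g1 : l ^ 11 * (4 * (n / l ^ 12 + 1)) ≤ n := by
    have g2 : n / l ^ 12 * l ^ 11 * l ≤ n := by
      rw [mul_assoc, ← pow_succ]; exact Nat.div_mul_le_self _ _
    have g3 : n / l ^ 12 * l ^ 11 * 2000 ≤ n / l ^ 12 * l ^ 11 * l := Nat.mul_le_mul_left _ hl
    have g4 := pw hl 8 11 40 (by norm_num) (by norm_num)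
    rw [show l ^ 11 * (4 * (n / l ^ 12 + 1)) = 4 * (n / l ^ 12 * l ^ 11) + 4 * l ^ 11 by ring]
    omega
  have g5 := arc_two H ψ le_rfl (k3 x hx) (k3 x' hx') hne (hd x (k1 hx) x' (k1 hx')) g1 a A
    (fun y hy => ⟨hd y (k1 hy) a ha, k3 y hy⟩)
  have g6 : n * l ^ 11 ≤ n * (96 * l ^ 10) :=
    calc n * l ^ 11 ≤ V.card * (3 * l ^ 5) * l ^ 11 := Nat.mul_le_mul_right _ h1
      _ ≤ 2 * A.card * (3 * l ^ 5) * l ^ 11 := by gcongr; omega
      _ = 6 * l ^ 5 * (A.card * l ^ 11) := by ring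
      _ ≤ 6 * l ^ 5 * (16 * l ^ 5 * n) := Nat.mul_le_mul_left _ (g5.trans hH)
      _ = _ := by ring
  have g7 := Nat.le_of_mul_le_mul_left g6 (NeZero.pos n)
  have g8 := pw hl 97 10 11 (by norm_num) (by norm_num)
  have g9 : 0 < l ^ 10 := by positivity
  omega

lemma fill_core (hG : ∀ x : G, n • x = 0) (K : AddSubgroup G) (P S : Finset G) (p s : G) {T : ℕ}
    (hP : ∀ x ∈ P, x - p ∈ K) (hF : Fill P T s K) (hd : Disjoint S P) (hc : S.card + T = n)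
    (hS : ∑ x ∈ S, (x - p) ∈ K) : ∃ U ⊆ S ∪ P, U.card = n ∧ ∑ x ∈ U, x = 0 := by
  obtain ⟨S₀, k1, k2, k3⟩ := hF 0 K.zero_mem
  have e2 := sum_sub_mem K S₀ p fun x hx => hP x (k1 hx)
  rw [k2, k3, add_zero] at e2
  rw [Finset.sum_sub_distrib, Finset.sum_const] at hS
  have e3 : -(∑ x ∈ S, x + s) ∈ K := by
    have := K.neg_mem (K.add_mem hS e2)
    have e4 : S.card • p + T • p = 0 := by rw [← add_nsmul, hc, hG]
    rwa [show ∑ x ∈ S, x - S.card • p + (s - T • p) =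
      ∑ x ∈ S, x + s - (S.card • p + T • p) by abel, e4, sub_zero] at this
  obtain ⟨S₁, l1, l2, l3⟩ := hF _ e3
  have hdis : Disjoint S S₁ := hd.mono_right l1
  refine ⟨S ∪ S₁, Finset.union_subset_union subset_rfl l1, ?_, ?_⟩
  · rw [Finset.card_union_of_disjoint hdis]; omega
  · rw [Finset.sum_union hdis, l3]; abel

lemma card_image_quot (L : AddSubgroup G) [DecidableEq (G ⧸ L)] (X : Finset G)
    (hX : ∀ x ∈ X, ∀ k ∈ L, x + k ∈ X) :
    Nat.card L * (X.image (QuotientAddGroup.mk' L)).card ≤ X.card := by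
  classical
  refine Finset.mul_card_image_le_card _ _ fun c hc => ?_
  obtain ⟨x, hx, rfl⟩ := Finset.mem_image.1 hc
  rw [← card_filter_mem L]
  refine Finset.card_le_card_of_injOn (fun k => x + k) (fun k hk => ?_)
    (fun _ _ _ _ h => add_left_cancel h)
  have hk' : k ∈ L := by simpa using hk
  simp only [Finset.coe_filter, Set.mem_ofPred_eq]
  refine ⟨hX x hx k hk', ?_⟩
  rw [map_add, QuotientAddGroup.mk'_apply L k, (QuotientAddGroup.eq_zero_iff k).2 hk', add_zero]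

end Pool.Agent.MP_f9a021_co.GT
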