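import Pool.Agent.MP_f9a021_co.GT4

/-! The structure theorem. -/

open Finset

set_option linter.unusedSectionVars false

namespace Pool.Agent.MP_f9a021_co.GT

variable {G : Type*} [AddCommGroup G] [Fintype G] [DecidableEq G] {n : ℕ} [NeZero n]

/-- Most of `A` lies in a short progression of cosets, and the position sums avoid the period. -/
def Str (n η c : ℕ) (A : Finset G) : Prop :=
  ∃ (L : AddSubgroup G) (e p : G) (W : Finset G) (y : G → ℤ) (n' B : ℕ) (β : ℤ), W ⊆ A ∧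
    A.card ≤ W.card + c * η ∧ (∀ x ∈ W, x - p - y x • e ∈ L) ∧ (∀ x ∈ W, |y x| ≤ B) ∧
    (∀ α : ℤ, (W.filter (fun x => y x = α)).card ≤ n + 5 * η) ∧ n' ≤ n ∧ n ≤ n' + η ∧
    (∀ α : ℤ, |α| ≤ B → |β - ((n : ℤ) - n') * α| ≤ η) ∧
    ∀ S ⊆ W, S.card = n' → ∀ k : ℤ,
      2 * (B : ℤ) < |∑ x ∈ S, y x + β - k * (addOrderOf (e : G ⧸ L) : ℕ)|

lemma short_words {Q : Type*} [AddCommGroup Q] {D : Set (Q × ℤ)} (h0 : (0 : Q × ℤ) ∈ D)
    (hneg : ∀ d ∈ D, -d ∈ D) {δ : Q × ℤ} (hδ : δ ∈ D) (hδ0 : δ.2 ≠ 0) {b : ℕ}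
    (hb : ∀ d ∈ D, |d.2| ≤ b) (Y : Finset (Q × ℤ))
    (hY : ∀ γ ∈ AddSubgroup.closure D, 0 ≤ γ.2 → γ.2 ≤ b → γ ∈ Y) {c J : ℕ}
    (hJ : Y.card + (c + Y.card * b) ≤ J) (τ : Q × ℤ) (hτ : τ ∈ AddSubgroup.closure D)
    (hc : |τ.2| ≤ c) : Wd D J τ := by
  obtain ⟨k, hk⟩ := words h0 hneg δ Y (fun γ hγ => ⟨γ.2 / δ.2, hY _
    (AddSubgroup.sub_mem _ hγ (AddSubgroup.zsmul_mem _ (AddSubgroup.subset_closure hδ) _)) (by
      have := Int.emod_nonneg γ.2 hδ0
      rw [Int.emod_def] at this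
      simpa [mul_comm] using this) (by
      have := (Int.emod_lt_abs γ.2 hδ0).le.trans (hb δ hδ)
      rw [Int.emod_def] at this
      simpa [mul_comm] using this)⟩) τ hτ
  have h1 := Wd.bound (AddMonoidHom.snd Q ℤ) hb _ _ hk
  have h2 := hk.add _ _ (Wd.zsmul hδ (hneg δ hδ) k)
  rw [sub_add_cancel] at h2
  refine h2.mono h0 (le_trans (Nat.add_le_add_left ?_ _) hJ)
  have h3 : |τ.2 - k * δ.2| ≤ Y.card * b := by simpa using h1
  have h4 : |k| ≤ |k * δ.2| := by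
    rw [abs_mul]; exact le_mul_of_one_le_right (abs_nonneg _) (Int.one_le_abs hδ0)
  have h5 : |k * δ.2| ≤ c + Y.card * b := by
    rw [abs_le] at *; constructor <;> linarith [h3.1, h3.2, hc.1, hc.2]
  have h6 := h4.trans h5
  rw [Int.abs_eq_natAbs] at h6
  exact_mod_cast h6

lemma stage3 (hG : ∀ x : G, n • x = 0) {l η : ℕ} (hl : 2000 ≤ l)
    (hn : l ^ 40 ≤ n) (hη : η = (n / l ^ 5 + 1) * l ^ 4) (φ : G →+ ZMod n) (a : G) (Z : Finset G)
    (hZ : ∀ x ∈ Z, |(φ (x - a)).valMinAbs| ≤ (l ^ 5 : ℕ)) (hZc : n + 79 * η ≤ Z.card)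
    (hlev : ∀ z : ℤ, (Z.filter (fun x => (φ (x - a)).valMinAbs = z)).card ≤ n + 5 * η)
    (hX : ∀ X : Finset G, (∀ x ∈ X, |(φ x).valMinAbs| ≤ (2 * l ^ 5 : ℕ)) →
      X.card ≤ 16 * l ^ 5 * n)
    (L : AddSubgroup G) (hL : L ≤ φ.ker) (A : Finset G) (hA : A ⊆ Z)
    (hAc : n ≤ A.card * (6 * l ^ 5)) (hd : ∀ x ∈ A, ∀ x' ∈ A, x - x' ∈ L) {T : ℕ}
    (hT : T ≤ l ^ 16) (P : Finset G) (hP : P ⊆ A) (hPc : P.card = 2 * T) (s : G)
    (hF : Fill P T s L) (hf : ∀ U ⊆ Z, U.card = n → ∑ x ∈ U, x ≠ 0) : Str n η 1 Z := by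
  classical
  obtain ⟨e1, e2, e3⟩ := eta_facts hl hn hη
  have e8 : η * 2000 ≤ η * l := Nat.mul_le_mul_left _ hl
  set π := QuotientAddGroup.mk' L with hπ
  set φb : G ⧸ L →+ ZMod n := QuotientAddGroup.lift L φ (fun x hx => hL hx) with hφb
  have hφπ : ∀ x, φb (π x) = φ x := fun x => rfl
  set ι : G ⧸ L → (G ⧸ L) × ℤ := fun q => (q, (φb q).valMinAbs) with hι
  set κ : G → (G ⧸ L) × ℤ := fun x => ι (π (x - a)) with hκ
  have hκ1 : ∀ x, (κ x).1 = π (x - a) := fun x => rfl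
  have hκ2 : ∀ x, (κ x).2 = (φ (x - a)).valMinAbs := fun x => rfl
  set X := univ.filter (fun x : G => |(φ x).valMinAbs| ≤ (2 * l ^ 5 : ℕ)) with hXd
  set Y := (X.image π).image ι with hYd
  have hYc : Y.card ≤ l ^ 11 := by
    have h1 := card_image_quot L X (fun x hx k hk => by
      have hk' : φ k = 0 := hL hk
      simpa [hXd, hk'] using hx)
    have h2 := hX X (fun x hx => (Finset.mem_filter.1 hx).2)
    have h3 := card_le_of_diff L A hd
    have h4 : Nat.card L * (X.image π).card ≤ Nat.card L * (96 * l ^ 10) :=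
      calc _ ≤ 16 * l ^ 5 * n := h1.trans h2
        _ ≤ 16 * l ^ 5 * (Nat.card L * (6 * l ^ 5)) :=
          Nat.mul_le_mul_left _ (hAc.trans (Nat.mul_le_mul_right _ h3))
        _ = _ := by ring
    have h5 := Nat.le_of_mul_le_mul_left h4 Nat.card_pos
    exact Finset.card_image_le.trans (h5.trans (pw hl 96 10 11 (by norm_num) (by norm_num)))
  have hκY : ∀ x ∈ Z, κ x ∈ Y := fun x hx =>
    Finset.mem_image_of_mem _ (Finset.mem_image_of_mem _ (Finset.mem_filter.2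
      ⟨Finset.mem_univ _, (hZ x hx).trans (by push_cast; have : (0 : ℤ) ≤ l ^ 5 := by positivity
                                              linarith)⟩))
  obtain ⟨J, hJ⟩ : ∃ J, J = l ^ 17 := ⟨_, rfl⟩
  set C := Y.filter (fun c => 2 * J ≤ ((Z \ P).filter (fun x => κ x = c)).card) with hC
  set H := (Z \ P).filter (fun x => κ x ∈ C) with hH
  have hHZ : H ⊆ Z := (Finset.filter_subset _ _).trans Finset.sdiff_subset
  have hCJ : C.card * J ≤ l ^ 28 := by
    rw [hJ, show l ^ 28 = l ^ 11 * l ^ 17 by ring]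
    exact Nat.mul_le_mul_right _ ((Finset.card_filter_le _ _).trans hYc)
  have hHc : Z.card ≤ H.card + (2 * T + 2 * l ^ 28) := by
    have h1 : (Z \ P).card + P.card = Z.card := Finset.card_sdiff_add_card_eq_card (hP.trans hA)
    have h2 := Finset.card_filter_add_card_filter_not (s := Z \ P) (fun x => κ x ∈ C)
    have h3 := Finset.card_le_mul_card_image (f := κ) ((Z \ P).filter (fun x => ¬ κ x ∈ C)) (2 * J)
      (fun c hc => by
        obtain ⟨x, hx, rfl⟩ := Finset.mem_image.1 hc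
        obtain ⟨x1, x2⟩ := Finset.mem_filter.1 hx
        rw [hC, Finset.mem_filter, not_and, not_le] at x2
        refine le_trans (Finset.card_le_card ?_) (x2 (hκY x (Finset.sdiff_subset x1))).le
        exact Finset.filter_subset_filter _ (Finset.filter_subset _ _))
    have h4 : (((Z \ P).filter (fun x => ¬ κ x ∈ C)).image κ).card ≤ l ^ 11 :=
      (Finset.card_le_card (Finset.image_subset_iff.2 fun x hx =>
        hκY x (Finset.sdiff_subset (Finset.filter_subset _ _ hx)))).trans hYc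
    have h5 : 2 * J * l ^ 11 = 2 * l ^ 28 := by rw [hJ]; ring
    have h6 := h3.trans (Nat.mul_le_mul_left _ h4)
    rw [← hH] at h2
    omega
  have hfib : ∀ c ∈ C, 2 * J ≤ (H.filter (fun x => κ x = c)).card := by
    intro c hc
    refine (Finset.mem_filter.1 hc).2.trans (Finset.card_le_card fun x hx => ?_)
    obtain ⟨x1, x2⟩ := Finset.mem_filter.1 hx
    exact Finset.mem_filter.2 ⟨Finset.mem_filter.2 ⟨x1, x2 ▸ hc⟩, x2⟩
  obtain ⟨R, r1, r2, r3⟩ := reserve κ H J C (fun c hc => by have := hfib c hc; omega)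
  obtain ⟨R', r1', r2', r3'⟩ := reserve κ (H \ R) J C (fun c hc => by
    have h1 := hfib c hc
    have h2 := r3 c hc
    have h3 : H.filter (fun x => κ x = c) ⊆
        (H \ R).filter (fun x => κ x = c) ∪ R.filter (fun x => κ x = c) := by
      rw [← Finset.filter_union]
      exact Finset.filter_subset_filter _ (Finset.subset_union_left.trans
        (Finset.sdiff_union_self_eq_union).ge)
    have h4 := (Finset.card_le_card h3).trans (Finset.card_union_le _ _)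
    omega)
  have b1 := pw hl 3 16 28 (by norm_num) (by norm_num)
  have b2 := pw hl 10 28 39 (by norm_num) (by norm_num)
  have b3 := pw hl 1 16 17 (by norm_num) (by norm_num)
  obtain ⟨p, hp, hpP⟩ : ∃ p ∈ H, ∀ x ∈ P, x - p ∈ L := by
    have h1 : (A \ P).card + P.card = A.card := Finset.card_sdiff_add_card_eq_card hP
    have h2 : 5 * l ^ 17 ≤ A.card := by
      refine Nat.le_of_mul_le_mul_right ?_ (show 0 < 6 * l ^ 5 by positivity)
      have := pw hl 30 22 40 (by norm_num) (by norm_num)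
      rw [show 5 * l ^ 17 * (6 * l ^ 5) = 30 * l ^ 22 by ring]; omega
    have h3 : 0 < l ^ 17 := by positivity
    obtain ⟨p, hp⟩ : (A \ P).Nonempty := Finset.card_pos.1 (by omega)
    have hp' := Finset.sdiff_subset_sdiff hA subset_rfl hp
    refine ⟨p, Finset.mem_filter.2 ⟨hp', Finset.mem_filter.2 ⟨hκY p (Finset.sdiff_subset hp'),
      le_trans (by omega) (Finset.card_le_card (s := A \ P) fun x hx => ?_)⟩⟩,
      fun x hx => hd x (hP hx) p (Finset.sdiff_subset hp)⟩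
    refine Finset.mem_filter.2 ⟨Finset.sdiff_subset_sdiff hA subset_rfl hx, ?_⟩
    have : π (x - a) = π (p - a) := by
      rw [← sub_eq_zero, ← map_sub, sub_sub_sub_cancel_right]
      exact (QuotientAddGroup.eq_zero_iff _).2
        (hd x (Finset.sdiff_subset hx) p (Finset.sdiff_subset hp))
    simp only [hκ, this]
  set D : Set ((G ⧸ L) × ℤ) := {d | ∃ u ∈ H, ∃ u' ∈ H, d = κ u - κ u'} with hD
  have hD0 : (0 : (G ⧸ L) × ℤ) ∈ D := ⟨p, hp, p, hp, (sub_self _).symm⟩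
  have hDn : ∀ d ∈ D, -d ∈ D := by
    rintro _ ⟨u, hu, u', hu', rfl⟩; exact ⟨u', hu', u, hu, neg_sub _ _⟩
  have hDb : ∀ d ∈ D, |d.2| ≤ (2 * l ^ 5 : ℕ) := by
    rintro _ ⟨u, hu, u', hu', rfl⟩
    have h1 := hZ u (hHZ hu)
    have h2 := hZ u' (hHZ hu')
    rw [Prod.snd_sub, hκ2, hκ2]
    push_cast at h1 h2 ⊢
    rw [abs_le] at *
    constructor <;> linarith [h1.1, h1.2, h2.1, h2.2]
  set Δ := AddSubgroup.closure D with hΔ
  have hΔφ : ∀ γ ∈ Δ, φb γ.1 = (γ.2 : ZMod n) := by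
    intro γ hγ
    induction hγ using AddSubgroup.closure_induction with
    | mem x hx =>
      obtain ⟨u, -, u', -, rfl⟩ := hx
      simp only [Prod.fst_sub, Prod.snd_sub, hκ1, hκ2, map_sub φb, hφπ]
      push_cast; rfl
    | zero => simp
    | add x y _ _ h1 h2 => simp [h1, h2]
    | neg x _ h1 => simp [h1]
  obtain ⟨u₀, hu₀, hne⟩ : ∃ u ∈ H, (κ u).2 ≠ (κ p).2 := by
    by_contra hc
    push Not at hc
    have h1 := hlev (κ p).2
    have h2 : H ⊆ Z.filter (fun x => (φ (x - a)).valMinAbs = (κ p).2) :=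
      fun x hx => Finset.mem_filter.2 ⟨hHZ hx, hc x hx⟩
    have h3 := Finset.card_le_card h2
    have h4 : 0 < l ^ 39 := by positivity
    omega
  have hδ : κ u₀ - κ p ∈ D := ⟨u₀, hu₀, p, hp, rfl⟩
  have hδ0 : (κ u₀ - κ p).2 ≠ 0 := sub_ne_zero.2 hne
  have hW : ∀ τ ∈ Δ, |τ.2| ≤ (8 * l ^ 10 : ℕ) → Wd D J τ := by
    refine short_words hD0 hDn hδ hδ0 hDb Y (fun γ hγ g1 g2 => ?_) ?_
    · obtain ⟨x, hx⟩ := QuotientAddGroup.mk'_surjective L γ.1
      have h1 : (φb γ.1).valMinAbs = γ.2 := by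
        rw [ZMod.valMinAbs_spec]
        have h2 : ((4 * l ^ 5 : ℕ) : ℤ) ≤ n := by
          exact_mod_cast (pw hl 4 5 40 (by norm_num) (by norm_num)).trans hn
        have h3 : (0 : ℤ) < n := by exact_mod_cast NeZero.pos n
        push_cast at h2 g2
        exact ⟨hΔφ γ hγ, by linarith, by linarith⟩
      refine Finset.mem_image.2 ⟨γ.1, Finset.mem_image.2 ⟨x, Finset.mem_filter.2
        ⟨Finset.mem_univ _, ?_⟩, hx⟩, Prod.ext rfl h1⟩
      rw [← hφπ, hπ, hx, h1, abs_of_nonneg g1]; exact g2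
    · have h1 : Y.card * (2 * l ^ 5) ≤ 2 * l ^ 16 := by
        rw [show 2 * l ^ 16 = l ^ 11 * (2 * l ^ 5) by ring]; exact Nat.mul_le_mul_right _ hYc
      have h2 := pw hl 8 10 16 (by norm_num) (by norm_num)
      have h3 := pw hl 1 11 16 (by norm_num) (by norm_num)
      have h4 := pw hl 4 16 17 (by norm_num) (by norm_num)
      omega
  obtain ⟨g, hg⟩ := Int.subgroup_cyclic (Δ.map (AddMonoidHom.snd _ _))
  have hgd : ∀ γ ∈ Δ, γ.2 / g * g = γ.2 := by
    intro γ hγ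
    have h1 : γ.2 ∈ Δ.map (AddMonoidHom.snd _ _) := ⟨γ, hγ, rfl⟩
    rw [hg, AddSubgroup.mem_closure_singleton] at h1
    obtain ⟨k, hk⟩ := h1
    exact Int.ediv_mul_cancel ⟨k, by rw [← hk, smul_eq_mul, mul_comm]⟩
  obtain ⟨ε, hε, hεg⟩ : g ∈ Δ.map (AddMonoidHom.snd _ _) := by
    rw [hg]; exact AddSubgroup.subset_closure rfl
  have hεg' : ε.2 = g := hεg
  have hg0 : g ≠ 0 := by
    rintro rfl
    have := hgd _ (AddSubgroup.subset_closure hδ)
    rw [mul_zero] at this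
    exact hδ0 this.symm
  have hgb : |g| ≤ 2 * l ^ 5 := by
    have h1 := hgd _ (AddSubgroup.subset_closure hδ)
    have h2 := hDb _ hδ
    have h3 : (κ u₀ - κ p).2 / g ≠ 0 := fun h => hδ0 (by rw [← h1, h, zero_mul])
    rw [← h1, abs_mul] at h2
    push_cast at h2
    exact (le_mul_of_one_le_left (abs_nonneg _) (Int.one_le_abs h3)).trans h2
  obtain ⟨e, he⟩ := QuotientAddGroup.mk'_surjective L ε.1
  set L' := Δ.comap ((AddMonoidHom.inl (G ⧸ L) ℤ).comp π) with hL'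
  have hL'm : ∀ x, x ∈ L' ↔ (π x, (0 : ℤ)) ∈ Δ := fun x => Iff.rfl
  set y : G → ℤ := fun x => (κ x - κ p).2 / g with hy
  have hmem : ∀ x ∈ H, κ x - κ p ∈ Δ := fun x hx => AddSubgroup.subset_closure ⟨x, hx, p, hp, rfl⟩
  have hyg : ∀ x ∈ H, y x * g = (κ x - κ p).2 := fun x hx => hgd _ (hmem x hx)
  have hyb : ∀ x ∈ H, |y x| ≤ (2 * l ^ 5 : ℕ) := by
    intro x hx
    have h2 := hDb _ ⟨x, hx, p, hp, rfl⟩
    rw [← hyg x hx, abs_mul] at h2
    exact (le_mul_of_one_le_right (abs_nonneg _) (Int.one_le_abs hg0)).trans h2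
  have hκp : ∀ x, (κ x - κ p).1 = π (x - p) := fun x => by
    rw [Prod.fst_sub, hκ1, hκ1, ← map_sub, sub_sub_sub_cancel_right]
  have hWH : (H \ R) \ R' ⊆ H := Finset.sdiff_subset.trans Finset.sdiff_subset
  have hRT : R.card + T ≤ 2 * l ^ 28 := by omega
  refine ⟨L', e, p, (H \ R) \ R', y, n - (R.card + T), 2 * l ^ 5, ∑ x ∈ R, y x, hWH.trans hHZ,
    ?_, fun x hx => ?_, fun x hx => hyb x (hWH hx), fun α => ?_, by omega, by omega,
    fun α hα => ?_, fun S hS hSc k => ?_⟩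
  · have h1 : (H \ R).card + R.card = H.card := Finset.card_sdiff_add_card_eq_card r1
    have h2 : ((H \ R) \ R').card + R'.card = (H \ R).card :=
      Finset.card_sdiff_add_card_eq_card r1'
    omega
  · rw [hL'm]
    have h1 := Δ.sub_mem (hmem x (hWH hx)) (Δ.zsmul_mem hε (y x))
    have h2 : κ x - κ p - y x • ε = (π (x - p - y x • e), 0) := by
      refine Prod.ext ?_ ?_
      · rw [Prod.fst_sub, hκp, map_sub π (x - p), map_zsmul, he]; rfl
      · rw [Prod.snd_sub, ← hyg x (hWH hx), Prod.smul_snd, hεg', smul_eq_mul, sub_self]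
    rwa [h2] at h1
  · refine le_trans (Finset.card_le_card fun x hx => ?_) (hlev ((κ p).2 + α * g))
    obtain ⟨x1, x2⟩ := Finset.mem_filter.1 hx
    refine Finset.mem_filter.2 ⟨hHZ (hWH x1), ?_⟩
    rw [← x2, hyg x (hWH x1), Prod.snd_sub, ← hκ2]; ring
  · rw [Nat.cast_sub (show R.card + T ≤ n by omega), sub_sub_cancel]
    have h1 : |∑ x ∈ R, y x| ≤ R.card * ((2 * l ^ 5 : ℕ) : ℤ) := by
      refine (Finset.abs_sum_le_sum_abs _ _).trans ?_
      rw [← nsmul_eq_mul]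
      exact Finset.sum_le_card_nsmul _ _ _ fun x hx => hyb x (r1 hx)
    have h2 : |((R.card + T : ℕ) : ℤ) * α| ≤ (R.card + T : ℕ) * ((2 * l ^ 5 : ℕ) : ℤ) := by
      rw [abs_mul, Nat.abs_cast]; exact mul_le_mul_of_nonneg_left hα (Nat.cast_nonneg _)
    have h3 : R.card * (2 * l ^ 5) + (R.card + T) * (2 * l ^ 5) ≤ η :=
      calc _ ≤ 2 * l ^ 28 * (2 * l ^ 5) + 2 * l ^ 28 * (2 * l ^ 5) := by gcongr; omega
        _ = 8 * l ^ 33 := by ring
        _ ≤ _ := (pw hl 8 33 39 (by norm_num) (by norm_num)).trans e3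
    have h4 : (R.card : ℤ) * ((2 * l ^ 5 : ℕ) : ℤ) + (R.card + T : ℕ) * ((2 * l ^ 5 : ℕ) : ℤ) ≤ η := by
      exact_mod_cast h3
    exact (abs_sub _ _).trans (by linarith)
  by_contra hk
  rw [not_lt] at hk
  set q := addOrderOf (e : G ⧸ L') with hq
  have hqΔ : ((0 : G ⧸ L), (q : ℤ) * g) ∈ Δ := by
    have h1 : q • e ∈ L' := by
      rw [← QuotientAddGroup.eq_zero_iff, QuotientAddGroup.mk_nsmul]
      exact addOrderOf_nsmul_eq_zero _
    have h2 := Δ.sub_mem (Δ.nsmul_mem hε q) ((hL'm _).1 h1)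
    have h3 : q • ε - (π (q • e), 0) = (0, (q : ℤ) * g) := by
      refine Prod.ext ?_ ?_
      · rw [Prod.fst_sub, map_nsmul, he]; exact sub_self _
      · rw [Prod.snd_sub, Prod.smul_snd, hεg', nsmul_eq_mul]; exact sub_zero _
    rwa [h3] at h2
  have hSH : S ⊆ H := hS.trans hWH
  set τ := k • ((0 : G ⧸ L), (q : ℤ) * g) - (∑ x ∈ S, (κ x - κ p) + ∑ x ∈ R, (κ x - κ p)) with hτ
  have hτΔ : τ ∈ Δ := Δ.sub_mem (Δ.zsmul_mem hqΔ k) (Δ.add_mem
    (Δ.sum_mem fun x hx => hmem x (hSH hx)) (Δ.sum_mem fun x hx => hmem x (r1 hx)))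
  have hτ2 : τ.2 = -((∑ x ∈ S, y x + ∑ x ∈ R, y x - k * q) * g) := by
    rw [hτ, Prod.snd_sub, Prod.snd_add, Prod.snd_sum, Prod.snd_sum,
      ← Finset.sum_congr rfl fun x hx => hyg x (hSH hx),
      ← Finset.sum_congr rfl fun x hx => hyg x (r1 hx), ← Finset.sum_mul, ← Finset.sum_mul,
      Prod.smul_snd, smul_eq_mul]
    ring
  obtain ⟨R₁, s1, s2, s3⟩ := realize κ H J R R' τ
    (Finset.disjoint_sdiff.mono_right r1') (fun u hu => (r3 _ (Finset.mem_filter.1 hu).2).ge)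
    (fun u hu => (r3' _ (Finset.mem_filter.1 hu).2).ge) (hW τ hτΔ (by
      rw [hτ2, abs_neg, abs_mul]
      push_cast at hk ⊢
      calc _ ≤ 2 * (2 * (l : ℤ) ^ 5) * (2 * l ^ 5) :=
            mul_le_mul hk hgb (abs_nonneg _) (by positivity)
        _ = _ := by ring))
  have hR₁ : R₁ ⊆ H := s1.trans (Finset.union_subset r1 (r1'.trans Finset.sdiff_subset))
  have hdis : Disjoint S R₁ := by
    refine Finset.disjoint_left.2 fun x hx hx' => ?_
    have := hS hx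
    have := s1 hx'
    simp only [Finset.mem_sdiff, Finset.mem_union] at *
    tauto
  obtain ⟨U, u1, u2, u3⟩ := fill_core hG L P (S ∪ R₁) p s hpP hF (Finset.disjoint_left.2
    fun x hx => (Finset.mem_sdiff.1 (Finset.filter_subset _ _
      (Finset.union_subset hSH hR₁ hx))).2) (by rw [Finset.card_union_of_disjoint hdis]; omega) (by
    rw [← QuotientAddGroup.eq_zero_iff, ← QuotientAddGroup.mk'_apply, ← hπ, map_sum,
      ← Finset.sum_congr rfl fun x _ => hκp x, ← Prod.fst_sum, Finset.sum_union hdis,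
      Finset.sum_sub_distrib (s := R₁), s3, Finset.sum_const, s2, hτ,
      Finset.sum_sub_distrib (s := R), Finset.sum_const]
    simp only [Prod.fst_add, Prod.fst_sub, Prod.smul_fst, smul_zero]
    abel)
  exact hf U (u1.trans (Finset.union_subset ((Finset.union_subset hSH hR₁).trans hHZ)
    (hP.trans hA))) u2 u3

theorem structure_thm (hsep : ∀ x : G, x ≠ 0 → ∃ φ : G →+ ZMod n, φ x ≠ 0) {l η : ℕ}
    (hl : 2000 ≤ l) (hn : l ^ 40 ≤ n) (hη : η = (n / l ^ 5 + 1) * l ^ 4)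
    (hG : Nat.card G ≤ 2 ^ l) (hG' : Nat.card G ≤ n * n) (A : Finset G)
    (h1 : n + 100 * η ≤ A.card) (h2 : A.card ≤ 3 * n)
    (hf : ∀ U ⊆ A, U.card = n → ∑ x ∈ U, x ≠ 0) : Str n η 22 A := by
  classical
  obtain ⟨e1, e2, e3⟩ := eta_facts hl hn hη
  have e8 : η * 2000 ≤ η * l := Nat.mul_le_mul_left _ hl
  have hG0 := nsmul_eq_zero_of_sep hsep
  obtain ⟨φ, a, Z, z1, z2, z3, x, hx, x', hx', hne⟩ := stage1 hsep hl hn hη hG A h1 h2 hf
  have hX : ∀ X : Finset G, (∀ x ∈ X, |(φ x).valMinAbs| ≤ (2 * l ^ 5 : ℕ)) →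
      X.card ≤ 16 * l ^ 5 * n := by
    intro X hX
    have h0 : 0 < 4 * (2 * l ^ 5) := by positivity
    have k1 := arc_two ⊤ φ (show l ^ 5 ≤ 2 * l ^ 5 by omega) (z3 x hx) (z3 x' hx') hne
      (AddSubgroup.mem_top _) (Nat.div_mul_le_self n (4 * (2 * l ^ 5))) 0 X
      (fun y hy => ⟨AddSubgroup.mem_top _, by rw [sub_zero]; exact hX y hy⟩)
    rw [AddSubgroup.card_top] at k1
    have k2 := Nat.lt_div_mul_add (a := n) h0
    have k3 : 1 ≤ n / (4 * (2 * l ^ 5)) := (Nat.le_div_iff_mul_le h0).2 (by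
      have := pw hl 8 5 40 (by norm_num) (by norm_num); omega)
    have k4 : 4 * (2 * l ^ 5) ≤ n / (4 * (2 * l ^ 5)) * (4 * (2 * l ^ 5)) :=
      Nat.le_mul_of_pos_left _ k3
    refine Nat.le_of_mul_le_mul_right ?_ (NeZero.pos n)
    calc X.card * n ≤ X.card * (2 * (n / (4 * (2 * l ^ 5)) * (4 * (2 * l ^ 5)))) :=
          Nat.mul_le_mul_left _ (by omega)
      _ = 16 * l ^ 5 * (X.card * (n / (4 * (2 * l ^ 5)))) := by ring
      _ ≤ 16 * l ^ 5 * (n * n) := Nat.mul_le_mul_left _ (k1.trans hG')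
      _ = _ := by ring
  have hH : Nat.card φ.ker ≤ 16 * l ^ 5 * n := by
    rw [← card_filter_mem]
    refine hX _ fun y hy => ?_
    rw [(AddMonoidHom.mem_ker.1 (Finset.mem_filter.1 hy).2 : φ y = 0)]
    simp
  set f : G → ℤ := fun x => (φ (x - a)).valMinAbs with hfd
  obtain ⟨z₀, -, hz₀⟩ := Finset.exists_max_image (Z.image f)
    (fun z => (Z.filter (fun x => f x = z)).card) ⟨f x, Finset.mem_image_of_mem _ hx⟩
  set V := Z.filter (fun x => f x = z₀) with hV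
  have hmax : ∀ z, (Z.filter (fun x => f x = z)).card ≤ V.card := by
    intro z
    by_cases hz : z ∈ Z.image f
    · exact hz₀ z hz
    · rw [Finset.filter_false_of_mem fun y hy h => hz (Finset.mem_image.2 ⟨y, hy, h⟩)]
      exact Nat.zero_le _
  have hVc : n ≤ V.card * (3 * l ^ 5) := by
    have k1 := Finset.card_le_mul_card_image (f := f) Z V.card hz₀
    have k2 : Z.image f ⊆ Finset.Icc (-((l ^ 5 : ℕ) : ℤ)) (l ^ 5 : ℕ) :=
      Finset.image_subset_iff.2 fun y hy => Finset.mem_Icc.2 (abs_le.1 (z3 y hy))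
    have k3 := Finset.card_le_card k2
    rw [Int.card_Icc] at k3
    have k4 : 0 < l ^ 5 := by positivity
    have k5 : V.card * (Z.image f).card ≤ V.card * (3 * l ^ 5) :=
      Nat.mul_le_mul_left _ (by omega)
    omega
  have hVZ : V ⊆ Z := Finset.filter_subset _ _
  obtain ⟨L, l1, A₁, a1, a2, a3, a4, T, hT, P, p1, p2, s, p3⟩ := stage2 hsep hl hn hη hG φ.ker hH V
    (fun y hy y' hy' => by
      have := ZMod.injective_valMinAbs
        ((Finset.mem_filter.1 hy).2.trans (Finset.mem_filter.1 hy').2.symm)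
      rw [AddMonoidHom.mem_ker, ← sub_sub_sub_cancel_right y y' a, map_sub, this, sub_self])
    hVc ((Finset.card_le_card (hVZ.trans z1)).trans h2)
  have b1 := pw hl 1 16 39 (by norm_num) (by norm_num)
  by_cases hc : n + 5 * η ≤ V.card
  · obtain ⟨U, u1, u2, u3⟩ := fill_done hG0 L A₁ a4 (by omega) (by omega) (NeZero.pos n) P p1 p2 s p3
    exact absurd u3 (hf U (u1.trans (a1.trans (hVZ.trans z1))) u2)
  obtain ⟨L', e, p, W, y, n', B, β, s1, s2, s3⟩ := stage3 hG0 hl hn hη φ a Z z3 (by omega)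
    (fun z => (hmax z).trans (by omega)) hX L l1 A₁ (a1.trans hVZ)
    (hVc.trans (by rw [show A₁.card * (6 * l ^ 5) = 2 * A₁.card * (3 * l ^ 5) by ring]; gcongr))
    a4 hT P p1 p2 s p3 (fun U hU => hf U (hU.trans z1))
  exact ⟨L', e, p, W, y, n', B, β, s1.trans z1, by omega, s3⟩

end Pool.Agent.MP_f9a021_co.GT
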