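import Pool.Agent.MP_f9a021_co.GT5

/-! Two adjacent nearly full levels. -/

open Finset

set_option linter.unusedSectionVars false

namespace Pool.Agent.MP_f9a021_co.GT

variable {α : Type*} [DecidableEq α]

lemma count3 (T : Finset α) (z : α → ℤ) (h : ∀ x ∈ T, 0 ≤ z x) :
    T.card = (T.filter (fun x => z x = 0)).card + (T.filter (fun x => z x = 1)).card +
      (T.filter (fun x => 2 ≤ z x)).card ∧
    ((T.filter (fun x => z x = 1)).card : ℤ) + 2 * (T.filter (fun x => 2 ≤ z x)).card ≤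
      ∑ x ∈ T, z x := by
  constructor
  · rw [Finset.card_eq_sum_ones, Finset.card_filter, Finset.card_filter, Finset.card_filter,
      ← Finset.sum_add_distrib, ← Finset.sum_add_distrib]
    refine Finset.sum_congr rfl fun x hx => ?_
    have := h x hx
    split_ifs <;> omega
  · rw [Finset.card_filter, Finset.card_filter]
    push_cast
    rw [Finset.mul_sum, ← Finset.sum_add_distrib]
    refine Finset.sum_le_sum fun x hx => ?_
    have := h x hx
    split_ifs <;> omega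

lemma no_mult (W : Finset α) (y : α → ℤ) {B n' : ℕ} {β q : ℤ} (hB : ∀ x ∈ W, |y x| ≤ B)
    (h : ∀ S ⊆ W, S.card = n' → ∀ k : ℤ, 2 * (B : ℤ) < |∑ x ∈ S, y x + β - k * q|)
    (S : Finset α) (hS : S ⊆ W) (hc : S.card = n') (S' : Finset α) (hS' : S' ⊆ W)
    (hc' : S'.card = n') (k : ℤ) :
    ¬ (∑ x ∈ S, y x + β ≤ k * q ∧ k * q ≤ ∑ x ∈ S', y x + β) := by
  rintro ⟨h1, h2⟩
  obtain ⟨T, t1, t2, t3⟩ := walk W y hB (Nat.cast_nonneg B) (k * q - β) S' hS' (by linarith) _ S hS
    (hc.trans hc'.symm) rfl (by linarith)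
  have := h T t1 (t2.trans hc') k
  rw [show ∑ x ∈ T, y x + β - k * q = ∑ x ∈ T, y x - (k * q - β) by ring] at this
  linarith

lemma lt_of_no_mult {a b q : ℤ} (hq : 0 < q) (h : ∀ k : ℤ, ¬ (a ≤ k * q ∧ k * q ≤ b)) :
    b - a < q := by
  by_contra hc
  have h1 := Int.ediv_mul_le b hq.ne'
  have h2 := Int.lt_ediv_add_one_mul_self b hq
  exact h (b / q) ⟨by linarith, h1⟩

lemma eq_of_dvd_of_lt {q n : ℕ} (h : q ∣ n) (hn : 0 < n) (h2 : n < 2 * q) : q = n := by
  obtain ⟨c, rfl⟩ := h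
  have h3 : c < 2 := by
    by_contra h; nlinarith
  have h4 : c ≠ 0 := by rintro rfl; simp at hn
  rw [show c = 1 by omega, mul_one]

lemma two_levels (W : Finset α) (y : α → ℤ) {B n n' η q : ℕ} {β : ℤ} (hq : q ∣ n) (hη0 : 0 < η)
    (hη : 1000 * η ≤ n) (hW : 2 * n ≤ W.card + 50 * η) (hB : ∀ x ∈ W, |y x| ≤ B)
    (hlev : ∀ a : ℤ, (W.filter (fun x => y x = a)).card ≤ n + 5 * η) (h1 : n' ≤ n)
    (h2 : n ≤ n' + η) (hβ : ∀ a : ℤ, |a| ≤ B → |β - ((n : ℤ) - n') * a| ≤ η)
    (h : ∀ S ⊆ W, S.card = n' → ∀ k : ℤ, 2 * (B : ℤ) < |∑ x ∈ S, y x + β - k * q|) :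
    q = n ∧ ∃ a : ℤ, 4 * n ≤ 5 * (W.filter (fun x => y x = a)).card ∧
      4 * n ≤ 5 * (W.filter (fun x => y x = a + 1)).card := by
  have hn0 : 0 < n := by omega
  have hq0 : 0 < q := Nat.pos_of_dvd_of_pos hq hn0
  have hqn : q ≤ n := Nat.le_of_dvd hn0 hq
  obtain ⟨s, hs⟩ : ∃ s, s + 50 * η = n := ⟨n - 50 * η, by omega⟩
  obtain ⟨W₀, w1, w2⟩ := Finset.exists_subset_card_eq (show n' + s ≤ W.card by omega)
  obtain ⟨T, t1, t2, t3⟩ := bottom W₀ y s (by omega)
  have c1 : (W₀ \ T).card + T.card = W₀.card := Finset.card_sdiff_add_card_eq_card t1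
  obtain ⟨T', t1', t2', t3'⟩ := bottom (W₀ \ T) (fun x => -y x) s (by omega)
  have c2 : ((W₀ \ T) \ T').card + T'.card = (W₀ \ T).card :=
    Finset.card_sdiff_add_card_eq_card t1'
  set M := (W₀ \ T) \ T' with hM
  obtain ⟨x₀, hx₀, hmax⟩ := Finset.exists_max_image T y (Finset.card_pos.1 (by omega))
  set a := y x₀ with ha
  have hup : ∀ x ∈ W₀ \ T, a ≤ y x := t3 x₀ hx₀
  have hE := abs_le.1 (hβ a (hB x₀ (w1 (t1 hx₀))))
  obtain ⟨k1, k2⟩ := count3 T (fun x => a - y x) (fun x hx => sub_nonneg.2 (hmax x hx))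
  obtain ⟨k1', k2'⟩ := count3 T' (fun x => y x - a) (fun x hx => sub_nonneg.2 (hup x (t1' hx)))
  have d1 : Disjoint T M := Finset.disjoint_sdiff.mono_right Finset.sdiff_subset
  have d2 : Disjoint T' M := Finset.disjoint_sdiff
  have d3 : Disjoint T T' := Finset.disjoint_sdiff.mono_right t1'
  have hMW : M ⊆ W := Finset.sdiff_subset.trans (Finset.sdiff_subset.trans w1)
  have hTW : T ⊆ W := t1.trans w1
  have hTW' : T' ⊆ W := t1'.trans (Finset.sdiff_subset.trans w1)
  obtain ⟨c, hc⟩ := hq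
  have hc' : (n : ℤ) = q * c := by exact_mod_cast hc
  have hno : ∀ k : ℤ, ¬ (-∑ x ∈ T, (a - y x) + ∑ x ∈ M, (y x - a) + (β - ((n : ℤ) - n') * a) ≤ k * q ∧
      k * q ≤ ∑ x ∈ T', (y x - a) + ∑ x ∈ M, (y x - a) + (β - ((n : ℤ) - n') * a)) := by
    intro k
    have := no_mult W y hB h (T ∪ M) (Finset.union_subset hTW hMW)
      (by rw [Finset.card_union_of_disjoint d1]; omega) (T' ∪ M) (Finset.union_subset hTW' hMW)
      (by rw [Finset.card_union_of_disjoint d2]; omega) (k + c * a)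
    rw [Finset.sum_union d1, Finset.sum_union d2] at this
    simp only [Finset.sum_sub_distrib, Finset.sum_const, nsmul_eq_mul, t2, t2']
    have e1 : (M.card : ℤ) = n' - s := by omega
    rw [e1]
    rintro ⟨l1, l2⟩
    have e2 : (k + c * a) * q = k * q + n * a := by rw [hc']; ring
    exact this ⟨by rw [e2]; linarith, by rw [e2]; linarith⟩
  have hlt := lt_of_no_mult (by exact_mod_cast hq0) hno
  have m0 : ∀ U ⊆ W, ∀ (P : α → Prop) [DecidablePred P] (b : ℤ), (∀ x, P x → y x = b) →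
      (U.filter P).card ≤ (W.filter (fun x => y x = b)).card := fun U hU P _ b hP =>
    Finset.card_le_card fun x hx => Finset.mem_filter.2
      ⟨hU (Finset.mem_filter.1 hx).1, hP x (Finset.mem_filter.1 hx).2⟩
  have m1 := m0 T hTW (fun x => a - y x = 0) a (fun x hx => by omega)
  have m2 := m0 T hTW (fun x => a - y x = 1) (a - 1) (fun x hx => by omega)
  have m3 := m0 T' hTW' (fun x => y x - a = 1) (a + 1) (fun x hx => by omega)
  by_cases hm : ∃ m ∈ M, a < y m
  · obtain ⟨m, m4, m5⟩ := hm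
    have : (T'.filter (fun x => y x - a = 0)).card = 0 := by
      rw [Finset.card_eq_zero, Finset.filter_eq_empty_iff]
      intro x hx
      have := t3' x hx m m4
      omega
    exact ⟨eq_of_dvd_of_lt ⟨c, hc⟩ hn0 (by omega), a, by omega, by omega⟩
  push Not at hm
  have hMa : ∀ m ∈ M, y m = a := fun m hm' =>
    le_antisymm (hm m hm') (hup m (Finset.sdiff_subset hm'))
  have hM0 : ∑ x ∈ M, (y x - a) = 0 :=
    Finset.sum_eq_zero fun x hx => by rw [hMa x hx, sub_self]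
  rw [hM0] at hno hlt
  have m6 : (T.filter (fun x => a - y x = 0)).card + (T'.filter (fun x => y x - a = 0)).card +
      M.card ≤ (W.filter (fun x => y x = a)).card := by
    rw [← Finset.card_union_of_disjoint (Finset.disjoint_filter_filter d3),
      ← Finset.card_union_of_disjoint (Finset.disjoint_union_left.2
        ⟨d1.mono_left (Finset.filter_subset _ _), d2.mono_left (Finset.filter_subset _ _)⟩)]
    refine Finset.card_le_card fun x hx => Finset.mem_filter.2 ?_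
    simp only [Finset.mem_union, Finset.mem_filter] at hx
    rcases hx with (h | h) | h
    · exact ⟨hTW h.1, by omega⟩
    · exact ⟨hTW' h.1, by omega⟩
    · exact ⟨hMW h, hMa x h⟩
  have m7 := hlev a
  have n0 := hno 0
  have n1 := hno 1
  have n2 := hno (-1)
  have hqn' : q = n := eq_of_dvd_of_lt ⟨c, hc⟩ hn0 (by omega)
  refine ⟨hqn', ?_⟩
  by_cases hh : (η : ℤ) ≤ ∑ x ∈ T', (y x - a)
  · exact ⟨a, by omega, by omega⟩
  · exact ⟨a - 1, by omega, by rw [sub_add_cancel]; omega⟩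

end Pool.Agent.MP_f9a021_co.GT
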