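import Pool.Agent.MP_f9a021_co.GT6

/-! The exact finish for two nearly full cosets. -/

open Finset

set_option linter.unusedSectionVars false

namespace Pool.Agent.MP_f9a021_co.GT

variable {G : Type*} [AddCommGroup G] [Fintype G] [DecidableEq G] {n : ℕ}

/-- The sums of the `i`-subsets of `A`. -/
def sums (A : Finset G) (i : ℕ) : Finset G := (powersetCard i A).image (fun S => ∑ x ∈ S, x)

lemma mem_sums {A : Finset G} {i : ℕ} {g : G} :
    g ∈ sums A i ↔ ∃ S ⊆ A, S.card = i ∧ ∑ x ∈ S, x = g := by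
  simp only [sums, Finset.mem_image, Finset.mem_powersetCard, and_assoc]

lemma sums_ge1 (A : Finset G) {i : ℕ} (h : i + 1 ≤ A.card) : i + 1 ≤ (sums A i).card := by
  obtain ⟨C, c1, c2⟩ := Finset.exists_subset_card_eq h
  rw [← c2]
  refine Finset.card_le_card_of_injOn (fun x => ∑ y ∈ C, y - x) (fun x hx => ?_)
    (fun x _ y _ h => sub_right_injective h)
  have hx' : x ∈ C := hx
  refine mem_sums.2 ⟨C.erase x, (Finset.erase_subset _ _).trans c1, ?_, ?_⟩
  · rw [Finset.card_erase_of_mem hx', c2]; rfl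
  · rw [← Finset.add_sum_erase _ _ hx']; abel

lemma sums_ge2 (A : Finset G) {i : ℕ} (h : i ≤ A.card) : A.card ≤ (sums A (i + 1)).card + i := by
  obtain ⟨C, c1, c2⟩ := Finset.exists_subset_card_eq h
  have h1 : (A \ C).card + C.card = A.card := Finset.card_sdiff_add_card_eq_card c1
  have h2 : (A \ C).card ≤ (sums A (i + 1)).card := by
    refine Finset.card_le_card_of_injOn (fun x => x + ∑ y ∈ C, y) (fun x hx => ?_)
      (fun x _ y _ h => add_right_cancel h)
    obtain ⟨x1, x2⟩ := Finset.mem_sdiff.1 hx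
    exact mem_sums.2 ⟨insert x C, Finset.insert_subset x1 c1,
      by rw [Finset.card_insert_of_notMem x2, c2], Finset.sum_insert x2⟩
  omega

lemma pigeon (L : AddSubgroup G) (X Y : Finset G) (u v t : G) (hX : ∀ x ∈ X, x - u ∈ L)
    (hY : ∀ y ∈ Y, y - v ∈ L) (ht : t - u - v ∈ L) (hc : Nat.card L < X.card + Y.card) :
    ∃ x ∈ X, ∃ y ∈ Y, x + y = t := by
  by_contra hne
  push Not at hne
  have h1 : ∀ x ∈ X ∪ Y.image (fun y => t - y), x - u ∈ L := by
    intro x hx
    rcases Finset.mem_union.1 hx with h | h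
    · exact hX x h
    · obtain ⟨y, hy, rfl⟩ := Finset.mem_image.1 h
      have := L.sub_mem ht (hY y hy)
      rwa [show t - u - v - (y - v) = t - y - u by abel] at this
  have h2 := card_le_of_diff L _ fun x hx x' hx' => by
    simpa using L.sub_mem (h1 x hx) (h1 x' hx')
  rw [Finset.card_union_of_disjoint, Finset.card_image_of_injective _ sub_right_injective] at h2
  · omega
  · rw [Finset.disjoint_right]
    intro x hx hx'
    obtain ⟨y, hy, rfl⟩ := Finset.mem_image.1 hx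
    exact hne _ hx' y hy (by abel)

lemma combine (hG : ∀ x : G, n • x = 0) (L : AddSubgroup G) (b e : G) (A₀ A₁ R : Finset G)
    (h0 : ∀ x ∈ A₀, x - b ∈ L) (h1 : ∀ x ∈ A₁, x - (b + e) ∈ L) (z : G → ℕ)
    (hR : ∀ x ∈ R, x - b - z x • e ∈ L) (d01 : Disjoint A₀ A₁) (d0 : Disjoint R A₀)
    (d1 : Disjoint R A₁) {i j : ℕ} (hc : i + j + R.card = n) (hz : j + ∑ x ∈ R, z x = n)
    (hp : Nat.card L < (sums A₀ i).card + (sums A₁ j).card) :
    ∃ U ⊆ A₀ ∪ A₁ ∪ R, U.card = n ∧ ∑ x ∈ U, x = 0 := by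
  obtain ⟨x, hx, y, hy, hxy⟩ := pigeon L (sums A₀ i) (sums A₁ j) (i • b) (j • (b + e))
    (-∑ x ∈ R, x) (fun x hx => by
      obtain ⟨S, s1, rfl, rfl⟩ := mem_sums.1 hx
      exact sum_sub_mem L S b fun x hx => h0 x (s1 hx)) (fun x hx => by
      obtain ⟨S, s1, rfl, rfl⟩ := mem_sums.1 hx
      exact sum_sub_mem L S _ fun x hx => h1 x (s1 hx)) (by
      have k1 := L.neg_mem (L.sum_mem hR)
      rw [Finset.sum_sub_distrib, Finset.sum_sub_distrib, Finset.sum_const,
        Finset.sum_nsmul_assoc] at k1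
      have k2 := hG b
      have k3 := hG e
      rw [← hc] at k2
      rw [← hz] at k3
      rwa [show -∑ x ∈ R, x - i • b - j • (b + e) =
        -(∑ x ∈ R, x - R.card • b - (∑ x ∈ R, z x) • e) - (i + j + R.card) • b -
          (j + ∑ x ∈ R, z x) • e by simp only [add_nsmul, nsmul_add]; abel, k2, k3, sub_zero,
        sub_zero]) hp
  obtain ⟨S, s1, s2, rfl⟩ := mem_sums.1 hx
  obtain ⟨S', s1', s2', rfl⟩ := mem_sums.1 hy
  have e1 : Disjoint S S' := d01.mono s1 s1'
  have e2 : Disjoint (S ∪ S') R :=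
    Finset.disjoint_union_left.2 ⟨(d0.mono_right s1).symm, (d1.mono_right s1').symm⟩
  refine ⟨S ∪ S' ∪ R, Finset.union_subset_union (Finset.union_subset_union s1 s1') subset_rfl,
    ?_, ?_⟩
  · rw [Finset.card_union_of_disjoint e2, Finset.card_union_of_disjoint e1]; omega
  · rw [Finset.sum_union e2, Finset.sum_union e1, hxy, neg_add_cancel]

lemma exists_sub_sum (z : G → ℕ) (d : ℕ) (O : Finset G) : (∀ x ∈ O, z x ≤ d) →
    d < ∑ x ∈ O, z x → ∃ R ⊆ O, d < ∑ x ∈ R, z x ∧ ∑ x ∈ R, z x ≤ 2 * d := by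
  induction O using Finset.induction_on with
  | empty => simp
  | insert a O ha ih =>
    intro h1 h2
    by_cases h : d < ∑ x ∈ O, z x
    · obtain ⟨R, r1, r2⟩ := ih (fun x hx => h1 x (Finset.mem_insert_of_mem hx)) h
      exact ⟨R, r1.trans (Finset.subset_insert _ _), r2⟩
    · have := h1 a (Finset.mem_insert_self _ _)
      exact ⟨_, subset_rfl, h2, by rw [Finset.sum_insert ha]; omega⟩

lemma side (hG : ∀ x : G, n • x = 0) (L : AddSubgroup G) (hL : Nat.card L = n) (b e : G)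
    (A₀ A₁ O : Finset G) (h0 : ∀ x ∈ A₀, x - b ∈ L) (h1 : ∀ x ∈ A₁, x - (b + e) ∈ L) (z : G → ℕ)
    (hO : ∀ x ∈ O, x - b - z x • e ∈ L ∧ 2 ≤ z x ∧ z x + A₁.card ≤ n) (d01 : Disjoint A₀ A₁)
    (d0 : Disjoint O A₀) (d1 : Disjoint O A₁) (c0 : 4 * n ≤ 5 * A₀.card)
    (c1 : 4 * n ≤ 5 * A₁.card) (c2 : n ≤ O.card + A₁.card) (c3 : 0 < O.card) :
    ∃ U ⊆ A₀ ∪ A₁ ∪ O, U.card = n ∧ ∑ x ∈ U, x = 0 := by
  have two : ∀ R ⊆ O, R.card * 2 ≤ ∑ x ∈ R, z x := fun R hR =>
    Finset.card_nsmul_le_sum R z 2 fun x hx => (hO x (hR hx)).2.1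
  obtain ⟨R, r1, r2, r3⟩ := exists_sub_sum z (n - A₁.card) O
    (fun x hx => by have := (hO x hx).2.2; omega) (by have := two O subset_rfl; omega)
  have r4 := two R r1
  obtain ⟨i, hi⟩ : ∃ i, i + 1 + R.card = ∑ x ∈ R, z x := ⟨∑ x ∈ R, z x - R.card - 1, by omega⟩
  obtain ⟨j, hj⟩ : ∃ j, j + ∑ x ∈ R, z x = n := ⟨n - ∑ x ∈ R, z x, by omega⟩
  have k0 := sums_ge2 A₀ (show i ≤ A₀.card by omega)
  have k1 := sums_ge1 A₁ (show j + 1 ≤ A₁.card by omega)
  obtain ⟨U, u1, u2⟩ := combine hG L b e A₀ A₁ R h0 h1 z (fun x hx => (hO x (r1 hx)).1) d01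
    (d0.mono_left r1) (d1.mono_left r1) (i := i + 1) (by omega) hj (by omega)
  exact ⟨U, u1.trans (Finset.union_subset_union subset_rfl r1), u2⟩

lemma full_sum (hG : ∀ x : G, n • x = 0) (hn : Odd n) (L : AddSubgroup G) (hL : Nat.card L = n)
    (c : G) (A : Finset G) (h : ∀ x ∈ A, x - c ∈ L) (hA : A.card = n) : ∑ x ∈ A, x = 0 := by
  classical
  have h1 : A = univ.filter (fun x => x - c ∈ L) := by
    refine Finset.eq_of_subset_of_card_le (fun x hx => by simpa using h x hx) ?_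
    rw [hA, ← hL]
    refine card_le_of_diff L _ fun x hx x' hx' => ?_
    simpa using L.sub_mem (Finset.mem_filter.1 hx).2 (Finset.mem_filter.1 hx').2
  have h2 : ∀ x ∈ A, c + c - x ∈ A := by
    intro x hx
    have := L.neg_mem (h x hx)
    rw [h1]
    rw [show -(x - c) = c + c - x - c by abel] at this
    simpa using this
  have h3 : ∑ x ∈ A, x = ∑ x ∈ A, (c + c - x) :=
    Finset.sum_nbij' (fun x => c + c - x) (fun x => c + c - x) h2 h2 (by simp) (by simp) (by simp)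
  rw [Finset.sum_sub_distrib, Finset.sum_const, hA, hG, zero_sub, eq_neg_iff_add_eq_zero] at h3
  obtain ⟨k, rfl⟩ := hn
  have h4 := hG (∑ x ∈ A, x)
  rwa [add_nsmul, mul_nsmul, two_nsmul, h3, nsmul_zero, zero_add, one_nsmul] at h4

lemma final (hG : ∀ x : G, n • x = 0) (L : AddSubgroup G) (hL : Nat.card L = n) (b e : G)
    (he : e ∉ L) (hz : ∀ x : G, ∃ z < n, x - b - z • e ∈ L) (A : Finset G)
    [DecidablePred (· ∈ L)] (c0 : 4 * n ≤ 5 * (A.filter (fun x => x - b ∈ L)).card)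
    (c1 : 4 * n ≤ 5 * (A.filter (fun x => x - (b + e) ∈ L)).card)
    (hA : (Odd n ∧ 2 * n ≤ A.card + 1) ∨ 2 * n + 1 ≤ A.card) :
    ∃ U ⊆ A, U.card = n ∧ ∑ x ∈ U, x = 0 := by
  choose z z1 z2 using hz
  set A₀ := A.filter (fun x => x - b ∈ L) with hA₀
  set A₁ := A.filter (fun x => x - (b + e) ∈ L) with hA₁
  have h0 : ∀ x ∈ A₀, x - b ∈ L := fun x hx => (Finset.mem_filter.1 hx).2
  have h1 : ∀ x ∈ A₁, x - (b + e) ∈ L := fun x hx => (Finset.mem_filter.1 hx).2
  have s0 : A₀ ⊆ A := Finset.filter_subset _ _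
  have s1 : A₁ ⊆ A := Finset.filter_subset _ _
  have d01 : Disjoint A₀ A₁ := Finset.disjoint_left.2 fun x hx hx' =>
    he (by simpa using L.sub_mem (h0 x hx) (h1 x hx'))
  have a0 : A₀.card ≤ n := hL ▸ card_le_of_diff L _ fun x hx x' hx' => by
    simpa using L.sub_mem (h0 x hx) (h0 x' hx')
  have a1 : A₁.card ≤ n := hL ▸ card_le_of_diff L _ fun x hx x' hx' => by
    simpa using L.sub_mem (h1 x hx) (h1 x' hx')
  set O := A \ (A₀ ∪ A₁) with hO
  have sO : O ⊆ A := Finset.sdiff_subset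
  have d0 : Disjoint O A₀ := Finset.sdiff_disjoint.mono_right Finset.subset_union_left
  have d1 : Disjoint O A₁ := Finset.sdiff_disjoint.mono_right Finset.subset_union_right
  have cO : O.card + (A₀.card + A₁.card) = A.card := by
    rw [← Finset.card_union_of_disjoint d01]
    exact Finset.card_sdiff_add_card_eq_card (Finset.union_subset s0 s1)
  have z3 : ∀ x ∈ O, 2 ≤ z x := by
    intro x hx
    have := z2 x
    by_contra hc
    rcases (show z x = 0 ∨ z x = 1 by omega) with h | h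
    · rw [h, zero_nsmul, sub_zero] at this
      exact Finset.disjoint_left.1 d0 hx (Finset.mem_filter.2 ⟨sO hx, this⟩)
    · rw [h, one_nsmul, sub_sub] at this
      exact Finset.disjoint_left.1 d1 hx (Finset.mem_filter.2 ⟨sO hx, this⟩)
  by_cases hm : ∃ x ∈ O, n < z x + A₁.card ∧ z x ≤ A₀.card
  · obtain ⟨x, hx, m1, m2⟩ := hm
    have := z3 x hx
    have := z1 x
    have k0 := sums_ge1 A₀ (show z x - 1 + 1 ≤ A₀.card by omega)
    have k1 := sums_ge1 A₁ (show n - z x + 1 ≤ A₁.card by omega)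
    have sx : {x} ⊆ O := Finset.singleton_subset_iff.2 hx
    obtain ⟨U, u1, u2⟩ := combine hG L b e A₀ A₁ {x} h0 h1 z (by simpa using z2 x) d01
      (d0.mono_left sx) (d1.mono_left sx) (i := z x - 1) (j := n - z x)
      (by rw [Finset.card_singleton]; omega) (by rw [Finset.sum_singleton]; omega) (by omega)
    exact ⟨U, u1.trans (Finset.union_subset (Finset.union_subset s0 s1) (sx.trans sO)), u2⟩
  push Not at hm
  have cP := Finset.card_filter_add_card_filter_not (s := O) (fun x => z x + A₁.card ≤ n)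
  set P := O.filter (fun x => z x + A₁.card ≤ n) with hP
  set Q := O.filter (fun x => ¬ z x + A₁.card ≤ n) with hQ
  have sP : P ⊆ O := Finset.filter_subset _ _
  have sQ : Q ⊆ O := Finset.filter_subset _ _
  by_cases p1 : n ≤ P.card + A₁.card ∧ 0 < P.card
  · obtain ⟨U, u1, u2⟩ := side hG L hL b e A₀ A₁ P h0 h1 z
      (fun x hx => ⟨z2 x, z3 x (sP hx), (Finset.mem_filter.1 hx).2⟩) d01 (d0.mono_left sP)
      (d1.mono_left sP) c0 c1 p1.1 p1.2
    exact ⟨U, u1.trans (Finset.union_subset (Finset.union_subset s0 s1) (sP.trans sO)), u2⟩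
  by_cases p2 : n ≤ Q.card + A₀.card ∧ 0 < Q.card
  · obtain ⟨U, u1, u2⟩ := side hG L hL (b + e) (-e) A₁ A₀ Q h1 (by simpa using h0)
      (fun x => n + 1 - z x) (fun x hx => by
        have k1 := hm x (sQ hx) (not_le.1 (Finset.mem_filter.1 hx).2)
        have k2 := z1 x
        refine ⟨?_, by omega, by omega⟩
        have k3 : (n + 1 - z x) • e + z x • e = e := by
          rw [← add_nsmul, Nat.sub_add_cancel (by omega), succ_nsmul, hG, zero_add]
        have k4 := z2 x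
        rwa [show x - (b + e) - (n + 1 - z x) • -e =
          x - b - z x • e - e + ((n + 1 - z x) • e + z x • e) by rw [smul_neg]; abel, k3,
          sub_add_cancel]) d01.symm (d1.mono_left sQ) (d0.mono_left sQ) c1 c0 p2.1 p2.2
    exact ⟨U, u1.trans (Finset.union_subset (Finset.union_subset s1 s0) (sQ.trans sO)), u2⟩
  rcases hA with ⟨ho, hA⟩ | hA
  · rcases (show A₀.card = n ∨ A₁.card = n by omega) with h | h
    · exact ⟨A₀, s0, h, full_sum hG ho L hL _ _ h0 h⟩
    · exact ⟨A₁, s1, h, full_sum hG ho L hL _ _ h1 h⟩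
  · omega

end Pool.Agent.MP_f9a021_co.GT
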