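import Pool.Agent.MP_f9a021_co.Defs

/-! Lower bound constructions. -/

open Finset

namespace Pool.Agent.MP_f9a021_co

section

variable {G : Type*} [Fintype G] [DecidableEq G]

lemma blocks_card_sum (val : G → ℕ) (s J : ℕ)
    (hs : ∀ v ≤ J, (univ.filter (fun g => val g = v)).card = s) :
    (univ.filter (fun g => 1 ≤ val g ∧ val g ≤ J)).card = J * s ∧
      2 * ∑ g ∈ univ.filter (fun g => 1 ≤ val g ∧ val g ≤ J), val g = s * J * (J + 1) := by
  induction J with
  | zero =>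
    rw [Finset.filter_false_of_mem (fun g _ => by omega)]
    simp
  | succ J ih =>
    obtain ⟨h1, h2⟩ := ih (fun v hv => hs v (by omega))
    have h3 : univ.filter (fun g => 1 ≤ val g ∧ val g ≤ J + 1) =
        univ.filter (fun g => 1 ≤ val g ∧ val g ≤ J) ∪ univ.filter (fun g => val g = J + 1) := by
      ext g; simp; omega
    have h4 : Disjoint (univ.filter (fun g => 1 ≤ val g ∧ val g ≤ J))
        (univ.filter (fun g => val g = J + 1)) := by
      rw [Finset.disjoint_left]; intro g; simp; omega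
    have h5 : ∑ g ∈ univ.filter (fun g => val g = J + 1), val g = s * (J + 1) := by
      rw [Finset.sum_congr rfl (g := fun _ => J + 1) (fun g hg => (Finset.mem_filter.1 hg).2),
        Finset.sum_const, hs _ le_rfl, smul_eq_mul]
    rw [h3, Finset.card_union_of_disjoint h4, Finset.sum_union h4, h1, hs _ le_rfl, h5, mul_add, h2]
    constructor <;> ring

lemma exists_holes (val : G → ℕ) (s j : ℕ)
    (hs : ∀ v ≤ j + 1, (univ.filter (fun g => val g = v)).card = s) (Y : ℕ) :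
    Y ≤ s → ∀ R, Y ≤ R → R ≤ Y * (j + 1) →
      ∃ W ⊆ univ.filter (fun g => 1 ≤ val g ∧ val g ≤ j + 1), W.card = Y ∧ ∑ g ∈ W, val g = R := by
  induction Y with
  | zero => intro _ R _ h; exact ⟨∅, by simp, rfl, by simp; omega⟩
  | succ Y ih =>
    intro hY R h1 h2
    rw [add_mul, one_mul] at h2
    have h0 : Y ≤ Y * (j + 1) := Nat.le_mul_of_pos_right _ (by omega)
    obtain ⟨v, v1, v2, v3, v4, v5⟩ : ∃ v, 1 ≤ v ∧ v ≤ j + 1 ∧ v ≤ R ∧ Y ≤ R - v ∧
        R - v ≤ Y * (j + 1) := ⟨min (j + 1) (R - Y), by omega⟩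
    obtain ⟨W, w1, w2, w3⟩ := ih (by omega) (R - v) v4 v5
    obtain ⟨g, g1, g2⟩ := Finset.exists_mem_notMem_of_card_lt_card
      (show W.card < (univ.filter (fun g => val g = v)).card by rw [hs v v2]; omega)
    have g3 := (Finset.mem_filter.1 g1).2
    refine ⟨insert g W, Finset.insert_subset (by simp; omega) w1,
      by rw [Finset.card_insert_of_notMem g2, w2], ?_⟩
    rw [Finset.sum_insert g2, w3, g3]
    omega

end

variable {G : Type*} [AddCommGroup G] [Fintype G] [DecidableEq G]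

omit [DecidableEq G] in
lemma card_fiber {d s : ℕ} [NeZero d] (φ : G →+ ZMod d) (hφ : Function.Surjective φ)
    (hs : Fintype.card G = s * d) (v : ℕ) (hv : v < d) :
    (univ.filter (fun g => (φ g).val = v)).card = s := by
  have h1 : ∀ x : ZMod d, (univ.filter (fun g => φ g = x)).card =
      (univ.filter (fun g => φ g = 0)).card := fun x =>
    AddMonoidHom.card_fiber_eq_of_mem_range φ (hφ x) (hφ 0)
  have h2 := Finset.card_eq_sum_card_fiberwise (s := (univ : Finset G)) (t := univ) (f := φ)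
    (fun _ _ => Finset.mem_univ _)
  rw [Finset.sum_congr rfl (fun x _ => h1 x), Finset.sum_const, Finset.card_univ, Finset.card_univ,
    ZMod.card, smul_eq_mul, hs, mul_comm] at h2
  rw [Nat.eq_of_mul_eq_mul_left (NeZero.pos d) h2, ← h1 (v : ZMod d)]
  congr 1
  ext g
  simp only [Finset.mem_filter, Finset.mem_univ, true_and]
  constructor
  · rintro rfl; simp
  · intro h; rw [h, ZMod.val_natCast_of_lt hv]

lemma lower_gen {d s : ℕ} [NeZero d] (φ : G →+ ZMod d) (hφ : Function.Surjective φ)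
    (hs : Fintype.card G = s * d) {j iM iP Y k n : ℕ} (c : ℤ) (hj : j + 2 < d) (h1 : iM ≤ s)
    (h2 : iP ≤ s) (h3 : Y ≤ s) (hc : (j + 1) * s + iM + iP = n + k + Y)
    (hA : k * j + iP + iM + 2 ≤ d)
    (hB : 2 * (c * d + k * (j + 1) + iP + 1 + Y) ≤ s * (j + 1) * (j + 2) + 2 * iP * (j + 2))
    (hC : (s : ℤ) * (j + 1) * (j + 2) + 2 * iP * (j + 2) + 2 * iM + 2 ≤
      2 * ((c + 1) * d + k + Y * (j + 1))) :
    ∃ A : Finset G, WeaklyZeroSumFree n A ∧ A.card = n + k := by
  set val : G → ℕ := fun g => (φ g).val with hval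
  have hf : ∀ v < d, (univ.filter (fun g => val g = v)).card = s := card_fiber φ hφ hs
  obtain ⟨x1, x2⟩ := blocks_card_sum val s (j + 1) (fun v hv => hf v (by omega))
  set X := univ.filter (fun g => 1 ≤ val g ∧ val g ≤ j + 1) with hX
  set σ := ∑ g ∈ X, val g with hσ
  have x3 : 2 * (σ : ℤ) = s * (j + 1) * (j + 2) := by exact_mod_cast x2
  obtain ⟨R, r1, r2, r3, r4⟩ : ∃ R : ℕ, Y ≤ R ∧ R ≤ Y * (j + 1) ∧
      c * d + k * (j + 1) + iP + R < σ + iP * (j + 2) ∧
      (σ : ℤ) + iP * (j + 2) + iM < (c + 1) * d + k + R := by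
    have e0 : (Y : ℤ) ≤ Y * (j + 1) := by nlinarith
    have e1 : (k : ℤ) * j + iP + iM + 2 ≤ d := by exact_mod_cast hA
    refine ⟨min (Y * (j + 1)) (σ + iP * (j + 2) - (c * d + k * (j + 1) + iP + 1) : ℤ).toNat, ?_⟩
    have e2 : ((Y * (j + 1) : ℕ) : ℤ) = Y * (j + 1) := by push_cast; ring
    have e3 : (k : ℤ) * (j + 1) = k * j + k := by ring
    have e4 : (c + 1) * d = c * d + d := by ring
    have e5 : 2 * (iP : ℤ) * (j + 2) = 2 * (iP * (j + 2)) := by ring
    rw [← x3, e5] at hB hC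
    rw [e4] at hC ⊢
    rw [e3] at hB ⊢
    rw [← e2] at hC e0
    generalize Y * (j + 1) = a at *
    generalize (iP : ℤ) * (j + 2) = b at *
    generalize c * d = b' at *
    generalize (k : ℤ) * j = b'' at *
    omega
  obtain ⟨W, w1, w2, w3⟩ := exists_holes val s j (fun v hv => hf v (by omega)) Y h3 R r1 r2
  obtain ⟨EM, m1, m2⟩ := Finset.exists_subset_card_eq (h1.trans (hf 0 (by omega)).ge)
  obtain ⟨EP, p1, p2⟩ := Finset.exists_subset_card_eq (h2.trans (hf (j + 2) hj).ge)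
  have m3 : ∀ g ∈ EM, val g = 0 := fun g hg => (Finset.mem_filter.1 (m1 hg)).2
  have p3 : ∀ g ∈ EP, val g = j + 2 := fun g hg => (Finset.mem_filter.1 (p1 hg)).2
  have x4 : ∀ g ∈ X \ W, 1 ≤ val g ∧ val g ≤ j + 1 := fun g hg =>
    (Finset.mem_filter.1 (Finset.mem_sdiff.1 hg).1).2
  have d1 : Disjoint (X \ W) EM := Finset.disjoint_left.2 fun g hg hg' => by
    have := x4 g hg; have := m3 g hg'; omega
  have d2 : Disjoint (X \ W ∪ EM) EP := Finset.disjoint_left.2 fun g hg hg' => by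
    have := p3 g hg'
    rcases Finset.mem_union.1 hg with h | h
    · have := x4 g h; omega
    · have := m3 g h; omega
  set A := X \ W ∪ EM ∪ EP with hAdef
  have hcard : A.card = n + k := by
    have : (X \ W).card + W.card = X.card := Finset.card_sdiff_add_card_eq_card w1
    rw [hAdef, Finset.card_union_of_disjoint d2, Finset.card_union_of_disjoint d1]
    omega
  have hsum : ∑ g ∈ A, val g + R = σ + iP * (j + 2) := by
    have : ∑ g ∈ X \ W, val g + ∑ g ∈ W, val g = σ := Finset.sum_sdiff w1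
    rw [hAdef, Finset.sum_union d2, Finset.sum_union d1, Finset.sum_eq_zero m3,
      Finset.sum_congr rfl p3, Finset.sum_const, p2, smul_eq_mul]
    omega
  refine ⟨A, fun T hT hTc hT0 => ?_, hcard⟩
  have hD : (A \ T).card = k := by rw [Finset.card_sdiff_of_subset hT]; omega
  have s1 := Finset.sum_sdiff (f := val) hT
  have hind : ∀ E : Finset G, ∑ g ∈ A \ T, (if g ∈ E then 1 else 0) ≤ E.card := by
    intro E
    rw [← Finset.card_filter]
    exact Finset.card_le_card fun g hg => (Finset.mem_filter.1 hg).2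
  have s2 : ∑ g ∈ A \ T, val g ≤ k * (j + 1) + iP := by
    have : ∑ g ∈ A \ T, val g ≤ ∑ g ∈ A \ T, ((j + 1) + if g ∈ EP then 1 else 0) :=
      Finset.sum_le_sum fun g hg => by
        rcases Finset.mem_union.1 (Finset.mem_sdiff.1 hg).1 with h | h
        · rcases Finset.mem_union.1 h with h | h
          · have := x4 g h; omega
          · have := m3 g h; omega
        · rw [if_pos h, p3 g h]
    rw [Finset.sum_add_distrib, Finset.sum_const, hD, smul_eq_mul] at this
    have := hind EP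
    omega
  have s3 : k ≤ ∑ g ∈ A \ T, val g + iM := by
    have : ∑ g ∈ A \ T, 1 ≤ ∑ g ∈ A \ T, (val g + if g ∈ EM then 1 else 0) :=
      Finset.sum_le_sum fun g hg => by
        rcases Finset.mem_union.1 (Finset.mem_sdiff.1 hg).1 with h | h
        · rcases Finset.mem_union.1 h with h | h
          · have := x4 g h; omega
          · rw [if_pos h]; omega
        · have := p3 g h; omega
    rw [Finset.sum_add_distrib, Finset.sum_const, hD, smul_eq_mul] at this
    have := hind EM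
    omega
  obtain ⟨y, hy⟩ : d ∣ ∑ g ∈ T, val g := by
    rw [← ZMod.natCast_eq_zero_iff]
    push_cast
    simp only [hval, ZMod.natCast_val, ZMod.cast_id', id_eq]
    rw [← map_sum, hT0, map_zero]
  rw [hy] at s1
  have t1 : (∑ g ∈ A \ T, val g : ℕ) + (d : ℤ) * y + R = σ + iP * (j + 2) := by
    rw [← s1] at hsum; exact_mod_cast hsum
  have t2 : ((∑ g ∈ A \ T, val g : ℕ) : ℤ) ≤ k * (j + 1) + iP := by exact_mod_cast s2
  have t3 : (k : ℤ) ≤ (∑ g ∈ A \ T, val g : ℕ) + iM := by exact_mod_cast s3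
  have hd : (0 : ℤ) < d := by exact_mod_cast NeZero.pos d
  have t4 : c < y := lt_of_mul_lt_mul_left (a := (d : ℤ)) (by linarith) hd.le
  have t5 : (y : ℤ) < c + 1 := lt_of_mul_lt_mul_left (a := (d : ℤ)) (by linarith) hd.le
  omega

lemma lower_wide {d s : ℕ} [NeZero d] (φ : G →+ ZMod d) (hφ : Function.Surjective φ)
    (hs : Fintype.card G = s * d) {j i Y k n : ℕ} (hj : j + 2 < d)
    (h2 : i ≤ s) (h3 : Y ≤ s) (hc : (j + 1) * s + i = n + k + Y)
    (hA : k * j + i + 2 ≤ d) (hY : k * j + i + 1 ≤ Y * j) :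
    ∃ A : Finset G, WeaklyZeroSumFree n A ∧ A.card = n + k := by
  obtain ⟨σ, hσ⟩ : ∃ σ : ℤ, (s : ℤ) * (j + 1) * (j + 2) = 2 * σ := by
    obtain ⟨a, ha⟩ := Int.even_mul_succ_self (j + 1)
    exact ⟨s * a, by linear_combination (s : ℤ) * ha⟩
  have hd : (0 : ℤ) < d := by exact_mod_cast NeZero.pos d
  set T : ℤ := σ + i * (j + 2) - k * (j + 1) - i - 1 - Y with hT
  have e1 := Int.emod_add_mul_ediv T d
  have e2 := Int.emod_nonneg T hd.ne'
  have e3 := Int.emod_lt_of_pos T hd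
  have e4 : (k : ℤ) * j + i + 1 ≤ Y * j := by exact_mod_cast hY
  exact lower_gen φ hφ hs (iM := 0) (T / d) hj (Nat.zero_le _) h2 h3 hc hA
    (by rw [hσ]; linarith) (by rw [hσ]; push_cast; linarith)

lemma lower_pred {d m f : ℕ} [NeZero d] (φ : G →+ ZMod d) (hφ : Function.Surjective φ)
    (hs : Fintype.card G = m * f * d) (hm : 2 ≤ m) (hf : 2 ≤ f) (hd : 2 * m * m ≤ d) :
    ∃ A : Finset G, WeaklyZeroSumFree (f * d) A ∧ A.card = f * d + (m - 1) := by
  obtain ⟨j, r, hr, rfl⟩ : ∃ j r, r < m ∧ d = m * j + r :=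
    ⟨d / m, d % m, Nat.mod_lt _ (by omega), (Nat.div_add_mod d m).symm⟩
  obtain ⟨ρ, rfl⟩ : ∃ ρ, m = r + ρ + 1 := ⟨m - r - 1, by omega⟩
  have hj : 2 * (r + ρ + 1) ≤ j := by
    by_contra h
    have : j + 1 ≤ 2 * (r + ρ + 1) := by omega
    nlinarith
  have e1 : 2 ≤ f * (ρ + 1) := by nlinarith
  have e2 : (r + ρ + 1) * f = r * f + f * (ρ + 1) := by ring
  have e3 : 2 * (r + ρ + 1) ≤ (r + ρ + 1) * f := by nlinarith
  refine lower_wide φ hφ hs (j := j) (i := 2 * (r + ρ + 1) - f * (ρ + 1))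
    (Y := f * (ρ + 1) + (2 * (r + ρ + 1) - f * (ρ + 1)) - (r + ρ)) (by nlinarith) (by omega)
    (by omega) ?_ ?_ ?_
  · have : (j + 1) * ((r + ρ + 1) * f) = f * ((r + ρ + 1) * j + r) + f * (ρ + 1) := by ring
    omega
  · have : (r + ρ + 1) * j = (r + ρ + 1 - 1) * j + j := by simp; ring
    omega
  · have h1 : r + ρ + 2 ≤ f * (ρ + 1) + (2 * (r + ρ + 1) - f * (ρ + 1)) - (r + ρ) := by omega
    have h2 := Nat.mul_le_mul_right j h1
    have : (r + ρ + 2) * j = (r + ρ + 1 - 1) * j + 2 * j := by simp; ring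
    omega

lemma lower_exact {d m f j r ρ : ℕ} [NeZero d] (φ : G →+ ZMod d) (hφ : Function.Surjective φ)
    (hs : Fintype.card G = m * f * d) (hd : d = m * j + r) (hm : m = r + ρ) (hr : 2 ≤ r)
    (hj : 2 ≤ j) (hf : 1 ≤ f)
    (hc : 2 * ρ + 5 ≤ f * ρ ∨ (Odd (f * j) ∧ (m ≤ f * ρ ∨ ρ + 3 ≤ f * ρ))) :
    ∃ A : Finset G, WeaklyZeroSumFree (f * d) A ∧ A.card = f * d + m := by
  have e1 : (j + 1) * (m * f) = f * d + f * ρ := by rw [hd, hm]; ring
  have e2 : m * f = r * f + f * ρ := by rw [hm]; ring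
  have e3 : r ≤ r * f := Nat.le_mul_of_pos_right _ hf
  have e4 : j + 2 < d := by rw [hd]; nlinarith
  have zd : (d : ℤ) = m * j + r := by exact_mod_cast hd
  have zm : (m : ℤ) = r + ρ := by exact_mod_cast hm
  have z1 : ((m * f : ℕ) : ℤ) * (j + 1) * (j + 2) = (f * d + f * ρ) * (j + 2) := by
    rw [zd]; push_cast; rw [zm]; ring
  rcases Nat.even_or_odd' (f * j) with ⟨c, h | h⟩
  · have h5 : 2 * ρ + 5 ≤ f * ρ := by
      rcases hc with h1 | ⟨h1, -⟩
      · exact h1
      · rw [h] at h1; exact absurd h1 (by simp)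
    obtain ⟨i, Y, i1, i2, i3⟩ : ∃ i Y, i + 2 ≤ r ∧ f * ρ + i = m + Y ∧ m + 1 ≤ Y + i :=
      ⟨(2 * m + 2 - f * ρ) / 2, f * ρ + (2 * m + 2 - f * ρ) / 2 - m, by omega⟩
    have zc : (f : ℤ) * j = 2 * c := by exact_mod_cast h
    have zi : (f : ℤ) * ρ = m + Y - i := by
      have : (f : ℤ) * ρ + i = m + Y := by exact_mod_cast i2
      linarith
    have z2 : (f : ℤ) * d * (j + 2) = (2 * c + 2 * f) * d := by rw [← zc]; ring
    have y1 : (m : ℤ) + 1 ≤ Y + i := by exact_mod_cast i3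
    have y2 : (i : ℤ) + 2 ≤ r := by exact_mod_cast i1
    have y3 : (2 : ℤ) ≤ j := by exact_mod_cast hj
    refine lower_gen φ hφ hs (j := j) (iM := 0) (iP := i) (Y := Y) (c + f) e4 (by omega) (by omega)
      (by omega) (by omega) (by rw [hd]; omega) ?_ ?_
    · rw [z1, add_mul (_ * _), z2, zi]
      nlinarith
    · rw [z1, add_mul (_ * _), z2, zi]
      have : (0 : ℤ) ≤ ρ := by positivity
      have : (0 : ℤ) ≤ Y := by positivity
      push_cast
      nlinarith
  · obtain ⟨i, Y, i1, i2⟩ : ∃ i Y, 2 * i + 2 ≤ r ∧ f * ρ + 2 * i = m + Y :=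
      ⟨(m + 1 - f * ρ) / 2, f * ρ + 2 * ((m + 1 - f * ρ) / 2) - m, by omega⟩
    have zc : (f : ℤ) * j = 2 * c + 1 := by exact_mod_cast h
    have zi : (f : ℤ) * ρ = m + Y - 2 * i := by
      have : (f : ℤ) * ρ + 2 * i = m + Y := by exact_mod_cast i2
      linarith
    have z2 : (f : ℤ) * d * (j + 2) = (2 * c + 1 + 2 * f) * d := by rw [← zc]; ring
    have y2 : 2 * (i : ℤ) + 2 ≤ r := by exact_mod_cast i1
    have y4 : (0 : ℤ) ≤ Y * j := by positivity
    refine lower_gen φ hφ hs (j := j) (iM := i) (iP := i) (Y := Y) (c + f) e4 (by omega) (by omega)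
      (by omega) (by omega) (by rw [hd]; omega) ?_ ?_
    · rw [z1, add_mul (_ * _), z2, zi]
      nlinarith
    · rw [z1, add_mul (_ * _), z2, zi]
      nlinarith

lemma lower_boundary {a b : ℕ} (ha : 0 < a) :
    ∃ A : Finset (ZMod (2 * a) × ZMod (2 * a * (2 * b + 1))),
      WeaklyZeroSumFree (2 * a * (2 * b + 1)) A ∧ A.card = 2 * a * (2 * b + 1) + 2 * a := by
  have : NeZero (2 * a) := ⟨by omega⟩
  have : NeZero (2 * a * (2 * b + 1)) := ⟨by positivity⟩
  set k := 2 * b + 1 with hk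
  set I : Finset (ZMod (2 * a * k)) := (range (k + 1)).image (fun i : ℕ => (i : ZMod (2 * a * k)))
    with hI
  have hlt : k < 2 * a * k := by nlinarith
  have hinj : Set.InjOn (fun i : ℕ => (i : ZMod (2 * a * k))) (range (k + 1) : Finset ℕ) := by
    intro i hi i' hi' h
    have h1 : i < k + 1 := by simpa using hi
    have h2 : i' < k + 1 := by simpa using hi'
    have := congrArg ZMod.val h
    rwa [ZMod.val_natCast_of_lt (by omega), ZMod.val_natCast_of_lt (by omega)] at this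
  have hIc : I.card = k + 1 := by rw [hI, Finset.card_image_of_injOn hinj, Finset.card_range]
  have hIv : ∀ x ∈ I, x.val ≤ k := by
    intro x hx
    obtain ⟨i, hi, rfl⟩ := Finset.mem_image.1 hx
    have h1 : i < k + 1 := by simpa using hi
    rw [ZMod.val_natCast_of_lt (by omega)]
    omega
  have hcard : ((univ : Finset (ZMod (2 * a))) ×ˢ I).card = 2 * a * k + 2 * a := by
    rw [Finset.card_product, Finset.card_univ, ZMod.card, hIc]; ring
  refine ⟨univ ×ˢ I, fun T hT hTc hT0 => ?_, hcard⟩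
  set D := ((univ : Finset (ZMod (2 * a))) ×ˢ I) \ T with hD
  have hDc : D.card = 2 * a := by rw [hD, Finset.card_sdiff_of_subset hT]; omega
  have hsum : ∑ x ∈ D, x = ∑ x ∈ (univ : Finset (ZMod (2 * a))) ×ˢ I, x := by
    rw [hD, Finset.sum_sdiff_eq_sub hT, hT0, sub_zero]
  have hDv : ∀ x ∈ D, x.2.val ≤ k := fun x hx =>
    hIv _ (Finset.mem_product.1 (Finset.mem_sdiff.1 hx).1).2
  have h2 : 2 * a * k ∣ ∑ x ∈ D, x.2.val := by
    rw [← ZMod.natCast_eq_zero_iff]
    push_cast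
    simp only [ZMod.natCast_val, ZMod.cast_id', id_eq]
    rw [← Prod.snd_sum, hsum, Prod.snd_sum, Finset.sum_product]
    simp only [Finset.sum_const, Finset.card_univ, ZMod.card]
    rw [hI, Finset.sum_image hinj, ← Nat.cast_sum, nsmul_eq_mul, ← Nat.cast_mul,
      ZMod.natCast_eq_zero_iff]
    have := Finset.sum_range_id_mul_two (k + 1)
    refine ⟨b + 1, ?_⟩
    rw [Nat.add_sub_cancel] at this
    rw [hk] at this ⊢
    nlinarith
  obtain ⟨v, hv⟩ : ∃ v, ∀ x ∈ D, x.2.val = v := by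
    rcases Nat.eq_zero_or_pos (∑ x ∈ D, x.2.val) with h | h
    · exact ⟨0, Finset.sum_eq_zero_iff.1 h⟩
    · refine ⟨k, ?_⟩
      by_contra h3
      push Not at h3
      obtain ⟨x, hx, hx'⟩ := h3
      have h4 : ∑ x ∈ D, x.2.val < ∑ _x ∈ D, k :=
        Finset.sum_lt_sum hDv ⟨x, hx, lt_of_le_of_ne (hDv x hx) hx'⟩
      rw [Finset.sum_const, hDc, smul_eq_mul] at h4
      exact absurd (Nat.le_of_dvd h h2) (by omega)
  have hinj2 : Set.InjOn Prod.fst (D : Set (ZMod (2 * a) × ZMod (2 * a * k))) := by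
    intro x hx y hy h
    exact Prod.ext h (ZMod.val_injective _ ((hv x hx).trans (hv y hy).symm))
  have him : D.image Prod.fst = univ :=
    Finset.eq_univ_of_card _ (by rw [Finset.card_image_of_injOn hinj2, hDc, ZMod.card])
  have h5 : ∑ h : ZMod (2 * a), h = (k + 1) • ∑ h : ZMod (2 * a), h := by
    conv_lhs => rw [← him, Finset.sum_image hinj2]
    rw [← Prod.fst_sum, hsum, Prod.fst_sum, Finset.sum_product]
    simp only [Finset.sum_const, hIc]
    rw [Finset.smul_sum]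
  have h6 : ∑ h : ZMod (2 * a), h = (a * (2 * a - 1) : ℕ) := by
    have h7 : (range (2 * a)).image (fun i : ℕ => (i : ZMod (2 * a))) = univ := by
      rw [Finset.eq_univ_iff_forall]
      intro x
      exact Finset.mem_image.2 ⟨x.val, Finset.mem_range.2 (ZMod.val_lt x), by simp⟩
    rw [← h7, Finset.sum_image, ← Nat.cast_sum]
    · congr 1
      have := Finset.sum_range_id_mul_two (2 * a)
      nlinarith
    · intro i hi i' hi' h
      have := congrArg ZMod.val h
      rwa [ZMod.val_natCast_of_lt (by simpa using hi),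
        ZMod.val_natCast_of_lt (by simpa using hi')] at this
  rw [succ_nsmul, right_eq_add, h6, nsmul_eq_mul, ← Nat.cast_mul, ZMod.natCast_eq_zero_iff] at h5
  obtain ⟨y, hy⟩ := h5
  obtain ⟨a', rfl⟩ : ∃ a', a = a' + 1 := ⟨a - 1, by omega⟩
  have h8 : k * (2 * a' + 1) = 2 * y := by
    apply Nat.eq_of_mul_eq_mul_left ha
    rw [show 2 * (a' + 1) - 1 = 2 * a' + 1 by omega] at hy
    linarith
  have : Odd (k * (2 * a' + 1)) := (odd_two_mul_add_one b).mul (odd_two_mul_add_one a')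
  rw [h8] at this
  exact absurd this (by simp)

end Pool.Agent.MP_f9a021_co
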