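import Pool.Agent.MP_f9a021_co.Upper
import Pool.Agent.MP_f9a021_co.Lower

/-! Assembly of the upper and lower bounds. -/

open Finset

namespace Pool.Agent.MP_f9a021_co

universe u

lemma le_tauHat {G : Type*} [AddCommMonoid G] [Fintype G] {h c : ℕ}
    (hA : ∃ A : Finset G, WeaklyZeroSumFree h A ∧ A.card = c) : c ≤ tauHat G h :=
  le_csSup ⟨Fintype.card G, fun _ ⟨A, _, hA⟩ => hA ▸ Finset.card_le_univ A⟩ hA

lemma tauHat_le {G : Type*} [AddCommMonoid G] {h c : ℕ}
    (H : ∀ A : Finset G, A.card = c + 1 → ∃ T ⊆ A, T.card = h ∧ ∑ x ∈ T, x = 0) :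
    tauHat G h ≤ c := by
  refine csSup_le' ?_
  rintro _ ⟨A, hA, rfl⟩
  by_contra h1
  obtain ⟨B, hB, hB'⟩ := Finset.exists_subset_card_eq (show c + 1 ≤ A.card by omega)
  obtain ⟨T, h2, h3, h4⟩ := H B hB'
  exact hA T (h2.trans hB) h3 h4

lemma wzsf_map {G G' : Type*} [AddCommGroup G] [AddCommGroup G'] (φ : G ≃+ G') {h c : ℕ}
    (hA : ∃ A : Finset G, WeaklyZeroSumFree h A ∧ A.card = c) :
    ∃ A : Finset G', WeaklyZeroSumFree h A ∧ A.card = c := by
  obtain ⟨A, h1, h2⟩ := hA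
  refine ⟨A.map φ.toEquiv.toEmbedding, fun B hB hB' h0 => ?_, by rw [Finset.card_map, h2]⟩
  obtain ⟨C, hC, rfl⟩ := Finset.subset_map_iff.1 hB
  rw [Finset.card_map] at hB'
  refine h1 C hC hB' (φ.injective ?_)
  rw [Finset.sum_map] at h0
  rw [map_sum, map_zero]
  exact h0

lemma tauHat_congr {G G' : Type*} [AddCommGroup G] [AddCommGroup G'] (φ : G ≃+ G') (h : ℕ) :
    tauHat G h = tauHat G' h := by
  unfold tauHat
  congr 1
  ext c
  exact ⟨wzsf_map φ, wzsf_map φ.symm⟩

lemma exists_surj (G : Type*) [AddCommGroup G] [Finite G] {d : ℕ}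
    (hd : d ∣ AddMonoid.exponent G) : ∃ φ : G →+ ZMod d, Function.Surjective φ := by
  have : NeZero (Monoid.exponent (Multiplicative G)) := ⟨Monoid.exponent_ne_zero_of_finite⟩
  obtain ⟨E⟩ := CommGroup.monoidHom_mulEquiv_of_hasEnoughRootsOfUnity (Multiplicative G) ℂ
  obtain ⟨g, hg⟩ := Monoid.exists_orderOf_eq_exponent
    (Monoid.ExponentExists.of_finite (G := Multiplicative G))
  set χ := E.symm g with hχ
  have h1 : orderOf χ = AddMonoid.exponent G := by
    rw [hχ, MulEquiv.orderOf_eq, hg]; simp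
  have : Finite χ.range := Finite.of_surjective _ χ.rangeRestrict_surjective
  have h2 : d ∣ Nat.card χ.range := by
    refine hd.trans ?_
    rw [← h1]
    refine orderOf_dvd_of_pow_eq_one ?_
    ext x
    have := congrArg Subtype.val (pow_card_eq_one' (x := χ.rangeRestrict (Multiplicative.ofAdd x)))
    simpa using congrArg Units.val this
  let F := (zmodCyclicMulEquiv (G := χ.range) inferInstance).symm
  refine ⟨(ZMod.castHom h2 (ZMod d)).toAddMonoidHom.comp
    (MonoidHom.toAdditiveRight (F.toMonoidHom.comp χ.rangeRestrict)), ?_⟩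
  exact (ZMod.castHom_surjective h2).comp (F.surjective.comp χ.rangeRestrict_surjective)

section

variable {H : Type u} [AddCommGroup H] [Fintype H] {m n : ℕ}

lemma two_le_exp (hm : 2 ≤ m) (hN : Fintype.card H = m * AddMonoid.exponent H) :
    2 ≤ AddMonoid.exponent H := by
  have h0 : AddMonoid.exponent H ≠ 0 := AddMonoid.exponent_ne_zero_of_finite
  have : Nontrivial H := Fintype.one_lt_card_iff_nontrivial.1 (by
    rw [hN]; have := Nat.pos_of_ne_zero h0; nlinarith)
  exact AddMonoid.one_lt_exponent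

lemma big_le {N x : ℕ} (hp : ∀ p, p.Prime → p ∣ n → 30 * N ^ 5 < p) (hx : x ∣ n) (h0 : 0 < x)
    (h1 : x ≠ 1) : 30 * N ^ 5 < x :=
  (hp _ (Nat.minFac_prime h1) ((Nat.minFac_dvd x).trans hx)).trans_le (Nat.minFac_le h0)

lemma coprime_small {N x : ℕ} (hp : ∀ p, p.Prime → p ∣ n → 30 * N ^ 5 < p) (h0 : 0 < x)
    (hx : x ≤ 2 * N) : x.Coprime n := by
  refine Nat.coprime_of_dvd fun p h1 h2 h3 => ?_
  have h4 := hp p h1 h3
  have h5 := Nat.le_of_dvd h0 h2
  have h6 : N ≤ N ^ 5 := Nat.le_self_pow (by omega) N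
  omega

lemma exp_eq (hm : 2 ≤ m) (hN : Fintype.card H = m * AddMonoid.exponent H)
    (hp : ∀ p, p.Prime → p ∣ n → 30 * Fintype.card H ^ 5 < p) :
    AddMonoid.exponent (H × ZMod n) = AddMonoid.exponent H * n := by
  have h1 := two_le_exp hm hN
  rw [AddMonoid.exponent_prod, ZMod.exponent, lcm_eq_nat_lcm,
    (coprime_small hp (by omega) (by rw [hN]; nlinarith)).lcm_eq_mul]

lemma upper_main (hm : 2 ≤ m) (hN : Fintype.card H = m * AddMonoid.exponent H) (hn : 1 < n)
    (hp : ∀ p, p.Prime → p ∣ n → 30 * Fintype.card H ^ 5 < p) {k : ℕ} (h1 : m ≤ k)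
    (h2 : k + 1 ≤ 2 * m) (h3 : AddMonoid.exponent H ≤ k ∨ 2 * m ≤ k + 3) :
    tauHat (H × ZMod n) (AddMonoid.exponent H * n) ≤ AddMonoid.exponent H * n + k := by
  classical
  have : NeZero n := ⟨by omega⟩
  have he := two_le_exp hm hN
  have hbig := big_le hp dvd_rfl (by omega) (by omega)
  set N := Fintype.card H with hNdef
  have hN4 : 2 * m ≤ N := by rw [hN]; nlinarith
  have hk : k + 1 ≤ N := by omega
  have hM : 0 < 6 * N ^ 2 := by have : 0 < N := by omega
                                positivity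
  set q := n / (6 * N ^ 2) with hq
  have q1 : 6 * N ^ 2 * q ≤ n := Nat.mul_div_le _ _
  have q2 : n < 6 * N ^ 2 * (q + 1) := Nat.lt_mul_div_succ n hM
  have q3 : N ^ 2 ≤ N ^ 5 := Nat.pow_le_pow_right (by omega) (by omega)
  refine tauHat_le fun A hA => upper_param (m := m) (k := k + 1) (t := q + 1)
    (w := 2 * (k + 1) * (6 * N ^ 2)) (fun x => Nat.le_of_dvd (by omega) (AddMonoid.addOrder_dvd_exponent x))
    AddMonoid.exponent_nsmul_eq_zero (by omega) (by omega) hN ?_ ?_ ?_ ?_ ?_ A hA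
  · intro y hy
    have h4 : IsUnit ((2 : ℕ) : ZMod n) :=
      (ZMod.isUnit_iff_coprime 2 n).2 (coprime_small hp (by omega) (by omega))
    exact h4.mul_right_eq_zero.1 (by rw [← hy]; push_cast; ring)
  · intro K hK
    have h4 := K.card_mul_index
    rw [Nat.card_zmod] at h4
    have h5 := big_le hp (Dvd.intro_left _ h4) (Nat.pos_of_ne_zero K.index_ne_zero_of_finite)
      (by rwa [Ne, AddSubgroup.index_eq_one])
    rw [card_fs]
    refine le_trans ((Nat.le_div_iff_mul_le hM).2 ?_) (Nat.le_succ _)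
    exact le_trans (Nat.mul_le_mul_left _ (by omega)) h4.le
  · have h4 : 6 * N ^ 2 * (2 * N) ≤ 30 * N ^ 5 := by
      have : N ^ 3 ≤ N ^ 5 := Nat.pow_le_pow_right (by omega) (by omega)
      nlinarith
    have := lt_of_mul_lt_mul_left (a := 6 * N ^ 2) (h4.trans_lt (hbig.trans q2)) (Nat.zero_le _)
    omega
  · nlinarith
  · rw [← hN]
    have h4 : (k + 1) * N * (3 * (q + 1) + 2 * (k + 1) * (6 * N ^ 2)) ≤
        N * N * (3 * (q + 1) + 2 * N * (6 * N ^ 2)) := by gcongr
    nlinarith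

lemma exists_quot (hm : 2 ≤ m) (hN : Fintype.card H = m * AddMonoid.exponent H) [NeZero n]
    (hp : ∀ p, p.Prime → p ∣ n → 30 * Fintype.card H ^ 5 < p) {f d : ℕ}
    (hd : f * d = AddMonoid.exponent H * n) :
    (∃ φ : H × ZMod n →+ ZMod d, Function.Surjective φ) ∧
      Fintype.card (H × ZMod n) = m * f * d :=
  ⟨exists_surj _ (by rw [exp_eq hm hN hp]; exact Dvd.intro_left _ hd), by
    rw [Fintype.card_prod, ZMod.card, hN, mul_assoc, mul_assoc, hd]⟩

lemma small_lt (hm : 2 ≤ m) (hN : Fintype.card H = m * AddMonoid.exponent H) :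
    2 * m * m + 7 ≤ 30 * Fintype.card H ^ 5 := by
  have he := two_le_exp hm hN
  have h1 : m ≤ Fintype.card H := by rw [hN]; nlinarith
  have h2 : m ^ 5 ≤ Fintype.card H ^ 5 := Nat.pow_le_pow_left h1 5
  have h3 : m ^ 2 ≤ m ^ 5 := Nat.pow_le_pow_right (by omega) (by omega)
  nlinarith

lemma lower_main (hm : 2 ≤ m) (hN : Fintype.card H = m * AddMonoid.exponent H) (hn : 1 < n)
    (hp : ∀ p, p.Prime → p ∣ n → 30 * Fintype.card H ^ 5 < p) :
    AddMonoid.exponent H * n + (m - 1) ≤ tauHat (H × ZMod n) (AddMonoid.exponent H * n) := by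
  classical
  have : NeZero n := ⟨by omega⟩
  obtain ⟨⟨φ, hφ⟩, hc⟩ := exists_quot hm hN hp (f := AddMonoid.exponent H) (d := n) rfl
  have h1 := big_le hp dvd_rfl (by omega) (by omega)
  have h2 := small_lt hm hN
  exact le_tauHat (lower_pred φ hφ hc hm (two_le_exp hm hN) (by omega))

lemma lower_div (hm : 2 ≤ m) (hN : Fintype.card H = m * AddMonoid.exponent H) (hn : 1 < n)
    (hp : ∀ p, p.Prime → p ∣ n → 30 * Fintype.card H ^ 5 < p) {f d : ℕ}
    (hd : f * d = AddMonoid.exponent H * n) (h1 : 2 * m ≤ d) (h2 : 2 ≤ d % m)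
    (hc : 2 * (m - d % m) + 5 ≤ f * (m - d % m) ∨
      (Odd (f * (d / m)) ∧ (m ≤ f * (m - d % m) ∨ m - d % m + 3 ≤ f * (m - d % m)))) :
    AddMonoid.exponent H * n + m ≤ tauHat (H × ZMod n) (AddMonoid.exponent H * n) := by
  classical
  have : NeZero n := ⟨by omega⟩
  have : NeZero d := ⟨by omega⟩
  obtain ⟨⟨φ, hφ⟩, h3⟩ := exists_quot hm hN hp hd
  have h4 := Nat.mod_lt d (show 0 < m by omega)
  have h5 : f ≠ 0 := by
    rintro rfl
    have := two_le_exp hm hN
    have : 0 < AddMonoid.exponent H * n := by positivity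
    omega
  rw [← hd]
  exact le_tauHat (lower_exact φ hφ h3 (Nat.div_add_mod d m).symm (by omega) h2
    ((Nat.le_div_iff_mul_le (by omega)).2 h1) (by omega) hc)

lemma lower_seven (hm : 2 ≤ m) (hN : Fintype.card H = m * AddMonoid.exponent H) (hn : 1 < n)
    (hp : ∀ p, p.Prime → p ∣ n → 30 * Fintype.card H ^ 5 < p) {f d : ℕ}
    (hd : f * d = AddMonoid.exponent H * n) (h1 : 2 * m ≤ d) (h2 : 2 ≤ d % m) (hf : 7 ≤ f) :
    AddMonoid.exponent H * n + m ≤ tauHat (H × ZMod n) (AddMonoid.exponent H * n) := by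
  have h4 := Nat.mod_lt d (show 0 < m by omega)
  have h5 := Nat.mul_le_mul_right (m - d % m) hf
  exact lower_div hm hN hn hp hd h1 h2 (Or.inl (by omega))

lemma lower_prime (hm : 2 ≤ m) (hN : Fintype.card H = m * AddMonoid.exponent H) (hn : 1 < n)
    (hp : ∀ p, p.Prime → p ∣ n → 30 * Fintype.card H ^ 5 < p) {p : ℕ} (h1 : p.Prime) (h2 : p ∣ n)
    (h3 : ¬ p ≡ 1 [MOD m]) (h4 : p ≠ n ∨ AddMonoid.exponent H = 5 ∨ 7 ≤ AddMonoid.exponent H ∨
      (AddMonoid.exponent H = 3 ∧ m = 3)) :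
    AddMonoid.exponent H * n + m ≤ tauHat (H × ZMod n) (AddMonoid.exponent H * n) := by
  have he := two_le_exp hm hN
  have b1 := hp p h1 h2
  have b2 := small_lt hm hN
  have b3 : 2 * m ≤ p := by nlinarith
  have b4 : 2 ≤ p % m := by
    have : p % m ≠ 0 := fun h => by
      rcases h1.eq_one_or_self_of_dvd m (Nat.dvd_of_mod_eq_zero h) with h | h <;> omega
    have : p % m ≠ 1 := fun h => h3 (by rw [Nat.ModEq, h, Nat.mod_eq_of_lt (by omega)])
    omega
  obtain ⟨c, hc⟩ := h2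
  have b5 : AddMonoid.exponent H * c * p = AddMonoid.exponent H * n := by rw [hc]; ring
  have c0 : 0 < c := Nat.pos_of_ne_zero (by rintro rfl; omega)
  rcases eq_or_ne c 1 with rfl | hc1
  swap
  · have := big_le hp (Dvd.intro_left _ hc.symm) c0 hc1
    exact lower_seven hm hN hn hp b5 b3 b4 (by nlinarith)
  have b6 := Nat.mod_lt p (show 0 < m by omega)
  have b7 := Nat.div_add_mod p m
  have b8 : Odd p := h1.odd_of_ne_two (by omega)
  have b9 : Odd m → p % m + 1 = m → Odd (p / m) := by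
    intro h h'
    rw [← Nat.not_even_iff_odd]
    intro h''
    have := h''.mul_left m
    rw [Nat.odd_iff] at b8 h
    rw [Nat.even_iff] at this
    omega
  rcases h4 with h | h | h | ⟨h, h'⟩
  · omega
  · have hodd : Odd m := by
      rw [← Nat.not_even_iff_odd]
      intro h5
      have : Fact (Nat.Prime 2) := ⟨Nat.prime_two⟩
      obtain ⟨x, hx⟩ := exists_prime_addOrderOf_dvd_card (G := H) 2
        (by rw [hN]; exact h5.two_dvd.mul_right _)
      have := AddMonoid.addOrder_dvd_exponent x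
      rw [hx, h] at this
      omega
    refine lower_div hm hN hn hp b5 b3 b4 ?_
    rw [h]
    by_cases h5 : p % m + 1 = m
    · exact Or.inr ⟨(by decide : Odd (5 * 1)).mul (b9 hodd h5), by omega⟩
    · omega
  · exact lower_seven hm hN hn hp b5 b3 b4 (by omega)
  · refine lower_div hm hN hn hp b5 b3 b4 ?_
    rw [h]
    exact Or.inr ⟨(by decide : Odd (3 * 1)).mul (b9 (h' ▸ by decide) (by omega)), by omega⟩

lemma modEq_one {m : ℕ} (n : ℕ) : n ≠ 0 → (∀ p, p.Prime → p ∣ n → p ≡ 1 [MOD m]) →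
    n ≡ 1 [MOD m] := by
  induction n using induction_on_primes with
  | zero => simp
  | one => exact fun _ _ => rfl
  | prime_mul p a h1 ih =>
    intro h2 h3
    exact (h3 p h1 (dvd_mul_right _ _)).mul (ih (by rintro rfl; simp at h2)
      fun q h4 h5 => h3 q h4 (h5.mul_left _))

lemma lower_comp (hm : 2 ≤ m) (hN : Fintype.card H = m * AddMonoid.exponent H) (hn : 1 < n)
    (hp : ∀ p, p.Prime → p ∣ n → 30 * Fintype.card H ^ 5 < p) (h1 : AddMonoid.exponent H ≤ m)
    (h2 : ¬ (AddMonoid.exponent H).Prime) (h3 : AddMonoid.exponent H ≠ 4)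
    (h4 : AddMonoid.exponent H ≠ 6) :
    AddMonoid.exponent H * n + m ≤ tauHat (H × ZMod n) (AddMonoid.exponent H * n) := by
  have he := two_le_exp hm hN
  by_cases h5 : ∀ p, p.Prime → p ∣ n → p ≡ 1 [MOD m]
  swap
  · push Not at h5
    obtain ⟨p, p1, p2, p3⟩ := h5
    refine lower_prime hm hN hn hp p1 p2 p3 (Or.inr (Or.inr (Or.inl ?_)))
    by_contra h6
    generalize AddMonoid.exponent H = e at *
    have : e < 7 := by omega
    interval_cases e <;> simp_all (config := { decide := true })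
  obtain ⟨l, f, l1, l2, l3⟩ : ∃ l f, 2 ≤ l ∧ l ≤ f ∧ AddMonoid.exponent H = l * f := by
    obtain ⟨a, b, a1, a2, a3⟩ := (Nat.not_prime_iff_exists_mul_eq he).1 h2
    have : 2 ≤ a := by
      by_contra h
      have : a = 0 ∨ a = 1 := by omega
      rcases this with rfl | rfl <;> omega
    have : 2 ≤ b := by
      by_contra h
      have : b = 0 ∨ b = 1 := by omega
      rcases this with rfl | rfl <;> omega
    rcases le_total a b with h | h
    · exact ⟨a, b, by omega, h, a3.symm⟩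
    · exact ⟨b, a, by omega, h, by rw [← a3, mul_comm]⟩
  have b1 := big_le hp dvd_rfl (by omega) (by omega)
  have b2 := small_lt hm hN
  have b3 : l < m := by nlinarith
  have b4 : l * n % m = l := by
    have := (modEq_one n (by omega) h5).mul_left l
    rwa [Nat.ModEq, mul_one, Nat.mod_eq_of_lt b3] at this
  refine lower_div hm hN hn hp (f := f) (d := l * n) (by rw [l3]; ring) (by nlinarith) (by omega)
    (Or.inl ?_)
  rw [b4]
  rw [l3] at h1 h3 h4
  obtain ⟨ρ, rfl⟩ := Nat.exists_eq_add_of_le b3.le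
  rw [Nat.add_sub_cancel_left]
  rcases Nat.lt_or_ge f 4 with h | h
  · interval_cases f <;> interval_cases l <;> omega
  · nlinarith

lemma lower_two (hm : 3 ≤ m) (hN : Fintype.card H = m * AddMonoid.exponent H) (hn : 1 < n)
    (hp : ∀ p, p.Prime → p ∣ n → 30 * Fintype.card H ^ 5 < p)
    (h1 : 2 * m - 1 ∣ AddMonoid.exponent H) :
    AddMonoid.exponent H * n + (2 * m - 3) ≤ tauHat (H × ZMod n) (AddMonoid.exponent H * n) := by
  classical
  have : NeZero n := ⟨by omega⟩
  have : NeZero (2 * m - 1) := ⟨by omega⟩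
  have he := two_le_exp (by omega) hN
  obtain ⟨c, hc⟩ := h1
  have c0 : 0 < c := Nat.pos_of_ne_zero (by rintro rfl; omega)
  have b1 := big_le hp dvd_rfl (by omega) (by omega)
  have b2 := small_lt (by omega) hN
  have b3 : c * n * (2 * m - 1) = AddMonoid.exponent H * n := by rw [hc]; ring
  obtain ⟨⟨φ, hφ⟩, h3⟩ := exists_quot (by omega) hN hp b3
  have b4 : 4 * m ≤ c * n := by nlinarith
  have b5 : c * n ≤ m * (c * n) := Nat.le_mul_of_pos_left _ (by omega)
  have b6 : c * n * (2 * m - 1) + c * n = 2 * (m * (c * n)) := by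
    obtain ⟨m', rfl⟩ : ∃ m', m = m' + 1 := ⟨m - 1, by omega⟩
    rw [show 2 * (m' + 1) - 1 = 2 * m' + 1 by omega]
    ring
  exact le_tauHat (lower_wide φ hφ h3 (j := 1) (i := 0) (Y := c * n - (2 * m - 3)) (by omega)
    (by omega) (by omega) (by omega) (by omega) (by omega))

end

lemma rank_two {m k : ℕ} (hm : 2 ≤ m) (hk : 1 < k) (hp : ∀ p, p.Prime → p ∣ k → 30 * m ^ 10 < p)
    (h : ¬ (m.Prime ∧ Odd m ∧ ∀ p, p.Prime → p ∣ k → p ≡ 1 [MOD m])) :
    tauHat (ZMod m × ZMod (m * k)) (m * k) = m * k + m := by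
  have : NeZero m := ⟨by omega⟩
  have : NeZero (m * k) := ⟨by positivity⟩
  have he : AddMonoid.exponent (ZMod m × ZMod m) = m := by
    rw [AddMonoid.exponent_prod, ZMod.exponent, lcm_eq_nat_lcm, Nat.lcm_self]
  have hc : Fintype.card (ZMod m × ZMod m) = m * m := by rw [Fintype.card_prod, ZMod.card]
  have hN : Fintype.card (ZMod m × ZMod m) = m * AddMonoid.exponent (ZMod m × ZMod m) := by
    rw [he, hc]
  have hp' : ∀ p, p.Prime → p ∣ k → 30 * Fintype.card (ZMod m × ZMod m) ^ 5 < p := by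
    intro p h1 h2
    rw [hc]
    exact lt_of_eq_of_lt (by ring) (hp p h1 h2)
  have hco : m.Coprime k := coprime_small hp' (by omega) (by rw [hc]; nlinarith)
  have E : ZMod m × ZMod (m * k) ≃+ (ZMod m × ZMod m) × ZMod k :=
    ((AddEquiv.refl _).prodCongr (ZMod.chineseRemainder hco).toAddEquiv).trans
      AddEquiv.prodAssoc.symm
  have h1 := upper_main hm hN hk hp' le_rfl (by omega) (Or.inl he.le)
  rw [he, ← tauHat_congr E] at h1
  refine le_antisymm h1 ?_
  rcases Nat.even_or_odd' m with ⟨a, ha | ha⟩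
  · obtain ⟨b, hb⟩ : Odd k := by
      have := coprime_small hp' (x := 2) (by omega) (by rw [hc]; nlinarith)
      exact Nat.coprime_two_left.1 this
    subst ha hb
    exact le_tauHat (lower_boundary (by omega))
  rw [tauHat_congr E]
  by_cases h2 : m.Prime
  · have h3 : ¬ ∀ p, p.Prime → p ∣ k → p ≡ 1 [MOD m] := fun h3 => h ⟨h2, ⟨a, ha⟩, h3⟩
    push Not at h3
    obtain ⟨p, p1, p2, p3⟩ := h3
    have := lower_prime hm hN hk hp' p1 p2 p3 (by rw [he]; omega)
    rwa [he] at this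
  · have := lower_comp hm hN hk hp' he.le (by rwa [he]) (by omega) (by omega)
    rwa [he] at this

end Pool.Agent.MP_f9a021_co
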