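import Pool.Agent.MP_f9a021_co.GT7
import Pool.Agent.MP_f9a021_co.Main

/-! The Harborth constant of the square of a large cyclic group. -/

open Finset

namespace Pool.Agent.MP_f9a021_co.GT

lemma pow_eighty (l : ℕ) (hl : 2000 ≤ l) : (l + 1) ^ 80 ≤ 2 ^ l := by
  induction l, hl using Nat.le_induction with
  | base => decide +kernel
  | succ l hl ih =>
    have h1 : (l + 1 + 1) * 2000 ≤ (l + 1) * 2001 := by omega
    have h2 := Nat.pow_le_pow_left h1 80
    have h3 : 2001 ^ 80 ≤ 2 * 2000 ^ 80 := by decide +kernel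
    rw [mul_pow, mul_pow] at h2
    refine Nat.le_of_mul_le_mul_right ?_ (show 0 < 2000 ^ 80 by positivity)
    calc _ ≤ (l + 1) ^ 80 * 2001 ^ 80 := h2
      _ ≤ 2 ^ l * (2 * 2000 ^ 80) := Nat.mul_le_mul ih h3
      _ = _ := by rw [pow_succ 2 l, mul_assoc]

lemma exists_scale {n : ℕ} (hn : 2000 ^ 40 ≤ n) :
    ∃ l, 2000 ≤ l ∧ l ^ 40 ≤ n ∧ n < (l + 1) ^ 40 ∧ n * n ≤ 2 ^ l := by
  have hex : ∃ l, n < (l + 1) ^ 40 :=
    ⟨n, (Nat.lt_succ_self n).trans_le (Nat.le_self_pow (by norm_num) _)⟩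
  have h1 := Nat.find_spec hex
  have h2 : 2000 ≤ Nat.find hex := by
    by_contra h
    have := Nat.pow_le_pow_left (show Nat.find hex + 1 ≤ 2000 by omega) 40
    omega
  have h3 := Nat.find_min hex (show Nat.find hex - 1 < Nat.find hex by omega)
  rw [Nat.sub_add_cancel (by omega), not_lt] at h3
  refine ⟨_, h2, h3, h1, le_trans ?_ (pow_eighty _ h2)⟩
  rw [show 80 = 40 + 40 from rfl, pow_add]
  exact Nat.mul_le_mul h1.le h1.le

lemma sep_sq (n : ℕ) (x : ZMod n × ZMod n) (hx : x ≠ 0) :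
    ∃ φ : ZMod n × ZMod n →+ ZMod n, φ x ≠ 0 := by
  by_cases h : x.1 = 0
  · exact ⟨AddMonoidHom.snd _ _, fun h' => hx (Prod.ext h h')⟩
  · exact ⟨AddMonoidHom.fst _ _, h⟩

theorem upper_sq {n : ℕ} (hn : 2000 ^ 40 ≤ n) (A : Finset (ZMod n × ZMod n))
    (hA : (Odd n ∧ A.card + 1 = 2 * n) ∨ A.card = 2 * n + 1) :
    ∃ U ⊆ A, U.card = n ∧ ∑ x ∈ U, x = 0 := by
  classical
  have hn0 : 2 ≤ n := le_trans (by norm_num) hn
  haveI : NeZero n := ⟨by omega⟩
  obtain ⟨l, l1, l2, -, l4⟩ := exists_scale hn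
  have hG : Nat.card (ZMod n × ZMod n) = n * n := by simp
  obtain ⟨e1, e2, e3⟩ := eta_facts l1 l2 rfl
  set η := (n / l ^ 5 + 1) * l ^ 4 with hη
  have e8 : η * 2000 ≤ η * l := Nat.mul_le_mul_left _ l1
  have e9 : 0 < η := lt_of_lt_of_le (by positivity) e3
  by_contra hcon
  push Not at hcon
  obtain ⟨L, e, p, W, y, n', B, β, s1, s2, s3, s4, s5, s6, s7, s8, s9⟩ :=
    structure_thm (sep_sq n) l1 l2 hη (hG.le.trans l4) hG.le A (by omega) (by omega) hcon
  have hG0 := nsmul_eq_zero_of_sep (sep_sq n)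
  have hq : addOrderOf (e : (ZMod n × ZMod n) ⧸ L) ∣ n :=
    addOrderOf_dvd_of_nsmul_eq_zero (by rw [← QuotientAddGroup.mk_nsmul, hG0]; rfl)
  obtain ⟨hqn, a, k1, k2⟩ := two_levels W y hq e9 (by omega) (by omega) s4 s5 s6 s7 s8 s9
  have c0 : W.filter (fun x => y x = a) ⊆ A.filter (fun x => x - (p + a • e) ∈ L) := by
    intro x hx
    obtain ⟨x1, x2⟩ := Finset.mem_filter.1 hx
    have := s3 x x1
    rw [x2, sub_sub] at this
    exact Finset.mem_filter.2 ⟨s1 x1, this⟩
  have c1 : W.filter (fun x => y x = a + 1) ⊆ A.filter (fun x => x - (p + a • e + e) ∈ L) := by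
    intro x hx
    obtain ⟨x1, x2⟩ := Finset.mem_filter.1 hx
    have := s3 x x1
    rw [x2, sub_sub, add_zsmul, one_zsmul, ← add_assoc] at this
    exact Finset.mem_filter.2 ⟨s1 x1, this⟩
  have c2 := Finset.card_le_card c0
  have c3 := Finset.card_le_card c1
  have c4 := card_le_of_diff L (A.filter (fun x => x - (p + a • e) ∈ L)) fun x hx x' hx' => by
    simpa using L.sub_mem (Finset.mem_filter.1 hx).2 (Finset.mem_filter.1 hx').2
  have c5 := AddSubgroup.card_eq_card_quotient_mul_card_addSubgroup L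
  have c6 := addOrderOf_dvd_natCard (e : (ZMod n × ZMod n) ⧸ L)
  rw [hqn] at c6
  rw [hG] at c5
  have c7 : Nat.card ((ZMod n × ZMod n) ⧸ L) = n := by
    refine (eq_of_dvd_of_lt c6 Nat.card_pos ?_).symm
    by_contra hc
    have : 2 * n * Nat.card L ≤ n * n := by rw [c5]; exact Nat.mul_le_mul_right _ (by omega)
    rw [mul_comm 2, mul_assoc] at this
    have := Nat.le_of_mul_le_mul_left this (by omega)
    omega
  rw [c7] at c5
  have c8 : Nat.card L = n := (Nat.eq_of_mul_eq_mul_left (by omega) c5).symm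
  have c9 : AddSubgroup.zmultiples (e : (ZMod n × ZMod n) ⧸ L) = ⊤ :=
    AddSubgroup.eq_top_of_card_eq _ (by rw [Nat.card_zmultiples, hqn, c7])
  obtain ⟨U, u1, u2, u3⟩ := final hG0 L c8 (p + a • e) e (fun h => by
      rw [(QuotientAddGroup.eq_zero_iff e).2 h, addOrderOf_zero] at hqn
      omega) (fun x => by
      have : ((x - (p + a • e) : ZMod n × ZMod n) : (ZMod n × ZMod n) ⧸ L) ∈
        AddSubgroup.zmultiples (e : (ZMod n × ZMod n) ⧸ L) := c9 ▸ AddSubgroup.mem_top _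
      rw [mem_zmultiples_iff_mem_range_addOrderOf, Finset.mem_image] at this
      obtain ⟨z, z1, z2⟩ := this
      refine ⟨z, by rwa [Finset.mem_range, hqn] at z1, ?_⟩
      rw [← QuotientAddGroup.eq_zero_iff, QuotientAddGroup.mk_sub, ← z2,
        QuotientAddGroup.mk_nsmul, sub_self]) A (by omega) (by omega)
    (hA.imp (fun h => ⟨h.1, h.2.ge⟩) (fun h => h.ge))
  exact hcon U u1 u2 u3

lemma lower_odd {n : ℕ} (hn : 2 ≤ n) :
    ∃ A : Finset (ZMod n × ZMod n), WeaklyZeroSumFree n A ∧ A.card = 2 * n - 2 := by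
  haveI : NeZero n := ⟨by omega⟩
  haveI : Fact (1 < n) := ⟨hn⟩
  have hc : ((univ : Finset (ZMod n)).erase 0).card = n - 1 := by
    rw [Finset.card_erase_of_mem (Finset.mem_univ _), Finset.card_univ, ZMod.card]
  refine ⟨({0, 1} : Finset (ZMod n)) ×ˢ (univ.erase 0), fun B hB hBc h0 => ?_, by
    rw [Finset.card_product, Finset.card_pair zero_ne_one, hc]; omega⟩
  have h1 : ∀ c : ZMod n, (B.filter (fun x => x.1 = c)).card ≤ n - 1 := by
    intro c
    rw [← hc]
    refine Finset.card_le_card_of_injOn Prod.snd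
      (fun x hx => (Finset.mem_product.1 (hB (Finset.mem_filter.1 hx).1)).2) fun x hx y hy h => ?_
    exact Prod.ext ((Finset.mem_filter.1 hx).2.trans (Finset.mem_filter.1 hy).2.symm) h
  have h2 := Finset.card_filter_add_card_filter_not (s := B) (fun x => x.1 = 1)
  have h3 : B.filter (fun x => ¬ x.1 = 1) = B.filter (fun x => x.1 = 0) := by
    refine Finset.filter_congr fun x hx => ?_
    have := (Finset.mem_product.1 (hB hx)).1
    simp only [Finset.mem_insert, Finset.mem_singleton] at this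
    rcases this with h | h <;> simp [h]
  have h4 : ((B.filter (fun x => x.1 = 1)).card : ZMod n) = 0 := by
    have := congrArg Prod.fst h0
    rw [Prod.fst_sum, ← Finset.sum_filter_add_sum_filter_not B (fun x => x.1 = 1), h3,
      Finset.sum_congr rfl (fun x hx => (Finset.mem_filter.1 hx).2),
      Finset.sum_congr rfl (fun x hx => (Finset.mem_filter.1 hx).2)] at this
    simpa using this
  rw [h3] at h2
  have h5 := h1 0
  have h6 := h1 1
  have := Nat.le_of_dvd (by omega) ((ZMod.natCast_eq_zero_iff _ _).1 h4)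
  omega

theorem gt_main {n : ℕ} (hn : 2000 ^ 40 ≤ n) :
    tauHat (ZMod n × ZMod n) n = if Even n then 2 * n else 2 * n - 2 := by
  have hn0 : 2 ≤ n := le_trans (by norm_num) hn
  haveI : NeZero n := ⟨by omega⟩
  split_ifs with h
  · refine le_antisymm (tauHat_le fun A hA => upper_sq hn A (Or.inr hA)) (le_tauHat ?_)
    obtain ⟨a, rfl⟩ := h.two_dvd
    have := lower_boundary (a := a) (b := 0) (by omega)
    rw [mul_zero, zero_add, mul_one] at this
    rwa [two_mul (2 * a)]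
  · exact le_antisymm (tauHat_le fun A hA => upper_sq hn A
      (Or.inl ⟨Nat.not_even_iff_odd.1 h, by omega⟩)) (le_tauHat (lower_odd hn0))

end Pool.Agent.MP_f9a021_co.GT
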