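import Mathlib

/-! Kneser's addition theorem in a finite abelian group (DeVos's proof). -/

open Finset Pointwise

namespace Pool.Agent.MP_f9a021_co

variable {G : Type*} [AddCommGroup G] [Fintype G] [DecidableEq G]

open Classical in
/-- The coset `a + K` as a finset. -/
noncomputable def cos (K : AddSubgroup G) (a : G) : Finset G := univ.filter (fun x => x - a ∈ K)

open Classical in
/-- A subgroup as a finset. -/
noncomputable def fs (K : AddSubgroup G) : Finset G := univ.filter (fun x => x ∈ K)

omit [DecidableEq G] in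
@[simp] lemma mem_cos {K : AddSubgroup G} {a x : G} : x ∈ cos K a ↔ x - a ∈ K := by
  simp [cos]

omit [DecidableEq G] in
@[simp] lemma mem_fs {K : AddSubgroup G} {x : G} : x ∈ fs K ↔ x ∈ K := by
  simp [fs]

omit [DecidableEq G] in
lemma card_fs (K : AddSubgroup G) : (fs K).card = Nat.card K := by
  exact (Nat.subtype_card (fs K) (fun x => mem_fs)).symm

omit [DecidableEq G] in
lemma card_cos (K : AddSubgroup G) (a : G) : (cos K a).card = (fs K).card := by
  refine Finset.card_bij (fun x _ => x - a) (fun x hx => by simpa using hx)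
    (fun x _ y _ h => by simpa using h) (fun y hy => ⟨y + a, by simpa using hy, by simp⟩)

omit [DecidableEq G] in
lemma fs_pos (K : AddSubgroup G) : 0 < (fs K).card :=
  Finset.card_pos.2 ⟨0, by simp⟩

omit [DecidableEq G] in
lemma fs_bot : (fs (⊥ : AddSubgroup G)).card = 1 := by
  rw [card_fs]; simp

omit [DecidableEq G] in
lemma fs_top : (fs (⊤ : AddSubgroup G)).card = Fintype.card G := by
  rw [card_fs]; simp

omit [DecidableEq G] in
lemma fs_lt {K L : AddSubgroup G} (h : K ≤ L) (h' : ¬ L ≤ K) : (fs K).card < (fs L).card := by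
  apply Finset.card_lt_card
  refine ⟨fun x hx => by simpa using h (by simpa using hx), fun h2 => h' fun x hx => ?_⟩
  simpa using h2 (mem_fs.2 hx)

/-- The stabiliser of a finset under translation. -/
def stab (X : Finset G) : AddSubgroup G where
  carrier := {g | ∀ x ∈ X, g + x ∈ X}
  zero_mem' := fun x hx => by simpa using hx
  add_mem' := fun {a b} ha hb x hx => by rw [add_assoc]; exact ha _ (hb x hx)
  neg_mem' := fun {g} hg x hx => by
    have h1 : X.image (fun y => g + y) = X := by
      apply Finset.eq_of_subset_of_card_le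
      · intro y hy
        obtain ⟨z, hz, rfl⟩ := Finset.mem_image.1 hy
        exact hg z hz
      · rw [Finset.card_image_of_injective _ (add_right_injective g)]
    rw [← h1] at hx
    obtain ⟨z, hz, rfl⟩ := Finset.mem_image.1 hx
    simpa using hz

omit [Fintype G] in
lemma mem_stab {X : Finset G} {g : G} : g ∈ stab X ↔ ∀ x ∈ X, g + x ∈ X := Iff.rfl

omit [Fintype G] in
lemma mem_of_sub_mem {X : Finset G} {K : AddSubgroup G} (h : K ≤ stab X) {x y : G} (hx : x ∈ X)
    (hy : y - x ∈ K) : y ∈ X := by
  have := h hy x hx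
  simpa using this

omit [Fintype G] in
lemma stab_le_add (X Y : Finset G) : stab X ≤ stab (X + Y) := by
  intro g hg z hz
  obtain ⟨x, hx, y, hy, rfl⟩ := Finset.mem_add.1 hz
  rw [← add_assoc]
  exact Finset.add_mem_add (hg x hx) hy

omit [Fintype G] in
lemma stab_le_add' (X Y : Finset G) : stab Y ≤ stab (X + Y) := by
  rw [add_comm]; exact stab_le_add Y X

lemma mem_add_fs {X : Finset G} {K : AddSubgroup G} {y : G} :
    y ∈ X + fs K ↔ ∃ x ∈ X, y - x ∈ K := by
  rw [Finset.mem_add]
  constructor
  · rintro ⟨x, hx, k, hk, rfl⟩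
    exact ⟨x, hx, by simpa using hk⟩
  · rintro ⟨x, hx, h⟩
    exact ⟨x, hx, y - x, by simpa using h, by simp⟩

lemma le_stab_add_fs (X : Finset G) (K : AddSubgroup G) : K ≤ stab (X + fs K) := by
  intro g hg y hy
  obtain ⟨x, hx, h⟩ := mem_add_fs.1 hy
  exact mem_add_fs.2 ⟨x, hx, by rw [add_sub_assoc]; exact K.add_mem hg h⟩

lemma subset_add_fs (X : Finset G) (K : AddSubgroup G) : X ⊆ X + fs K :=
  fun x hx => mem_add_fs.2 ⟨x, hx, by simp⟩

lemma add_fs_eq {X : Finset G} {K : AddSubgroup G} (h : K ≤ stab X) : X + fs K = X := by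
  refine Finset.Subset.antisymm (fun y hy => ?_) (subset_add_fs X K)
  obtain ⟨x, hx, h'⟩ := mem_add_fs.1 hy
  exact mem_of_sub_mem h hx h'

lemma card_le_add_fs (X : Finset G) (K : AddSubgroup G) : X.card ≤ (X + fs K).card :=
  Finset.card_le_card (subset_add_fs X K)

lemma add_fs_mono (X : Finset G) {K L : AddSubgroup G} (h : K ≤ L) : X + fs K ⊆ X + fs L := by
  intro y hy
  obtain ⟨x, hx, h'⟩ := mem_add_fs.1 hy
  exact mem_add_fs.2 ⟨x, hx, h h'⟩

lemma cos_subset {X : Finset G} {K : AddSubgroup G} (h : K ≤ stab X) {a : G} (ha : a ∈ X) :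
    cos K a ⊆ X := fun _ hy => mem_of_sub_mem h ha (mem_cos.1 hy)

lemma card_dvd {K : AddSubgroup G} (X : Finset G) (h : K ≤ stab X) : (fs K).card ∣ X.card := by
  induction X using Finset.strongInduction with
  | H X ih =>
    rcases X.eq_empty_or_nonempty with rfl | ⟨a, ha⟩
    · simp
    have h1 := cos_subset h ha
    have h2 : X \ cos K a ⊂ X := Finset.sdiff_ssubset h1 ⟨a, by simp⟩
    have h3 := ih _ h2 (fun g hg x hx => by
      rw [Finset.mem_sdiff, mem_cos] at hx ⊢
      refine ⟨h hg x hx.1, fun h4 => hx.2 ?_⟩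
      have := K.sub_mem h4 hg
      rwa [show g + x - a - g = x - a by abel] at this)
    rw [← Finset.card_sdiff_add_card_eq_card h1, card_cos]
    exact dvd_add h3 dvd_rfl

lemma card_fs_dvd {K L : AddSubgroup G} (h : K ≤ L) : (fs K).card ∣ (fs L).card :=
  card_dvd _ (fun g hg x hx => by simpa using L.add_mem (h hg) (by simpa using hx))

lemma eq_univ_of_stab {X : Finset G} (hX : X.Nonempty) (h : stab X = ⊤) : X = univ := by
  obtain ⟨a, ha⟩ := hX
  rw [Finset.eq_univ_iff_forall]
  intro x
  exact mem_of_sub_mem h.ge ha trivial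

/-- Kneser's inequality for the pair `A, B`. -/
def Kn (A B : Finset G) : Prop :=
  (A + fs (stab (A + B))).card + (B + fs (stab (A + B))).card ≤
    (A + B).card + (fs (stab (A + B))).card

lemma kneser_core (A B : Finset G) (hA : stab (A + B) ≤ stab A) (hB : stab (A + B) ≤ stab B)
    (hI : (A ∩ B).Nonempty) (hI' : A ∩ B ≠ A)
    (ih1 : ∀ X Y : Finset G, X.Nonempty → Y.Nonempty → (X + Y).card < (A + B).card → Kn X Y)
    (ih2 : ∀ X Y : Finset G, X.Nonempty → Y.Nonempty → X + Y = A + B →
      (X + fs (stab (X + Y))).card < A.card → Kn X Y) :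
    A.card + B.card ≤ (A + B).card + (fs (stab (A + B))).card := by
  classical
  set C := A + B with hC
  set K := stab C with hK
  set U := A ∪ B with hU
  have hUI : (A ∩ B).card + U.card = A.card + B.card := by
    rw [add_comm]; exact Finset.card_union_add_card_inter A B
  let Conv : Finset G → Prop := fun D => D ⊆ C ∧ K ≤ stab D ∧
    (A ∩ B).card + (U + fs (stab D)).card ≤ D.card + (fs (stab D)).card
  have hKI : K ≤ stab (A ∩ B) := fun g hg x hx => by
    rw [Finset.mem_inter] at hx ⊢
    exact ⟨hA hg x hx.1, hB hg x hx.2⟩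
  have hex : ∃ n, ∃ D, Conv D ∧ (fs (stab D)).card = n := by
    have hsub : (A ∩ B) + U ⊆ C := by
      intro z hz
      obtain ⟨x, hx, y, hy, rfl⟩ := Finset.mem_add.1 hz
      rw [Finset.mem_inter] at hx
      rcases Finset.mem_union.1 hy with hy | hy
      · rw [add_comm]; exact Finset.add_mem_add hy hx.2
      · exact Finset.add_mem_add hx.1 hy
    have hUne : U.Nonempty := hI.mono (Finset.inter_subset_left.trans Finset.subset_union_left)
    have hkn : Kn (A ∩ B) U := by
      rcases (Finset.card_le_card hsub).lt_or_eq with h | h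
      · exact ih1 _ _ hI hUne h
      · have h1 : (A ∩ B) + U = C := Finset.eq_of_subset_of_card_le hsub h.ge
        refine ih2 _ _ hI hUne h1 ?_
        rw [h1, add_fs_eq hKI]
        exact Finset.card_lt_card ⟨Finset.inter_subset_left, fun h2 =>
          hI' (Finset.Subset.antisymm Finset.inter_subset_left h2)⟩
    refine ⟨_, (A ∩ B) + U, ⟨hsub, hKI.trans (stab_le_add _ _), ?_⟩, rfl⟩
    have := card_le_add_fs (A ∩ B) (stab ((A ∩ B) + U))
    unfold Kn at hkn
    omega
  obtain ⟨D, ⟨hDC, hKD, hD⟩, hDn⟩ := Nat.find_spec hex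
  have hmin : ∀ E, Conv E → (fs (stab D)).card ≤ (fs (stab E)).card := by
    intro E hE
    rw [hDn]
    exact Nat.find_min' hex ⟨E, hE, rfl⟩
  set H := stab D with hH
  by_cases hHK : H ≤ K
  · have h1 : H = K := le_antisymm hHK hKD
    rw [h1] at hD
    have := card_le_add_fs U K
    have := Finset.card_le_card hDC
    omega
  by_contra hcon
  obtain ⟨h, hh, hhK⟩ := SetLike.not_le_iff_exists.1 hHK
  rw [hK, mem_stab] at hhK
  push Not at hhK
  obtain ⟨c, hc, hhc⟩ := hhK
  obtain ⟨a, ha, b, hb, rfl⟩ := Finset.mem_add.1 hc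
  have hnot : ∀ (E : Finset G), E ⊆ C → H ≤ stab E → ∀ d ∈ E, d - (a + b) ∉ H := by
    intro E hE hHE d hd hd'
    apply hhc
    apply hE
    refine mem_of_sub_mem hHE hd ?_
    have := H.sub_mem hh hd'
    rwa [show h - (d - (a + b)) = h + (a + b) - d by abel] at this
  have hDne : D.Nonempty := by
    rw [Finset.nonempty_iff_ne_empty]
    intro h0
    have h1 : cos H a ⊆ U + fs H := cos_subset (le_stab_add_fs _ _)
      (subset_add_fs _ _ (Finset.mem_union_left _ ha))
    have h2 := Finset.card_le_card h1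
    rw [card_cos] at h2
    have := hI.card_pos
    rw [h0, Finset.card_empty] at hD
    omega
  -- the key inequalities for a pair of parts
  have key : ∀ x y : G, x + y = a + b → (A ∩ cos H x).Nonempty → (B ∩ cos H y).Nonempty →
      ∃ L : AddSubgroup G, L ≤ H ∧
        (U + fs H).card + (A ∩ cos H x + fs L).card + (B ∩ cos H y + fs L).card <
          (fs H).card + (U + fs L).card ∧
        D.card + (A ∩ cos H x + fs L).card + (B ∩ cos H y + fs L).card ≤
          C.card + (fs L).card := by
    intro x y hxy hAx hBy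
    set E := A ∩ cos H x + B ∩ cos H y with hE
    have hEC : E ⊆ C := Finset.add_subset_add Finset.inter_subset_left Finset.inter_subset_left
    have hEH : ∀ d ∈ E, d - (a + b) ∈ H := by
      intro d hd
      obtain ⟨u, hu, v, hv, rfl⟩ := Finset.mem_add.1 hd
      have := H.add_mem (mem_cos.1 (Finset.mem_inter.1 hu).2) (mem_cos.1 (Finset.mem_inter.1 hv).2)
      rwa [show u - x + (v - y) = u + v - (x + y) by abel, hxy] at this
    have hdisj : Disjoint D E :=
      Finset.disjoint_left.2 fun d hd hd' => hnot D hDC le_rfl d hd (hEH d hd')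
    obtain ⟨d, hd⟩ : E.Nonempty := hAx.add hBy
    have hLH : stab E ≤ H := by
      intro g hg
      have := H.sub_mem (hEH _ (hg d hd)) (hEH d hd)
      rwa [show g + d - (a + b) - (d - (a + b)) = g by abel] at this
    have hHL : ¬ H ≤ stab E := fun h1 => hnot E hEC h1 d hd (hEH d hd)
    have hDE : D ∪ E ⊆ C := Finset.union_subset hDC hEC
    have hst : stab (D ∪ E) = stab E := by
      apply le_antisymm
      · intro g hg z hz
        rcases Finset.mem_union.1 (hg z (Finset.mem_union_right _ hz)) with h1 | h1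
        · exfalso
          apply hhc
          apply hDE
          have h2 : g + (h + (a + b)) ∈ D := by
            refine mem_of_sub_mem le_rfl h1 ?_
            have := H.sub_mem hh (hEH z hz)
            rwa [show h - (z - (a + b)) = g + (h + (a + b)) - (g + z) by abel] at this
          have h3 := (stab (D ∪ E)).neg_mem hg _ (Finset.mem_union_left _ h2)
          simpa using h3
        · exact h1
      · intro g hg z hz
        rcases Finset.mem_union.1 hz with h1 | h1
        · exact Finset.mem_union_left _ (hLH hg z h1)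
        · exact Finset.mem_union_right _ (hg z h1)
    have hKE : K ≤ stab E := by
      refine le_trans ?_ (stab_le_add _ _)
      intro g hg z hz
      rw [Finset.mem_inter, mem_cos] at hz ⊢
      refine ⟨hA hg z hz.1, ?_⟩
      rw [add_sub_assoc]
      exact H.add_mem (hKD hg) hz.2
    have hcard : D.card + E.card ≤ C.card := by
      rw [← Finset.card_union_of_disjoint hdisj]
      exact Finset.card_le_card hDE
    have hkn : Kn (A ∩ cos H x) (B ∩ cos H y) := ih1 _ _ hAx hBy (by
      have := hDne.card_pos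
      show E.card < C.card
      omega)
    have hnc : ¬ Conv (D ∪ E) := fun h1 => by
      have := hmin _ h1
      rw [hst] at this
      exact absurd (fs_lt hLH hHL) (not_lt.2 this)
    have h5 : ¬ ((A ∩ B).card + (U + fs (stab E)).card ≤ D.card + E.card + (fs (stab E)).card) := by
      intro h1
      apply hnc
      refine ⟨hDE, by rw [hst]; exact hKE, ?_⟩
      rw [hst, Finset.card_union_of_disjoint hdisj]
      exact h1
    unfold Kn at hkn
    rw [← hE] at hkn
    exact ⟨stab E, hLH, by omega, by omega⟩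
  obtain ⟨L₁, hL₁, h11, h12⟩ := key a b rfl ⟨a, by simp [ha]⟩ ⟨b, by simp [hb]⟩
  have star : ∀ z ∈ U, U ∩ cos H z ⊆ (A ∩ cos H a) ∪ (B ∩ cos H b) → False := by
    intro z hz hsub
    have h1 : (U + fs L₁) ∪ cos H z ⊆ U + fs H := Finset.union_subset (add_fs_mono _ hL₁)
      (cos_subset (le_stab_add_fs _ _) (subset_add_fs _ _ hz))
    have h2 : (U + fs L₁) ∩ cos H z ⊆ (A ∩ cos H a + fs L₁) ∪ (B ∩ cos H b + fs L₁) := by
      intro w hw
      rw [Finset.mem_inter, mem_add_fs, mem_cos] at hw
      obtain ⟨⟨u, hu, hwu⟩, hwz⟩ := hw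
      have h3 : u ∈ U ∩ cos H z := by
        rw [Finset.mem_inter, mem_cos]
        refine ⟨hu, ?_⟩
        have := H.sub_mem hwz (hL₁ hwu)
        rwa [show w - z - (w - u) = u - z by abel] at this
      rcases Finset.mem_union.1 (hsub h3) with h4 | h4
      · exact Finset.mem_union_left _ (mem_add_fs.2 ⟨u, h4, hwu⟩)
      · exact Finset.mem_union_right _ (mem_add_fs.2 ⟨u, h4, hwu⟩)
    have h3 := Finset.card_union_add_card_inter (U + fs L₁) (cos H z)
    have h4 := Finset.card_le_card h1
    have h5 := (Finset.card_le_card h2).trans (Finset.card_union_le _ _)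
    rw [card_cos] at h3
    omega
  have hab : a - b ∉ H := by
    intro hab
    refine star a (Finset.mem_union_left _ ha) (fun w hw => ?_)
    simp only [hU, Finset.mem_inter, Finset.mem_union, mem_cos] at hw ⊢
    rcases hw.1 with h1 | h1
    · exact Or.inl ⟨h1, hw.2⟩
    · refine Or.inr ⟨h1, ?_⟩
      have := H.add_mem hw.2 hab
      rwa [show w - a + (a - b) = w - b by abel] at this
  have hB2 : (B ∩ cos H a).Nonempty := by
    by_contra h0
    refine star a (Finset.mem_union_left _ ha) (fun w hw => ?_)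
    simp only [hU, Finset.mem_inter, Finset.mem_union, mem_cos] at hw ⊢
    rcases hw.1 with h1 | h1
    · exact Or.inl ⟨h1, hw.2⟩
    · exact absurd ⟨w, by simp [h1, hw.2]⟩ h0
  have hA2 : (A ∩ cos H b).Nonempty := by
    by_contra h0
    refine star b (Finset.mem_union_right _ hb) (fun w hw => ?_)
    simp only [hU, Finset.mem_inter, Finset.mem_union, mem_cos] at hw ⊢
    rcases hw.1 with h1 | h1
    · exact absurd ⟨w, by simp [h1, hw.2]⟩ h0
    · exact Or.inr ⟨h1, hw.2⟩
  obtain ⟨L₂, hL₂, h21, h22⟩ := key b a (add_comm _ _) hA2 hB2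
  have two : ∀ (L : AddSubgroup G) (X Y : Finset G), L ≤ H →
      (U + fs H).card + (X + fs L).card + (Y + fs L).card < (fs H).card + (U + fs L).card →
      (X + fs L).card + (Y + fs L).card + (fs L).card ≤ (fs H).card := by
    intro L X Y hL h1
    have h2 := Finset.card_le_card (add_fs_mono U hL)
    obtain ⟨p, hp⟩ := card_dvd _ (le_stab_add_fs X L)
    obtain ⟨q, hq⟩ := card_dvd _ (le_stab_add_fs Y L)
    obtain ⟨r, hr⟩ := card_fs_dvd hL
    have h3 : (fs L).card * (p + q) < (fs L).card * r := by rw [mul_add]; omega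
    have h4 : p + q + 1 ≤ r := lt_of_mul_lt_mul_left h3 (Nat.zero_le _)
    have h5 := Nat.mul_le_mul_left (fs L).card h4
    rw [mul_add, mul_add] at h5
    omega
  have t1 := two L₁ _ _ hL₁ h11
  have t2 := two L₂ _ _ hL₂ h21
  have e1 := card_le_add_fs (A ∩ cos H a) L₁
  have e2 := card_le_add_fs (B ∩ cos H b) L₁
  have e3 := card_le_add_fs (A ∩ cos H b) L₂
  have e4 := card_le_add_fs (B ∩ cos H a) L₂
  have f1 : U.card + (cos H a \ U).card + (cos H b \ U).card ≤ (U + fs H).card := by
    rw [← Finset.card_union_of_disjoint Finset.disjoint_sdiff, ← Finset.card_union_of_disjoint]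
    · apply Finset.card_le_card
      refine Finset.union_subset (Finset.union_subset (subset_add_fs _ _) ?_) ?_
      · exact Finset.sdiff_subset.trans (cos_subset (le_stab_add_fs _ _)
          (subset_add_fs _ _ (Finset.mem_union_left _ ha)))
      · exact Finset.sdiff_subset.trans (cos_subset (le_stab_add_fs _ _)
          (subset_add_fs _ _ (Finset.mem_union_right _ hb)))
    · rw [Finset.disjoint_left]
      intro w hw hw'
      simp only [Finset.mem_union, Finset.mem_sdiff, mem_cos] at hw hw'
      rcases hw with h1 | h1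
      · exact hw'.2 h1
      · apply hab
        have := H.sub_mem hw'.1 h1.1
        rwa [show w - b - (w - a) = a - b by abel] at this
  have g : ∀ z : G, (fs H).card ≤
      (cos H z \ U).card + (A ∩ cos H z).card + (B ∩ cos H z).card := by
    intro z
    rw [← card_cos H z]
    refine le_trans (Finset.card_le_card (?_ : _ ⊆ (cos H z \ U) ∪ (A ∩ cos H z) ∪ (B ∩ cos H z)))
      ((Finset.card_union_le _ _).trans (Nat.add_le_add_right (Finset.card_union_le _ _) _))
    intro w hw
    simp only [hU, Finset.mem_union, Finset.mem_sdiff, Finset.mem_inter]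
    tauto
  have g1 := g a
  have g2 := g b
  omega

theorem kneser (A B : Finset G) (hA : A.Nonempty) (hB : B.Nonempty) : Kn A B := by
  suffices h : ∀ n m : ℕ, ∀ A B : Finset G, A.Nonempty → B.Nonempty → (A + B).card = n →
      (A + fs (stab (A + B))).card = m → Kn A B from h _ _ A B hA hB rfl rfl
  intro n
  induction n using Nat.strong_induction_on with
  | _ n ihn =>
  intro m
  induction m using Nat.strong_induction_on with
  | _ m ihm =>
  intro A B hA hB hn hm
  set K := stab (A + B) with hK
  set A' := A + fs K with hA'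
  set B' := B + fs K with hB'
  have hsum : A' + B' = A + B := by
    rw [hA', hB', add_add_add_comm, ← add_assoc, add_fs_eq le_rfl, add_fs_eq le_rfl]
  show A'.card + B'.card ≤ (A + B).card + (fs K).card
  obtain ⟨a, ha⟩ := hA
  have ha' : a ∈ A' := subset_add_fs _ _ ha
  by_cases hc : A' ⊆ cos K a
  · have h1 := Finset.card_le_card hc
    rw [card_cos] at h1
    have h2 : B'.card ≤ (A' + B').card := Finset.card_le_card_add_left ⟨a, ha'⟩
    rw [hsum] at h2
    omega
  obtain ⟨a', ha'1, ha'2⟩ := Finset.not_subset.1 hc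
  have h1 : a' - a ∉ stab B' := fun h => ha'2 (mem_cos.2 (by
    have := stab_le_add' A' B' h
    rwa [hsum] at this))
  rw [mem_stab] at h1
  push Not at h1
  obtain ⟨b, hb, hb'⟩ := h1
  set B'' := (a - b) +ᵥ B' with hB''
  have hsum2 : A' + B'' = (a - b) +ᵥ (A + B) := by
    rw [hB'', ← hsum]
    ext z
    simp only [Finset.mem_add, Finset.mem_vadd_finset, vadd_eq_add]
    constructor
    · rintro ⟨x, hx, _, ⟨y, hy, rfl⟩, rfl⟩
      exact ⟨_, ⟨x, hx, y, hy, rfl⟩, by abel⟩
    · rintro ⟨_, ⟨x, hx, y, hy, rfl⟩, rfl⟩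
      exact ⟨x, hx, _, ⟨y, hy, rfl⟩, by abel⟩
  have hstv : ∀ (g : G) (X : Finset G), stab X ≤ stab (g +ᵥ X) := by
    intro g X k hk z hz
    obtain ⟨y, hy, rfl⟩ := Finset.mem_vadd_finset.1 hz
    exact Finset.mem_vadd_finset.2 ⟨_, hk y hy, by simp only [vadd_eq_add]; abel⟩
  have hst : stab (A' + B'') = K := by
    rw [hsum2]
    refine le_antisymm ?_ (hstv _ _)
    have := hstv (-(a - b)) ((a - b) +ᵥ (A + B))
    rwa [neg_vadd_vadd] at this
  have hcard : (A' + B'').card = n := by rw [hsum2, Finset.card_vadd_finset, hn]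
  have := kneser_core A' B'' (by rw [hst]; exact le_stab_add_fs _ _)
    (by rw [hst]; exact (le_stab_add_fs _ _).trans (hstv _ _))
    ⟨a, Finset.mem_inter.2 ⟨ha', Finset.mem_vadd_finset.2 ⟨b, hb, by simp⟩⟩⟩
    (fun h => by
      rw [← h] at ha'1
      obtain ⟨y, hy, hy'⟩ := Finset.mem_vadd_finset.1 (Finset.mem_inter.1 ha'1).2
      apply hb'
      rw [← hy', vadd_eq_add, show a - b + y - a + b = y by abel]
      exact hy)
    (fun X Y hX hY h => ihn _ (hcard ▸ h) _ X Y hX hY rfl rfl)
    (fun X Y hX hY h h' => ihm _ (hm ▸ h') X Y hX hY (by rw [h, hcard]) rfl)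
  rw [hst, hcard, hB'', Finset.card_vadd_finset] at this
  omega

/-- Iterated form of Kneser's theorem. -/
theorem kneser_iter (X : Finset G) (hX : X.Nonempty) (k : ℕ) :
    (k + 1) * (X + fs (stab ((k + 1) • X))).card ≤
      ((k + 1) • X).card + k * (fs (stab ((k + 1) • X))).card := by
  set L := stab ((k + 1) • X) with hL
  have h : ∀ j ≤ k, (j + 1) * (X + fs L).card ≤ ((j + 1) • X + fs L).card + j * (fs L).card := by
    intro j
    induction j with
    | zero => intro _; simp
    | succ j ih =>
      intro hj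
      have h1 := ih (by omega)
      have h2 := kneser ((j + 1) • X + fs L) X (hX.nsmul.add ⟨0, by simp⟩) hX
      have h3 : (j + 1) • X + fs L + X = (j + 1 + 1) • X + fs L := by
        rw [succ_nsmul X (j + 1)]; abel
      have h4 : stab ((j + 1 + 1) • X + fs L) = L := by
        refine le_antisymm ?_ (le_stab_add_fs _ _)
        have h5 := stab_le_add ((j + 1 + 1) • X + fs L) ((k - (j + 1)) • X)
        rwa [add_right_comm ((j + 1 + 1) • X), ← add_nsmul,
          show j + 1 + 1 + (k - (j + 1)) = k + 1 by omega, add_fs_eq le_rfl] at h5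
      unfold Kn at h2
      rw [h3, h4] at h2
      have h6 := card_le_add_fs ((j + 1) • X + fs L) L
      nlinarith
  have := h k le_rfl
  rwa [add_fs_eq le_rfl] at this

end Pool.Agent.MP_f9a021_co
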