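import Pool.Agent.MP_f9a021_co.Kneser

/-! Pollard's inequality for groups without large subgroups, and sums of distinct elements. -/

open Finset Pointwise

namespace Pool.Agent.MP_f9a021_co

variable {G : Type*} [AddCommGroup G] [Fintype G] [DecidableEq G]

/-- The number of representations `x = a + b`. -/
def rep (A B : Finset G) (x : G) : ℕ := (A.filter (fun a => x - a ∈ B)).card

omit [Fintype G] in
lemma rep_comm (A B : Finset G) (x : G) : rep A B x = rep B A x := by
  refine Finset.card_bij (fun a _ => x - a) (fun a ha => ?_) (fun a _ b _ h => by simpa using h)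
    (fun b hb => ⟨x - b, ?_, by simp⟩)
  · simpa [and_comm] using ha
  · simpa [and_comm] using hb

omit [Fintype G] in
lemma rep_union {A A' : Finset G} (h : Disjoint A A') (B : Finset G) (x : G) :
    rep (A ∪ A') B x = rep A B x + rep A' B x := by
  unfold rep
  rw [Finset.filter_union, Finset.card_union_of_disjoint (Finset.disjoint_filter_filter h)]

omit [Fintype G] in
lemma rep_le (A B : Finset G) (x : G) : rep A B x ≤ B.card := by
  rw [rep_comm]; exact Finset.card_filter_le _ _

lemma rep_univ (B : Finset G) (x : G) : rep univ B x = B.card := by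
  rw [rep_comm]; simp [rep]

lemma sum_rep (A B : Finset G) : ∑ x, rep A B x = A.card * B.card := by
  simp only [rep, Finset.card_filter]
  rw [Finset.sum_comm, Finset.sum_congr rfl (g := fun _ => B.card), Finset.sum_const, smul_eq_mul]
  intro a _
  rw [← Finset.card_filter]
  exact Finset.card_bij (fun x _ => x - a) (fun x hx => by simpa using hx)
    (fun x _ y _ h => by simpa using h) (fun y hy => ⟨y + a, by simpa using hy, by simp⟩)

lemma le_rep (A B : Finset G) (x : G) : A.card + B.card ≤ rep A B x + Fintype.card G := by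
  have h1 := rep_union (disjoint_compl_right : Disjoint A Aᶜ) B x
  rw [Finset.union_compl, rep_univ] at h1
  have h2 : rep Aᶜ B x ≤ Aᶜ.card := Finset.card_filter_le _ _
  have h3 := Finset.card_add_card_compl A
  omega

omit [Fintype G] in
lemma rep_split (A B : Finset G) (x : G) :
    rep A B x = rep (A ∪ B) (A ∩ B) x + rep (A \ B) (B \ A) x := by
  have hA : A = (A ∩ B) ∪ (A \ B) := by ext; simp; tauto
  have hB : B = (A ∩ B) ∪ (B \ A) := by ext; simp; tauto
  have hU : A ∪ B = A ∪ (B \ A) := by ext; simp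
  have d1 : Disjoint (A ∩ B) (A \ B) := Finset.disjoint_left.2 (by simp +contextual)
  have d2 : Disjoint (A ∩ B) (B \ A) := Finset.disjoint_left.2 (by simp +contextual)
  have e1 := rep_union d2 A x
  have e2 := rep_union d1 (B \ A) x
  have e3 := rep_union (Finset.disjoint_sdiff : Disjoint A (B \ A)) (A ∩ B) x
  rw [← hB] at e1
  rw [← hA] at e2
  rw [← hU] at e3
  rw [rep_comm A B, e1, e3, rep_comm (B \ A) A, e2, rep_comm (A ∩ B) A, rep_comm (A ∩ B) (B \ A)]
  omega

theorem pollard {D : ℕ} (hD : ∀ K : AddSubgroup G, K ≠ ⊤ → (fs K).card ≤ D) (n : ℕ) :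
    ∀ (A B : Finset G) (t : ℕ), B.card = n → t ≤ A.card → t ≤ B.card →
      A.card + B.card ≤ Fintype.card G + t + D →
      t * (A.card + B.card) ≤ ∑ x, min t (rep A B x) + t * (t + D) := by
  induction n using Nat.strong_induction_on with
  | _ n ih =>
  intro A B t hn hA hB hG
  by_cases hdeg : ∀ b ∈ B, ∀ b' ∈ B, b' - b ∈ stab A
  · rcases Nat.eq_zero_or_pos t with rfl | ht
    · simp
    obtain ⟨b, hb⟩ : B.Nonempty := Finset.card_pos.1 (by omega)
    by_cases hK : stab A = ⊤
    · have h1 := eq_univ_of_stab (Finset.card_pos.1 (by omega)) hK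
      have h2 : ∑ x, min t (rep A B x) = Fintype.card G * t := by
        simp [h1, rep_univ, min_eq_left hB]
      rw [h2]
      nlinarith
    · have h1 : B.card ≤ D := by
        refine le_trans ?_ (hD _ hK)
        rw [← card_cos _ b]
        exact Finset.card_le_card fun x hx => mem_cos.2 (hdeg b hb x hx)
      have h2 : (b +ᵥ A).card * t ≤ ∑ x, min t (rep A B x) := by
        refine le_trans ?_ (Finset.sum_le_sum_of_subset (Finset.subset_univ (b +ᵥ A)))
        rw [← smul_eq_mul]
        apply Finset.card_nsmul_le_sum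
        intro x hx
        obtain ⟨a, ha, rfl⟩ := Finset.mem_vadd_finset.1 hx
        rw [rep_comm, rep, Finset.filter_true_of_mem]
        · exact le_min le_rfl hB
        · intro y hy
          have := hdeg y hy b hb a ha
          rwa [show b - y + a = (b +ᵥ a) - y by rw [vadd_eq_add]; abel] at this
      rw [Finset.card_vadd_finset] at h2
      nlinarith
  simp only [mem_stab] at hdeg
  push Not at hdeg
  obtain ⟨b, hb, b', hb', a, ha, hab⟩ := hdeg
  set B' := (a - b) +ᵥ B with hB'
  have hc : B'.card = B.card := Finset.card_vadd_finset _ _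
  have hsum : ∑ x, min t (rep A B x) = ∑ x, min t (rep A B' x) := by
    refine Fintype.sum_equiv (Equiv.addLeft (a - b)) _ _ (fun x => ?_)
    congr 1
    unfold rep
    congr 1
    ext y
    simp only [Finset.mem_filter, Equiv.coe_addLeft, hB', add_sub_assoc]
    rw [← vadd_eq_add, Finset.vadd_mem_vadd_finset_iff]
  have hI1 : 0 < (A ∩ B').card := Finset.card_pos.2
    ⟨a, Finset.mem_inter.2 ⟨ha, Finset.mem_vadd_finset.2 ⟨b, hb, by simp⟩⟩⟩
  have hI2 : (A ∩ B').card < B'.card := by
    refine Finset.card_lt_card ⟨Finset.inter_subset_right, fun h => hab ?_⟩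
    have := (Finset.mem_inter.1 (h (Finset.mem_vadd_finset.2 ⟨b', hb', rfl⟩))).1
    rwa [vadd_eq_add, show a - b + b' = b' - b + a by abel] at this
  have hUI := Finset.card_union_add_card_inter A B'
  have hIU : (A ∩ B').card ≤ (A ∪ B').card :=
    Finset.card_le_card (Finset.inter_subset_left.trans Finset.subset_union_left)
  rw [hsum, ← hc]
  rcases le_or_gt t (A ∩ B').card with h | h
  · have h1 := ih _ (by omega) (A ∪ B') (A ∩ B') t rfl (by omega) h (by omega)
    have h2 : ∑ x, min t (rep (A ∪ B') (A ∩ B') x) ≤ ∑ x, min t (rep A B' x) :=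
      Finset.sum_le_sum fun x _ => by rw [rep_split A B' x]; omega
    rw [hUI] at h1
    omega
  · obtain ⟨s, rfl⟩ : ∃ s, t = s + (A ∩ B').card := ⟨t - (A ∩ B').card, by omega⟩
    have e1 := Finset.card_sdiff_add_card_inter A B'
    have e2 := Finset.card_sdiff_add_card_inter B' A
    rw [Finset.inter_comm B' A] at e2
    have h1 := ih _ (by omega) (A \ B') (B' \ A) s rfl (by omega) (by omega) (by omega)
    have h2 : ∑ x, (rep (A ∪ B') (A ∩ B') x + min s (rep (A \ B') (B' \ A) x)) ≤
        ∑ x, min (s + (A ∩ B').card) (rep A B' x) :=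
      Finset.sum_le_sum fun x _ => by
        have := rep_le (A ∪ B') (A ∩ B') x
        rw [rep_split A B' x]; omega
    rw [Finset.sum_add_distrib, sum_rep] at h2
    have e3 : (A ∪ B').card = (A \ B').card + (B' \ A).card + (A ∩ B').card := by omega
    rw [e3] at h2
    rw [← e1, ← e2]
    nlinarith [Nat.zero_le ((A ∩ B').card * D)]

/-- Sums with at least `u` representations. -/
def pop (A B : Finset G) (u : ℕ) : Finset G := univ.filter (fun x => u ≤ rep A B x)

lemma pop_card {D t u w : ℕ} (hD : ∀ K : AddSubgroup G, K ≠ ⊤ → (fs K).card ≤ D) (ht : 0 < t)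
    (hu : u ≤ t) (hw : u * Fintype.card G ≤ t * w) {A B : Finset G} (hA : t ≤ A.card)
    (hB : t ≤ B.card) : Fintype.card G ≤ (pop A B u).card ∨
      A.card + B.card ≤ (pop A B u).card + (t + D + w) := by
  by_cases h : A.card + B.card ≤ Fintype.card G + t + D
  · right
    have h1 := pollard hD _ A B t rfl hA hB h
    have h2 : ∑ x, min t (rep A B x) ≤ ∑ x : G, ((if u ≤ rep A B x then t else 0) + u) :=
      Finset.sum_le_sum fun x _ => by split_ifs <;> omega
    rw [Finset.sum_add_distrib, ← Finset.sum_filter, Finset.sum_const, Finset.sum_const,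
      smul_eq_mul, smul_eq_mul, Finset.card_univ] at h2
    refine le_of_mul_le_mul_left ?_ ht
    unfold pop
    nlinarith
  · left
    rw [← Finset.card_univ]
    apply Finset.card_le_card
    intro x _
    have := le_rep A B x
    simp only [pop, Finset.mem_filter, Finset.mem_univ, true_and]
    omega

section

variable {H : Type*} [AddCommGroup H] [DecidableEq H]

/-- The fibre of `S ⊆ H × G` over `h`. -/
def fib (S : Finset (H × G)) (h : H) : Finset G := univ.filter (fun z => (h, z) ∈ S)

/-- Iterated popular sumsets. -/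
def popSeq (A : ℕ → Finset G) (u : ℕ) : ℕ → Finset G
  | 0 => A 0
  | j + 1 => pop (popSeq A u j) (A (j + 1)) u

lemma popSeq_rep (h2 : ∀ y : G, y + y = 0 → y = 0) (S : Finset (H × G)) (h : ℕ → H) (k : ℕ) :
    ∀ (j : ℕ) (x : G) (F : Finset G), x ∈ popSeq (fun i => fib S (h i)) (2 * k) j →
      F.card + j + 1 ≤ k → (j = 0 → x ∉ F) →
      ∃ E ⊆ S, E.card = j + 1 ∧ (∀ d ∈ E, d.2 ∉ F) ∧ (∀ d ∈ E, ∃ i ≤ j, d.1 = h i) ∧
        ∑ d ∈ E, d = (∑ i ∈ range (j + 1), h i, x) := by
  intro j
  induction j with
  | zero =>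
    intro x F hx _ hF
    refine ⟨{(h 0, x)}, ?_, by simp, by simpa using hF rfl, by simp, by simp⟩
    simpa [popSeq, fib] using hx
  | succ j ih =>
    intro x F hx hk _
    simp only [popSeq, pop, Finset.mem_filter, Finset.mem_univ, true_and, rep] at hx
    have hb : (F ∪ F.image (fun f => x - f) ∪ univ.filter (fun y => y + y = x)).card < 2 * k := by
      have e1 := Finset.card_union_le (F ∪ F.image (fun f => x - f))
        (univ.filter (fun y => y + y = x))
      have e2 := Finset.card_union_le F (F.image (fun f => x - f))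
      have e3 : (F.image (fun f => x - f)).card ≤ F.card := Finset.card_image_le
      have e4 : (univ.filter (fun y : G => y + y = x)).card ≤ 1 := by
        rw [Finset.card_le_one]
        intro a ha b hb
        rw [Finset.mem_filter] at ha hb
        rw [← sub_eq_zero]
        apply h2
        rw [show a - b + (a - b) = a + a - (b + b) by abel, ha.2, hb.2, sub_self]
      omega
    obtain ⟨y, hy, hy'⟩ := Finset.exists_mem_notMem_of_card_lt_card (hb.trans_le hx)
    simp only [Finset.mem_filter, Finset.mem_union, Finset.mem_image, Finset.mem_univ, true_and,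
      not_or, not_exists, not_and, fib] at hy hy'
    obtain ⟨⟨y1, y2⟩, y3⟩ := hy'
    have hc := Finset.card_insert_le (x - y) F
    obtain ⟨E, hE1, hE2, hE3, hE4, hE5⟩ := ih y (insert (x - y) F) hy.1 (by omega) (fun _ => by
      rw [Finset.mem_insert, not_or]
      exact ⟨fun h3 => y3 (by rw [eq_sub_iff_add_eq] at h3; exact h3), y1⟩)
    have hn : (h (j + 1), x - y) ∉ E := fun h3 => hE3 _ h3 (Finset.mem_insert_self _ _)
    refine ⟨insert (h (j + 1), x - y) E, Finset.insert_subset hy.2 hE1,
      by rw [Finset.card_insert_of_notMem hn, hE2], ?_, ?_, ?_⟩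
    · intro d hd
      rcases Finset.mem_insert.1 hd with rfl | hd
      · exact fun h3 => y2 _ h3 (by simp)
      · exact fun h3 => hE3 d hd (Finset.mem_insert_of_mem h3)
    · intro d hd
      rcases Finset.mem_insert.1 hd with rfl | hd
      · exact ⟨j + 1, le_rfl, rfl⟩
      · obtain ⟨i, hi, h3⟩ := hE4 d hd
        exact ⟨i, by omega, h3⟩
    · rw [Finset.sum_insert hn, hE5, Finset.sum_range_succ _ (j + 1)]
      simp [add_comm]

lemma popSeq_card {D t u w : ℕ} (hD : ∀ K : AddSubgroup G, K ≠ ⊤ → (fs K).card ≤ D) (ht : 0 < t)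
    (hu : u ≤ t) (hw : u * Fintype.card G ≤ t * w) (A : ℕ → Finset G) (j : ℕ)
    (hA : ∀ i ≤ j, t + D + w ≤ (A i).card) :
    Fintype.card G ≤ (popSeq A u j).card + w ∨
      ∑ i ∈ range (j + 1), (A i).card ≤ (popSeq A u j).card + j * (t + D + w) := by
  induction j with
  | zero => right; simp [popSeq]
  | succ j ih =>
    have h1 := ih (fun i hi => hA i (by omega))
    have h2 : (j + 1) * (t + D + w) ≤ ∑ i ∈ range (j + 1), (A i).card := by
      have := Finset.card_nsmul_le_sum (range (j + 1)) (fun i => (A i).card) (t + D + w)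
        (fun i hi => hA i (by have := Finset.mem_range.1 hi; omega))
      simpa using this
    have h3 := hA (j + 1) le_rfl
    have h4 : (A (j + 1)).card ≤ Fintype.card G := Finset.card_le_univ _
    rw [add_mul, one_mul] at h2 ⊢
    have h5 := pop_card hD ht hu hw (A := popSeq A u j) (B := A (j + 1)) (by omega) (by omega)
    rw [Finset.sum_range_succ _ (j + 1)]
    simp only [popSeq]
    omega

theorem exists_distinct_sum (h2 : ∀ y : G, y + y = 0 → y = 0) {D t w j : ℕ}
    (hD : ∀ K : AddSubgroup G, K ≠ ⊤ → (fs K).card ≤ D) (hu : 2 * (j + 2) ≤ t)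
    (hw : 2 * (j + 2) * Fintype.card G ≤ t * w) (S : Finset (H × G)) (h : ℕ → H)
    (hA : ∀ i ≤ j + 1, t + D + w ≤ (fib S (h i)).card)
    (hsum : Fintype.card G + (j + 2) * (t + D + w) ≤
      ∑ i ∈ range (j + 2), (fib S (h i)).card + 1) (x : G) :
    ∃ E ⊆ S, E.card = j + 2 ∧ (∀ d ∈ E, ∃ i ≤ j + 1, d.1 = h i) ∧
      ∑ d ∈ E, d = (∑ i ∈ range (j + 2), h i, x) := by
  have h1 := popSeq_card hD (by omega) hu hw (fun i => fib S (h i)) j
    (fun i hi => hA i (by omega))
  have h3 := hA (j + 1) le_rfl
  have h4 := le_rep (popSeq (fun i => fib S (h i)) (2 * (j + 2)) j) (fib S (h (j + 1))) x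
  rw [Finset.sum_range_succ _ (j + 1), add_mul] at hsum
  obtain ⟨E, e1, e2, -, e4, e5⟩ := popSeq_rep h2 S h (j + 2) (j + 1) x ∅
    (by simp only [popSeq, pop, Finset.mem_filter, Finset.mem_univ, true_and]; omega)
    (by simp) (by simp)
  exact ⟨E, e1, e2, e4, e5⟩

end

end Pool.Agent.MP_f9a021_co
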