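import Pool.Agent.MP_f9a021_co.Main

namespace Pool.Agent.MP_f9a021_co.RankTwoOld

open Pool.Agent.MP_f9a021_co

theorem result (m k : ℕ) (hm : 2 ≤ m) (hk : 1 < k)
    (hp : ∀ p : ℕ, p.Prime → p ∣ k → 30 * m ^ 10 < p)
    (h : ¬ (m.Prime ∧ Odd m ∧ ∀ p : ℕ, p.Prime → p ∣ k → p ≡ 1 [MOD m])) :
    tauHat (ZMod m × ZMod (m * k)) (m * k) = m * k + m :=
  rank_two hm hk hp h

end Pool.Agent.MP_f9a021_co.RankTwoOld
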