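import Pool.Agent.MP_f9a021_co.Atoms
import Pool.Agent.MP_f9a021_co.Pollard

/-! The upper bound. -/

open Finset Pointwise

namespace Pool.Agent.MP_f9a021_co

universe u

lemma zero_sum_free_card {α Q : Type*} [DecidableEq α] [AddCommGroup Q] [DecidableEq Q]
    (φ : α → Q) (U : Finset α) (hU : ∀ V ⊆ U, V.Nonempty → ∑ x ∈ V, φ x ≠ 0) :
    U.card + 1 ≤ (U.powerset.image (fun V => ∑ x ∈ V, φ x)).card := by
  induction U using Finset.induction_on with
  | empty => simp
  | insert a U ha ih =>
    have h1 := ih (fun V hV => hU V (hV.trans (Finset.subset_insert _ _)))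
    rw [Finset.card_insert_of_notMem ha]
    refine lt_of_le_of_lt h1 (Finset.card_lt_card ⟨Finset.image_subset_image
      (Finset.powerset_mono.2 (Finset.subset_insert _ _)), fun h => ?_⟩)
    obtain ⟨V, hV, hV'⟩ := Finset.mem_image.1
      (h (Finset.mem_image_of_mem _ (Finset.mem_powerset_self _)))
    have h2 : V ⊆ insert a U := (Finset.mem_powerset.1 hV).trans (Finset.subset_insert _ _)
    refine hU (insert a U \ V) Finset.sdiff_subset
      ⟨a, Finset.mem_sdiff.2 ⟨Finset.mem_insert_self _ _, fun h3 =>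
        ha (Finset.mem_powerset.1 hV h3)⟩⟩ ?_
    rw [Finset.sum_sdiff_eq_sub h2, hV', sub_self]

lemma davenport {α Q : Type*} [DecidableEq α] [AddCommGroup Q] [Fintype Q]
    (φ : α → Q) (T : Finset α) :
    ∃ U ⊆ T, U.card < Fintype.card Q ∧ ∑ x ∈ U, φ x = ∑ x ∈ T, φ x := by
  classical
  induction T using Finset.strongInduction with
  | H T ih =>
    by_cases h : ∀ V ⊆ T, V.Nonempty → ∑ x ∈ V, φ x ≠ 0
    · exact ⟨T, Finset.Subset.refl _,
        (zero_sum_free_card φ T h).trans (Finset.card_le_univ _), rfl⟩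
    · push Not at h
      obtain ⟨V, hV, hV1, hV2⟩ := h
      obtain ⟨U, h1, h2, h3⟩ := ih _ (Finset.sdiff_ssubset hV hV1)
      exact ⟨U, h1.trans Finset.sdiff_subset, h2, by
        rw [h3, Finset.sum_sdiff_eq_sub hV, hV2, sub_zero]⟩

lemma arith2 {m e a l j : ℕ} (h1 : e ≤ a) (h2 : 2 * l ≤ a) (h3 : 0 < l) (h4 : m ≤ j + 1)
    (h5 : 2 * m ≤ j + 4) (h6 : (j + 1 + 1) * a + l ≤ m * e + (j + 1) * l) :
    a = e ∧ a = 2 * l ∧ 2 * m = j + 4 ∧ 2 ≤ j := by
  obtain ⟨u, hu⟩ : ∃ u, j + 1 = m + u := ⟨j + 1 - m, by omega⟩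
  obtain ⟨v, rfl⟩ := Nat.exists_eq_add_of_le h2
  obtain ⟨y, hy⟩ := Nat.exists_eq_add_of_le h1
  have e1 : (j + 1 + 1) * (2 * l + v) = m * e + m * y + (u + 1) * (2 * l) + (u + 1) * v := by
    rw [hu, ← mul_add m, ← hy]; ring
  have e2 : (u + 1) * (2 * l) + m * y + (u + 1) * v ≤ j * l := by nlinarith
  have e3 : j ≤ 2 * (u + 1) := by omega
  have e4 := Nat.mul_le_mul_right l e3
  have e5 : (u + 1) * (2 * l) = 2 * (u + 1) * l := by ring
  have e6 : 2 * (u + 1) ≤ j := le_of_mul_le_mul_right (by omega) h3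
  have e7 : (u + 1) * v = 0 := by omega
  have e8 : m * y = 0 := by omega
  have e9 : v = 0 := by simpa using e7
  have e10 : y = 0 := by
    rcases Nat.mul_eq_zero.1 e8 with h | h <;> omega
  omega

section

variable {G : Type*} [AddCommGroup G] [Fintype G] [DecidableEq G]

omit [Fintype G] in
lemma nsmul_mem_sub {X : Finset G} {K : AddSubgroup G} (h : ∀ x ∈ X, x ∈ K) (n : ℕ) :
    ∀ y ∈ n • X, y ∈ K := by
  induction n with
  | zero => intro y hy; rw [zero_nsmul, Finset.mem_zero] at hy; rw [hy]; exact K.zero_mem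
  | succ n ih =>
    intro y hy
    rw [succ_nsmul] at hy
    obtain ⟨a, ha, b, hb, rfl⟩ := Finset.mem_add.1 hy
    exact K.add_mem (ih a ha) (h b hb)

omit [Fintype G] in
lemma exists_fun_of_mem_nsmul {X : Finset G} (n : ℕ) : ∀ y ∈ n • X,
    ∃ f : ℕ → G, (∀ i < n, f i ∈ X) ∧ ∑ i ∈ range n, f i = y := by
  induction n with
  | zero =>
    intro y hy
    rw [zero_nsmul, Finset.mem_zero] at hy
    exact ⟨fun _ => 0, by simp, by simp [hy]⟩
  | succ n ih =>
    intro y hy
    rw [succ_nsmul] at hy
    obtain ⟨a, ha, b, hb, rfl⟩ := Finset.mem_add.1 hy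
    obtain ⟨f, hf, rfl⟩ := ih a ha
    refine ⟨fun i => if i = n then b else f i, fun i hi => ?_, ?_⟩
    · dsimp only
      split_ifs with h
      · exact hb
      · exact hf i (by omega)
    · rw [Finset.sum_range_succ, if_pos rfl]
      congr 1
      exact Finset.sum_congr rfl fun i hi => if_neg (Finset.mem_range.1 hi).ne

variable {H : Type u} [AddCommGroup H] [Fintype H] [DecidableEq H]

omit [AddCommGroup G] [AddCommGroup H] in
lemma sum_fib (S : Finset (H × G)) : ∑ h, (fib S h).card = S.card := by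
  simp only [fib, Finset.card_filter]
  rw [← Fintype.sum_prod_type' (f := fun h z => if (h, z) ∈ S then 1 else 0)]
  simp

omit [DecidableEq G] in
lemma card_le_of_not_inr {D : ℕ} (hD : ∀ K : AddSubgroup G, K ≠ ⊤ → (fs K).card ≤ D)
    (L : AddSubgroup (H × G)) (hL : ¬ ∀ z : G, ((0 : H), z) ∈ L) :
    (fs L).card ≤ D * Fintype.card H := by
  have h1 := hD (L.comap (AddMonoidHom.inr H G)) (fun h => hL fun z => by
    have : z ∈ L.comap (AddMonoidHom.inr H G) := h ▸ trivial
    simpa using this)
  refine le_trans (Finset.card_le_mul_card_image (f := Prod.fst) (fs L) D ?_)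
    (Nat.mul_le_mul_left _ (Finset.card_le_univ _))
  intro a ha
  obtain ⟨x, hx, rfl⟩ := Finset.mem_image.1 ha
  refine le_trans ?_ h1
  refine Finset.card_le_card_of_injOn (fun y => y.2 - x.2) (fun y hy => ?_) (fun y hy y' hy' h => ?_)
  · simp only [Finset.coe_filter, mem_fs, Set.mem_ofPred_eq] at hy
    have := L.sub_mem hy.1 (mem_fs.1 hx)
    simp only [Finset.mem_coe, mem_fs, AddSubgroup.mem_comap, AddMonoidHom.inr_apply]
    convert this using 1
    ext <;> simp [hy.2]
  · simp only [Finset.coe_filter, mem_fs, Set.mem_ofPred_eq] at hy hy'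
    ext
    · rw [hy.2, hy'.2]
    · simpa using h

lemma fill_subgroup {e m q j : ℕ} (he : ∀ x : H, addOrderOf x ≤ e)
    (hN : Fintype.card H = m * e) {B : Finset H} (h0 : (0 : H) ∈ B) (hB : e ≤ B.card)
    (hq : Fintype.card H = q * (fs (AddSubgroup.closure (B : Set H))).card) (hqm : q ≤ m)
    (hj : m + 2 ≤ j + 1 + 1 + q) (hk : q = 1 → e ≤ j + 1 ∨ 2 * m ≤ j + 4) :
    ∀ s ∈ AddSubgroup.closure (B : Set H), s ∈ (j + 1 + 1) • B ∨
      (q = 1 ∧ B.card = e ∧ 2 ≤ j ∧ ∀ x ∉ B, s - x ∈ (j + 1) • B) := by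
  set S := AddSubgroup.closure (B : Set H) with hS
  have hpos : 0 < Fintype.card H := Fintype.card_pos
  have he1 : 1 ≤ e := le_trans (addOrderOf_pos (0 : H)) (he 0)
  have hq1 : 1 ≤ q := Nat.pos_of_ne_zero (by rintro rfl; omega)
  intro s hs
  by_cases hcon : s ∈ (j + 1 + 1) • B
  · exact Or.inl hcon
  right
  set L := stab ((j + 1 + 1) • B) with hL
  have hsub := nsmul_mem_sub (X := B) (K := S) (fun x hx => AddSubgroup.subset_closure hx)
    (j + 1 + 1)
  have h00 : (0 : H) ∈ (j + 1 + 1) • B := Finset.zero_mem_nsmul h0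
  have hLS : L ≤ S := fun g hg => hsub _ (by simpa using hg 0 h00)
  have h1 : ((j + 1 + 1) • B).card + (fs L).card ≤ (fs S).card := by
    rw [← card_cos L s, ← Finset.card_union_of_disjoint]
    · apply Finset.card_le_card
      intro x hx
      rcases Finset.mem_union.1 hx with h | h
      · exact mem_fs.2 (hsub x h)
      · simpa using S.add_mem (hLS (mem_cos.1 h)) hs
    · rw [Finset.disjoint_left]
      intro x hx hx'
      exact hcon (mem_of_sub_mem le_rfl hx (by simpa using L.neg_mem (mem_cos.1 hx')))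
  obtain ⟨b, hb, hbL⟩ : ∃ b ∈ B, b ∉ L := by
    by_contra h
    push Not at h
    exact hcon (by simpa using (AddSubgroup.closure_le L).2 h hs 0 h00)
  have h2 : 2 * (fs L).card ≤ (B + fs L).card := by
    have hd : Disjoint (cos L 0) (cos L b) := by
      rw [Finset.disjoint_left]
      intro w hw hw'
      apply hbL
      have := L.sub_mem (mem_cos.1 hw) (mem_cos.1 hw')
      rwa [show w - 0 - (w - b) = b by abel] at this
    have := Finset.card_le_card (Finset.union_subset
      (cos_subset (le_stab_add_fs B L) (subset_add_fs _ _ h0))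
      (cos_subset (le_stab_add_fs B L) (subset_add_fs _ _ hb)))
    rw [Finset.card_union_of_disjoint hd, card_cos, card_cos] at this
    omega
  have h3 := kneser_iter B ⟨0, h0⟩ (j + 1)
  rw [← hL] at h3
  have h4 := card_le_add_fs B L
  have h5 := fs_pos L
  rcases hq1.eq_or_lt with rfl | hq2
  · have h6 : S = ⊤ := by
      by_contra h
      have := fs_lt (le_top : S ≤ ⊤) (fun h' => h (top_le_iff.1 h'))
      rw [fs_top] at this
      omega
    rcases hk rfl with h7 | h7
    · have := nsmul_eq_univ _ H rfl B (j + 1) h0 h6 (fun x => (he x).trans h7) (by nlinarith)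
      exact absurd (this ▸ Finset.mem_univ _) hcon
    rw [one_mul] at hq
    obtain ⟨f1, f2, f3, f4⟩ := arith2 (hB.trans h4) h2 h5 (by omega) h7
      (show (j + 1 + 1) * (B + fs L).card + (fs L).card ≤ m * e + (j + 1) * (fs L).card by omega)
    have hBL : B + fs L = B :=
      (Finset.eq_of_subset_of_card_le (subset_add_fs _ _) (by omega)).symm
    have h8 : stab ((j + 1) • B) = L := by
      apply le_antisymm
      · rw [hL, succ_nsmul B (j + 1)]
        exact stab_le_add _ _
      · rw [succ_nsmul]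
        exact (hBL ▸ le_stab_add_fs B L).trans (stab_le_add' _ _)
    have h9 := kneser_iter B ⟨0, h0⟩ j
    rw [h8] at h9
    refine ⟨rfl, by omega, by omega, fun x hx => ?_⟩
    by_contra h10
    have h11 : ((j + 1) • B).card + (insert x B).card ≤ Fintype.card H := by
      rw [← Finset.card_image_of_injective (insert x B) (sub_right_injective (b := s)),
        ← Finset.card_union_of_disjoint]
      · exact Finset.card_le_univ _
      · rw [Finset.disjoint_left]
        intro y hy hy'
        obtain ⟨z, hz, rfl⟩ := Finset.mem_image.1 hy'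
        rcases Finset.mem_insert.1 hz with rfl | hz
        · exact h10 hy
        · apply hcon
          rw [succ_nsmul]
          simpa using Finset.add_mem_add hy hz
    rw [Finset.card_insert_of_notMem hx] at h11
    have h12 : m * e = (j + 4) * (fs L).card := by rw [← f1, f2, ← f3]; ring
    rw [f2] at h9
    nlinarith
  exfalso
  replace h4 := hB.trans h4
  generalize (B + fs L).card = a at *
  generalize (fs L).card = l at *
  generalize (fs S).card = σ at *
  have e1 : 2 * m ≤ q * (j + 1 + 1) := by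
    obtain ⟨r, rfl⟩ := Nat.exists_eq_add_of_le hqm
    have : r + 2 ≤ j + 1 + 1 := by omega
    nlinarith
  have e2 : q * σ ≤ m * a := by rw [← hq, hN]; exact Nat.mul_le_mul_left _ h4
  have e3 : (j + 1 + 1) * a + l ≤ σ + (j + 1) * l := by omega
  have e4 := Nat.mul_le_mul_left q e3
  have e5 := Nat.mul_le_mul_right a e1
  have e6 := Nat.mul_le_mul_left (q * (j + 1)) h2
  have e7 : 0 < q * l := by positivity
  nlinarith

end

lemma arith1 {j a l c σ n e k N t w : ℕ} (h3 : (j + 1 + 1) * a ≤ c + (j + 1) * l)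
    (h5 : c ≤ σ * n) (h8 : (j + 1 + 1) * (e * n + k) ≤ (j + 1 + 1) * (a + N * (t + t + w)))
    (h9 : (j + 1) * l ≤ (j + 1) * (t * N)) (h10 : (σ + 1) * n ≤ (j + 2) * e * n)
    (h11 : (j + 2) * N * (3 * t + w) < n) : False := by
  have e1 : (j + 1 + 1) * (e * n + k) = (j + 2) * e * n + (j + 2) * k := by ring
  have e2 : (j + 1 + 1) * (a + N * (t + t + w)) =
      (j + 1 + 1) * a + (j + 2) * N * (2 * t + w) := by ring
  have e3 : (j + 2) * N * (3 * t + w) = (j + 2) * N * (2 * t + w) + (j + 1) * (t * N) + t * N := by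
    ring
  have e4 : (σ + 1) * n = σ * n + n := by ring
  omega

lemma card_val_lt {n : ℕ} [NeZero n] {r : ℕ} (hr : r ≤ n) :
    r ≤ (univ.filter (fun z : ZMod n => z.val < r)).card := by
  conv_lhs => rw [← Finset.card_range r]
  refine Finset.card_le_card_of_injOn (fun i => (i : ZMod n)) (fun i hi => ?_)
    (fun i hi i' hi' h => ?_)
  · have : i < r := by simpa using hi
    simp [ZMod.val_natCast_of_lt (this.trans_le hr), this]
  · have h1 : i < r := by simpa using hi
    have h2 : i' < r := by simpa using hi'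
    have := congrArg ZMod.val h
    rwa [ZMod.val_natCast_of_lt (h1.trans_le hr), ZMod.val_natCast_of_lt (h2.trans_le hr)] at this

variable {H : Type u} [AddCommGroup H] [Fintype H] [DecidableEq H]

omit [Fintype H] in
lemma finish {e k n t w j : ℕ} [NeZero n] (h2 : ∀ y : ZMod n, y + y = 0 → y = 0)
    (hD : ∀ K : AddSubgroup (ZMod n), K ≠ ⊤ → (fs K).card ≤ t) (ht : 2 * k ≤ t)
    (hw : 2 * k * n ≤ t * w) {A U : Finset (H × ZMod n)} (hA : A.card = e * n + k) (hUA : U ⊆ A)
    (hj : k = U.card + (j + 2)) (h : ℕ → H) (hU : ∀ u ∈ U, ∀ i ≤ j + 1, u.1 ≠ h i)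
    (h3 : ∀ i ≤ j + 1, t + t + w ≤ (fib A (h i)).card)
    (h4 : n + (j + 2) * (t + t + w) ≤ ∑ i ∈ range (j + 2), (fib A (h i)).card + 1)
    (h5 : ∑ i ∈ range (j + 2), h i = (∑ x ∈ A \ U, x).1) :
    ∃ T ⊆ A, T.card = e * n ∧ ∑ x ∈ T, x = 0 := by
  have hcn : Fintype.card (ZMod n) = n := ZMod.card n
  obtain ⟨E, e1, e2, e3, e4⟩ := exists_distinct_sum (j := j) (w := w) h2 hD (t := t) (by omega)
    (by rw [hcn]; exact le_trans (Nat.mul_le_mul_right _ (by omega)) hw) A h h3
    (by rw [hcn]; exact h4) (∑ x ∈ A \ U, x).2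
  have e5 : ∑ d ∈ E, d = ∑ x ∈ A \ U, x := by rw [e4, h5]
  have e6 : E ⊆ A \ U := fun d hd => Finset.mem_sdiff.2 ⟨e1 hd, fun h6 => by
    obtain ⟨i, hi, h7⟩ := e3 d hd
    exact hU d h6 i hi h7⟩
  refine ⟨(A \ U) \ E, Finset.sdiff_subset.trans Finset.sdiff_subset, ?_, ?_⟩
  · rw [Finset.card_sdiff_of_subset e6, Finset.card_sdiff_of_subset hUA]
    omega
  · rw [Finset.sum_sdiff_eq_sub e6, e5, sub_self]

lemma upper_core {e m k n t w : ℕ} [NeZero n] (he : ∀ x : H, addOrderOf x ≤ e)
    (hmk : m + 1 ≤ k) (hk : e < k ∨ 2 * m ≤ k + 2)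
    (hN : Fintype.card H = m * e) (h2 : ∀ y : ZMod n, y + y = 0 → y = 0)
    (hD : ∀ K : AddSubgroup (ZMod n), K ≠ ⊤ → (fs K).card ≤ t) (ht : 2 * k ≤ t)
    (hw : 2 * k * n ≤ t * w) (hn : k * (m * e) * (3 * t + w) < n)
    (A : Finset (H × ZMod n)) (hA : A.card = e * n + k)
    (h0 : t + t + w ≤ (fib A 0).card) : ∃ T ⊆ A, T.card = e * n ∧ ∑ x ∈ T, x = 0 := by
  classical
  set lam := t + t + w with hlam
  set B := univ.filter (fun h : H => lam ≤ (fib A h).card) with hB
  have hB0 : (0 : H) ∈ B := by simpa [hB] using h0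
  set S := AddSubgroup.closure (B : Set H) with hS
  have hcn : Fintype.card (ZMod n) = n := ZMod.card n
  have hfib : ∀ h, (fib A h).card ≤ n := fun h => (Finset.card_le_univ _).trans hcn.le
  have he1 : 1 ≤ e := le_trans (addOrderOf_pos (0 : H)) (he 0)
  have hNl : (m * e) * lam < n := by
    refine lt_of_le_of_lt ?_ hn
    exact Nat.mul_le_mul (by nlinarith) (by omega)
  have hBe : e ≤ B.card := by
    have h1 : ∑ h, (fib A h).card ≤ ∑ h : H, ((if lam ≤ (fib A h).card then n else 0) + lam) :=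
      Finset.sum_le_sum fun h _ => by
        have := hfib h
        split_ifs <;> omega
    rw [sum_fib, Finset.sum_add_distrib, ← Finset.sum_filter, Finset.sum_const, Finset.sum_const,
      smul_eq_mul, smul_eq_mul, Finset.card_univ, hN, hA, ← hB] at h1
    by_contra h
    have : B.card + 1 ≤ e := by omega
    nlinarith
  have hq := AddSubgroup.card_eq_card_quotient_mul_card_addSubgroup S
  rw [← card_fs, Nat.card_eq_fintype_card, Nat.card_eq_fintype_card] at hq
  set q := Fintype.card (H ⧸ S) with hqdef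
  have hBS : B.card ≤ (fs S).card :=
    Finset.card_le_card fun x hx => mem_fs.2 (AddSubgroup.subset_closure hx)
  have hqm : q ≤ m := by
    have : q * e ≤ m * e := by rw [← hN, hq]; exact Nat.mul_le_mul_left _ (hBe.trans hBS)
    exact le_of_mul_le_mul_right this he1
  obtain ⟨U, hU1, hU2, hU3⟩ := davenport (fun x : H × ZMod n => QuotientAddGroup.mk' S x.1)
    (A.filter (fun x => x.1 ∉ S))
  obtain ⟨j, hj⟩ : ∃ j, k = U.card + (j + 2) := ⟨k - U.card - 2, by omega⟩
  have hUA : U ⊆ A := hU1.trans (Finset.filter_subset _ _)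
  set τ := ∑ x ∈ A \ U, x with hτ
  have hτS : τ.1 ∈ S := by
    rw [← QuotientAddGroup.eq_zero_iff, hτ, Prod.fst_sum, ← QuotientAddGroup.mk'_apply, map_sum,
      Finset.sum_sdiff_eq_sub hUA, hU3, sub_eq_zero, Finset.sum_filter]
    refine Finset.sum_congr rfl fun x _ => ?_
    split_ifs with h
    · simpa using h
    · rfl
  rcases fill_subgroup (j := j) he hN hB0 hBe hq hqm (by omega) (by omega) _ hτS with
    hfill | ⟨s1, s2, s3, s4⟩
  swap
  · have hU0 : U = ∅ := Finset.card_eq_zero.1 (by omega)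
    have hsplit : ∀ h : H, A.card + (if h ∈ B then n else 0) ≤
        (fib A h).card + B.card * n + ∑ b ∈ Bᶜ, (fib A b).card := by
      intro h
      rw [← sum_fib A, ← Finset.sum_add_sum_compl B]
      split_ifs with hh
      · have h1 := Finset.sum_le_card_nsmul (B.erase h) (fun b => (fib A b).card) n
          (fun b _ => hfib b)
        rw [← Finset.add_sum_erase B _ hh, ← Finset.card_erase_add_one hh, add_mul, ← smul_eq_mul]
        omega
      · have h1 := Finset.sum_le_card_nsmul B (fun b => (fib A b).card) n (fun b _ => hfib b)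
        rw [← smul_eq_mul]
        omega
    obtain ⟨x, hx, hxB⟩ : ∃ x ∈ A, x.1 ∉ B := by
      by_contra h
      push Not at h
      have h1 : A.card ≤ (B ×ˢ (univ : Finset (ZMod n))).card :=
        Finset.card_le_card fun x hx => by simpa using h x hx
      rw [Finset.card_product, Finset.card_univ, hcn, s2] at h1
      omega
    have hsm : ∑ b ∈ Bᶜ, (fib A b).card ≤ m * e * lam := by
      refine (Finset.sum_le_card_nsmul _ _ lam (fun b hb => ?_)).trans
        (Nat.mul_le_mul_right _ ((Finset.card_le_univ _).trans hN.le))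
      simp only [hB, Finset.mem_compl, Finset.mem_filter, Finset.mem_univ, true_and] at hb
      omega
    obtain ⟨j, rfl⟩ : ∃ j', j = j' + 1 := ⟨j - 1, by omega⟩
    obtain ⟨f, hf1, hf2⟩ := exists_fun_of_mem_nsmul _ _ (s4 _ hxB)
    rw [hU0, Finset.card_empty] at hj
    refine finish (U := {x}) (j := j) h2 hD ht hw hA (by simpa using hx) (by simp; omega) f
      (fun u hu i hi h => hxB (by
        rw [← Finset.mem_singleton.1 hu, h]; exact hf1 i (by omega)))
      (fun i hi => by simpa [hB] using hf1 i (by omega)) ?_ ?_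
    · have h1 : ∑ i ∈ range (j + 2), n ≤ ∑ i ∈ range (j + 2), ((fib A (f i)).card + m * e * lam) :=
        Finset.sum_le_sum fun i hi => by
          have h3 := hsplit (f i)
          rw [if_pos (hf1 i (Finset.mem_range.1 hi)), hA, s2] at h3
          omega
      rw [Finset.sum_add_distrib, Finset.sum_const, Finset.sum_const, Finset.card_range,
        smul_eq_mul, smul_eq_mul] at h1
      have h3 : k * (m * e) * lam ≤ k * (m * e) * (3 * t + w) :=
        Nat.mul_le_mul_left _ (by omega)
      have h4 : lam ≤ m * e * lam := Nat.le_mul_of_pos_left _ (by rw [← hN]; exact Fintype.card_pos)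
      have h5 : k * (m * e * lam) < n := by rw [← mul_assoc]; omega
      rw [← hlam]
      rw [hj] at h5
      generalize m * e * lam = y at *
      have h6 := Nat.mul_le_mul_left (j + 2) h4
      have h7 : 2 * n ≤ (j + 1) * n := Nat.mul_le_mul_right _ (by omega)
      nlinarith
    · rw [hf2, hτ, hU0, Finset.sdiff_empty, Finset.sum_sdiff_eq_sub (by simpa using hx)]
      simp
  set A' := univ.filter (fun x : H × ZMod n => x.2.val + lam ≤ (fib A x.1).card) with hA'
  have hA'B : ∀ x ∈ A', x.1 ∈ B := fun x hx => by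
    simp only [hA', hB, Finset.mem_filter, Finset.mem_univ, true_and] at hx ⊢
    omega
  have hA'c : A.card ≤ A'.card + m * e * lam := by
    rw [← sum_fib A, ← sum_fib A', ← hN, ← Finset.card_univ, ← smul_eq_mul, ← Finset.sum_const,
      ← Finset.sum_add_distrib]
    refine Finset.sum_le_sum fun h _ => ?_
    have h1 := card_val_lt (n := n) (r := (fib A h).card - lam) (by have := hfib h; omega)
    have h3 : (univ.filter (fun z : ZMod n => z.val < (fib A h).card - lam)).card ≤
        (fib A' h).card := Finset.card_le_card fun z hz => by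
      simp only [hA', fib, Finset.mem_filter, Finset.mem_univ, true_and] at hz ⊢
      omega
    omega
  have hmem : (τ.1, (-1 : ZMod n)) ∈ (j + 1 + 1) • A' := by
    by_cases hL : ∀ z : ZMod n, ((0 : H), z) ∈ stab ((j + 1 + 1) • A')
    · have h1 : (τ.1, (0 : ZMod n)) ∈ (j + 1 + 1) • A' := by
        have h3 : B.image (AddMonoidHom.inl H (ZMod n)) ⊆ A' := by
          intro x hx
          obtain ⟨b, hb, rfl⟩ := Finset.mem_image.1 hx
          simpa [hA', hB] using hb
        apply Finset.nsmul_subset_nsmul_left h3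
        rw [← Finset.image_nsmul]
        exact Finset.mem_image.2 ⟨_, hfill, rfl⟩
      simpa using hL (-1) _ h1
    · exfalso
      have h1 := card_le_of_not_inr hD _ hL
      have h3 := kneser_iter A' ⟨(0, 0), by simpa [hA'] using h0⟩ (j + 1)
      have h4 := card_le_add_fs A' (stab ((j + 1 + 1) • A'))
      have h5 : ((j + 1 + 1) • A').card ≤ (fs S).card * n := by
        conv_rhs => rw [← hcn, ← Finset.card_univ, ← Finset.card_product]
        apply Finset.card_le_card
        intro x hx
        have := nsmul_mem_sub (K := S.comap (AddMonoidHom.fst H (ZMod n)))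
          (fun y hy => AddSubgroup.subset_closure (hA'B y hy)) _ x hx
        simpa using this
      have h6 : (fs S).card + 1 ≤ (j + 2) * e := by
        have hq1 : 0 < q := Fintype.card_pos
        have h7 : q * (fs S).card < q * ((j + 2) * e) := by
          rw [← hq, hN, ← mul_assoc]
          refine Nat.mul_lt_mul_of_pos_right ?_ he1
          obtain ⟨r, hr⟩ := Nat.exists_eq_add_of_le hqm
          have : r + 2 ≤ j + 2 := by omega
          nlinarith
        exact lt_of_mul_lt_mul_left h7 (Nat.zero_le _)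
      rw [hN] at h1
      have h8 := Nat.mul_le_mul_left (j + 1 + 1) (hA'c.trans (Nat.add_le_add_right h4 _))
      have h9 := Nat.mul_le_mul_left (j + 1) h1
      have h10 := Nat.mul_le_mul_right n h6
      have h11 : (j + 2) * (m * e) * (3 * t + w) ≤ k * (m * e) * (3 * t + w) :=
        Nat.mul_le_mul_right _ (Nat.mul_le_mul_right _ (by omega))
      rw [hA, hlam] at h8
      exact arith1 h3 h5 h8 h9 h10 (h11.trans_lt hn)
  obtain ⟨f, hf1, hf2⟩ := exists_fun_of_mem_nsmul _ _ hmem
  have hf3 : ∀ i < j + 2, (f i).2.val + lam ≤ (fib A (f i).1).card := fun i hi => by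
    simpa [hA'] using hf1 i hi
  have hf4 : n ≤ ∑ i ∈ range (j + 2), (f i).2.val + 1 := by
    apply Nat.le_of_dvd (Nat.succ_pos _)
    rw [← ZMod.natCast_eq_zero_iff]
    have := congrArg Prod.snd hf2
    rw [Prod.snd_sum] at this
    push_cast
    simp only [ZMod.natCast_val, ZMod.cast_id', id_eq]
    rw [this]
    ring
  have hf5 := Finset.sum_le_sum (s := range (j + 2)) (fun i hi => hf3 i (Finset.mem_range.1 hi))
  rw [Finset.sum_add_distrib, Finset.sum_const, Finset.card_range, smul_eq_mul] at hf5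
  exact finish h2 hD ht hw hA hUA hj (fun i => (f i).1)
    (fun u hu i hi h => (Finset.mem_filter.1 (hU1 hu)).2
      (h ▸ AddSubgroup.subset_closure (hA'B _ (hf1 i (by omega)))))
    (fun i hi => le_trans (Nat.le_add_left _ _) (hf3 i (by omega))) (by rw [← hlam]; omega)
    (by rw [← Prod.fst_sum, hf2])

lemma upper_param {e m k n t w : ℕ} [NeZero n] (he : ∀ x : H, addOrderOf x ≤ e)
    (he' : ∀ x : H, e • x = 0) (hmk : m + 1 ≤ k) (hk : e < k ∨ 2 * m ≤ k + 2)
    (hN : Fintype.card H = m * e) (h2 : ∀ y : ZMod n, y + y = 0 → y = 0)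
    (hD : ∀ K : AddSubgroup (ZMod n), K ≠ ⊤ → (fs K).card ≤ t) (ht : 2 * k ≤ t)
    (hw : 2 * k * n ≤ t * w) (hn : k * (m * e) * (3 * t + w) < n)
    (A : Finset (H × ZMod n)) (hA : A.card = e * n + k) :
    ∃ T ⊆ A, T.card = e * n ∧ ∑ x ∈ T, x = 0 := by
  have he1 : 1 ≤ e := le_trans (addOrderOf_pos (0 : H)) (he 0)
  obtain ⟨b, hb⟩ : ∃ b, t + t + w ≤ (fib A b).card := by
    by_contra h
    push Not at h
    have h1 : ∑ b, (fib A b).card ≤ ∑ _b : H, (t + t + w) :=
      Finset.sum_le_sum fun b _ => (h b).le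
    rw [sum_fib, Finset.sum_const, Finset.card_univ, smul_eq_mul, hA, hN] at h1
    have : (m * e) * (t + t + w) ≤ k * (m * e) * (3 * t + w) :=
      Nat.mul_le_mul (by nlinarith) (by omega)
    nlinarith
  set g : H × ZMod n := (b, 0) with hg
  obtain ⟨T, h1, h3, h4⟩ := upper_core he hmk hk hN h2 hD ht hw hn ((-g) +ᵥ A)
    (by rw [Finset.card_vadd_finset, hA]) (by
      refine hb.trans (Finset.card_le_card fun z hz => ?_)
      simp only [fib, Finset.mem_filter, Finset.mem_univ, true_and] at hz ⊢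
      exact Finset.mem_vadd_finset.2 ⟨_, hz, by simp [hg]⟩)
  refine ⟨T.image (fun x => g + x), fun x hx => ?_, ?_, ?_⟩
  · obtain ⟨y, hy, rfl⟩ := Finset.mem_image.1 hx
    obtain ⟨z, hz, rfl⟩ := Finset.mem_vadd_finset.1 (h1 hy)
    simpa using hz
  · rw [Finset.card_image_of_injective _ (add_right_injective g), h3]
  · rw [Finset.sum_image (fun x _ y _ h => add_right_injective g h), Finset.sum_add_distrib, h4,
      Finset.sum_const, h3, add_zero, hg, mul_comm, mul_nsmul']
    simp [he']

end Pool.Agent.MP_f9a021_co
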